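import Pool.Agent.Helper80.NHM.Stmt

set_option autoImplicit false
open MeasureTheory Filter Topology Set Metric
open scoped ENNReal NNReal RealInnerProductSpace ContDiff

namespace Pool.Agent.Helper171.NHMD

open Pool.Agent.Helper80.NHM

variable {n : ℕ}

/- TARGET -/
/-- D3 difference quotients are bounded in `L^n` -/
theorem diff_quot (hn : 0 < n) {U : Set (Sp n)} (hU : IsOpen U) {f : Sp n → Sp n}
    (hf : ContinuousOn f U) (hb : Bornology.IsBounded (f '' U)) {N : ℕ}
    (hN : ∀ b, (U ∩ f ⁻¹' {b}).encard ≤ N) {C : ℝ}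
    (hV : ∀ (x : Sp n) (r : ℝ), 0 < r → closedBall x (3 * r) ⊆ U → ∀ z ∈ closedBall x r,
      dist (f z) (f x) ^ n ≤ C * (volume (f '' closedBall x (2 * r))).toReal)
    {K : Set (Sp n)} (hK : IsCompact K) (hKU : K ⊆ U) :
    ∃ C' δ : ℝ, 0 < δ ∧ ∀ h : Sp n, ‖h‖ < δ →
      ∫⁻ x in K, ENNReal.ofReal (‖f (x + h) - f x‖ ^ n) ≤ ENNReal.ofReal (C' * ‖h‖ ^ n) := by
  obtain ⟨δ, hδ, hsub⟩ := hK.exists_cthickening_subset_open hU hKU
  set K' := cthickening δ K with hK'
  have hK'c : IsCompact K' := hK.cthickening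
  have hfK' : IsCompact (f '' K') := hK'c.image_of_continuousOn (hf.mono hsub)
  set C0 := max C 0 with hC0
  have hC00 : 0 ≤ C0 := le_max_right _ _
  refine ⟨C0 * (N * (2 ^ n * (volume (ball (0 : Sp n) 1)).toReal) *
    (volume (f '' K')).toReal), δ / 4, by positivity, ?_⟩
  intro h hh
  rcases eq_or_ne h 0 with rfl | hne
  · simp [hn.ne']
  have hr : 0 < ‖h‖ := norm_pos_iff.2 hne
  set r := ‖h‖ with hrdef
  have hball : ∀ x ∈ K, ∀ s ≤ 3 * r, closedBall x s ⊆ K' := by
    intro x hx s hs z hz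
    rw [hK']
    refine mem_cthickening_of_dist_le z x δ K hx ?_
    rw [mem_closedBall] at hz
    linarith
  -- the compact set
  set S : Set (Sp n × Sp n) := {p | p.1 ∈ K ∧ ∃ z ∈ K', dist z p.1 ≤ 2 * r ∧ f z = p.2} with hS
  have hT : IsCompact ((K ×ˢ K') ∩ {p : Sp n × Sp n | dist p.2 p.1 ≤ 2 * r}) := by
    refine (hK.prod hK'c).inter_right ?_
    exact isClosed_le (by fun_prop) (by fun_prop)
  have hSc : IsCompact S := by
    have e : S = (fun p : Sp n × Sp n => (p.1, f p.2)) ''
        ((K ×ˢ K') ∩ {p : Sp n × Sp n | dist p.2 p.1 ≤ 2 * r}) := by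
      ext ⟨x, y⟩
      simp only [hS, mem_setOf_eq, mem_image, mem_inter_iff, mem_prod, Prod.mk.injEq, Prod.exists]
      constructor
      · rintro ⟨hx, z, hz, h1, h2⟩
        exact ⟨x, z, ⟨⟨hx, hz⟩, h1⟩, rfl, h2⟩
      · rintro ⟨x', z, ⟨⟨hx, hz⟩, h1⟩, rfl, h2⟩
        exact ⟨hx, z, hz, h1, h2⟩
    rw [e]
    refine hT.image_of_continuousOn ?_
    refine ContinuousOn.prodMk continuousOn_fst ?_
    refine hf.comp continuousOn_snd ?_
    rintro ⟨x, z⟩ ⟨⟨_, hz⟩, _⟩
    exact hsub hz
  have hSm : MeasurableSet S := hSc.measurableSet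
  have step1 : ∫⁻ x in K, ENNReal.ofReal (‖f (x + h) - f x‖ ^ n) ≤
      ∫⁻ x in K, ENNReal.ofReal C0 * volume (Prod.mk x ⁻¹' S) := by
    refine setLIntegral_mono_ae' hK.measurableSet (Eventually.of_forall fun x hx => ?_)
    have h1 := hV x r hr ((hball x hx _ le_rfl).trans hsub) (x + h)
      (by rw [mem_closedBall, dist_eq_norm]; simp [hrdef])
    rw [dist_eq_norm] at h1
    have h2 : f '' closedBall x (2 * r) ⊆ Prod.mk x ⁻¹' S := by
      rintro y ⟨z, hz, rfl⟩
      exact ⟨hx, z, hball x hx (2 * r) (by linarith) hz, mem_closedBall.1 hz, rfl⟩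
    calc ENNReal.ofReal (‖f (x + h) - f x‖ ^ n)
        ≤ ENNReal.ofReal (C0 * (volume (f '' closedBall x (2 * r))).toReal) := by
          refine ENNReal.ofReal_le_ofReal (h1.trans ?_)
          exact mul_le_mul_of_nonneg_right (le_max_left _ _) ENNReal.toReal_nonneg
      _ = ENNReal.ofReal C0 * ENNReal.ofReal (volume (f '' closedBall x (2 * r))).toReal :=
          ENNReal.ofReal_mul hC00
      _ ≤ ENNReal.ofReal C0 * volume (f '' closedBall x (2 * r)) := by
          gcongr
          exact ENNReal.ofReal_toReal_le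
      _ ≤ ENNReal.ofReal C0 * volume (Prod.mk x ⁻¹' S) := by gcongr
  have hmeas : Measurable fun x => volume (Prod.mk x ⁻¹' S) :=
    measurable_measure_prodMk_left hSm
  have step2 : ∫⁻ x in K, volume (Prod.mk x ⁻¹' S) ≤
      ∫⁻ y, volume ((fun x => (x, y)) ⁻¹' S) := by
    calc ∫⁻ x in K, volume (Prod.mk x ⁻¹' S) ≤ ∫⁻ x, volume (Prod.mk x ⁻¹' S) :=
          setLIntegral_le_lintegral _ _
      _ = (volume.prod volume) S := (Measure.prod_apply hSm).symm
      _ = ∫⁻ y, volume ((fun x => (x, y)) ⁻¹' S) := Measure.prod_apply_symm hSm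
  have hvol : ∀ z : Sp n, volume (closedBall z (2 * r)) =
      ENNReal.ofReal ((2 * r) ^ n) * volume (ball (0 : Sp n) 1) := by
    intro z
    have := Measure.addHaar_closedBall (volume : Measure (Sp n)) z (r := 2 * r) (by positivity)
    rw [finrank_euclideanSpace_fin] at this
    exact this
  have step3 : ∫⁻ y, volume ((fun x => (x, y)) ⁻¹' S) ≤
      (N * (ENNReal.ofReal ((2 * r) ^ n) * volume (ball (0 : Sp n) 1))) * volume (f '' K') := by
    rw [← lintegral_indicator_const hfK'.measurableSet]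
    refine lintegral_mono fun y => ?_
    by_cases hy : y ∈ f '' K'
    · rw [indicator_of_mem hy]
      have hfin : (U ∩ f ⁻¹' {y}).Finite :=
        Set.finite_of_encard_le_coe (hN y)
      have hsl : (fun x => (x, y)) ⁻¹' S ⊆ ⋃ z ∈ hfin.toFinset, closedBall z (2 * r) := by
        rintro x ⟨hx, z, hz, h1, h2⟩
        refine mem_iUnion₂.2 ⟨z, ?_, ?_⟩
        · rw [Set.Finite.mem_toFinset]
          exact ⟨hsub hz, h2⟩
        · rw [mem_closedBall, dist_comm]
          exact h1
      calc volume ((fun x => (x, y)) ⁻¹' S)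
          ≤ volume (⋃ z ∈ hfin.toFinset, closedBall z (2 * r)) := measure_mono hsl
        _ ≤ ∑ z ∈ hfin.toFinset, volume (closedBall z (2 * r)) := measure_biUnion_finset_le _ _
        _ = hfin.toFinset.card * (ENNReal.ofReal ((2 * r) ^ n) * volume (ball (0 : Sp n) 1)) := by
            rw [Finset.sum_congr rfl (fun z _ => hvol z), Finset.sum_const, nsmul_eq_mul]
        _ ≤ N * (ENNReal.ofReal ((2 * r) ^ n) * volume (ball (0 : Sp n) 1)) := by
            gcongr
            have h3 := hN y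
            rw [hfin.encard_eq_coe_toFinset_card] at h3
            exact_mod_cast h3
    · rw [indicator_of_notMem hy]
      have : (fun x => (x, y)) ⁻¹' S = ∅ := by
        ext x
        simp only [mem_preimage, mem_empty_iff_false, iff_false]
        rintro ⟨hx, z, hz, h1, h2⟩
        exact hy ⟨z, hz, h2⟩
      rw [this]
      simp
  have hb1 : volume (ball (0 : Sp n) 1) ≠ ⊤ := measure_ball_lt_top.ne
  have hb2 : volume (f '' K') ≠ ⊤ := hfK'.measure_lt_top.ne
  calc ∫⁻ x in K, ENNReal.ofReal (‖f (x + h) - f x‖ ^ n)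
      ≤ ∫⁻ x in K, ENNReal.ofReal C0 * volume (Prod.mk x ⁻¹' S) := step1
    _ = ENNReal.ofReal C0 * ∫⁻ x in K, volume (Prod.mk x ⁻¹' S) :=
        lintegral_const_mul _ hmeas
    _ ≤ ENNReal.ofReal C0 * ((N * (ENNReal.ofReal ((2 * r) ^ n) * volume (ball (0 : Sp n) 1))) *
        volume (f '' K')) := by
        gcongr
        exact step2.trans step3
    _ = ENNReal.ofReal (C0 * (N * (2 ^ n * (volume (ball (0 : Sp n) 1)).toReal) *
        (volume (f '' K')).toReal) * r ^ n) := by
        rw [← ENNReal.ofReal_toReal hb1, ← ENNReal.ofReal_toReal hb2, ← ENNReal.ofReal_natCast,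
          ← ENNReal.ofReal_mul (by positivity), ← ENNReal.ofReal_mul (by positivity),
          ← ENNReal.ofReal_mul (by positivity), ← ENNReal.ofReal_mul (by positivity),
          ENNReal.toReal_ofReal ENNReal.toReal_nonneg, ENNReal.toReal_ofReal ENNReal.toReal_nonneg]
        congr 1
        ring


end Pool.Agent.Helper171.NHMD
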