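import Pool.Agent.Helper80.NHM.Stmt

set_option autoImplicit false
open MeasureTheory Filter Topology Set Metric
open scoped ENNReal NNReal RealInnerProductSpace ContDiff

namespace Pool.Agent.Helper171.NHMD

open Pool.Agent.Helper80.NHM

variable {n : ℕ}

/- TARGET -/
open scoped Pointwise in
/-- the measure of a scaled and translated set -/
theorem d5_vol_image (y : Sp n) {r : ℝ} (hr : 0 < r) (S : Set (Sp n)) :
    volume ((fun w => y + r • w) '' S) = ENNReal.ofReal (r ^ n) * volume S := by
  have h1 : (fun w => y + r • w) '' S = (fun w => y + w) '' (r • S) := by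
    rw [← image_smul, image_image]
  rw [h1, image_add_left, measure_preimage_add, Measure.addHaar_smul, finrank_euclideanSpace_fin,
    abs_of_pos (pow_pos hr n)]

/-- the estimate with an error term -/
theorem d5_step {C : ℝ} (hC : 0 ≤ C) (f : Sp n → Sp n) (x : Sp n) {δ : ℝ}
    (hδ : 0 < δ) (hf : DifferentiableAt ℝ f x)
    (h : ∀ r : ℝ, 0 < r → r < δ → ∀ z ∈ closedBall x r,
      dist (f z) (f x) ^ n ≤ C * (volume (f '' closedBall x (2 * r))).toReal)
    {v : Sp n} (hv : ‖v‖ = 1) {ε : ℝ} (hε : 0 < ε) (hεv : ε ≤ ‖fderiv ℝ f x v‖) :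
    (‖fderiv ℝ f x v‖ - ε) ^ n ≤
      C * (volume (cthickening ε (fderiv ℝ f x '' closedBall 0 2))).toReal := by
  set A := fderiv ℝ f x with hA
  have hAf : HasFDerivAt f A x := hf.hasFDerivAt
  have hlo := (hasFDerivAt_iff_isLittleO.1 hAf).def (show (0 : ℝ) < ε / 2 by positivity)
  obtain ⟨ρ, hρ, hρ'⟩ := Metric.eventually_nhds_iff.1 hlo
  set r : ℝ := min δ ρ / 4 with hr
  have hm : 0 < min δ ρ := lt_min hδ hρ
  have hr0 : 0 < r := by positivity
  have hrδ : r < δ := by
    have := min_le_left δ ρ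
    rw [hr]
    linarith
  have hrρ : 2 * r < ρ := by
    have := min_le_right δ ρ
    rw [hr]
    linarith
  have hcomp : IsCompact (A '' closedBall 0 2) :=
    (isCompact_closedBall (0 : Sp n) 2).image A.continuous
  -- the point in direction `v`
  have hz : x + r • v ∈ closedBall x r := by
    rw [mem_closedBall, dist_eq_norm, add_sub_cancel_left, norm_smul, hv, mul_one,
      Real.norm_eq_abs, abs_of_pos hr0]
  have h1 := h r hr0 hrδ _ hz
  have h2 : r * (‖A v‖ - ε) ≤ dist (f (x + r • v)) (f x) := by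
    have h3 := hρ' (y := x + r • v) (by
      rw [mem_closedBall] at hz
      linarith)
    rw [add_sub_cancel_left, map_smul, norm_smul, hv, mul_one, Real.norm_eq_abs,
      abs_of_pos hr0] at h3
    have h4 : ‖r • A v‖ = r * ‖A v‖ := by
      rw [norm_smul, Real.norm_eq_abs, abs_of_pos hr0]
    have h5 : ‖r • A v‖ ≤ ‖f (x + r • v) - f x‖ + ‖f (x + r • v) - f x - r • A v‖ := by
      have h6 : r • A v = (f (x + r • v) - f x) - (f (x + r • v) - f x - r • A v) := by abel
      conv_lhs => rw [h6]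
      exact norm_sub_le _ _
    rw [dist_eq_norm]
    nlinarith
  -- the inclusion
  have hincl : f '' closedBall x (2 * r) ⊆
      (fun w => f x + r • w) '' cthickening ε (A '' closedBall 0 2) := by
    rintro _ ⟨y, hy, rfl⟩
    rw [mem_closedBall] at hy
    refine ⟨r⁻¹ • (f y - f x), ?_, ?_⟩
    · have h3 := hρ' (y := y) (by linarith)
      have hmem : A (r⁻¹ • (y - x)) ∈ A '' closedBall (0 : Sp n) 2 := by
        refine ⟨_, ?_, rfl⟩
        rw [mem_closedBall, dist_zero_right, norm_smul, norm_inv, Real.norm_eq_abs,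
          abs_of_pos hr0, ← dist_eq_norm, inv_mul_le_iff₀ hr0]
        linarith
      apply mem_cthickening_of_dist_le _ _ ε _ hmem
      rw [dist_eq_norm, map_smul, ← smul_sub, norm_smul, norm_inv, Real.norm_eq_abs,
        abs_of_pos hr0, inv_mul_le_iff₀ hr0]
      rw [← dist_eq_norm] at h3
      rw [← dist_eq_norm]
      refine h3.trans ?_
      rw [← dist_eq_norm]
      nlinarith
    · simp only
      rw [smul_smul, mul_inv_cancel₀ hr0.ne', one_smul]
      abel
  have hvol : (volume (f '' closedBall x (2 * r))).toReal ≤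
      r ^ n * (volume (cthickening ε (A '' closedBall 0 2))).toReal := by
    have h3 := measure_mono (μ := (volume : Measure (Sp n))) hincl
    rw [d5_vol_image (f x) hr0] at h3
    have hfin : ENNReal.ofReal (r ^ n) * volume (cthickening ε (A '' closedBall 0 2)) ≠ ⊤ :=
      ENNReal.mul_ne_top ENNReal.ofReal_ne_top hcomp.cthickening.measure_lt_top.ne
    have h4 := ENNReal.toReal_mono hfin h3
    rwa [ENNReal.toReal_mul, ENNReal.toReal_ofReal (by positivity)] at h4
  have h7 : (r * (‖A v‖ - ε)) ^ n ≤ C * (r ^ n * (volume (cthickening ε (A '' closedBall 0 2))).toReal) := by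
    refine (pow_le_pow_left₀ (mul_nonneg hr0.le (sub_nonneg.2 hεv)) h2 n).trans (h1.trans ?_)
    exact mul_le_mul_of_nonneg_left hvol hC
  rw [mul_pow] at h7
  have h8 : r ^ n * (‖A v‖ - ε) ^ n ≤
      r ^ n * (C * (volume (cthickening ε (A '' closedBall 0 2))).toReal) := by
    linarith
  exact le_of_mul_le_mul_left h8 (pow_pos hr0 n)

/-- D5 distortion at points of differentiability -/
theorem distortion_pt (hn : 0 < n) {C : ℝ} : ∃ K : ℝ, 1 ≤ K ∧ ∀ (f : Sp n → Sp n) (x : Sp n) (δ : ℝ),
    0 < δ → DifferentiableAt ℝ f x →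
    (∀ r : ℝ, 0 < r → r < δ → ∀ z ∈ closedBall x r,
      dist (f z) (f x) ^ n ≤ C * (volume (f '' closedBall x (2 * r))).toReal) →
    ‖fderiv ℝ f x‖ ^ n ≤ K * |(fderiv ℝ f x).det| := by
  set B : ℝ := (volume (closedBall (0 : Sp n) 2)).toReal with hB
  have hB0 : 0 ≤ B := ENNReal.toReal_nonneg
  refine ⟨max 1 (max C 0 * B), le_max_left _ _, ?_⟩
  intro f x δ hδ hf h
  set A := fderiv ℝ f x with hA
  have hC0 : 0 ≤ max C 0 := le_max_right _ _
  have h' : ∀ r : ℝ, 0 < r → r < δ → ∀ z ∈ closedBall x r,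
      dist (f z) (f x) ^ n ≤ max C 0 * (volume (f '' closedBall x (2 * r))).toReal := by
    intro r hr hrδ z hz
    exact (h r hr hrδ z hz).trans (mul_le_mul_of_nonneg_right (le_max_left _ _)
      ENNReal.toReal_nonneg)
  have hcomp : IsCompact (A '' closedBall 0 2) :=
    (isCompact_closedBall (0 : Sp n) 2).image A.continuous
  have hvolA : (volume (A '' closedBall 0 2)).toReal = |A.det| * B := by
    rw [Measure.addHaar_image_continuousLinearMap, ENNReal.toReal_mul,
      ENNReal.toReal_ofReal (abs_nonneg _)]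
  have hunit : ∀ v : Sp n, ‖v‖ = 1 → ‖A v‖ ^ n ≤ max C 0 * (|A.det| * B) := by
    intro v hv
    rcases (norm_nonneg (A v)).eq_or_lt with h0 | h0
    · rw [← h0, zero_pow hn.ne']
      positivity
    · have ht1 : Tendsto (fun ε : ℝ => (‖A v‖ - ε) ^ n) (𝓝[>] 0) (𝓝 (‖A v‖ ^ n)) := by
        have hcont : Continuous (fun ε : ℝ => (‖A v‖ - ε) ^ n) := by fun_prop
        have := hcont.tendsto 0
        rw [sub_zero] at this
        exact this.mono_left nhdsWithin_le_nhds
      have ht2 : Tendsto (fun ε : ℝ => max C 0 *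
          (volume (cthickening ε (A '' closedBall 0 2))).toReal) (𝓝[>] 0)
          (𝓝 (max C 0 * (|A.det| * B))) := by
        apply Tendsto.const_mul
        rw [← hvolA]
        have h3 := tendsto_measure_cthickening_of_isCompact (μ := (volume : Measure (Sp n))) hcomp
        exact ((ENNReal.tendsto_toReal hcomp.measure_lt_top.ne).comp h3).mono_left
          nhdsWithin_le_nhds
      apply le_of_tendsto_of_tendsto ht1 ht2
      have hev : ∀ᶠ ε : ℝ in 𝓝[>] 0, 0 < ε ∧ ε < ‖A v‖ :=
        Filter.Eventually.and self_mem_nhdsWithin (nhdsWithin_le_nhds (gt_mem_nhds h0))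
      filter_upwards [hev] with ε hε
      exact d5_step hC0 f x hδ hf h' hv hε.1 hε.2.le
  set M : ℝ := max C 0 * (|A.det| * B) with hM
  have hM0 : 0 ≤ M := by positivity
  have hop : ‖A‖ ≤ M ^ ((n : ℝ)⁻¹) := by
    apply ContinuousLinearMap.opNorm_le_of_unit_norm (Real.rpow_nonneg hM0 _)
    intro v hv
    rw [← pow_le_pow_iff_left₀ (norm_nonneg _) (Real.rpow_nonneg hM0 _) hn.ne',
      Real.rpow_inv_natCast_pow hM0 hn.ne']
    exact hunit v hv
  have h9 : ‖A‖ ^ n ≤ M := by
    have := pow_le_pow_left₀ (norm_nonneg _) hop n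
    rwa [Real.rpow_inv_natCast_pow hM0 hn.ne'] at this
  refine h9.trans ?_
  have h10 : M = (max C 0 * B) * |A.det| := by rw [hM]; ring
  rw [h10]
  exact mul_le_mul_of_nonneg_right (le_max_right _ _) (abs_nonneg _)


end Pool.Agent.Helper171.NHMD
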