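import Pool.Agent.Helper80.NHM.Stmt

set_option autoImplicit false
open MeasureTheory Filter Topology Set Metric
open scoped ENNReal NNReal RealInnerProductSpace ContDiff

namespace Pool.Agent.Helper171.NHMD

open Pool.Agent.Helper80.NHM

variable {n : ℕ}

theorem lipae_card {U : Set (Sp n)} {f : Sp n → Sp n} {N : ℕ}
    (hN : ∀ b, (U ∩ f ⁻¹' {b}).encard ≤ N) (T : Finset (Sp n)) (B : Sp n → Set (Sp n))
    (hBU : ∀ b ∈ T, B b ⊆ U) (hdisj : (T : Set (Sp n)).PairwiseDisjoint B) (y : Sp n)
    (hy : ∀ b ∈ T, y ∈ f '' B b) : T.card ≤ N := by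
  classical
  choose! g hgB hgy using hy
  have h1 : (T : Set (Sp n)).encard ≤ (U ∩ f ⁻¹' {y}).encard := by
    refine encard_le_encard_of_injOn (f := g) ?_ ?_
    · intro b hb
      exact ⟨hBU b hb (hgB b hb), hgy b hb⟩
    · intro b hb c hc hbc
      by_contra hne
      have h2 := hdisj hb hc hne
      have h3 : g b ∈ B c := by rw [hbc]; exact hgB c hc
      exact (Set.disjoint_left.1 h2) (hgB b hb) h3
  have h2 := h1.trans (hN y)
  rw [Set.encard_coe_eq_coe_finsetCard] at h2
  exact_mod_cast h2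

theorem lipae_sum {U : Set (Sp n)} {f : Sp n → Sp n}
    (hf : ContinuousOn f U) {N : ℕ} (hN : ∀ b, (U ∩ f ⁻¹' {b}).encard ≤ N)
    (s : Finset (Sp n)) (B : Sp n → Set (Sp n)) (hBc : ∀ b ∈ s, IsCompact (B b))
    (hBU : ∀ b ∈ s, B b ⊆ U) (hdisj : (s : Set (Sp n)).PairwiseDisjoint B) :
    ∑ b ∈ s, volume (f '' B b) ≤ N * volume (closure (f '' U)) := by
  classical
  have hm : ∀ b ∈ s, MeasurableSet (f '' B b) := fun b hb =>
    ((hBc b hb).image_of_continuousOn (hf.mono (hBU b hb))).measurableSet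
  have h1 : ∑ b ∈ s, volume (f '' B b) =
      ∫⁻ y, ∑ b ∈ s, (f '' B b).indicator (fun _ => (1 : ℝ≥0∞)) y := by
    rw [lintegral_finsetSum' s (fun b hb =>
      (measurable_const.indicator (hm b hb)).aemeasurable)]
    apply Finset.sum_congr rfl
    intro b hb
    rw [lintegral_indicator_const (hm b hb), one_mul]
  rw [h1, ← lintegral_indicator_const isClosed_closure.measurableSet]
  apply lintegral_mono
  intro y
  simp only
  by_cases hy : y ∈ closure (f '' U)
  · rw [indicator_of_mem hy]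
    have h2 : ∑ b ∈ s, (f '' B b).indicator (fun _ => (1 : ℝ≥0∞)) y =
        ((s.filter (fun b => y ∈ f '' B b)).card : ℝ≥0∞) := by
      rw [Finset.card_filter]
      push_cast
      apply Finset.sum_congr rfl
      intro b _
      rw [Set.indicator_apply]
    rw [h2]
    have h3 := lipae_card hN (s.filter (fun b => y ∈ f '' B b)) B
      (fun b hb => hBU b (Finset.mem_filter.1 hb).1)
      (hdisj.subset (fun b hb => (Finset.mem_filter.1 hb).1)) y
      (fun b hb => (Finset.mem_filter.1 hb).2)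
    exact_mod_cast h3
  · rw [indicator_of_notMem hy]
    apply le_of_eq
    apply Finset.sum_eq_zero
    intro b hb
    rw [indicator_of_notMem]
    intro hyb
    exact hy (subset_closure (image_mono (hBU b hb) hyb))

theorem lipae_bad (hn : 0 < n) {U : Set (Sp n)} {f : Sp n → Sp n}
    (hf : ContinuousOn f U) (hb : Bornology.IsBounded (f '' U)) {N : ℕ}
    (hN : ∀ b, (U ∩ f ⁻¹' {b}).encard ≤ N) (lam : ℝ) (hlam : 0 < lam) (S : Set (Sp n))
    (hS : ∀ x ∈ S, ∃ r : ℝ, 0 < r ∧ r < 1 ∧ closedBall x (3 * r) ⊆ U ∧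
      lam * r ^ n < (volume (f '' closedBall x (2 * r))).toReal) :
    volume S * ENNReal.ofReal lam ≤
      ENNReal.ofReal (10 ^ n) * volume (ball (0 : Sp n) 1) * (N * volume (closure (f '' U))) := by
  classical
  choose! r hr0 hr1 hrU hrV using hS
  obtain ⟨u, huS, hdisj, hcov⟩ := Vitali.exists_disjoint_subfamily_covering_enlargement_closedBall
    S (fun x => x) (fun x => 2 * r x) 2 (fun x hx => by have := hr1 x hx; linarith) 5 (by norm_num)
  have hcount : u.Countable := by
    apply hdisj.countable_of_nonempty_interior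
    intro x hx
    refine ⟨x, ?_⟩
    rw [mem_interior_iff_mem_nhds]
    apply closedBall_mem_nhds
    have := hr0 x (huS hx)
    linarith
  have hsub2 : ∀ x ∈ u, closedBall x (2 * r x) ⊆ U := fun x hx =>
    (closedBall_subset_closedBall (by have := hr0 x (huS hx); linarith)).trans (hrU x (huS hx))
  have hfin : volume (closure (f '' U)) < ⊤ := hb.closure.measure_lt_top
  -- the sum of the volumes of the images
  have hsum : ∑' x : u, volume (f '' closedBall (x : Sp n) (2 * r x)) ≤
      N * volume (closure (f '' U)) := by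
    rw [ENNReal.tsum_eq_iSup_sum]
    apply iSup_le
    intro s
    have h1 := lipae_sum hf hN (s.map (Function.Embedding.subtype _))
      (fun x => closedBall x (2 * r x)) (fun b _ => isCompact_closedBall _ _)
      (fun b hb' => by
        obtain ⟨⟨c, hc⟩, _, rfl⟩ := Finset.mem_map.1 hb'
        exact hsub2 c hc)
      (hdisj.subset (fun b hb' => by
        obtain ⟨⟨c, hc⟩, _, rfl⟩ := Finset.mem_map.1 hb'
        exact hc))
    rw [Finset.sum_map] at h1
    exact h1
  have hball : ∀ x ∈ u, volume (closedBall x (5 * (2 * r x))) * ENNReal.ofReal lam ≤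
      ENNReal.ofReal (10 ^ n) * volume (ball (0 : Sp n) 1) *
        volume (f '' closedBall x (2 * r x)) := by
    intro x hx
    have hx0 := hr0 x (huS hx)
    rw [Measure.addHaar_closedBall _ _ (by linarith), finrank_euclideanSpace_fin]
    have h1 := (hrV x (huS hx)).le
    have h2 : volume (f '' closedBall x (2 * r x)) ≠ ⊤ := by
      refine ne_of_lt (lt_of_le_of_lt (measure_mono ?_) hfin)
      exact (image_mono (hsub2 x hx)).trans subset_closure
    have h3 : ENNReal.ofReal (lam * r x ^ n) ≤ volume (f '' closedBall x (2 * r x)) := by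
      rw [← ENNReal.ofReal_toReal h2]
      exact ENNReal.ofReal_le_ofReal h1
    have h4 : (5 * (2 * r x)) ^ n = 10 ^ n * r x ^ n := by
      rw [← mul_pow]
      congr 1
      ring
    rw [h4, ENNReal.ofReal_mul (by positivity)]
    rw [ENNReal.ofReal_mul hlam.le] at h3
    calc ENNReal.ofReal (10 ^ n) * ENNReal.ofReal (r x ^ n) * volume (ball (0 : Sp n) 1) *
          ENNReal.ofReal lam
        = ENNReal.ofReal (10 ^ n) * volume (ball (0 : Sp n) 1) *
          (ENNReal.ofReal lam * ENNReal.ofReal (r x ^ n)) := by ring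
      _ ≤ _ := by gcongr
  have hcovS : S ⊆ ⋃ x ∈ u, closedBall x (5 * (2 * r x)) := by
    intro x hx
    obtain ⟨b, hbu, hb'⟩ := hcov x hx
    exact mem_biUnion hbu (hb' (mem_closedBall_self (by have := hr0 x hx; linarith)))
  calc volume S * ENNReal.ofReal lam
      ≤ (∑' x : u, volume (closedBall (x : Sp n) (5 * (2 * r x)))) * ENNReal.ofReal lam := by
        gcongr
        exact (measure_mono hcovS).trans (measure_biUnion_le _ hcount _)
    _ = ∑' x : u, volume (closedBall (x : Sp n) (5 * (2 * r x))) * ENNReal.ofReal lam :=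
        ENNReal.tsum_mul_right.symm
    _ ≤ ∑' x : u, ENNReal.ofReal (10 ^ n) * volume (ball (0 : Sp n) 1) *
        volume (f '' closedBall (x : Sp n) (2 * r x)) :=
        ENNReal.tsum_le_tsum (fun x => hball x x.2)
    _ = ENNReal.ofReal (10 ^ n) * volume (ball (0 : Sp n) 1) *
        ∑' x : u, volume (f '' closedBall (x : Sp n) (2 * r x)) := ENNReal.tsum_mul_left
    _ ≤ _ := by gcongr

/- TARGET -/
/-- D1 finite Lipschitz constant almost everywhere -/
theorem lip_ae (hn : 0 < n) {U : Set (Sp n)} (hU : IsOpen U) {f : Sp n → Sp n}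
    (hf : ContinuousOn f U) (hb : Bornology.IsBounded (f '' U)) {N : ℕ}
    (hN : ∀ b, (U ∩ f ⁻¹' {b}).encard ≤ N) {C : ℝ}
    (hV : ∀ (x : Sp n) (r : ℝ), 0 < r → closedBall x (3 * r) ⊆ U → ∀ z ∈ closedBall x r,
      dist (f z) (f x) ^ n ≤ C * (volume (f '' closedBall x (2 * r))).toReal) :
    ∀ᵐ x ∂(volume.restrict U), ∃ C' r : ℝ, 0 < r ∧ ∀ y ∈ ball x r, ‖f y - f x‖ ≤ C' * ‖y - x‖ := by
  rw [ae_restrict_iff' hU.measurableSet]
  show volume {x | ¬ (x ∈ U → ∃ C' r : ℝ, 0 < r ∧ ∀ y ∈ ball x r,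
    ‖f y - f x‖ ≤ C' * ‖y - x‖)} = 0
  set S := {x | ¬ (x ∈ U → ∃ C' r : ℝ, 0 < r ∧ ∀ y ∈ ball x r,
    ‖f y - f x‖ ≤ C' * ‖y - x‖)} with hSdef
  have hfin : volume (closure (f '' U)) < ⊤ := hb.closure.measure_lt_top
  have hbad : ∀ lam : ℝ, 0 < lam → ∀ x ∈ S, ∃ r : ℝ, 0 < r ∧ r < 1 ∧ closedBall x (3 * r) ⊆ U ∧
      lam * r ^ n < (volume (f '' closedBall x (2 * r))).toReal := by
    intro lam hlam x hx
    by_contra hne
    push Not at hne
    apply hx
    intro hxU
    obtain ⟨ρ, hρ, hρU⟩ := Metric.nhds_basis_closedBall.mem_iff.1 (hU.mem_nhds hxU)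
    have hC0 : 0 ≤ |C| * lam := by positivity
    refine ⟨(|C| * lam) ^ ((n : ℝ)⁻¹), min 1 (ρ / 3), lt_min one_pos (by positivity), ?_⟩
    intro y hy
    rw [mem_ball] at hy
    by_cases hyx : y = x
    · rw [hyx, sub_self, sub_self, norm_zero, mul_zero]
    have hr : 0 < dist y x := dist_pos.2 hyx
    have hr1 : dist y x < 1 := lt_of_lt_of_le hy (min_le_left _ _)
    have hr2 : dist y x < ρ / 3 := lt_of_lt_of_le hy (min_le_right _ _)
    have hsub : closedBall x (3 * dist y x) ⊆ U :=
      (closedBall_subset_closedBall (by linarith)).trans hρU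
    have h1 := hne (dist y x) hr hr1 hsub
    have h2 := hV x (dist y x) hr hsub y (mem_closedBall.2 le_rfl)
    have h3 : dist (f y) (f x) ^ n ≤ |C| * lam * dist y x ^ n := by
      calc dist (f y) (f x) ^ n ≤ C * (volume (f '' closedBall x (2 * dist y x))).toReal := h2
        _ ≤ |C| * (volume (f '' closedBall x (2 * dist y x))).toReal := by
          gcongr
          exact le_abs_self C
        _ ≤ |C| * (lam * dist y x ^ n) := by gcongr
        _ = |C| * lam * dist y x ^ n := by ring
    rw [← dist_eq_norm, ← dist_eq_norm]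
    have h4 : ((|C| * lam) ^ ((n : ℝ)⁻¹) * dist y x) ^ n = |C| * lam * dist y x ^ n := by
      rw [mul_pow, Real.rpow_inv_natCast_pow hC0 hn.ne']
    rw [← h4] at h3
    exact le_of_pow_le_pow_left₀ hn.ne' (by positivity) h3
  by_contra hne
  have hM : ENNReal.ofReal (10 ^ n) * volume (ball (0 : Sp n) 1) *
      (N * volume (closure (f '' U))) ≠ ⊤ := by
    apply ENNReal.mul_ne_top
    · exact ENNReal.mul_ne_top ENNReal.ofReal_ne_top measure_ball_lt_top.ne
    · exact ENNReal.mul_ne_top (ENNReal.natCast_ne_top N) hfin.ne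
  obtain ⟨k, hk⟩ := ENNReal.exists_nat_mul_gt hne hM
  have h1 := lipae_bad hn hf hb hN ((k : ℝ) + 1) (by positivity) S (hbad _ (by positivity))
  have h2 : (k : ℝ≥0∞) * volume S ≤ volume S * ENNReal.ofReal ((k : ℝ) + 1) := by
    rw [mul_comm]
    gcongr
    rw [← ENNReal.ofReal_natCast]
    apply ENNReal.ofReal_le_ofReal
    linarith
  exact absurd (hk.trans_le (h2.trans h1)) (lt_irrefl _)


end Pool.Agent.Helper171.NHMD
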