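import Pool.Agent.Helper80.NHM.Stmt

set_option autoImplicit false
open MeasureTheory Filter Topology Set Metric
open scoped ENNReal NNReal RealInnerProductSpace ContDiff

namespace Pool.Agent.Helper171.NHMD

open Pool.Agent.Helper80.NHM

variable {n : ℕ}

/-- McShane envelope -/
theorem mcshane_env {F : Type*} [NormedAddCommGroup F] [NormedSpace ℝ F] (f : F → ℝ) (G : Set F)
    (k : ℝ≥0) (hne : G.Nonempty) (hG : ∀ x ∈ G, ∀ y ∈ G, |f y - f x| ≤ k * ‖y - x‖) :
    ∃ w : F → ℝ, LipschitzWith k w ∧ (∀ x ∈ G, w x = f x) ∧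
      ∀ y, (∀ g ∈ G, f y ≤ f g + k * ‖y - g‖) → f y ≤ w y := by
  haveI : Nonempty G := hne.to_subtype
  obtain ⟨g0, hg0⟩ := hne
  have hbdd : ∀ x : F, BddBelow (Set.range fun g : G => f g + k * ‖x - g‖) := by
    intro x
    refine ⟨f g0 - k * ‖x - g0‖, ?_⟩
    rintro _ ⟨g, rfl⟩
    have h1 := (abs_le.1 (hG g0 hg0 g.1 g.2)).1
    have h2 : ‖(g : F) - g0‖ ≤ ‖x - g0‖ + ‖x - g‖ := by
      have : (g : F) - g0 = (x - g0) - (x - g) := by abel
      rw [this]
      exact norm_sub_le _ _
    have hk : (0 : ℝ) ≤ k := k.2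
    show f g0 - k * ‖x - g0‖ ≤ f g + k * ‖x - g‖
    nlinarith
  refine ⟨fun x => ⨅ g : G, (f g + k * ‖x - g‖), ?_, ?_, ?_⟩
  · refine LipschitzWith.of_le_add_mul k fun x y => ?_
    have hk : (0 : ℝ) ≤ k := k.2
    rw [← sub_le_iff_le_add]
    refine le_ciInf fun g => ?_
    rw [sub_le_iff_le_add]
    refine (ciInf_le (hbdd x) g).trans ?_
    have h2 : ‖x - (g : F)‖ ≤ ‖y - g‖ + dist x y := by
      rw [dist_eq_norm]
      have : x - (g : F) = (y - g) + (x - y) := by abel
      rw [this]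
      exact norm_add_le _ _
    nlinarith
  · intro x hx
    apply le_antisymm
    · refine (ciInf_le (hbdd x) ⟨x, hx⟩).trans ?_
      simp
    · refine le_ciInf fun g => ?_
      have h1 := (abs_le.1 (hG g.1 g.2 x hx)).2
      linarith
  · intro y hy
    exact le_ciInf fun g => hy g.1 g.2

/-- squeeze for differentiability -/
theorem squeeze_diff {F : Type*} [NormedAddCommGroup F] [NormedSpace ℝ F] (f u w : F → ℝ) (x : F)
    (hu : DifferentiableAt ℝ u x) (hw : DifferentiableAt ℝ w x) (hux : u x = f x) (hwx : w x = f x)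
    (h : ∀ᶠ y in 𝓝 x, u y ≤ f y ∧ f y ≤ w y) : DifferentiableAt ℝ f x := by
  have hmin : IsLocalMin (fun y => w y - u y) x := by
    filter_upwards [h] with y hy
    rw [hux, hwx, sub_self]
    linarith [hy.1, hy.2]
  have h0 : fderiv ℝ (fun y => w y - u y) x = 0 := hmin.fderiv_eq_zero
  have h1 : fderiv ℝ w x = fderiv ℝ u x := by
    rw [fderiv_fun_sub hw hu] at h0
    exact sub_eq_zero.1 h0
  have hW := hw.hasFDerivAt
  have hU := hu.hasFDerivAt
  rw [← h1] at hU
  refine ⟨fderiv ℝ w x, ?_⟩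
  rw [hasFDerivAt_iff_isLittleO] at hW hU ⊢
  have hsum := hW.norm_left.add hU.norm_left
  refine Asymptotics.IsBigO.trans_isLittleO ?_ hsum
  refine Asymptotics.IsBigO.of_bound 1 ?_
  filter_upwards [h] with y hy
  rw [hwx, hux, one_mul]
  have ha := abs_nonneg (w y - f x - (fderiv ℝ w x) (y - x))
  have hb := abs_nonneg (u y - f x - (fderiv ℝ w x) (y - x))
  rw [Real.norm_eq_abs, Real.norm_eq_abs, Real.norm_eq_abs, Real.norm_eq_abs,
    abs_of_nonneg (add_nonneg ha hb), abs_le]
  have hc := le_abs_self (w y - f x - (fderiv ℝ w x) (y - x))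
  have hd := neg_abs_le (u y - f x - (fderiv ℝ w x) (y - x))
  constructor <;> linarith [hy.1, hy.2]

/- TARGET -/
/-- D2 Stepanov's theorem -/
theorem stepanov {F : Type*} [NormedAddCommGroup F] [NormedSpace ℝ F] [FiniteDimensional ℝ F]
    [MeasurableSpace F] [BorelSpace F] (μ : Measure F) [μ.IsAddHaarMeasure] (f : F → ℝ) :
    ∀ᵐ x ∂μ, (∃ C r : ℝ, 0 < r ∧ ∀ y ∈ ball x r, |f y - f x| ≤ C * ‖y - x‖) →
      DifferentiableAt ℝ f x := by
  haveI := FiniteDimensional.proper ℝ F
  have key : ∀ (i : ℕ) (q : ℚ) (k : ℕ), ∀ᵐ x ∂μ,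
      (x ∈ ball (TopologicalSpace.denseSeq F i) (q : ℝ) ∧
        ∀ y ∈ ball (TopologicalSpace.denseSeq F i) (q : ℝ), |f y - f x| ≤ k * ‖y - x‖) →
      DifferentiableAt ℝ f x := by
    intro i q k
    set B : Set F := ball (TopologicalSpace.denseSeq F i) (q : ℝ) with hB
    set G : Set F := {x | x ∈ B ∧ ∀ y ∈ B, |f y - f x| ≤ k * ‖y - x‖} with hGdef
    rcases G.eq_empty_or_nonempty with hG | hG
    · refine Eventually.of_forall fun x hx => ?_
      have : x ∈ G := hx
      rw [hG] at this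
      exact absurd this (Set.notMem_empty x)
    · obtain ⟨w, hw1, hw2, hw3⟩ := mcshane_env f G (k : ℝ≥0) hG (by
        intro x hx y hy
        simpa using hx.2 y hy.1)
      obtain ⟨u, hu1, hu2, hu3⟩ := mcshane_env (fun x => - f x) G (k : ℝ≥0) hG (by
        intro x hx y hy
        have h1 := hx.2 y hy.1
        have h2 : |-f y - -f x| = |f y - f x| := by
          rw [← abs_neg]
          congr 1
          ring
        rw [h2]
        simpa using h1)
      filter_upwards [hw1.ae_differentiableAt (μ := μ), hu1.ae_differentiableAt (μ := μ)] with x hxw hxu hx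
      have hxG : x ∈ G := hx
      refine squeeze_diff f (fun y => - u y) w x hxu.neg hxw ?_ (hw2 x hxG) ?_
      · show - u x = f x
        rw [hu2 x hxG, neg_neg]
      · filter_upwards [isOpen_ball.mem_nhds hx.1] with y hy
        constructor
        · have := hu3 y (fun g hg => by
            have h1 := (abs_le.1 (hg.2 y hy)).1
            simp only [NNReal.coe_natCast]
            linarith)
          linarith
        · refine hw3 y (fun g hg => ?_)
          have h1 := (abs_le.1 (hg.2 y hy)).2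
          simp only [NNReal.coe_natCast]
          linarith
  have key' : ∀ᵐ x ∂μ, ∀ (i : ℕ) (q : ℚ) (k : ℕ),
      (x ∈ ball (TopologicalSpace.denseSeq F i) (q : ℝ) ∧
        ∀ y ∈ ball (TopologicalSpace.denseSeq F i) (q : ℝ), |f y - f x| ≤ k * ‖y - x‖) →
      DifferentiableAt ℝ f x := by
    rw [ae_all_iff]
    intro i
    rw [ae_all_iff]
    intro q
    rw [ae_all_iff]
    exact key i q
  filter_upwards [key'] with x hx
  rintro ⟨C, r, hr, hC⟩
  obtain ⟨q, hq0, hq1⟩ := exists_rat_btwn (half_pos hr)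
  obtain ⟨i, hi⟩ := (TopologicalSpace.denseRange_denseSeq F).exists_dist_lt x hq0
  obtain ⟨k, hk⟩ := exists_nat_ge C
  refine hx i q k ⟨hi, fun y hy => ?_⟩
  have hyr : y ∈ ball x r := by
    rw [mem_ball] at hy ⊢
    have h1 := dist_triangle y (TopologicalSpace.denseSeq F i) x
    rw [dist_comm (TopologicalSpace.denseSeq F i) x] at h1
    linarith
  exact (hC y hyr).trans (mul_le_mul_of_nonneg_right hk (norm_nonneg _))


end Pool.Agent.Helper171.NHMD
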