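import Pool.Agent.Helper80.NHM.Stmt

set_option autoImplicit false
open MeasureTheory Filter Topology Set Metric
open scoped ENNReal NNReal RealInnerProductSpace ContDiff

namespace Pool.Agent.Helper171.NHMD

open Pool.Agent.Helper80.NHM

variable {n : ℕ}


lemma job10586_ui {α : Type*} [MeasurableSpace α] {μ : Measure α} (f : ℕ → α → ℝ)
    (hf : ∀ k, AEStronglyMeasurable (f k) μ) (q : ℝ≥0∞) (hq : 1 < q) (hq' : q ≠ ⊤)
    (C : ℝ≥0∞) (hC : C ≠ ⊤) (hb : ∀ k, eLpNorm (f k) q μ ≤ C) : UnifIntegrable f 1 μ := by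
  intro ε hε
  have hq1 : 1 < q.toReal := by
    have := (ENNReal.toReal_lt_toReal ENNReal.one_ne_top hq').2 hq
    simpa using this
  set a : ℝ := 1 / (1 : ℝ≥0∞).toReal - 1 / q.toReal with ha
  have ha0 : 0 < a := by
    rw [ha, ENNReal.toReal_one, div_one]
    have : 1 / q.toReal < 1 := by rw [div_lt_one (by linarith)]; exact hq1
    linarith
  have ht : Tendsto (fun d : ℝ => C * (ENNReal.ofReal d) ^ a) (𝓝[>] 0) (𝓝 0) := by
    have h1 : Tendsto (fun d : ℝ => ENNReal.ofReal d) (𝓝[>] 0) (𝓝 0) := by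
      have := (ENNReal.continuous_ofReal.tendsto 0).mono_left (nhdsWithin_le_nhds (s := Ioi (0:ℝ)))
      simpa using this
    have h2 : Tendsto (fun x : ℝ≥0∞ => x ^ a) (𝓝 0) (𝓝 0) := by
      have := (ENNReal.continuous_rpow_const (y := a)).tendsto 0
      rwa [ENNReal.zero_rpow_of_pos ha0] at this
    have h3 := ENNReal.Tendsto.const_mul (a := C) (h2.comp h1) (Or.inr hC)
    simpa using h3
  have hev := (ht.eventually (gt_mem_nhds (ENNReal.ofReal_pos.2 hε))).and self_mem_nhdsWithin
  obtain ⟨d, hd1, hd2⟩ := hev.exists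
  refine ⟨d, hd2, fun k s hs hμs => ?_⟩
  rw [eLpNorm_indicator_eq_eLpNorm_restrict hs]
  have h4 := eLpNorm_le_eLpNorm_mul_rpow_measure_univ (μ := μ.restrict s) hq.le (hf k).restrict
  rw [Measure.restrict_apply_univ] at h4
  refine h4.trans (le_trans ?_ hd1.le)
  exact mul_le_mul' ((eLpNorm_mono_measure _ Measure.restrict_le_self).trans (hb k))
    (ENNReal.rpow_le_rpow hμs ha0.le)

lemma job10586_seq (hn : 2 ≤ n) {G : Set (Sp n)} (hG : IsOpen G) {u : Sp n → ℝ}
    (hu : ContinuousOn u G) (hd : ∀ᵐ x ∂(volume.restrict G), DifferentiableAt ℝ u x)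
    (hq : ∀ K ⊆ G, IsCompact K → ∃ C' δ : ℝ, 0 < δ ∧ ∀ h : Sp n, ‖h‖ < δ →
      ∫⁻ x in K, ENNReal.ofReal (|u (x + h) - u x| ^ n) ≤ ENNReal.ofReal (C' * ‖h‖ ^ n))
    {K : Set (Sp n)} (hK : K ⊆ G) (hKc : IsCompact K) (e : Sp n) :
    ∃ (v : Sp n → ℝ) (t : ℕ → ℝ) (C : ℝ≥0∞), C ≠ ⊤ ∧ Integrable v ∧ (∀ x ∈ K, v x = u x) ∧
      (∀ k, 0 < t k) ∧ Tendsto t atTop (𝓝 0) ∧
      (∀ k, eLpNorm (fun x => (v (x + t k • e) - v x) / t k) n (volume.restrict K) ≤ C) ∧
      ∀ᵐ x ∂(volume.restrict K),
        Tendsto (fun k => (v (x + t k • e) - v x) / t k) atTop (𝓝 (fderiv ℝ u x e)) := by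
  obtain ⟨ε₀, hε₀, hthick⟩ := hKc.exists_cthickening_subset_open hG hK
  obtain ⟨C', δ, hδ, hC'⟩ := hq K hK hKc
  have hKK : IsCompact (cthickening ε₀ K) := hKc.cthickening
  obtain ⟨ε₁, hε₁, hε₁e⟩ : ∃ ε₁ : ℝ, 0 < ε₁ ∧ ε₁ * ‖e‖ < min δ ε₀ := by
    refine ⟨min δ ε₀ / (‖e‖ + 1), by positivity, ?_⟩
    have hm : 0 < min δ ε₀ := lt_min hδ hε₀
    rw [div_mul_eq_mul_div, div_lt_iff₀ (by positivity)]
    nlinarith [norm_nonneg e]
  set t : ℕ → ℝ := fun k => ε₁ * (1 / ((k : ℝ) + 1)) with ht
  have ht0 : ∀ k, 0 < t k := fun k => by simp only [ht]; positivity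
  have ht1 : ∀ k, t k ≤ ε₁ := fun k => by
    simp only [ht]
    have : 1 / ((k : ℝ) + 1) ≤ 1 := by
      rw [div_le_one (by positivity)]
      have : (0:ℝ) ≤ k := Nat.cast_nonneg k
      linarith
    nlinarith
  have htt : Tendsto t atTop (𝓝 0) := by
    have := (tendsto_one_div_add_atTop_nhds_zero_nat (𝕜 := ℝ)).const_mul ε₁
    rw [mul_zero] at this
    exact this
  have hte : ∀ k, ‖t k • e‖ < min δ ε₀ := fun k => by
    rw [norm_smul, Real.norm_eq_abs, abs_of_pos (ht0 k)]
    exact (mul_le_mul_of_nonneg_right (ht1 k) (norm_nonneg _)).trans_lt hε₁e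
  set v : Sp n → ℝ := (cthickening ε₀ K).indicator u with hv
  have hvK : ∀ x ∈ K, v x = u x := fun x hx => indicator_of_mem (self_subset_cthickening _ hx) _
  have hvK' : ∀ k, ∀ x ∈ K, v (x + t k • e) = u (x + t k • e) := fun k x hx => by
    apply indicator_of_mem
    apply mem_cthickening_of_dist_le _ x _ _ hx
    rw [dist_eq_norm, add_sub_cancel_left]
    exact (hte k).le.trans (min_le_right _ _)
  have hvi : Integrable v := by
    rw [hv, integrable_indicator_iff hKK.measurableSet]
    exact (hu.mono hthick).integrableOn_compact hKK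
  have hn0 : (n : ℝ≥0∞) ≠ 0 := by
    simp only [ne_eq, Nat.cast_eq_zero]; omega
  refine ⟨v, t, (ENNReal.ofReal (C' * ‖e‖ ^ n)) ^ (1 / (n : ℝ)), ?_, hvi, hvK, ht0, htt, ?_, ?_⟩
  · exact ENNReal.rpow_ne_top_of_nonneg (by positivity) ENNReal.ofReal_ne_top
  · intro k
    rw [eLpNorm_eq_lintegral_rpow_enorm_toReal hn0 (ENNReal.natCast_ne_top n)]
    simp only [ENNReal.toReal_natCast]
    apply ENNReal.rpow_le_rpow _ (by positivity)
    have h1 := hC' (t k • e) ((hte k).trans_le (min_le_left _ _))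
    have h2 : ∀ x ∈ K, ‖(v (x + t k • e) - v x) / t k‖ₑ ^ (n : ℝ) =
        ENNReal.ofReal (|u (x + t k • e) - u x| ^ n) * ENNReal.ofReal ((t k)⁻¹ ^ n) := by
      intro x hx
      rw [hvK x hx, hvK' k x hx, ENNReal.rpow_natCast, ← ENNReal.ofReal_mul (by positivity), ← mul_pow,
        Real.enorm_eq_ofReal_abs, ← ENNReal.ofReal_pow (abs_nonneg _), abs_div, abs_of_pos (ht0 k)]
      rfl
    rw [setLIntegral_congr_fun hKc.measurableSet h2, lintegral_mul_const' _ _ ENNReal.ofReal_ne_top]
    refine (mul_le_mul' h1 le_rfl).trans ?_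
    rw [← ENNReal.ofReal_mul' (by positivity)]
    apply le_of_eq
    congr 1
    rw [norm_smul, Real.norm_eq_abs, abs_of_pos (ht0 k), mul_pow]
    have h9 : (t k) ^ n * ((t k)⁻¹) ^ n = 1 := by
      rw [← mul_pow, mul_inv_cancel₀ (ht0 k).ne', one_pow]
    linear_combination (C' * ‖e‖ ^ n) * h9
  · have h3 : ∀ᵐ x ∂(volume.restrict K), DifferentiableAt ℝ u x :=
      ae_mono (Measure.restrict_mono hK le_rfl) hd
    filter_upwards [h3, ae_restrict_mem hKc.measurableSet] with x hx hxK
    have h4 : HasDerivAt (fun s : ℝ => u (x + s • e)) (fderiv ℝ u x e) 0 := by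
      have h5 : HasFDerivAt u (fderiv ℝ u x) (x + (0:ℝ) • e) := by
        simpa using hx.hasFDerivAt
      have h6 : HasDerivAt (fun s : ℝ => x + s • e) e 0 := by
        have := ((hasDerivAt_id (0:ℝ)).smul_const e).const_add x
        simpa using this
      exact h5.comp_hasDerivAt 0 h6
    have h7 := h4.tendsto_slope_zero
    have h8 : Tendsto t atTop (𝓝[≠] 0) := by
      rw [tendsto_nhdsWithin_iff]
      exact ⟨htt, Eventually.of_forall fun k => (ht0 k).ne'⟩
    refine (h7.comp h8).congr fun k => ?_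
    simp only [Function.comp_apply, zero_add, zero_smul, add_zero, smul_eq_mul]
    rw [hvK x hxK, hvK' k x hxK, inv_mul_eq_div]

lemma job10586_memLp (hn : 2 ≤ n) {G : Set (Sp n)} (hG : IsOpen G) {u : Sp n → ℝ}
    (hu : ContinuousOn u G) (hd : ∀ᵐ x ∂(volume.restrict G), DifferentiableAt ℝ u x)
    (hq : ∀ K ⊆ G, IsCompact K → ∃ C' δ : ℝ, 0 < δ ∧ ∀ h : Sp n, ‖h‖ < δ →
      ∫⁻ x in K, ENNReal.ofReal (|u (x + h) - u x| ^ n) ≤ ENNReal.ofReal (C' * ‖h‖ ^ n))
    {K : Set (Sp n)} (hK : K ⊆ G) (hKc : IsCompact K) (e : Sp n) :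
    MemLp (fun x => fderiv ℝ u x e) n (volume.restrict K) := by
  obtain ⟨v, t, C, hC, hvi, hvK, ht0, htt, hb, hlim⟩ := job10586_seq hn hG hu hd hq hK hKc e
  have hm : ∀ k, AEStronglyMeasurable (fun x => (v (x + t k • e) - v x) / t k) (volume.restrict K) :=
    fun k => (((hvi.comp_add_right (t k • e)).sub hvi).div_const (t k)).aestronglyMeasurable.restrict
  refine ⟨(measurable_fderiv_apply_const ℝ u e).aestronglyMeasurable, ?_⟩
  refine (Lp.eLpNorm_lim_le_liminf_eLpNorm hm _ hlim).trans_lt ?_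
  refine lt_of_le_of_lt ?_ (lt_top_iff_ne_top.2 hC)
  exact liminf_le_of_le (by isBoundedDefault) fun b hb' => by
    obtain ⟨k, hk⟩ := hb'.exists
    exact hk.trans (hb k)

lemma job10586_grad_inner (u : Sp n → ℝ) (x e : Sp n) : ⟪gradient u x, e⟫ = fderiv ℝ u x e := by
  rw [gradient, InnerProductSpace.toDual_symm_apply]

lemma job10586_grad_sum (u : Sp n → ℝ) (x : Sp n) :
    gradient u x = ∑ i : Fin n, (fderiv ℝ u x (EuclideanSpace.single i 1)) • EuclideanSpace.single i (1 : ℝ) := by
  ext j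
  have h := job10586_grad_inner u x (EuclideanSpace.single j 1)
  rw [EuclideanSpace.inner_single_right] at h
  simp only [one_mul, conj_trivial] at h
  rw [h, WithLp.ofLp_sum, Finset.sum_apply]
  simp

lemma job10586_ibp (hn : 2 ≤ n) {G : Set (Sp n)} (hG : IsOpen G) {u : Sp n → ℝ}
    (hu : ContinuousOn u G) (hd : ∀ᵐ x ∂(volume.restrict G), DifferentiableAt ℝ u x)
    (hq : ∀ K ⊆ G, IsCompact K → ∃ C' δ : ℝ, 0 < δ ∧ ∀ h : Sp n, ‖h‖ < δ →
      ∫⁻ x in K, ENNReal.ofReal (|u (x + h) - u x| ^ n) ≤ ENNReal.ofReal (C' * ‖h‖ ^ n))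
    {φ : Sp n → ℝ} (hφ : IsTest G φ) (e : Sp n) :
    ∫ x, u x * fderiv ℝ φ x e = - ∫ x, φ x * fderiv ℝ u x e := by
  set K := tsupport φ with hKdef
  have hKc : IsCompact K := hφ.compact
  have hK : K ⊆ G := hφ.support
  obtain ⟨v, t, C, hC, hvi, hvK, ht0, htt, hb, hlim⟩ := job10586_seq hn hG hu hd hq hK hKc e
  have hφc : Continuous φ := hφ.smooth.continuous
  obtain ⟨M, hM⟩ := hφ.compact.exists_bound_of_continuous hφc
  obtain ⟨L, hL⟩ := ContDiff.lipschitzWith_of_hasCompactSupport hφ.compact hφ.smooth (by simp)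
  have hφK : ∀ x, x ∉ K → φ x = 0 := fun x hx => image_eq_zero_of_notMem_tsupport hx
  have hdφK : ∀ x, x ∉ K → fderiv ℝ φ x e = 0 := fun x hx => by
    have : fderiv ℝ φ x = 0 := by
      by_contra h
      exact hx (tsupport_fderiv_subset ℝ (subset_tsupport _ h))
    rw [this]; rfl
  -- the two expressions agree
  have hAB : ∀ k, ∫ x, ((v (x + t k • e) - v x) / t k) * φ x =
      ∫ x, v x * ((φ (x - t k • e) - φ x) / t k) := by
    intro k
    have i1 : Integrable (fun x => v (x + t k • e) * φ x) :=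
      (hvi.comp_add_right (t k • e)).mul_bdd hφc.aestronglyMeasurable (Eventually.of_forall hM)
    have i2 : Integrable (fun x => v x * φ x) :=
      hvi.mul_bdd hφc.aestronglyMeasurable (Eventually.of_forall hM)
    have i3 : Integrable (fun x => v x * φ (x - t k • e)) :=
      hvi.mul_bdd (hφc.comp (continuous_id.sub continuous_const)).aestronglyMeasurable
        (Eventually.of_forall fun x => hM _)
    have e1 : ∫ x, v (x + t k • e) * φ x = ∫ x, v x * φ (x - t k • e) := by
      have := integral_sub_right_eq_self (μ := (volume : Measure (Sp n)))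
        (fun x => v (x + t k • e) * φ x) (t k • e)
      rw [← this]
      simp only [sub_add_cancel]
    have e2 : ∀ x, ((v (x + t k • e) - v x) / t k) * φ x = (t k)⁻¹ * (v (x + t k • e) * φ x - v x * φ x) :=
      fun x => by ring
    have e3 : ∀ x, v x * ((φ (x - t k • e) - φ x) / t k) = (t k)⁻¹ * (v x * φ (x - t k • e) - v x * φ x) :=
      fun x => by ring
    simp only [e2, e3]
    rw [integral_const_mul, integral_const_mul, integral_sub i1 i2, integral_sub i3 i2, e1]
  -- limit of the right side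
  have hB : Tendsto (fun k => ∫ x, v x * ((φ (x - t k • e) - φ x) / t k)) atTop
      (𝓝 (∫ x, v x * (-(fderiv ℝ φ x e)))) := by
    apply tendsto_integral_of_dominated_convergence (fun x => ‖v x‖ * (L * ‖e‖))
    · intro k
      exact (hvi.aestronglyMeasurable).mul
        ((((hφc.comp (continuous_id.sub continuous_const)).sub hφc).div_const _).aestronglyMeasurable)
    · exact hvi.norm.mul_const _
    · intro k
      refine Eventually.of_forall fun x => ?_
      rw [norm_mul]
      apply mul_le_mul_of_nonneg_left _ (norm_nonneg _)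
      rw [norm_div, Real.norm_of_nonneg (ht0 k).le, div_le_iff₀ (ht0 k)]
      have := hL.dist_le_mul (x - t k • e) x
      rw [dist_eq_norm, dist_eq_norm] at this
      refine this.trans (le_of_eq ?_)
      have e4 : x - t k • e - x = -(t k • e) := by abel
      rw [e4, norm_neg, norm_smul, Real.norm_of_nonneg (ht0 k).le]
      ring
    · refine Eventually.of_forall fun x => ?_
      apply Tendsto.const_mul
      have h4 : HasDerivAt (fun s : ℝ => φ (x - s • e)) (-(fderiv ℝ φ x e)) 0 := by
        have h5 : HasFDerivAt φ (fderiv ℝ φ x) (x - (0:ℝ) • e) := by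
          simpa using (hφ.smooth.differentiable (by simp) x).hasFDerivAt
        have h6 : HasDerivAt (fun s : ℝ => x - s • e) (-e) 0 := by
          have := ((hasDerivAt_id (0:ℝ)).smul_const e).const_sub x
          simpa using this
        have := h5.comp_hasDerivAt 0 h6
        rw [map_neg] at this
        exact this
      have h7 := h4.tendsto_slope_zero
      have h8 : Tendsto t atTop (𝓝[≠] 0) := by
        rw [tendsto_nhdsWithin_iff]
        exact ⟨htt, Eventually.of_forall fun k => (ht0 k).ne'⟩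
      refine (h7.comp h8).congr fun k => ?_
      simp only [Function.comp_apply, zero_add, zero_smul, sub_zero, smul_eq_mul]
      rw [inv_mul_eq_div]
  -- limit of the left side
  have hg1 : MemLp (fun x => fderiv ℝ u x e) n (volume.restrict K) :=
    job10586_memLp hn hG hu hd hq hK hKc e
  have hfin : IsFiniteMeasure (volume.restrict K : Measure (Sp n)) :=
    ⟨by rw [Measure.restrict_apply_univ]; exact hKc.measure_lt_top⟩
  have hn1 : (1 : ℝ≥0∞) < n := by
    have : (1 : ℕ) < n := by omega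
    exact_mod_cast this
  have hg2 : MemLp (fun x => fderiv ℝ u x e) 1 (volume.restrict K) := hg1.mono_exponent hn1.le
  have hmk : ∀ k, Integrable (fun x => (v (x + t k • e) - v x) / t k) (volume.restrict K) :=
    fun k => (((hvi.comp_add_right (t k • e)).sub hvi).div_const (t k)).restrict
  have hui : UnifIntegrable (fun k x => (v (x + t k • e) - v x) / t k) 1 (volume.restrict K) :=
    job10586_ui _ (fun k => (hmk k).aestronglyMeasurable) n hn1 (ENNReal.natCast_ne_top n) C hC hb
  have hL1 := tendsto_Lp_finite_of_tendsto_ae le_rfl ENNReal.one_ne_top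
    (fun k => (hmk k).aestronglyMeasurable) hg2 hui hlim
  have hA : Tendsto (fun k => ∫ x in K, ((v (x + t k • e) - v x) / t k) * φ x) atTop
      (𝓝 (∫ x in K, fderiv ℝ u x e * φ x)) := by
    apply tendsto_integral_of_L1
    · exact hg2.aestronglyMeasurable.mul hφc.aestronglyMeasurable
    · exact Eventually.of_forall fun k =>
        (hmk k).mul_bdd hφc.aestronglyMeasurable (Eventually.of_forall hM)
    · have h9 : ∀ k, ∫⁻ x in K, ‖((v (x + t k • e) - v x) / t k) * φ x - fderiv ℝ u x e * φ x‖ₑ ≤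
          eLpNorm ((fun x => (v (x + t k • e) - v x) / t k) - fun x => fderiv ℝ u x e) 1 (volume.restrict K)
            * ENNReal.ofReal M := by
        intro k
        rw [eLpNorm_one_eq_lintegral_enorm, ← lintegral_mul_const' _ _ ENNReal.ofReal_ne_top]
        apply lintegral_mono
        intro x
        simp only [Pi.sub_apply]
        rw [← sub_mul, enorm_mul]
        apply mul_le_mul' le_rfl
        rw [← ofReal_norm]
        exact ENNReal.ofReal_le_ofReal (hM x)
      have h10 := ENNReal.Tendsto.mul_const (b := ENNReal.ofReal M) hL1 (Or.inr ENNReal.ofReal_ne_top)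
      rw [zero_mul] at h10
      exact tendsto_of_tendsto_of_tendsto_of_le_of_le tendsto_const_nhds h10 (fun k => bot_le) h9
  have hAfull : ∀ k, ∫ x in K, ((v (x + t k • e) - v x) / t k) * φ x =
      ∫ x, ((v (x + t k • e) - v x) / t k) * φ x := fun k =>
    setIntegral_eq_integral_of_forall_compl_eq_zero fun x hx => by rw [hφK x hx, mul_zero]
  have hA2 : ∫ x in K, fderiv ℝ u x e * φ x = ∫ x, fderiv ℝ u x e * φ x :=
    setIntegral_eq_integral_of_forall_compl_eq_zero fun x hx => by rw [hφK x hx, mul_zero]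
  simp only [hAfull, hAB, hA2] at hA
  have huniq := tendsto_nhds_unique hA hB
  have e5 : ∫ x, u x * fderiv ℝ φ x e = ∫ x, v x * fderiv ℝ φ x e := by
    apply integral_congr_ae
    refine Eventually.of_forall fun x => ?_
    by_cases hx : x ∈ K
    · simp only [hvK x hx]
    · simp only [hdφK x hx, mul_zero]
  rw [e5]
  have e6 : ∫ x, φ x * fderiv ℝ u x e = ∫ x, fderiv ℝ u x e * φ x := by
    congr 1; ext x; ring
  rw [e6, huniq]
  simp only [mul_neg, integral_neg, neg_neg]

/- TARGET -/
/-- D4 weak gradient from bounded difference quotients and differentiability a.e. -/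
theorem weak_of_diff_quot (hn : 2 ≤ n) {G : Set (Sp n)} (hG : IsOpen G) {u : Sp n → ℝ}
    (hu : ContinuousOn u G) (hd : ∀ᵐ x ∂(volume.restrict G), DifferentiableAt ℝ u x)
    (hq : ∀ K ⊆ G, IsCompact K → ∃ C' δ : ℝ, 0 < δ ∧ ∀ h : Sp n, ‖h‖ < δ →
      ∫⁻ x in K, ENNReal.ofReal (|u (x + h) - u x| ^ n) ≤ ENNReal.ofReal (C' * ‖h‖ ^ n)) :
    IsWeakGrad G u (gradient u) := by
  have hgl : ∀ K ⊆ G, IsCompact K → MemLp (gradient u) (n : ℝ≥0∞) (volume.restrict K) := by
    intro K hK hKc
    have h1 : (gradient u) = fun x => ∑ i : Fin n,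
        (fderiv ℝ u x (EuclideanSpace.single i 1)) • EuclideanSpace.single i (1 : ℝ) := by
      ext1 x; exact job10586_grad_sum u x
    rw [h1]
    apply memLp_finsetSum
    intro i _
    have h2 := job10586_memLp hn hG hu hd hq hK hKc (EuclideanSpace.single i 1)
    exact (ContinuousLinearMap.toSpanSingleton ℝ (EuclideanSpace.single i (1 : ℝ))).comp_memLp' h2
  constructor
  · intro K hK hKc
    have hfin : IsFiniteMeasure (volume.restrict K : Measure (Sp n)) :=
      ⟨by rw [Measure.restrict_apply_univ]; exact hKc.measure_lt_top⟩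
    obtain ⟨M, hM⟩ := hKc.exists_bound_of_continuousOn (hu.mono hK)
    refine MemLp.of_bound ((hu.mono hK).aestronglyMeasurable hKc.measurableSet) M ?_
    filter_upwards [ae_restrict_mem hKc.measurableSet] with x hx
    exact hM x hx
  · exact hgl
  · intro φ hφ
    have hφc : Continuous φ := hφ.smooth.continuous
    have hKc : IsCompact (tsupport φ) := hφ.compact
    have hfin : IsFiniteMeasure (volume.restrict (tsupport φ) : Measure (Sp n)) :=
      ⟨by rw [Measure.restrict_apply_univ]; exact hKc.measure_lt_top⟩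
    have hφK : ∀ x, x ∉ tsupport φ → φ x = 0 := fun x hx => image_eq_zero_of_notMem_tsupport hx
    have hdφK : ∀ x, x ∉ tsupport φ → gradient φ x = 0 := fun x hx => by
      have : fderiv ℝ φ x = 0 := by
        by_contra h
        exact hx (tsupport_fderiv_subset ℝ (subset_tsupport _ h))
      rw [gradient, this, map_zero]
    have hgc : Continuous (gradient φ) :=
      (InnerProductSpace.toDual ℝ (Sp n)).symm.continuous.comp (hφ.smooth.continuous_fderiv (by simp))
    have hI1 : Integrable (fun x => u x • gradient φ x) := by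
      rw [← integrableOn_iff_integrable_of_support_subset (s := tsupport φ)]
      · exact ((hu.mono hφ.support).smul hgc.continuousOn).integrableOn_compact hKc
      · intro x hx
        by_contra h
        exact hx (by simp only [hdφK x h, smul_zero])
    have hI2 : Integrable (fun x => φ x • gradient u x) := by
      rw [← integrableOn_iff_integrable_of_support_subset (s := tsupport φ)]
      · have h1 : IntegrableOn (gradient u) (tsupport φ) := by
          have h2 := hgl _ hφ.support hKc
          exact h2.integrable (by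
            have : (1 : ℕ) ≤ n := by omega
            exact_mod_cast this)
        exact h1.continuousOn_smul hφc.continuousOn hKc
      · intro x hx
        by_contra h
        exact hx (by simp only [hφK x h, zero_smul])
    apply ext_inner_left ℝ
    intro e
    rw [inner_neg_right, ← integral_inner hI1, ← integral_inner hI2]
    have e1 : ∀ x, ⟪e, u x • gradient φ x⟫ = u x * fderiv ℝ φ x e := fun x => by
      rw [inner_smul_right, real_inner_comm, job10586_grad_inner]
    have e2 : ∀ x, ⟪e, φ x • gradient u x⟫ = φ x * fderiv ℝ u x e := fun x => by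
      rw [inner_smul_right, real_inner_comm, job10586_grad_inner]
    simp only [e1, e2]
    exact job10586_ibp hn hG hu hd hq hφ e


end Pool.Agent.Helper171.NHMD
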