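import Pool.Agent.Helper80.NHM.Stmt

set_option autoImplicit false
open MeasureTheory Filter Topology Set Metric
open scoped ENNReal NNReal RealInnerProductSpace ContDiff

namespace Pool.Agent.Helper171.NHMW

open Pool.Agent.Helper80.NHM

variable {n : ℕ}


/-- translation is continuous in `L^n` -/
lemma job10890_trans (hn : 0 < n) {F : Sp n → Sp n} (hF : MemLp F (n : ℝ≥0∞) volume) {ε : ℝ}
    (hε : 0 < ε) : ∃ d : ℝ, 0 < d ∧ ∀ t : Sp n, ‖t‖ < d →
      eLpNorm (fun x => F (x - t) - F x) n volume ≤ ENNReal.ofReal ε := by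
  have hn1 : (1 : ℝ≥0∞) ≤ n := by
    have : 1 ≤ n := hn
    exact_mod_cast this
  have : Fact ((1 : ℝ≥0∞) ≤ (n : ℝ≥0∞)) := ⟨hn1⟩
  let g : C(Sp n, C(Sp n, Sp n)) := (ContinuousMap.mk (fun a : Sp n × Sp n => a.2 - a.1)
    (continuous_snd.sub continuous_fst)).curry
  have hgm : ∀ t, MeasurePreserving (g t) (volume : Measure (Sp n)) volume := fun t =>
    measurePreserving_sub_right volume t
  have hc : Continuous (fun t => Lp.compMeasurePreserving (g t) (hgm t) (hF.toLp F)) :=
    continuous_const.compMeasurePreservingLp g.continuous hgm (ENNReal.natCast_ne_top n)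
  have h1 := hc.tendsto 0
  rw [EMetric.tendsto_nhds] at h1
  have h2 := h1 (ENNReal.ofReal ε) (ENNReal.ofReal_pos.2 hε)
  obtain ⟨d, hd, h3⟩ := Metric.eventually_nhds_iff.1 h2
  refine ⟨d, hd, fun t ht => ?_⟩
  have h4 := h3 (y := t) (by rwa [dist_zero_right])
  rw [Lp.toLp_compMeasurePreserving, Lp.toLp_compMeasurePreserving, Lp.edist_toLp_toLp] at h4
  refine le_trans (le_of_eq ?_) h4.le
  congr 1
  ext1 x
  show F (x - t) - F x = F (x - t) - F (x - 0)
  rw [sub_zero]

lemma job10890_pow (hn : 0 < n) {α : Type*} [MeasurableSpace α] (μ : Measure α) (F : α → Sp n) :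
    eLpNorm F n μ ^ n = ∫⁻ x, ‖F x‖ₑ ^ n ∂μ := by
  have h := eLpNorm_nnreal_pow_eq_lintegral (f := F) (μ := μ) (p := (n : ℝ≥0)) (by
    simp only [ne_eq, Nat.cast_eq_zero]; omega)
  simpa using h

/-- Jensen -/
lemma job10890_jensen (hn : 0 < n) {ρ : Sp n → ℝ} (hρm : Measurable ρ) (hρ0 : ∀ x, 0 ≤ ρ x)
    (hρi : Integrable ρ) (hρ1 : ∫ x, ρ x = 1) {F : Sp n → Sp n} (hF : Measurable F) :
    ‖∫ t, ρ t • F t‖ₑ ^ n ≤ ∫⁻ t, ENNReal.ofReal (ρ t) * ‖F t‖ₑ ^ n := by
  have hn1 : (1 : ℝ≥0∞) ≤ n := by
    have : 1 ≤ n := hn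
    exact_mod_cast this
  set ν : Measure (Sp n) := volume.withDensity fun t => ENNReal.ofReal (ρ t) with hν
  have hm : Measurable fun t => ENNReal.ofReal (ρ t) := hρm.ennreal_ofReal
  have : IsProbabilityMeasure ν := ⟨by
    rw [hν, withDensity_apply _ MeasurableSet.univ, Measure.restrict_univ,
      ← ofReal_integral_eq_lintegral_ofReal hρi (Eventually.of_forall hρ0), hρ1, ENNReal.ofReal_one]⟩
  have h1 : ‖∫ t, ρ t • F t‖ₑ ≤ eLpNorm F 1 ν := by
    refine (enorm_integral_le_lintegral_enorm _).trans (le_of_eq ?_)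
    rw [eLpNorm_one_eq_lintegral_enorm, hν, lintegral_withDensity_eq_lintegral_mul _ hm hF.enorm]
    refine lintegral_congr fun t => ?_
    rw [Pi.mul_apply, enorm_smul, Real.enorm_eq_ofReal (hρ0 t)]
  have h2 : eLpNorm F 1 ν ≤ eLpNorm F n ν :=
    eLpNorm_le_eLpNorm_of_exponent_le hn1 hF.aestronglyMeasurable
  calc ‖∫ t, ρ t • F t‖ₑ ^ n ≤ (eLpNorm F n ν) ^ n := pow_le_pow_left' (h1.trans h2) n
    _ = ∫⁻ t, ‖F t‖ₑ ^ n ∂ν := job10890_pow hn ν F
    _ = _ := by
      rw [hν, lintegral_withDensity_eq_lintegral_mul _ hm (hF.enorm.pow_const n)]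
      rfl

lemma job10890_grad_inner (u : Sp n → ℝ) (x e : Sp n) : ⟪gradient u x, e⟫ = fderiv ℝ u x e := by
  rw [gradient, InnerProductSpace.toDual_symm_apply]

/-- the gradient of the mollification -/
lemma job10890_grad (hn : 0 < n) {G : Set (Sp n)} {u : Sp n → ℝ}
    (hu : ContinuousOn u G) {H : Sp n → Sp n} (h : IsWeakGrad G u H) {K₁ : Set (Sp n)}
    (hK₁ : IsCompact K₁) (hKG : K₁ ⊆ G) {d : ℝ} (b : ContDiffBump (0 : Sp n)) (hb : b.rOut = d)
    {x : Sp n} (hx : closedBall x d ⊆ K₁) :
    gradient (convolution (b.normed volume) (K₁.indicator u) (ContinuousLinearMap.lsmul ℝ ℝ) volume) x =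
      ∫ w, b.normed volume (x - w) • H w := by
  have hd0 : 0 < d := hb ▸ b.rOut_pos
  set ρ : Sp n → ℝ := b.normed volume with hρ
  have hρs : ContDiff ℝ (⊤ : ℕ∞) ρ := b.contDiff_normed
  have hρs1 : ContDiff ℝ 1 ρ := b.contDiff_normed (n := 1)
  have hρc : HasCompactSupport ρ := b.hasCompactSupport_normed
  have hρts : tsupport ρ = closedBall 0 d := by rw [← hb]; exact b.tsupport_normed_eq
  set F : Sp n → ℝ := K₁.indicator u with hF
  have hFi : Integrable F := by
    rw [hF, integrable_indicator_iff hK₁.measurableSet]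
    exact (hu.mono hKG).integrableOn_compact hK₁
  have hFl : LocallyIntegrable F := hFi.locallyIntegrable
  set ψ : Sp n → ℝ := fun w => ρ (x - w) with hψ
  have hψs : ContDiff ℝ (⊤ : ℕ∞) ψ := hρs.comp (contDiff_const.sub contDiff_id)
  have hψts : tsupport ψ ⊆ closedBall x d := by
    refine closure_minimal ?_ isClosed_closedBall
    intro w hw
    have h7 : x - w ∈ tsupport ρ := subset_tsupport _ hw
    rw [hρts, mem_closedBall, dist_zero_right] at h7
    rw [mem_closedBall, dist_comm, dist_eq_norm]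
    exact h7
  have hψc : HasCompactSupport ψ := (isCompact_closedBall x d).of_isClosed_subset
    (isClosed_tsupport _) hψts
  have hψt : IsTest G ψ := ⟨hψs, hψc, hψts.trans (hx.trans hKG)⟩
  have hψ0 : ∀ w, w ∉ K₁ → ψ w = 0 := fun w hw =>
    image_eq_zero_of_notMem_tsupport fun hh => hw (hx (hψts hh))
  have hψd0 : ∀ w, w ∉ K₁ → gradient ψ w = 0 := fun w hw => by
    have : fderiv ℝ ψ w = 0 := by
      by_contra hne
      exact hw (hx (hψts (support_fderiv_subset ℝ (Function.mem_support.2 hne))))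
    rw [gradient, this, map_zero]
  have hgc : Continuous (gradient ψ) :=
    (InnerProductSpace.toDual ℝ (Sp n)).symm.continuous.comp (hψs.continuous_fderiv (by simp))
  have hn1 : (1 : ℝ≥0∞) ≤ n := by
    have : 1 ≤ n := hn
    exact_mod_cast this
  have hfin : IsFiniteMeasure (volume.restrict K₁ : Measure (Sp n)) :=
    ⟨by rw [Measure.restrict_apply_univ]; exact hK₁.measure_lt_top⟩
  have hI1 : Integrable (fun w => u w • gradient ψ w) := by
    rw [← integrableOn_iff_integrable_of_support_subset (s := K₁)]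
    · exact ((hu.mono hKG).smul hgc.continuousOn).integrableOn_compact hK₁
    · intro w hw
      by_contra hh
      exact hw (by simp only [hψd0 w hh, smul_zero])
  have hI2 : Integrable (fun w => ψ w • H w) := by
    rw [← integrableOn_iff_integrable_of_support_subset (s := K₁)]
    · have h1 : IntegrableOn H K₁ := (h.grad_loc K₁ hKG hK₁).integrable hn1
      exact h1.continuousOn_smul hψs.continuous.continuousOn hK₁
    · intro w hw
      by_contra hh
      exact hw (by simp only [hψ0 w hh, zero_smul])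
  show _ = ∫ w, ψ w • H w
  apply ext_inner_right ℝ
  intro e
  rw [job10890_grad_inner]
  have h1 := hρc.hasFDerivAt_convolution_left (ContinuousLinearMap.lsmul ℝ ℝ) hρs1 hFl x
  rw [h1.fderiv]
  have hex : ConvolutionExistsAt (fderiv ℝ ρ) F x
      ((ContinuousLinearMap.lsmul ℝ ℝ).precompL (Sp n)) volume :=
    (hρc.fderiv ℝ).convolutionExists_left _ (hρs1.continuous_fderiv one_ne_zero) hFl x
  have h3 : (convolution (fderiv ℝ ρ) F ((ContinuousLinearMap.lsmul ℝ ℝ).precompL (Sp n)) volume x) e
      = ∫ t, fderiv ℝ ρ t e * F (x - t) := by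
    rw [convolution_def, ContinuousLinearMap.integral_apply hex]
    rfl
  rw [h3, ← integral_sub_left_eq_self (fun t => fderiv ℝ ρ t e * F (x - t)) volume x]
  simp only [sub_sub_cancel]
  have h5 : ∀ w, fderiv ℝ ψ w e = - fderiv ℝ ρ (x - w) e := by
    intro w
    have ha : HasFDerivAt (fun w : Sp n => x - w) (-(ContinuousLinearMap.id ℝ (Sp n))) w :=
      (hasFDerivAt_id w).const_sub x
    have hb : HasFDerivAt ψ ((fderiv ℝ ρ (x - w)).comp (-(ContinuousLinearMap.id ℝ (Sp n)))) w :=
      ((hρs1.differentiable one_ne_zero (x - w)).hasFDerivAt).comp w ha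
    rw [hb.fderiv]
    simp
  have h6 : ∫ w, fderiv ℝ ρ (x - w) e * F w = - ∫ w, ⟪u w • gradient ψ w, e⟫ := by
    rw [← integral_neg]
    refine integral_congr_ae (Eventually.of_forall fun w => ?_)
    simp only
    rw [inner_smul_left, job10890_grad_inner, h5 w]
    simp only [conj_trivial]
    by_cases hw : w ∈ K₁
    · rw [hF, indicator_of_mem hw]; ring
    · have hz : fderiv ℝ ρ (x - w) e = 0 := by
        have h8 := h5 w
        rw [← job10890_grad_inner, hψd0 w hw, inner_zero_left] at h8
        linarith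
      rw [hz]; ring
  rw [h6]
  have h9 : ∫ w, ⟪u w • gradient ψ w, e⟫ = ⟪∫ w, u w • gradient ψ w, e⟫ := by
    rw [real_inner_comm, ← integral_inner hI1 e]
    refine integral_congr_ae (Eventually.of_forall fun w => ?_)
    exact real_inner_comm _ _
  rw [h9, h.ibp ψ hψt, inner_neg_left, neg_neg]

/- TARGET -/
/-- W1: mollification of a continuous Sobolev function -/
theorem approx_scalar (hn : 0 < n) {G : Set (Sp n)} (hG : IsOpen G) {u : Sp n → ℝ}
    (hu : ContinuousOn u G) {H : Sp n → Sp n} (h : IsWeakGrad G u H) {K : Set (Sp n)}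
    (hK : IsCompact K) (hKG : K ⊆ G) {ε : ℝ} (hε : 0 < ε) :
    ∃ g : Sp n → ℝ, ContDiff ℝ (⊤ : ℕ∞) g ∧ (∀ x ∈ K, |g x - u x| ≤ ε) ∧
      ∫⁻ x in K, ENNReal.ofReal (‖gradient g x - H x‖ ^ n) ≤ ENNReal.ofReal ε := by
  have hn1 : (1 : ℝ≥0∞) ≤ n := by
    have : 1 ≤ n := hn
    exact_mod_cast this
  obtain ⟨η, hη, hthick⟩ := hK.exists_cthickening_subset_open hG hKG
  set K₁ := cthickening η K with hK₁def
  have hK₁ : IsCompact K₁ := hK.cthickening
  have hKK₁ : K ⊆ K₁ := self_subset_cthickening _
  have hball : ∀ x ∈ K, ∀ d : ℝ, d ≤ η → closedBall x d ⊆ K₁ := by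
    intro x hx d hd y hy
    exact mem_cthickening_of_dist_le y x η K hx ((mem_closedBall.1 hy).trans hd)
  -- the representative
  have hHm := h.grad_loc K₁ hthick hK₁
  have hH1 : MemLp (K₁.indicator H) (n : ℝ≥0∞) volume := (memLp_indicator_iff_restrict hK₁.measurableSet).2 hHm
  set H' : Sp n → Sp n := hH1.aestronglyMeasurable.mk _ with hH'
  have hH'm : Measurable H' := hH1.aestronglyMeasurable.stronglyMeasurable_mk.measurable
  have hH'ae : K₁.indicator H =ᵐ[volume] H' := hH1.aestronglyMeasurable.ae_eq_mk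
  have hH'L : MemLp H' (n : ℝ≥0∞) volume := (memLp_congr_ae hH'ae).1 hH1
  set ε' : ℝ := min 1 ε with hε'
  have hε'0 : 0 < ε' := lt_min one_pos hε
  obtain ⟨d₁, hd₁, htr⟩ := job10890_trans hn hH'L hε'0
  obtain ⟨d₂, hd₂, huc⟩ := (Metric.uniformContinuousOn_iff.1
    (hK₁.uniformContinuousOn_of_continuous (hu.mono hthick))) ε hε
  set d : ℝ := min η (min d₁ d₂) with hd
  have hd0 : 0 < d := lt_min hη (lt_min hd₁ hd₂)
  have hdη : d ≤ η := min_le_left _ _
  have hdd₁ : d ≤ d₁ := (min_le_right _ _).trans (min_le_left _ _)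
  have hdd₂ : d ≤ d₂ := (min_le_right _ _).trans (min_le_right _ _)
  let b : ContDiffBump (0 : Sp n) := ⟨d / 2, d, by positivity, by linarith⟩
  have hFi : Integrable (K₁.indicator u) := by
    rw [integrable_indicator_iff hK₁.measurableSet]
    exact (hu.mono hthick).integrableOn_compact hK₁
  refine ⟨convolution (b.normed volume) (K₁.indicator u) (ContinuousLinearMap.lsmul ℝ ℝ) volume,
    ?_, ?_, ?_⟩
  · exact b.hasCompactSupport_normed.contDiff_convolution_left _ b.contDiff_normed hFi.locallyIntegrable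
  · intro x hx
    rw [← Real.dist_eq]
    have hFx : K₁.indicator u x = u x := indicator_of_mem (hKK₁ hx) _
    rw [← hFx]
    refine b.dist_normed_convolution_le hFi.aestronglyMeasurable fun y hy => ?_
    have hy' : dist y x < d := hy
    have hyK : y ∈ K₁ := hball x hx d hdη (ball_subset_closedBall hy)
    rw [hFx, indicator_of_mem hyK]
    exact (huc y hyK x (hKK₁ hx) (hy'.trans_le hdd₂)).le
  · set ρ : Sp n → ℝ := b.normed volume with hρ
    have hρ0 : ∀ x, 0 ≤ ρ x := b.nonneg_normed
    have hρc : HasCompactSupport ρ := b.hasCompactSupport_normed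
    have hρcont : Continuous ρ := b.continuous_normed
    have hρi : Integrable ρ := hρcont.integrable_of_hasCompactSupport hρc
    have hρ1 : ∫ x, ρ x = 1 := b.integral_normed
    have hρsupp : ∀ t, ρ t ≠ 0 → ‖t‖ < d := by
      intro t ht
      have : t ∈ Function.support ρ := ht
      rw [hρ, b.support_normed_eq] at this
      simpa [b] using this
    -- gradient formula
    have hgrad : ∀ x ∈ K, gradient (convolution ρ (K₁.indicator u)
        (ContinuousLinearMap.lsmul ℝ ℝ) volume) x - H' x = ∫ t, ρ t • (H' (x - t) - H' x) := by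
      intro x hx
      rw [hρ, job10890_grad hn hu h hK₁ hthick b rfl (hball x hx d hdη)]
      have e1 : ∫ w, b.normed volume (x - w) • H w = ∫ w, ρ (x - w) • H' w := by
        apply integral_congr_ae
        filter_upwards [hH'ae] with w hw
        by_cases hwK : w ∈ K₁
        · rw [indicator_of_mem hwK] at hw
          rw [hw]
        · have : ρ (x - w) = 0 := by
            by_contra hne
            have h7 := hρsupp _ hne
            apply hwK
            apply hball x hx d hdη
            rw [mem_closedBall, dist_comm, dist_eq_norm]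
            exact h7.le
          show ρ (x - w) • H w = _
          rw [this, zero_smul, zero_smul]
      have e2 : ∫ w, ρ (x - w) • H' w = ∫ t, ρ t • H' (x - t) := by
        rw [← integral_sub_left_eq_self (fun t => ρ t • H' (x - t)) volume x]
        simp only [sub_sub_cancel]
      have hH'i : LocallyIntegrable H' := by
        have hi : Integrable H' := by
          have h8 : Integrable (K₁.indicator H) := by
            rw [integrable_indicator_iff hK₁.measurableSet]
            have hfin : IsFiniteMeasure (volume.restrict K₁ : Measure (Sp n)) :=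
              ⟨by rw [Measure.restrict_apply_univ]; exact hK₁.measure_lt_top⟩
            exact hHm.integrable hn1
          exact h8.congr hH'ae
        exact hi.locallyIntegrable
      have e3 : Integrable (fun t => ρ t • H' (x - t)) :=
        hρc.convolutionExists_left (ContinuousLinearMap.lsmul ℝ ℝ) hρcont hH'i x
      have e4 : ∫ t, ρ t • H' x = H' x := by
        rw [integral_smul_const, hρ1, one_smul]
      have e5 : Integrable (fun t => ρ t • H' x) := hρi.smul_const _
      rw [e1, e2]
      simp only [smul_sub]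
      rw [integral_sub e3 e5, e4]
    have hgx : ∀ x ∈ K, ENNReal.ofReal (‖gradient (convolution ρ (K₁.indicator u)
        (ContinuousLinearMap.lsmul ℝ ℝ) volume) x - H' x‖ ^ n) ≤
        ∫⁻ t, ENNReal.ofReal (ρ t) * ‖H' (x - t) - H' x‖ₑ ^ n := by
      intro x hx
      rw [ENNReal.ofReal_pow (norm_nonneg _), ofReal_norm, hgrad x hx]
      exact job10890_jensen hn hρcont.measurable hρ0 hρi hρ1
        ((hH'm.comp (measurable_const.sub measurable_id)).sub_const _)
    have hHH : ∀ᵐ x ∂(volume.restrict K), H x = H' x := by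
      filter_upwards [ae_restrict_of_ae hH'ae, ae_restrict_mem hK.measurableSet] with x hx hxK
      rwa [indicator_of_mem (hKK₁ hxK)] at hx
    have hmm : Measurable fun q : Sp n × Sp n => ENNReal.ofReal (ρ q.2) * ‖H' (q.1 - q.2) - H' q.1‖ₑ ^ n := by
      have h1 : Measurable fun q : Sp n × Sp n => H' (q.1 - q.2) :=
        hH'm.comp (measurable_fst.sub measurable_snd)
      have h2 : Measurable fun q : Sp n × Sp n => H' q.1 := hH'm.comp measurable_fst
      exact ((hρcont.measurable.comp measurable_snd).ennreal_ofReal).mul ((h1.sub h2).enorm.pow_const n)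
    calc ∫⁻ x in K, ENNReal.ofReal (‖gradient (convolution ρ (K₁.indicator u)
          (ContinuousLinearMap.lsmul ℝ ℝ) volume) x - H x‖ ^ n)
        = ∫⁻ x in K, ENNReal.ofReal (‖gradient (convolution ρ (K₁.indicator u)
          (ContinuousLinearMap.lsmul ℝ ℝ) volume) x - H' x‖ ^ n) := by
          apply lintegral_congr_ae
          filter_upwards [hHH] with x hx
          rw [hx]
      _ ≤ ∫⁻ x in K, ∫⁻ t, ENNReal.ofReal (ρ t) * ‖H' (x - t) - H' x‖ₑ ^ n :=
          setLIntegral_mono' hK.measurableSet hgx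
      _ ≤ ∫⁻ x, ∫⁻ t, ENNReal.ofReal (ρ t) * ‖H' (x - t) - H' x‖ₑ ^ n := setLIntegral_le_lintegral _ _
      _ = ∫⁻ t, ∫⁻ x, ENNReal.ofReal (ρ t) * ‖H' (x - t) - H' x‖ₑ ^ n :=
          lintegral_lintegral_swap hmm.aemeasurable
      _ ≤ ∫⁻ t, ENNReal.ofReal (ρ t) * ENNReal.ofReal ε := by
          apply lintegral_mono
          intro t
          have hmt : Measurable fun x => ‖H' (x - t) - H' x‖ₑ ^ n :=
            (((hH'm.comp (measurable_id.sub_const t)).sub hH'm).enorm).pow_const n
          show ∫⁻ x, ENNReal.ofReal (ρ t) * ‖H' (x - t) - H' x‖ₑ ^ n ≤ _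
          rw [lintegral_const_mul _ hmt]
          by_cases ht : ρ t = 0
          · rw [ht]; simp
          · refine mul_le_mul' le_rfl ?_
            rw [← job10890_pow hn volume (fun x => H' (x - t) - H' x)]
            have h1 := htr t ((hρsupp t ht).trans_le hdd₁)
            refine (pow_le_pow_left' h1 n).trans ?_
            rw [← ENNReal.ofReal_pow hε'0.le]
            apply ENNReal.ofReal_le_ofReal
            calc ε' ^ n ≤ ε' ^ 1 := pow_le_pow_of_le_one hε'0.le (min_le_left _ _) hn
              _ = ε' := pow_one _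
              _ ≤ ε := min_le_right _ _
      _ = ENNReal.ofReal ε := by
          rw [lintegral_mul_const _ hρcont.measurable.ennreal_ofReal,
            ← ofReal_integral_eq_lintegral_ofReal hρi (Eventually.of_forall hρ0), hρ1,
            ENNReal.ofReal_one, one_mul]


end Pool.Agent.Helper171.NHMW
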