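import Mathlib

set_option autoImplicit false

open MeasureTheory Metric Set Filter Topology
open scoped ENNReal NNReal ContDiff

namespace Pool.Agent.Helper171.Ori

/-- ambient space with the sup norm (balls are cubes) -/
abbrev E (n : ℕ) := Fin n → ℝ

/-- `(f, D)` is, on compact subsets of `U`, a limit of smooth maps, uniformly and with
derivatives converging in `L^n`. -/
structure WA {n : ℕ} (U : Set (E n)) (f : E n → E n) (D : E n → E n →L[ℝ] E n) : Prop where
  meas : AEStronglyMeasurable D (volume.restrict U)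
  cont : ContinuousOn f U
  approx : ∀ K : Set (E n), IsCompact K → K ⊆ U → ∀ ε : ℝ, 0 < ε →
    ∃ g : E n → E n, ContDiff ℝ ∞ g ∧ (∀ x ∈ K, ‖g x - f x‖ ≤ ε) ∧
      ∫⁻ x in K, ENNReal.ofReal (‖fderiv ℝ g x - D x‖ ^ n) ≤ ENNReal.ofReal ε

/-- the (real valued) degree of the proper piece `f : V → W` is `d` -/
def IsDeg {n : ℕ} (f : E n → E n) (D : E n → E n →L[ℝ] E n) (V W : Set (E n)) (d : ℝ) : Prop :=
  ∀ Φ : E n → ℝ, Continuous Φ → HasCompactSupport Φ → tsupport Φ ⊆ W →
    ∫ x in V, Φ (f x) * (D x).det = d * ∫ y, Φ y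

/-- `f : V → W` is proper -/
def Prp {n : ℕ} (f : E n → E n) (V W : Set (E n)) : Prop :=
  MapsTo f V W ∧ ∀ K : Set (E n), IsCompact K → K ⊆ W → IsCompact (V ∩ f ⁻¹' K)

/-- `f` maps open subsets of `U` to open sets -/
def OpM {n : ℕ} (f : E n → E n) (U : Set (E n)) : Prop :=
  ∀ O : Set (E n), IsOpen O → O ⊆ U → IsOpen (f '' O)

/-- points of `U` which are alone in their fibre -/
def CC {n : ℕ} (f : E n → E n) (U : Set (E n)) : Set (E n) :=
  {x | x ∈ U ∧ ∀ x' ∈ U, f x' = f x → x' = x}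

end Pool.Agent.Helper171.Ori
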