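import Pool.Agent.Helper171.NHM.OriDefs
set_option autoImplicit false

open MeasureTheory Metric Set Filter Topology
open scoped ENNReal NNReal ContDiff

namespace Pool.Agent.Helper171.Ori

variable {n : ℕ}


theorem aux_abs_det_le (L : E n →L[ℝ] E n) : |L.det| ≤ (n.factorial : ℝ) * ‖L‖ ^ n := by
  have h1 : L.det = (LinearMap.toMatrix' (L : E n →ₗ[ℝ] E n)).det := by
    rw [LinearMap.det_toMatrix']
  have h2 := Matrix.det_le (A := LinearMap.toMatrix' (L : E n →ₗ[ℝ] E n))
    (abv := AbsoluteValue.abs (S := ℝ)) (x := ‖L‖) (by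
      intro i j
      rw [AbsoluteValue.abs_apply, LinearMap.toMatrix'_apply]
      have h3 : |(L (Pi.single j 1)) i| ≤ ‖L (Pi.single j (1 : ℝ))‖ :=
        norm_le_pi_norm (L (Pi.single j (1 : ℝ))) i
      have h4 : ‖L (Pi.single j (1 : ℝ))‖ ≤ ‖L‖ * ‖(Pi.single j (1 : ℝ) : E n)‖ :=
        L.le_opNorm _
      have h5 : ‖(Pi.single j (1 : ℝ) : E n)‖ ≤ 1 := by
        rw [pi_norm_le_iff_of_nonneg zero_le_one]
        intro k
        by_cases hk : k = j
        · subst hk
          simp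
        · simp [Pi.single_eq_of_ne hk]
      calc |(L (Pi.single j 1)) i| ≤ ‖L‖ * ‖(Pi.single j (1 : ℝ) : E n)‖ := h3.trans h4
        _ ≤ ‖L‖ * 1 := by gcongr
        _ = ‖L‖ := mul_one _)
  rw [AbsoluteValue.abs_apply, ← h1, Fintype.card_fin, nsmul_eq_mul] at h2
  exact h2

/- TARGET -/
/-- L3a -/
theorem WA.integrableOn_det {U : Set (E n)} {f : E n → E n} {D : E n → E n →L[ℝ] E n}
    (h : WA U f D) {K : Set (E n)} (hK : IsCompact K) (hKU : K ⊆ U) :
    IntegrableOn (fun x => (D x).det) K := by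
  obtain ⟨g, hg, -, hgi⟩ := h.approx K hK hKU 1 one_pos
  have hDm : AEStronglyMeasurable D (volume.restrict K) := h.meas.mono_set hKU
  have hgc : Continuous (fderiv ℝ g) := hg.continuous_fderiv (by simp)
  obtain ⟨M, hM⟩ := hK.exists_bound_of_continuousOn hgc.continuousOn
  have hKfin : volume K ≠ ⊤ := hK.measure_lt_top.ne
  have hKm : MeasurableSet K := hK.measurableSet
  have h1 : Integrable (fun x => ‖fderiv ℝ g x - D x‖ ^ n) (volume.restrict K) := by
    refine ⟨?_, ?_⟩
    · exact ((hgc.aestronglyMeasurable.sub hDm).norm).pow n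
    · rw [hasFiniteIntegral_iff_ofReal (Eventually.of_forall fun x => by positivity)]
      exact lt_of_le_of_lt hgi ENNReal.ofReal_lt_top
  have h2 : Integrable (fun _ : E n => M ^ n) (volume.restrict K) :=
    integrableOn_const hKfin
  have h3 : Integrable (fun x => (n.factorial : ℝ) * (2 ^ (n - 1) *
      (‖fderiv ℝ g x - D x‖ ^ n + M ^ n))) (volume.restrict K) :=
    ((h1.add h2).const_mul _).const_mul _
  refine Integrable.mono' h3 ?_ ?_
  · exact ContinuousLinearMap.continuous_det.comp_aestronglyMeasurable hDm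
  · filter_upwards [ae_restrict_mem hKm] with x hx
    rw [Real.norm_eq_abs]
    refine (aux_abs_det_le (D x)).trans ?_
    gcongr
    have h4 : ‖D x‖ ≤ ‖fderiv ℝ g x - D x‖ + ‖fderiv ℝ g x‖ := by
      have : D x = fderiv ℝ g x - (fderiv ℝ g x - D x) := by abel
      calc ‖D x‖ = ‖fderiv ℝ g x - (fderiv ℝ g x - D x)‖ := by rw [← this]
        _ ≤ ‖fderiv ℝ g x‖ + ‖fderiv ℝ g x - D x‖ := norm_sub_le _ _
        _ = _ := add_comm _ _
    calc ‖D x‖ ^ n ≤ (‖fderiv ℝ g x - D x‖ + ‖fderiv ℝ g x‖) ^ n := by gcongr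
      _ ≤ 2 ^ (n - 1) * (‖fderiv ℝ g x - D x‖ ^ n + ‖fderiv ℝ g x‖ ^ n) :=
          add_pow_le (norm_nonneg _) (norm_nonneg _) n
      _ ≤ 2 ^ (n - 1) * (‖fderiv ℝ g x - D x‖ ^ n + M ^ n) := by
          gcongr
          exact hM x hx



theorem norm_toMatrix_le (A : E n →L[ℝ] E n) :
    ‖(fun i j => A (Pi.single j 1) i : Fin n → Fin n → ℝ)‖ ≤ ‖A‖ := by
  rw [pi_norm_le_iff_of_nonneg (norm_nonneg _)]
  intro i
  rw [pi_norm_le_iff_of_nonneg (norm_nonneg _)]
  intro j
  have h1 : ‖(Pi.single j (1 : ℝ) : E n)‖ ≤ 1 := by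
    rw [pi_norm_le_iff_of_nonneg zero_le_one]
    intro k
    by_cases hk : k = j
    · subst hk
      simp
    · simp [hk]
  calc ‖A (Pi.single j 1) i‖ ≤ ‖A (Pi.single j 1)‖ := norm_le_pi_norm _ i
    _ ≤ ‖A‖ * ‖(Pi.single j (1 : ℝ) : E n)‖ := A.le_opNorm _
    _ ≤ ‖A‖ * 1 := by gcongr
    _ = ‖A‖ := mul_one _

theorem det_eq_row (A : E n →L[ℝ] E n) :
    A.det = (Matrix.detRowAlternating : (Fin n → ℝ) [⋀^Fin n]→ₗ[ℝ] ℝ).toMultilinearMap
      (fun i j => A (Pi.single j 1) i) := by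
  have h1 : A.det = Matrix.det (LinearMap.toMatrix' (A : E n →ₗ[ℝ] E n)) := by
    rw [LinearMap.det_toMatrix']
  rw [h1]
  change Matrix.det _ = Matrix.det _
  congr 1

theorem det_lip (n : ℕ) : ∃ C : ℝ, 0 < C ∧ ∀ A B : E n →L[ℝ] E n,
    |A.det - B.det| ≤ C * (‖B‖ + ‖A - B‖) ^ (n - 1) * ‖A - B‖ := by
  obtain ⟨C, hC, hb⟩ := MultilinearMap.exists_bound_of_continuous
    ((Matrix.detRowAlternating : (Fin n → ℝ) [⋀^Fin n]→ₗ[ℝ] ℝ).toMultilinearMap)
    (by
      change Continuous (fun M : Matrix (Fin n) (Fin n) ℝ => M.det)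
      exact continuous_id.matrix_det)
  refine ⟨C * (n + 1), by positivity, fun A B => ?_⟩
  have h1 := MultilinearMap.norm_image_sub_le_of_bound _ hC.le hb
    (fun i j => A (Pi.single j 1) i) (fun i j => B (Pi.single j 1) i)
  rw [← det_eq_row, ← det_eq_row, Real.norm_eq_abs, Fintype.card_fin] at h1
  have h2 : ‖(fun i j => A (Pi.single j 1) i : Fin n → Fin n → ℝ) -
      (fun i j => B (Pi.single j 1) i)‖ ≤ ‖A - B‖ := norm_toMatrix_le (A - B)
  have h3 : max ‖(fun i j => A (Pi.single j 1) i : Fin n → Fin n → ℝ)‖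
      ‖(fun i j => B (Pi.single j 1) i : Fin n → Fin n → ℝ)‖ ≤ ‖B‖ + ‖A - B‖ := by
    apply max_le
    · refine (norm_toMatrix_le A).trans ?_
      have := norm_add_le B (A - B)
      rwa [add_sub_cancel] at this
    · exact (norm_toMatrix_le B).trans (le_add_of_nonneg_right (norm_nonneg _))
  refine h1.trans ?_
  gcongr
  linarith

theorem young (n : ℕ) (hn : 0 < n) {a b τ : ℝ} (ha : 0 ≤ a) (hb : 0 ≤ b) (hτ : 0 < τ) :
    a ^ (n - 1) * b ≤ τ * a ^ n + τ⁻¹ ^ (n - 1) * b ^ n := by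
  obtain ⟨m, rfl⟩ : ∃ m, n = m + 1 := ⟨n - 1, by omega⟩
  simp only [Nat.add_sub_cancel]
  rcases le_or_gt b (τ * a) with h | h
  · calc a ^ m * b ≤ a ^ m * (τ * a) := by gcongr
      _ = τ * a ^ (m + 1) := by ring
      _ ≤ τ * a ^ (m + 1) + τ⁻¹ ^ m * b ^ (m + 1) := le_add_of_nonneg_right (by positivity)
  · have h1 : a ≤ τ⁻¹ * b := by
      rw [inv_mul_eq_div, le_div_iff₀ hτ]
      linarith
    calc a ^ m * b ≤ (τ⁻¹ * b) ^ m * b := by gcongr
      _ = τ⁻¹ ^ m * b ^ (m + 1) := by rw [mul_pow]; ring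
      _ ≤ τ * a ^ (m + 1) + τ⁻¹ ^ m * b ^ (m + 1) := le_add_of_nonneg_left (by positivity)

theorem add_pow_le' (n : ℕ) {a b : ℝ} (ha : 0 ≤ a) (hb : 0 ≤ b) :
    (a + b) ^ n ≤ 2 ^ n * (a ^ n + b ^ n) := by
  rcases le_total a b with h | h
  · calc (a + b) ^ n ≤ (2 * b) ^ n := by gcongr; linarith
      _ = 2 ^ n * b ^ n := mul_pow _ _ _
      _ ≤ 2 ^ n * (a ^ n + b ^ n) := by
        gcongr
        exact le_add_of_nonneg_left (by positivity)
  · calc (a + b) ^ n ≤ (2 * a) ^ n := by gcongr; linarith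
      _ = 2 ^ n * a ^ n := mul_pow _ _ _
      _ ≤ 2 ^ n * (a ^ n + b ^ n) := by
        gcongr
        exact le_add_of_nonneg_right (by positivity)

theorem integ_of_lint {K : Set (E n)} {D : E n → E n →L[ℝ] E n} {g : E n → E n}
    (hD : AEStronglyMeasurable D (volume.restrict K)) (hg : ContDiff ℝ ∞ g) {δ : ℝ} (hδ : 0 ≤ δ)
    (h : ∫⁻ x in K, ENNReal.ofReal (‖fderiv ℝ g x - D x‖ ^ n) ≤ ENNReal.ofReal δ) :
    IntegrableOn (fun x => ‖fderiv ℝ g x - D x‖ ^ n) K ∧
      ∫ x in K, ‖fderiv ℝ g x - D x‖ ^ n ≤ δ := by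
  have hgc : Continuous (fderiv ℝ g) := hg.continuous_fderiv (by simp)
  have hm : AEStronglyMeasurable (fun x => ‖fderiv ℝ g x - D x‖ ^ n) (volume.restrict K) :=
    ((hgc.aestronglyMeasurable.sub hD).norm.pow n)
  have hnn : ∀ x, 0 ≤ ‖fderiv ℝ g x - D x‖ ^ n := fun x => by positivity
  constructor
  · refine ⟨hm, ?_⟩
    rw [hasFiniteIntegral_iff_ofReal (Filter.Eventually.of_forall hnn)]
    exact h.trans_lt ENNReal.ofReal_lt_top
  · rw [integral_eq_lintegral_of_nonneg_ae (Filter.Eventually.of_forall hnn) hm]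
    exact ENNReal.toReal_le_of_le_ofReal hδ h

/- TARGET -/
/-- L3b -/
theorem WA.lim {U : Set (E n)} {f : E n → E n} {D : E n → E n →L[ℝ] E n}
    (h : WA U f D) {K : Set (E n)} (hK : IsCompact K) (hKU : K ⊆ U) {θ Ψ : E n → ℝ}
    (hθ : Continuous θ) (hΨ : Continuous Ψ) {ε : ℝ} (hε : 0 < ε) :
    ∃ δ : ℝ, 0 < δ ∧ ∀ g : E n → E n, ContDiff ℝ ∞ g → (∀ x ∈ K, ‖g x - f x‖ ≤ δ) →
      ∫⁻ x in K, ENNReal.ofReal (‖fderiv ℝ g x - D x‖ ^ n) ≤ ENNReal.ofReal δ →
      |(∫ x in K, θ x * Ψ (g x) * (fderiv ℝ g x).det) -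
        ∫ x in K, θ x * Ψ (f x) * (D x).det| ≤ ε := by
  rcases Nat.eq_zero_or_pos n with h0 | hn
  · subst h0
    refine ⟨1, one_pos, fun g _ _ _ => ?_⟩
    have h1 : ∀ x, θ x * Ψ (g x) * (fderiv ℝ g x).det = θ x * Ψ (f x) * (D x).det := by
      intro x
      rw [Subsingleton.elim (g x) (f x), Subsingleton.elim (fderiv ℝ g x) (D x)]
    simp only [h1, sub_self, abs_zero]
    exact hε.le
  have hDm : AEStronglyMeasurable D (volume.restrict K) :=
    h.meas.mono_measure (Measure.restrict_mono hKU le_rfl)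
  have hfK : ContinuousOn f K := h.cont.mono hKU
  -- `‖D‖^n` is integrable
  have hDn : IntegrableOn (fun x => ‖D x‖ ^ n) K := by
    obtain ⟨g0, hg0, -, hg0D⟩ := h.approx K hK hKU 1 one_pos
    obtain ⟨h1, -⟩ := integ_of_lint hDm hg0 zero_le_one hg0D
    have hgc : Continuous (fderiv ℝ g0) := hg0.continuous_fderiv (by simp)
    have h2 : IntegrableOn (fun x => ‖fderiv ℝ g0 x‖ ^ n) K :=
      (hgc.norm.pow n).continuousOn.integrableOn_compact hK
    refine Integrable.mono' ((h2.add h1).const_mul (2 ^ n)) (hDm.norm.pow n) ?_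
    refine Filter.Eventually.of_forall (fun x => ?_)
    rw [Real.norm_eq_abs, abs_of_nonneg (by positivity)]
    calc ‖D x‖ ^ n ≤ (‖fderiv ℝ g0 x‖ + ‖fderiv ℝ g0 x - D x‖) ^ n := by
          gcongr
          have := norm_sub_le (fderiv ℝ g0 x) (fderiv ℝ g0 x - D x)
          rwa [sub_sub_cancel] at this
      _ ≤ _ := add_pow_le' n (norm_nonneg _) (norm_nonneg _)
  obtain ⟨C, hC, hlip⟩ := det_lip n
  have hdet0 : (0 : E n →L[ℝ] E n).det = 0 := by
    have : Nonempty (Fin n) := ⟨⟨0, hn⟩⟩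
    have h1 : (0 : E n →L[ℝ] E n).det = LinearMap.det (0 : E n →ₗ[ℝ] E n) := rfl
    rw [h1]
    apply LinearMap.det_zero''
  have hdetD : ∀ A : E n →L[ℝ] E n, |A.det| ≤ C * ‖A‖ ^ n := by
    intro A
    have h1 := hlip A 0
    rw [hdet0, sub_zero, sub_zero, norm_zero, zero_add, mul_assoc, ← pow_succ,
      Nat.sub_add_cancel hn] at h1
    exact h1
  obtain ⟨Mθ, hMθ⟩ := hK.exists_bound_of_continuousOn hθ.continuousOn
  have hL : IsCompact (cthickening 1 (f '' K)) := (hK.image_of_continuousOn hfK).cthickening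
  obtain ⟨MΨ, hMΨ⟩ := hL.exists_bound_of_continuousOn hΨ.continuousOn
  have hunif := hL.uniformContinuousOn_of_continuous hΨ.continuousOn
  set I : ℝ := ∫ x in K, ‖D x‖ ^ n with hI
  have hI0 : 0 ≤ I := integral_nonneg (fun x => by positivity)
  set Mt : ℝ := max Mθ 0 with hMt
  set Mp : ℝ := max MΨ 0 with hMp
  have hMt0 : 0 ≤ Mt := le_max_right _ _
  have hMp0 : 0 ≤ Mp := le_max_right _ _
  obtain ⟨w, hw, hwb⟩ : ∃ w : ℝ, 0 < w ∧ Mt * w * C * I ≤ ε / 3 := by
    refine ⟨ε / 3 / (Mt * C * I + 1), by positivity, ?_⟩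
    have h1 : 0 < Mt * C * I + 1 := by positivity
    have : Mt * (ε / 3 / (Mt * C * I + 1)) * C * I =
        (ε / 3) * ((Mt * C * I) / (Mt * C * I + 1)) := by
      field_simp
    rw [this]
    have h2 : (Mt * C * I) / (Mt * C * I + 1) ≤ 1 := by
      rw [div_le_one h1]
      linarith
    nlinarith
  obtain ⟨τ, hτ, hτb⟩ : ∃ τ : ℝ, 0 < τ ∧ Mt * Mp * C * (τ * 2 ^ n * (I + 1)) ≤ ε / 3 := by
    refine ⟨ε / 3 / (Mt * Mp * C * 2 ^ n * (I + 1) + 1), by positivity, ?_⟩
    have h1 : 0 < Mt * Mp * C * 2 ^ n * (I + 1) + 1 := by positivity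
    have : Mt * Mp * C * (ε / 3 / (Mt * Mp * C * 2 ^ n * (I + 1) + 1) * 2 ^ n * (I + 1)) =
        (ε / 3) * ((Mt * Mp * C * 2 ^ n * (I + 1)) / (Mt * Mp * C * 2 ^ n * (I + 1) + 1)) := by
      field_simp
    rw [this]
    have h2 : (Mt * Mp * C * 2 ^ n * (I + 1)) / (Mt * Mp * C * 2 ^ n * (I + 1) + 1) ≤ 1 := by
      rw [div_le_one h1]
      linarith
    nlinarith
  obtain ⟨δ1, hδ1, hδ1b⟩ : ∃ δ1 : ℝ, 0 < δ1 ∧ Mt * Mp * C * (τ⁻¹ ^ (n - 1) * δ1) ≤ ε / 3 := by
    refine ⟨ε / 3 / (Mt * Mp * C * τ⁻¹ ^ (n - 1) + 1), by positivity, ?_⟩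
    have h1 : 0 < Mt * Mp * C * τ⁻¹ ^ (n - 1) + 1 := by positivity
    have : Mt * Mp * C * (τ⁻¹ ^ (n - 1) * (ε / 3 / (Mt * Mp * C * τ⁻¹ ^ (n - 1) + 1))) =
        (ε / 3) * ((Mt * Mp * C * τ⁻¹ ^ (n - 1)) / (Mt * Mp * C * τ⁻¹ ^ (n - 1) + 1)) := by
      field_simp
    rw [this]
    have h2 : (Mt * Mp * C * τ⁻¹ ^ (n - 1)) / (Mt * Mp * C * τ⁻¹ ^ (n - 1) + 1) ≤ 1 := by
      rw [div_le_one h1]
      linarith
    nlinarith
  obtain ⟨δ2, hδ2, hδ2b⟩ := Metric.uniformContinuousOn_iff.mp hunif w hw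
  refine ⟨min (min 1 δ1) (δ2 / 2), by positivity, fun g hg hgf hgD => ?_⟩
  have hgc : Continuous (fderiv ℝ g) := hg.continuous_fderiv (by simp)
  obtain ⟨hdI, hdJ⟩ := integ_of_lint hDm hg (by positivity) hgD
  have hFg : IntegrableOn (fun x => θ x * Ψ (g x) * (fderiv ℝ g x).det) K :=
    (((hθ.mul (hΨ.comp hg.continuous)).mul
      (ContinuousLinearMap.continuous_det.comp hgc))).continuousOn.integrableOn_compact hK
  have hθx : ∀ x ∈ K, |θ x| ≤ Mt := fun x hx => (hMθ x hx).trans (le_max_left _ _)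
  have hfL : ∀ x ∈ K, f x ∈ cthickening 1 (f '' K) := fun x hx =>
    self_subset_cthickening _ ⟨x, hx, rfl⟩
  have hgL : ∀ x ∈ K, g x ∈ cthickening 1 (f '' K) := fun x hx =>
    mem_cthickening_of_dist_le _ (f x) _ _ ⟨x, hx, rfl⟩ (by
      rw [dist_eq_norm]
      exact (hgf x hx).trans ((min_le_left _ _).trans (min_le_left _ _)))
  have hΨf : ∀ x ∈ K, |Ψ (f x)| ≤ Mp := fun x hx => (hMΨ _ (hfL x hx)).trans (le_max_left _ _)
  have hΨg : ∀ x ∈ K, |Ψ (g x)| ≤ Mp := fun x hx => (hMΨ _ (hgL x hx)).trans (le_max_left _ _)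
  have hΨd : ∀ x ∈ K, |Ψ (g x) - Ψ (f x)| ≤ w := by
    intro x hx
    have := hδ2b (g x) (hgL x hx) (f x) (hfL x hx) (by
      rw [dist_eq_norm]
      exact ((hgf x hx).trans (min_le_right _ _)).trans_lt (by linarith))
    rw [Real.dist_eq] at this
    exact this.le
  have hFfm : AEStronglyMeasurable (fun x => θ x * Ψ (f x) * (D x).det) (volume.restrict K) := by
    refine AEStronglyMeasurable.mul (AEStronglyMeasurable.mul hθ.aestronglyMeasurable ?_) ?_
    · exact (hΨ.comp_continuousOn hfK).aestronglyMeasurable hK.measurableSet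
    · exact ContinuousLinearMap.continuous_det.comp_aestronglyMeasurable hDm
  have hFf : IntegrableOn (fun x => θ x * Ψ (f x) * (D x).det) K := by
    refine Integrable.mono' (hDn.const_mul (Mt * Mp * C)) hFfm ?_
    rw [ae_restrict_iff' hK.measurableSet]
    refine Filter.Eventually.of_forall (fun x hx => ?_)
    rw [Real.norm_eq_abs, abs_mul, abs_mul]
    calc |θ x| * |Ψ (f x)| * |(D x).det| ≤ Mt * Mp * (C * ‖D x‖ ^ n) := by
          gcongr
          · exact hθx x hx
          · exact hΨf x hx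
          · exact hdetD _
      _ = _ := by ring
  rw [← integral_sub hFg hFf]
  set G : E n → ℝ := fun x => (Mt * Mp * C * τ * 2 ^ n + Mt * w * C) * ‖D x‖ ^ n +
    (Mt * Mp * C * (τ * 2 ^ n + τ⁻¹ ^ (n - 1))) * ‖fderiv ℝ g x - D x‖ ^ n with hG
  have hGi : IntegrableOn G K := Integrable.add (hDn.const_mul _) (hdI.const_mul _)
  have hGint : ∫ x in K, G x = (Mt * Mp * C * τ * 2 ^ n + Mt * w * C) * I +
      (Mt * Mp * C * (τ * 2 ^ n + τ⁻¹ ^ (n - 1))) * ∫ x in K, ‖fderiv ℝ g x - D x‖ ^ n := by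
    rw [hI, ← integral_const_mul, ← integral_const_mul,
      ← integral_add (hDn.const_mul _) (hdI.const_mul _)]
  have hle : |∫ x in K, (θ x * Ψ (g x) * (fderiv ℝ g x).det - θ x * Ψ (f x) * (D x).det)| ≤
      ∫ x in K, G x := by
    rw [← Real.norm_eq_abs]
    refine norm_integral_le_of_norm_le hGi ?_
    rw [ae_restrict_iff' hK.measurableSet]
    refine Filter.Eventually.of_forall (fun x hx => ?_)
    rw [Real.norm_eq_abs]
    have e1 : θ x * Ψ (g x) * (fderiv ℝ g x).det - θ x * Ψ (f x) * (D x).det =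
        θ x * Ψ (g x) * ((fderiv ℝ g x).det - (D x).det) +
          θ x * (Ψ (g x) - Ψ (f x)) * (D x).det := by ring
    rw [e1]
    refine (abs_add_le _ _).trans ?_
    rw [abs_mul, abs_mul, abs_mul, abs_mul]
    have e2 := hlip (fderiv ℝ g x) (D x)
    have e3 := young n hn (a := ‖D x‖ + ‖fderiv ℝ g x - D x‖) (b := ‖fderiv ℝ g x - D x‖)
      (by positivity) (by positivity) hτ
    have e4 := add_pow_le' n (norm_nonneg (D x)) (norm_nonneg (fderiv ℝ g x - D x))
    have e5 : |(fderiv ℝ g x).det - (D x).det| ≤ C * (τ * (2 ^ n * (‖D x‖ ^ n +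
        ‖fderiv ℝ g x - D x‖ ^ n)) + τ⁻¹ ^ (n - 1) * ‖fderiv ℝ g x - D x‖ ^ n) := by
      refine e2.trans ?_
      rw [mul_assoc]
      refine mul_le_mul_of_nonneg_left (e3.trans ?_) hC.le
      gcongr
    have e6 : |θ x| * |Ψ (g x)| * |(fderiv ℝ g x).det - (D x).det| ≤ Mt * Mp *
        (C * (τ * (2 ^ n * (‖D x‖ ^ n + ‖fderiv ℝ g x - D x‖ ^ n)) +
          τ⁻¹ ^ (n - 1) * ‖fderiv ℝ g x - D x‖ ^ n)) := by
      gcongr
      · exact hθx x hx
      · exact hΨg x hx
    have e7 : |θ x| * |Ψ (g x) - Ψ (f x)| * |(D x).det| ≤ Mt * w * (C * ‖D x‖ ^ n) := by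
      gcongr
      · exact hθx x hx
      · exact hΨd x hx
      · exact hdetD _
    rw [hG]
    calc _ ≤ _ := add_le_add e6 e7
      _ = _ := by ring
  refine hle.trans ?_
  rw [hGint]
  have hJ1 : ∫ x in K, ‖fderiv ℝ g x - D x‖ ^ n ≤ 1 :=
    hdJ.trans ((min_le_left _ _).trans (min_le_left _ _))
  have hJ2 : ∫ x in K, ‖fderiv ℝ g x - D x‖ ^ n ≤ δ1 :=
    hdJ.trans ((min_le_left _ _).trans (min_le_right _ _))
  have f1 : Mt * Mp * C * (τ * 2 ^ n * (I + ∫ x in K, ‖fderiv ℝ g x - D x‖ ^ n)) ≤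
      Mt * Mp * C * (τ * 2 ^ n * (I + 1)) := by gcongr
  have f2 : Mt * Mp * C * (τ⁻¹ ^ (n - 1) * ∫ x in K, ‖fderiv ℝ g x - D x‖ ^ n) ≤
      Mt * Mp * C * (τ⁻¹ ^ (n - 1) * δ1) := by gcongr
  have f3 : (Mt * Mp * C * τ * 2 ^ n + Mt * w * C) * I +
      (Mt * Mp * C * (τ * 2 ^ n + τ⁻¹ ^ (n - 1))) * ∫ x in K, ‖fderiv ℝ g x - D x‖ ^ n =
      Mt * Mp * C * (τ * 2 ^ n * (I + ∫ x in K, ‖fderiv ℝ g x - D x‖ ^ n)) +
      Mt * Mp * C * (τ⁻¹ ^ (n - 1) * ∫ x in K, ‖fderiv ℝ g x - D x‖ ^ n) +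
      Mt * w * C * I := by ring
  rw [f3]
  linarith



theorem S1_young (n : ℕ) (hn : 1 ≤ n) (t δ : ℝ) (ht : 0 ≤ t) (hδ : 0 < δ) :
    t ≤ δ + (1 / δ ^ (n - 1)) * t ^ n := by
  by_cases h : t ≤ δ
  · have : 0 ≤ (1 / δ ^ (n - 1)) * t ^ n := by positivity
    linarith
  · push Not at h
    have h1 : δ ^ (n - 1) ≤ t ^ (n - 1) := pow_le_pow_left₀ hδ.le h.le _
    have h2 : t ≤ (1 / δ ^ (n - 1)) * t ^ n := by
      rw [one_div, inv_mul_eq_div, le_div_iff₀ (by positivity)]
      calc t * δ ^ (n - 1) ≤ t * t ^ (n - 1) := mul_le_mul_of_nonneg_left h1 ht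
        _ = t ^ n := by rw [← pow_succ', Nat.sub_add_cancel hn]
    linarith

theorem S1_diff {n : ℕ} (g : E n → E n) (hg : ContDiff ℝ 1 g) (z h : E n) :
    ‖g (z + h) - g z‖ₑ ≤ ‖h‖ₑ * ∫⁻ t in Ioc (0:ℝ) 1, ‖fderiv ℝ g (z + t • h)‖ₑ := by
  have hd : ∀ t : ℝ, HasDerivAt (fun t : ℝ => g (z + t • h)) (fderiv ℝ g (z + t • h) h) t := by
    intro t
    have h1 : HasDerivAt (fun t : ℝ => z + t • h) h t := by
      simpa using ((hasDerivAt_id t).smul_const h).const_add z
    exact ((hg.differentiable (by norm_num)) (z + t • h)).hasFDerivAt.comp_hasDerivAt t h1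
  have hc0 : Continuous (fderiv ℝ g) := hg.continuous_fderiv (by norm_num)
  have hc1 : Continuous (fun t : ℝ => z + t • h) := by fun_prop
  have hcont : Continuous (fun t : ℝ => fderiv ℝ g (z + t • h) h) :=
    (hc0.comp hc1).clm_apply continuous_const
  have hF := intervalIntegral.integral_eq_sub_of_hasDerivAt (fun t _ => hd t)
    (hcont.intervalIntegrable 0 1)
  have e1 : g (z + h) - g z = ∫ t in (0:ℝ)..1, fderiv ℝ g (z + t • h) h := by
    rw [hF]; simp
  rw [e1, intervalIntegral.integral_of_le zero_le_one]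
  refine (enorm_integral_le_lintegral_enorm _).trans ?_
  rw [← lintegral_const_mul' _ _ enorm_ne_top]
  apply lintegral_mono
  intro t
  show ‖fderiv ℝ g (z + t • h) h‖ₑ ≤ ‖h‖ₑ * ‖fderiv ℝ g (z + t • h)‖ₑ
  rw [mul_comm]
  exact ContinuousLinearMap.le_opENorm _ _

theorem S1_transl {n : ℕ} (F : E n → ℝ≥0∞) (hF : Continuous F) (B K : Set (E n))
    (hB : MeasurableSet B) (hK : MeasurableSet K) (h : E n)
    (hBK : ∀ z ∈ B, ∀ t ∈ Ioc (0:ℝ) 1, z + t • h ∈ K) :
    ∫⁻ z in B, ∫⁻ t in Ioc (0:ℝ) 1, F (z + t • h) ≤ ∫⁻ z in K, F z := by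
  rw [lintegral_lintegral_swap]
  · calc ∫⁻ t in Ioc (0:ℝ) 1, ∫⁻ z in B, F (z + t • h)
        ≤ ∫⁻ t in Ioc (0:ℝ) 1, ∫⁻ z in K, F z := by
          apply setLIntegral_mono' measurableSet_Ioc
          intro t ht
          rw [← lintegral_indicator hB, ← lintegral_indicator hK]
          calc ∫⁻ z, B.indicator (fun z => F (z + t • h)) z
              ≤ ∫⁻ z, K.indicator F (z + t • h) := by
                apply lintegral_mono
                intro z
                by_cases hz : z ∈ B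
                · show B.indicator (fun z => F (z + t • h)) z ≤ K.indicator F (z + t • h)
                  rw [indicator_of_mem hz, indicator_of_mem (hBK z hz t ht)]
                · show B.indicator (fun z => F (z + t • h)) z ≤ K.indicator F (z + t • h)
                  rw [indicator_of_notMem hz]
                  exact bot_le
            _ = ∫⁻ z, K.indicator F z := lintegral_add_right_eq_self _ _
      _ = ∫⁻ z in K, F z := by
          rw [setLIntegral_const, Real.volume_Ioc]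
          simp
  · apply Continuous.aemeasurable
    exact hF.comp (continuous_fst.add (continuous_snd.smul continuous_const))

/- TARGET -/
/-- S1 -/
theorem const_of_zero {O : Set (E n)} {f : E n → E n} {D : E n → E n →L[ℝ] E n} (hO : IsOpen O)
    (h : WA O f D) (h0 : ∀ᵐ x ∂(volume.restrict O), D x = 0) {x : E n} (hx : x ∈ O) :
    ∃ r : ℝ, 0 < r ∧ ∀ z ∈ ball x r, f z = f x := by
  rcases Nat.eq_zero_or_pos n with hn0 | hn
  · subst hn0
    exact ⟨1, one_pos, fun z _ => Subsingleton.elim _ _⟩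
  obtain ⟨R, hR, hRO⟩ := Metric.isOpen_iff.mp hO x hx
  set r := R / 4 with hr
  have hrp : 0 < r := by positivity
  set K := closedBall x (2 * r) with hK
  have hKO : K ⊆ O := (closedBall_subset_ball (by linarith)).trans hRO
  have hKc : IsCompact K := isCompact_closedBall x (2 * r)
  set B := ball x r with hB
  have hBK : B ⊆ K := ball_subset_closedBall.trans (closedBall_subset_closedBall (by linarith))
  refine ⟨r, hrp, ?_⟩
  intro w hw
  set h' : E n := w - x with hh'
  have hnorm : ‖h'‖ < r := by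
    rw [hh', ← dist_eq_norm]
    exact hw
  have hBh : ∀ z ∈ B, ∀ t : ℝ, 0 ≤ t → t ≤ 1 → z + t • h' ∈ K := by
    intro z hz t ht0 ht1
    rw [hK, mem_closedBall, dist_eq_norm]
    have h1 : ‖z - x‖ < r := by
      rw [← dist_eq_norm]
      exact hz
    have h2 : ‖t • h'‖ ≤ r := by
      rw [norm_smul, Real.norm_eq_abs, abs_of_nonneg ht0]
      calc t * ‖h'‖ ≤ 1 * ‖h'‖ := mul_le_mul_of_nonneg_right ht1 (norm_nonneg _)
        _ ≤ r := by rw [one_mul]; exact hnorm.le
    calc ‖z + t • h' - x‖ = ‖(z - x) + t • h'‖ := by congr 1; abel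
      _ ≤ ‖z - x‖ + ‖t • h'‖ := norm_add_le _ _
      _ ≤ 2 * r := by linarith
  have hBh1 : ∀ z ∈ B, z + h' ∈ K := by
    intro z hz
    have := hBh z hz 1 zero_le_one le_rfl
    rwa [one_smul] at this
  set C : ℝ≥0∞ := 2 * volume B + ‖h'‖ₑ * (volume K + 1) with hCdef
  have hC : C ≠ ⊤ := by
    have h1 : volume B ≠ ⊤ := (measure_ball_lt_top).ne
    have h2 : volume K ≠ ⊤ := hKc.measure_lt_top.ne
    apply ENNReal.add_ne_top.mpr
    exact ⟨ENNReal.mul_ne_top (by norm_num) h1,
      ENNReal.mul_ne_top enorm_ne_top (ENNReal.add_ne_top.mpr ⟨h2, by norm_num⟩)⟩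
  -- main estimate
  have hmain : ∀ δ : ℝ, 0 < δ → δ ≤ 1 →
      ∫⁻ z in B, ‖f (z + h') - f z‖ₑ ≤ ENNReal.ofReal δ * C := by
    intro δ hδ hδ1
    obtain ⟨g, hg, hgf, hgD⟩ := h.approx K hKc hKO (δ ^ n) (by positivity)
    have hδn : δ ^ n ≤ δ := by
      calc δ ^ n ≤ δ ^ 1 := pow_le_pow_of_le_one hδ.le hδ1 hn
        _ = δ := pow_one δ
    have hg1 : ContDiff ℝ 1 g := hg.of_le (by exact_mod_cast le_top)
    have hcF : Continuous (fun y => ‖fderiv ℝ g y‖ₑ) :=
      (hg1.continuous_fderiv (by norm_num)).enorm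
    have hD0 : ∀ᵐ y ∂(volume.restrict K), D y = 0 := ae_restrict_of_ae_restrict_of_subset hKO h0
    have hgD' : ∫⁻ y in K, ENNReal.ofReal (‖fderiv ℝ g y‖ ^ n) ≤ ENNReal.ofReal (δ ^ n) := by
      refine le_trans (le_of_eq ?_) hgD
      apply lintegral_congr_ae
      filter_upwards [hD0] with y hy
      rw [hy, sub_zero]
    have hIF : ∫⁻ y in K, ‖fderiv ℝ g y‖ₑ ≤ ENNReal.ofReal δ * (volume K + 1) := by
      calc ∫⁻ y in K, ‖fderiv ℝ g y‖ₑ
          ≤ ∫⁻ y in K, (ENNReal.ofReal δ + ENNReal.ofReal (1 / δ ^ (n - 1)) *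
              ENNReal.ofReal (‖fderiv ℝ g y‖ ^ n)) := by
            apply lintegral_mono
            intro y
            show ‖fderiv ℝ g y‖ₑ ≤ ENNReal.ofReal δ + ENNReal.ofReal (1 / δ ^ (n - 1)) *
              ENNReal.ofReal (‖fderiv ℝ g y‖ ^ n)
            rw [← ENNReal.ofReal_mul (by positivity), ← ENNReal.ofReal_add hδ.le (by positivity),
              ← ofReal_norm]
            exact ENNReal.ofReal_le_ofReal (S1_young n hn _ δ (norm_nonneg _) hδ)
        _ = ENNReal.ofReal δ * volume K + ENNReal.ofReal (1 / δ ^ (n - 1)) *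
              ∫⁻ y in K, ENNReal.ofReal (‖fderiv ℝ g y‖ ^ n) := by
            rw [lintegral_add_left measurable_const, setLIntegral_const,
              lintegral_const_mul' _ _ ENNReal.ofReal_ne_top]
        _ ≤ ENNReal.ofReal δ * volume K + ENNReal.ofReal (1 / δ ^ (n - 1)) *
              ENNReal.ofReal (δ ^ n) := by
            gcongr
        _ = ENNReal.ofReal δ * (volume K + 1) := by
            rw [← ENNReal.ofReal_mul (by positivity), mul_add, mul_one]
            congr 2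
            have e : δ ^ n = δ ^ (n - 1) * δ := by
              rw [← pow_succ, Nat.sub_add_cancel hn]
            rw [e]
            field_simp
    calc ∫⁻ z in B, ‖f (z + h') - f z‖ₑ
        ≤ ∫⁻ z in B, (2 * ENNReal.ofReal δ + ‖h'‖ₑ *
            ∫⁻ t in Ioc (0:ℝ) 1, ‖fderiv ℝ g (z + t • h')‖ₑ) := by
          apply setLIntegral_mono' measurableSet_ball
          intro z hz
          have h1 : ‖f (z + h') - g (z + h')‖ₑ ≤ ENNReal.ofReal δ := by
            rw [← ofReal_norm, norm_sub_rev]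
            exact ENNReal.ofReal_le_ofReal ((hgf _ (hBh1 z hz)).trans hδn)
          have h2 : ‖g z - f z‖ₑ ≤ ENNReal.ofReal δ := by
            rw [← ofReal_norm]
            exact ENNReal.ofReal_le_ofReal ((hgf _ (hBK hz)).trans hδn)
          have h3 := S1_diff g hg1 z h'
          have e : f (z + h') - f z = (f (z + h') - g (z + h')) + (g z - f z) +
              (g (z + h') - g z) := by abel
          rw [e]
          calc ‖(f (z + h') - g (z + h')) + (g z - f z) + (g (z + h') - g z)‖ₑ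
              ≤ ‖f (z + h') - g (z + h')‖ₑ + ‖g z - f z‖ₑ + ‖g (z + h') - g z‖ₑ :=
                (enorm_add_le _ _).trans (add_le_add (enorm_add_le _ _) le_rfl)
            _ ≤ ENNReal.ofReal δ + ENNReal.ofReal δ + ‖h'‖ₑ *
                ∫⁻ t in Ioc (0:ℝ) 1, ‖fderiv ℝ g (z + t • h')‖ₑ := by
                gcongr
            _ = _ := by rw [two_mul]
      _ = 2 * ENNReal.ofReal δ * volume B + ‖h'‖ₑ *
            ∫⁻ z in B, ∫⁻ t in Ioc (0:ℝ) 1, ‖fderiv ℝ g (z + t • h')‖ₑ := by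
          rw [lintegral_add_left measurable_const, setLIntegral_const,
            lintegral_const_mul' _ _ enorm_ne_top]
      _ ≤ 2 * ENNReal.ofReal δ * volume B + ‖h'‖ₑ * (ENNReal.ofReal δ * (volume K + 1)) := by
          gcongr
          exact (S1_transl _ hcF B K measurableSet_ball hKc.isClosed.measurableSet h'
            (fun z hz t ht => hBh z hz t ht.1.le ht.2)).trans hIF
      _ = ENNReal.ofReal δ * C := by
          rw [hCdef]
          ring
  have hzero : ∫⁻ z in B, ‖f (z + h') - f z‖ₑ = 0 := by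
    apply le_antisymm _ bot_le
    have ht : Tendsto (fun k : ℕ => ENNReal.ofReal (1 / ((k : ℝ) + 1)) * C) atTop
        (𝓝 (ENNReal.ofReal 0 * C)) :=
      ENNReal.Tendsto.mul_const ((ENNReal.continuous_ofReal.tendsto 0).comp
        tendsto_one_div_add_atTop_nhds_zero_nat) (Or.inr hC)
    rw [ENNReal.ofReal_zero, zero_mul] at ht
    refine ge_of_tendsto' ht (fun k => hmain _ (by positivity) ?_)
    rw [div_le_one (by positivity)]
    have : (0 : ℝ) ≤ k := Nat.cast_nonneg k
    linarith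
  have hc1 : ContinuousOn (fun z => f (z + h')) B :=
    h.cont.comp (continuous_id.add continuous_const).continuousOn (fun z hz => hKO (hBh1 z hz))
  have hc2 : ContinuousOn f B := h.cont.mono (hBK.trans hKO)
  have hae : (fun z => f (z + h')) =ᵐ[volume.restrict B] f := by
    have hm : AEMeasurable (fun z => ‖f (z + h') - f z‖ₑ) (volume.restrict B) :=
      ((hc1.sub hc2).aestronglyMeasurable measurableSet_ball).enorm
    rw [lintegral_eq_zero_iff' hm] at hzero
    filter_upwards [hzero] with z hz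
    have hz' : ‖f (z + h') - f z‖ₑ = 0 := hz
    rw [enorm_eq_zero] at hz'
    exact sub_eq_zero.mp hz'
  have heq := Measure.eqOn_open_of_ae_eq hae isOpen_ball hc1 hc2
  have hfin : f (x + h') = f x := heq (mem_ball_self hrp)
  rw [← hfin, hh']
  congr 1
  abel




/- TARGET -/

/-- continuous approximations of the indicator of a compact set -/
theorem exists_bumps {L W : Set (E n)} (hL : IsCompact L) (hW : IsOpen W) (hLW : L ⊆ W) :
    ∃ (K' : Set (E n)) (Φ : ℕ → E n → ℝ), IsCompact K' ∧ K' ⊆ W ∧ (∀ k, Continuous (Φ k)) ∧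
      (∀ k y, 0 ≤ Φ k y) ∧ (∀ k y, Φ k y ≤ 1) ∧ (∀ k y, y ∉ K' → Φ k y = 0) ∧
      ∀ y, Tendsto (fun k => Φ k y) atTop (𝓝 (L.indicator (fun _ => (1 : ℝ)) y)) := by
  obtain ⟨δ, hδ, hsub⟩ := hL.exists_cthickening_subset_open hW hLW
  have hpos : ∀ k : ℕ, 0 < δ / ((k : ℝ) + 1) := fun k => by positivity
  have hlim : Tendsto (fun k : ℕ => δ / ((k : ℝ) + 1)) atTop (𝓝 0) := by
    have h1 := (tendsto_one_div_add_atTop_nhds_zero_nat (𝕜 := ℝ)).const_mul δ
    rw [mul_zero] at h1
    refine h1.congr (fun k => ?_)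
    ring
  refine ⟨cthickening δ L, fun k y => ((thickenedIndicator (hpos k) L y : ℝ≥0) : ℝ),
    hL.cthickening, hsub, ?_, ?_, ?_, ?_, ?_⟩
  · intro k
    exact NNReal.continuous_coe.comp (thickenedIndicator (hpos k) L).continuous
  · intro k y
    exact NNReal.coe_nonneg _
  · intro k y
    exact_mod_cast thickenedIndicator_le_one (hpos k) L y
  · intro k y hy
    have h1 : y ∉ thickening (δ / ((k : ℝ) + 1)) L := by
      intro h
      apply hy
      refine cthickening_mono ?_ L (thickening_subset_cthickening _ _ h)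
      apply div_le_self hδ.le
      have : (0 : ℝ) ≤ k := Nat.cast_nonneg k
      linarith
    simp only [thickenedIndicator_zero (hpos k) L h1, NNReal.coe_zero]
  · intro y
    have h1 := thickenedIndicator_tendsto_indicator_closure hpos hlim L
    rw [tendsto_pi_nhds] at h1
    have h2 := (NNReal.continuous_coe.tendsto _).comp (h1 y)
    rw [hL.isClosed.closure_eq] at h2
    have e : ((L.indicator (fun _ => (1 : ℝ≥0)) y : ℝ≥0) : ℝ) = L.indicator (fun _ => (1 : ℝ)) y := by
      by_cases hy : y ∈ L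
      · simp [hy]
      · simp [hy]
    rw [e] at h2
    exact h2

/-- integral of the determinant over compact saturated sets -/
theorem det_integral_eq {V W C : Set (E n)} {f : E n → E n} {D : E n → E n →L[ℝ] E n}
    (hV : IsOpen V) (hW : IsOpen W) (h : WA V f D) (hp : Prp f V W) {d : ℝ}
    (hd : IsDeg f D V W d) (hCV : C ⊆ V)
    (hsat : ∀ x ∈ C, ∀ x' ∈ V, f x' = f x → x' = x) {K : Set (E n)} (hK : IsCompact K)
    (hKC : K ⊆ C) : ∫ x in K, (D x).det = d * volume.real (f '' K) := by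
  have hKV : K ⊆ V := hKC.trans hCV
  have hL : IsCompact (f '' K) := hK.image_of_continuousOn (h.cont.mono hKV)
  have hLW : f '' K ⊆ W := by
    rintro _ ⟨x, hx, rfl⟩
    exact hp.1 (hKV hx)
  have hmem : ∀ x ∈ V, (f x ∈ f '' K ↔ x ∈ K) := by
    intro x hx
    constructor
    · rintro ⟨z, hz, hzx⟩
      have := hsat z (hKC hz) x hx hzx.symm
      rwa [this]
    · exact fun hx' => mem_image_of_mem f hx'
  obtain ⟨K', Φ, hK', hK'W, hc, h0, h1, hz, hl⟩ := exists_bumps hL hW hLW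
  set S : Set (E n) := V ∩ f ⁻¹' K' with hS
  have hSc : IsCompact S := hp.2 K' hK' hK'W
  have hint := h.integrableOn_det hSc inter_subset_left
  have hmf : AEStronglyMeasurable f (volume.restrict V) := h.cont.aestronglyMeasurable hV.measurableSet
  have hmD : AEStronglyMeasurable (fun x => (D x).det) (volume.restrict V) :=
    ContinuousLinearMap.continuous_det.comp_aestronglyMeasurable h.meas
  have T1 : Tendsto (fun k => ∫ x in V, Φ k (f x) * (D x).det) atTop
      (𝓝 (∫ x in V, K.indicator (fun x => (D x).det) x)) := by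
    refine tendsto_integral_of_dominated_convergence (S.indicator (fun x => |(D x).det|)) ?_ ?_ ?_ ?_
    · intro k
      exact ((hc k).comp_aestronglyMeasurable hmf).mul hmD
    · have h2 : IntegrableOn (fun x => |(D x).det|) S := hint.abs
      exact (h2.integrable_indicator hSc.measurableSet).mono_measure Measure.restrict_le_self
    · intro k
      refine ae_restrict_of_forall_mem hV.measurableSet (fun x hx => ?_)
      by_cases hxS : x ∈ S
      · rw [indicator_of_mem hxS, Real.norm_eq_abs, abs_mul, abs_of_nonneg (h0 k (f x))]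
        exact mul_le_of_le_one_left (abs_nonneg _) (h1 k (f x))
      · have : Φ k (f x) = 0 := hz k _ (fun hh => hxS ⟨hx, hh⟩)
        rw [indicator_of_notMem hxS, this, zero_mul, norm_zero]
    · refine ae_restrict_of_forall_mem hV.measurableSet (fun x hx => ?_)
      have h2 := (hl (f x)).mul_const ((D x).det)
      have h3 : (f '' K).indicator (fun _ => (1 : ℝ)) (f x) * (D x).det =
          K.indicator (fun x => (D x).det) x := by
        by_cases hxK : x ∈ K
        · rw [indicator_of_mem hxK, indicator_of_mem ((hmem x hx).2 hxK), one_mul]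
        · rw [indicator_of_notMem hxK, indicator_of_notMem (fun hh => hxK ((hmem x hx).1 hh)),
            zero_mul]
      rw [h3] at h2
      exact h2
  have T2 : Tendsto (fun k => ∫ y, Φ k y) atTop
      (𝓝 (∫ y, (f '' K).indicator (fun _ => (1 : ℝ)) y)) := by
    refine tendsto_integral_of_dominated_convergence (K'.indicator (fun _ => (1 : ℝ))) ?_ ?_ ?_ ?_
    · intro k
      exact (hc k).aestronglyMeasurable
    · have h2 : IntegrableOn (fun _ : E n => (1 : ℝ)) K' := integrableOn_const hK'.measure_lt_top.ne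
      exact h2.integrable_indicator hK'.measurableSet
    · intro k
      refine Eventually.of_forall (fun y => ?_)
      rw [Real.norm_eq_abs, abs_of_nonneg (h0 k y)]
      by_cases hy : y ∈ K'
      · rw [indicator_of_mem hy]
        exact h1 k y
      · rw [indicator_of_notMem hy, hz k y hy]
    · exact Eventually.of_forall (fun y => hl y)
  have e1 : ∀ k, ∫ x in V, Φ k (f x) * (D x).det = d * ∫ y, Φ k y := by
    intro k
    have hsupp : Function.support (Φ k) ⊆ K' := by
      intro y hy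
      by_contra hcon
      exact hy (hz k y hcon)
    refine hd (Φ k) (hc k) (HasCompactSupport.intro hK' (fun y hy => hz k y hy)) ?_
    exact (closure_minimal hsupp hK'.isClosed).trans hK'W
  have T3 := T2.const_mul d
  have e2 := tendsto_nhds_unique (T1.congr e1) T3
  rw [setIntegral_indicator hK.measurableSet, inter_eq_self_of_subset_right hKV,
    integral_indicator_const _ hL.measurableSet] at e2
  rw [e2]
  simp

theorem ae_nonneg_of_compact {V C : Set (E n)} (hCm : MeasurableSet C) (hCV : C ⊆ V) {g : E n → ℝ}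
    (hg : AEStronglyMeasurable g (volume.restrict V))
    (hi : ∀ K : Set (E n), IsCompact K → K ⊆ C → IntegrableOn g K)
    (hk : ∀ K : Set (E n), IsCompact K → K ⊆ C → 0 ≤ ∫ x in K, g x) :
    ∀ᵐ x ∂(volume.restrict C), 0 ≤ g x := by
  have hg2 : AEStronglyMeasurable g (volume.restrict C) :=
    hg.mono_measure (Measure.restrict_mono hCV le_rfl)
  set g' := hg2.mk g with hg'
  have hgm : StronglyMeasurable g' := hg2.stronglyMeasurable_mk
  have hae : g =ᵐ[volume.restrict C] g' := hg2.ae_eq_mk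
  have hmain : ∀ᵐ x ∂(volume.restrict C), 0 ≤ g' x := by
    rw [ae_iff]
    have hms : MeasurableSet {x | ¬ 0 ≤ g' x} := by
      simp only [not_le]
      exact measurableSet_lt hgm.measurable measurable_const
    rw [Measure.restrict_apply hms]
    by_contra hne
    have hpos : 0 < volume ({x | ¬ 0 ≤ g' x} ∩ C) := pos_iff_ne_zero.2 hne
    obtain ⟨K, hKs, hK, hKpos⟩ := (hms.inter hCm).exists_lt_isCompact hpos
    have hKC : K ⊆ C := fun x hx => (hKs hx).2
    have hae2 : g =ᵐ[volume.restrict K] g' := ae_mono (Measure.restrict_mono hKC le_rfl) hae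
    have h1 := hk K hK hKC
    rw [integral_congr_ae hae2] at h1
    have hint : IntegrableOn g' K := (hi K hK hKC).congr hae2
    have hneg : ∀ x ∈ K, g' x < 0 := fun x hx => not_le.1 (hKs hx).1
    have h2 : 0 < ∫ x in K, -g' x := by
      rw [setIntegral_pos_iff_support_of_nonneg_ae]
      · have : Function.support (fun x => -g' x) ∩ K = K := by
          apply inter_eq_self_of_subset_right
          intro x hx
          have := hneg x hx
          simp only [Function.mem_support]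
          linarith
        rw [this]
        exact hKpos
      · refine ae_restrict_of_forall_mem hK.measurableSet (fun x hx => ?_)
        have := hneg x hx
        simp only [Pi.zero_apply]
        linarith
      · exact hint.neg
    rw [integral_neg] at h2
    linarith
  filter_upwards [hae, hmain] with x hx1 hx2
  rw [hx1]
  exact hx2

/-- S2 -/
theorem sat_sign {V W C : Set (E n)} {f : E n → E n} {D : E n → E n →L[ℝ] E n}
    (hV : IsOpen V) (hW : IsOpen W) (h : WA V f D) (hp : Prp f V W) {d : ℝ}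
    (hd : IsDeg f D V W d) (hCV : C ⊆ V) (hC : IsOpen (V \ C))
    (hsat : ∀ x ∈ C, ∀ x' ∈ V, f x' = f x → x' = x) :
    (∀ᵐ x ∂(volume.restrict C), 0 ≤ d * (D x).det) ∧
      (d = 0 → ∀ᵐ x ∂(volume.restrict C), (D x).det = 0) := by
  have hCm : MeasurableSet C := by
    have h1 : C = V \ (V \ C) := by
      rw [sdiff_sdiff_right_self]
      exact (inter_eq_self_of_subset_right hCV).symm
    rw [h1]
    exact hV.measurableSet.diff hC.measurableSet
  have hmD : AEStronglyMeasurable (fun x => (D x).det) (volume.restrict V) :=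
    ContinuousLinearMap.continuous_det.comp_aestronglyMeasurable h.meas
  have hdi : ∀ K : Set (E n), IsCompact K → K ⊆ C → IntegrableOn (fun x => (D x).det) K :=
    fun K hK hKC => h.integrableOn_det hK (hKC.trans hCV)
  have hde := fun (K : Set (E n)) (hK : IsCompact K) (hKC : K ⊆ C) =>
    det_integral_eq hV hW h hp hd hCV hsat hK hKC
  constructor
  · refine ae_nonneg_of_compact hCm hCV (hmD.const_mul d) (fun K hK hKC => (hdi K hK hKC).const_mul d)
      (fun K hK hKC => ?_)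
    rw [integral_const_mul, hde K hK hKC, ← mul_assoc]
    exact mul_nonneg (mul_self_nonneg d) measureReal_nonneg
  · intro hd0
    have h1 := ae_nonneg_of_compact hCm hCV hmD hdi (fun K hK hKC => by
      rw [hde K hK hKC, hd0, zero_mul])
    have h2 := ae_nonneg_of_compact hCm hCV hmD.neg (fun K hK hKC => (hdi K hK hKC).neg)
      (fun K hK hKC => by
        show 0 ≤ ∫ x in K, -((D x).det)
        rw [integral_neg, hde K hK hKC, hd0, zero_mul, neg_zero])
    filter_upwards [h1, h2] with x hx1 hx2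
    simp only [Pi.neg_apply] at hx2
    linarith



theorem deg_sign_int_10364 {V W : Set (E n)} {f : E n → E n} {j : E n → ℝ}
    (hV : IsOpen V) (hf : ContinuousOn f V) (hp : Prp f V W)
    (hji : ∀ K : Set (E n), IsCompact K → K ⊆ W → IntegrableOn j (V ∩ f ⁻¹' K))
    {Φ : E n → ℝ} (h1 : Continuous Φ) (h2 : HasCompactSupport Φ) (h3 : tsupport Φ ⊆ W) :
    IntegrableOn (fun x => Φ (f x) * j x) V := by
  obtain ⟨C, hC⟩ := h2.exists_bound_of_continuous h1
  have hK : IsCompact (V ∩ f ⁻¹' tsupport Φ) := hp.2 _ h2 h3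
  have hΦm : AEStronglyMeasurable (fun x => Φ (f x)) (volume.restrict V) :=
    (h1.comp_continuousOn hf).aestronglyMeasurable hV.measurableSet
  have hI : IntegrableOn (fun x => Φ (f x) * j x) (V ∩ f ⁻¹' tsupport Φ) := by
    refine Integrable.bdd_mul (c := C) (hji _ h2 h3)
      (hΦm.mono_measure (Measure.restrict_mono inter_subset_left le_rfl)) ?_
    exact Filter.Eventually.of_forall fun x => hC (f x)
  refine hI.of_forall_diff_eq_zero hV.measurableSet ?_
  rintro x ⟨hx, hx'⟩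
  have : Φ (f x) = 0 := by
    apply image_eq_zero_of_notMem_tsupport
    intro h
    exact hx' ⟨hx, h⟩
  rw [this, zero_mul]

/- TARGET -/
/-- S3 -/
theorem deg_sign {V W : Set (E n)} {f : E n → E n} {j : E n → ℝ}
    (hV : IsOpen V) (hW : IsOpen W) (hf : ContinuousOn f V) (hp : Prp f V W)
    (hj : AEStronglyMeasurable j (volume.restrict V))
    (hji : ∀ K : Set (E n), IsCompact K → K ⊆ W → IntegrableOn j (V ∩ f ⁻¹' K)) {d : ℝ}
    (hd : ∀ Φ : E n → ℝ, Continuous Φ → HasCompactSupport Φ → tsupport Φ ⊆ W →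
      ∫ x in V, Φ (f x) * j x = d * ∫ y, Φ y)
    (hne : W.Nonempty) (hs : ∀ᵐ x ∂(volume.restrict V), 0 ≤ j x) :
    0 ≤ d ∧ (d = 0 → ∀ᵐ x ∂(volume.restrict V), j x = 0) := by
  have hex : ∀ y ∈ W, ∃ Φ : E n → ℝ, tsupport Φ ⊆ W ∧ HasCompactSupport Φ ∧ Continuous Φ ∧
      (∀ z, 0 ≤ Φ z) ∧ Φ y = 1 := by
    intro y hy
    obtain ⟨Φ, h1, h2, h3, h4, h5⟩ := exists_contDiff_tsupport_subset (n := 0) (hW.mem_nhds hy)
    exact ⟨Φ, h1, h2, h3.continuous, fun z => (h4 ⟨z, rfl⟩).1, h5⟩
  have hnn : ∀ Φ : E n → ℝ, (∀ z, 0 ≤ Φ z) →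
      0 ≤ᵐ[volume.restrict V] fun x => Φ (f x) * j x := by
    intro Φ h
    filter_upwards [hs] with x hx
    exact mul_nonneg (h _) hx
  constructor
  · obtain ⟨y, hy⟩ := hne
    obtain ⟨Φ, h1, h2, h3, h4, h5⟩ := hex y hy
    have hpos : 0 < ∫ z, Φ z :=
      h3.integral_pos_of_hasCompactSupport_nonneg_nonzero h2 h4 (by rw [h5]; exact one_ne_zero)
    have h6 := hd Φ h3 h2 h1
    have h7 : 0 ≤ ∫ x in V, Φ (f x) * j x := integral_nonneg_of_ae (hnn Φ h4)
    rw [h6] at h7
    by_contra hneg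
    have := mul_neg_of_neg_of_pos (not_le.1 hneg) hpos
    linarith
  · intro hd0
    choose! Φ h1 h2 h3 h4 h5 using hex
    obtain ⟨t, htW, htc, hcov⟩ := TopologicalSpace.countable_cover_nhdsWithin
      (f := fun y => {z | Φ y z ≠ 0}) (s := W) (fun y hy => by
        refine mem_nhdsWithin_of_mem_nhds (IsOpen.mem_nhds ?_ ?_)
        · exact isOpen_ne_fun (h3 y hy) continuous_const
        · show Φ y y ≠ 0
          rw [h5 y hy]
          exact one_ne_zero)
    have hz : ∀ y ∈ t, ∀ᵐ x ∂(volume.restrict V), Φ y (f x) * j x = 0 := by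
      intro y hy
      have hyW := htW hy
      have h6 := hd (Φ y) (h3 y hyW) (h2 y hyW) (h1 y hyW)
      rw [hd0, zero_mul] at h6
      exact (integral_eq_zero_iff_of_nonneg_ae (hnn (Φ y) (h4 y hyW))
        (deg_sign_int_10364 hV hf hp hji (h3 y hyW) (h2 y hyW) (h1 y hyW))).1 h6
    have hall := (ae_ball_iff htc).2 hz
    filter_upwards [hall, ae_restrict_mem hV.measurableSet] with x hx hxV
    have hfx := hcov (hp.1 hxV)
    simp only [mem_iUnion] at hfx
    obtain ⟨y, hy, hyx⟩ := hfx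
    rcases mul_eq_zero.1 (hx y hy) with h | h
    · exact absurd h hyx
    · exact h




/-- translation identities for a smooth bump -/
theorem cgz_shift {n : ℕ} (χ : E n → ℝ) (hχ : ContDiff ℝ ∞ χ) (hχc : HasCompactSupport χ) (ε : ℝ)
    (hχs : tsupport χ ⊆ closedBall 0 ε) (z : E n) :
    ContDiff ℝ ∞ (fun y => χ (y - z)) ∧ HasCompactSupport (fun y => χ (y - z)) ∧
      tsupport (fun y => χ (y - z)) ⊆ closedBall z ε := by
  have h1 : (fun y => χ (y - z)) = χ ∘ (Homeomorph.subRight z) := rfl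
  refine ⟨hχ.comp (contDiff_id.sub contDiff_const), ?_, ?_⟩
  · rw [h1]; exact hχc.comp_homeomorph _
  · rw [h1, tsupport_comp_eq_preimage]
    intro y hy
    have := hχs hy
    rw [mem_closedBall_zero_iff] at this
    rw [mem_closedBall, dist_eq_norm]
    exact this

theorem cgz_g_const {n : ℕ} {X : Type*} [MeasurableSpace X] (ρ : Measure X) (f : X → E n)
    (hf : Measurable f) (j : X → ℝ) (hj : Integrable j ρ) (z0 : E n) (r : ℝ)
    (h0 : ∀ (ψ : E n → ℝ) (i : Fin n), ContDiff ℝ ∞ ψ → HasCompactSupport ψ →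
      tsupport ψ ⊆ closedBall z0 (3 * r) → ∫ x, fderiv ℝ ψ (f x) (Pi.single i 1) * j x ∂ρ = 0)
    (χ : E n → ℝ) (hχ : ContDiff ℝ ∞ χ) (hχc : HasCompactSupport χ)
    (hχs : tsupport χ ⊆ closedBall 0 r) {z z' : E n} (hz : z ∈ ball z0 r) (hz' : z' ∈ ball z0 r) :
    ∫ x, χ (f x - z) * j x ∂ρ = ∫ x, χ (f x - z') * j x ∂ρ := by
  have hχ1 : ContDiff ℝ 1 χ := hχ.of_le (by exact_mod_cast le_top)
  have hdc : Continuous (fderiv ℝ χ) := hχ1.continuous_fderiv (by norm_num)
  obtain ⟨C, hC⟩ := hdc.bounded_above_of_compact_support (hχc.fderiv (𝕜 := ℝ))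
  obtain ⟨C0, hC0⟩ := hχ.continuous.bounded_above_of_compact_support hχc
  have hder : ∀ z ∈ ball z0 r, HasFDerivAt (fun z => ∫ x, χ (f x - z) * j x ∂ρ) (0 : E n →L[ℝ] ℝ) z := by
    intro z hz
    have hF' : Integrable (fun x => -(j x • fderiv ℝ χ (f x - z))) ρ := by
      apply Integrable.neg
      refine Integrable.mono' (hj.norm.const_mul C) ?_ ?_
      · apply AEStronglyMeasurable.smul hj.aestronglyMeasurable
        exact (hdc.measurable.comp (hf.sub_const z)).aestronglyMeasurable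
      · refine Filter.Eventually.of_forall (fun x => ?_)
        rw [norm_smul, mul_comm]
        exact mul_le_mul_of_nonneg_right (hC _) (norm_nonneg _)
    have hmain := hasFDerivAt_integral_of_dominated_of_fderiv_le (μ := ρ) (𝕜 := ℝ)
      (F := fun (z : E n) (x : X) => χ (f x - z) * j x) (x₀ := z)
      (F' := fun (z : E n) (x : X) => -(j x • fderiv ℝ χ (f x - z)))
      (bound := fun x => C * ‖j x‖) (s := univ) univ_mem
      (Filter.Eventually.of_forall (fun z => by
        apply AEStronglyMeasurable.mul _ hj.aestronglyMeasurable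
        exact (hχ.continuous.measurable.comp (hf.sub_const z)).aestronglyMeasurable))
      (by
        refine Integrable.mono' (hj.norm.const_mul C0) ?_ ?_
        · apply AEStronglyMeasurable.mul _ hj.aestronglyMeasurable
          exact (hχ.continuous.measurable.comp (hf.sub_const z)).aestronglyMeasurable
        · refine Filter.Eventually.of_forall (fun x => ?_)
          rw [norm_mul]
          exact mul_le_mul_of_nonneg_right (hC0 _) (norm_nonneg _))
      hF'.aestronglyMeasurable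
      (Filter.Eventually.of_forall (fun x z _ => by
        rw [norm_neg, norm_smul, mul_comm]
        exact mul_le_mul_of_nonneg_right (hC _) (norm_nonneg _)))
      (hj.norm.const_mul C)
      (Filter.Eventually.of_forall (fun x z _ => by
        have h1 : HasFDerivAt χ (fderiv ℝ χ (f x - z)) (f x - z) :=
          (hχ1.differentiable (by norm_num)).differentiableAt.hasFDerivAt
        have h2 : HasFDerivAt (fun z : E n => f x - z) (-(ContinuousLinearMap.id ℝ (E n))) z := by
          simpa using (hasFDerivAt_id (𝕜 := ℝ) z).const_sub (f x)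
        have h3 := (h1.comp z h2).mul_const (j x)
        have h4 : j x • (fderiv ℝ χ (f x - z)).comp (-(ContinuousLinearMap.id ℝ (E n))) =
            -(j x • fderiv ℝ χ (f x - z)) := by
          ext v
          simp
        rw [← h4]
        exact h3))
    have hzero : ∫ x, -(j x • fderiv ℝ χ (f x - z)) ∂ρ = 0 := by
      apply ContinuousLinearMap.coe_injective
      apply LinearMap.pi_ext'
      intro i
      ext
      simp only [LinearMap.coe_comp, Function.comp_apply, LinearMap.coe_single,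
        ContinuousLinearMap.coe_coe, ContinuousLinearMap.toLinearMap_zero, LinearMap.zero_apply,
        LinearMap.zero_comp]
      rw [ContinuousLinearMap.integral_apply hF']
      obtain ⟨h1, h2, h3⟩ := cgz_shift χ hχ hχc r hχs z
      have h4 := h0 (fun y => χ (y - z)) i h1 h2 (h3.trans (by
        apply closedBall_subset_closedBall'
        rw [mem_ball] at hz
        linarith [dist_nonneg (x := z) (y := z0)]))
      have h5 : (fun x => (-(j x • fderiv ℝ χ (f x - z))) (Pi.single i 1)) =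
          fun x => -(fderiv ℝ (fun y => χ (y - z)) (f x) (Pi.single i 1) * j x) := by
        funext x
        rw [fderiv_comp_sub]
        simp [mul_comm]
      rw [h5, integral_neg, h4, neg_zero]
    rw [hzero] at hmain
    exact hmain
  exact isOpen_ball.is_const_of_fderiv_eq_zero (𝕜 := ℝ) (convex_ball z0 r).isPreconnected
    (fun z hz => (hder z hz).differentiableAt.differentiableWithinAt)
    (fun z hz => (hder z hz).fderiv) hz hz'


theorem cgz_approx {n : ℕ} {X : Type*} [MeasurableSpace X] (ρ : Measure X) [SFinite ρ] (f : X → E n)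
    (hf : Measurable f) (j : X → ℝ) (hj : Integrable j ρ) (z0 : E n) (r : ℝ) (hr : 0 < r)
    (h0 : ∀ (ψ : E n → ℝ) (i : Fin n), ContDiff ℝ ∞ ψ → HasCompactSupport ψ →
      tsupport ψ ⊆ closedBall z0 (3 * r) → ∫ x, fderiv ℝ ψ (f x) (Pi.single i 1) * j x ∂ρ = 0)
    (φ : ContDiffBump (0 : E n)) (hφ : φ.rOut ≤ r) (ε : ℝ) (hε : 0 ≤ ε)
    (Φ : E n → ℝ) (hΦ : Continuous Φ) (hΦc : HasCompactSupport Φ) (hΦs : tsupport Φ ⊆ ball z0 r)
    (hu : ∀ x y : E n, dist x y < φ.rOut → dist (Φ x) (Φ y) ≤ ε) :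
    |∫ x, Φ (f x) * j x ∂ρ - (∫ x, φ.normed volume (f x - z0) * j x ∂ρ) * ∫ y, Φ y| ≤
      ε * ∫ x, ‖j x‖ ∂ρ := by
  set χ := φ.normed (volume : Measure (E n)) with hχdef
  have hχ : ContDiff ℝ ∞ χ := φ.contDiff_normed
  have hχc : HasCompactSupport χ := φ.hasCompactSupport_normed
  have hχs : tsupport χ ⊆ closedBall 0 r := by
    rw [hχdef, φ.tsupport_normed_eq]
    exact closedBall_subset_closedBall hφ
  obtain ⟨C0, hC0⟩ := hχ.continuous.bounded_above_of_compact_support hχc
  obtain ⟨C1, hC1⟩ := hΦ.bounded_above_of_compact_support hΦc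
  have hΦi : Integrable Φ := hΦ.integrable_of_hasCompactSupport hΦc
  -- convolution
  have hconv : ∀ y, |(∫ t, χ (y - t) * Φ t) - Φ y| ≤ ε := by
    intro y
    have h1 := ContDiffBump.dist_normed_convolution_le (φ := φ) (g := Φ) (μ := (volume : Measure (E n)))
      (x₀ := y) (ε := ε) hΦ.aestronglyMeasurable (fun x hx => hu x y (by simpa using hx))
    rw [convolution_lsmul_swap, Real.dist_eq] at h1
    exact h1
  -- Fubini
  have hfub : ∫ x, (∫ t, χ (f x - t) * Φ t) * j x ∂ρ = ∫ t, (∫ x, χ (f x - t) * j x ∂ρ) * Φ t := by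
    have h1 : ∀ x, (∫ t, χ (f x - t) * Φ t) * j x = ∫ t, χ (f x - t) * Φ t * j x := by
      intro x
      rw [integral_mul_const]
    simp_rw [h1]
    rw [integral_integral_swap]
    · congr 1
      funext t
      rw [← integral_mul_const]
      congr 1
      funext x
      ring
    · refine Integrable.mono' ((hj.norm.mul_prod hΦi.norm).const_mul C0) ?_ ?_
      · apply AEStronglyMeasurable.mul
        · apply Measurable.aestronglyMeasurable
          apply Measurable.mul
          · exact hχ.continuous.measurable.comp ((hf.comp measurable_fst).sub measurable_snd)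
          · exact hΦ.measurable.comp measurable_snd
        · exact hj.aestronglyMeasurable.comp_fst
      · refine Filter.Eventually.of_forall (fun p => ?_)
        simp only [Function.uncurry]
        rw [norm_mul, norm_mul]
        have h2 := hC0 (f p.1 - p.2)
        have h3 : 0 ≤ ‖Φ p.2‖ * ‖j p.1‖ := by positivity
        nlinarith
  have hconst : ∫ t, (∫ x, χ (f x - t) * j x ∂ρ) * Φ t = (∫ x, χ (f x - z0) * j x ∂ρ) * ∫ t, Φ t := by
    rw [← integral_const_mul]
    congr 1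
    funext t
    by_cases ht : t ∈ ball z0 r
    · rw [cgz_g_const ρ f hf j hj z0 r h0 χ hχ hχc hχs ht (mem_ball_self hr)]
    · have h1 : Φ t = 0 := by
        by_contra h2
        exact ht (hΦs (subset_tsupport _ h2))
      rw [h1, mul_zero, mul_zero]
  rw [← hconst, ← hfub, ← integral_sub]
  · have h1 : ∀ x, Φ (f x) * j x - (∫ t, χ (f x - t) * Φ t) * j x =
        (Φ (f x) - (∫ t, χ (f x - t) * Φ t)) * j x := fun x => by ring
    simp_rw [h1]
    rw [← integral_const_mul, ← Real.norm_eq_abs]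
    refine norm_integral_le_of_norm_le (hj.norm.const_mul ε) (Filter.Eventually.of_forall (fun x => ?_))
    rw [norm_mul]
    apply mul_le_mul_of_nonneg_right _ (norm_nonneg _)
    rw [Real.norm_eq_abs, abs_sub_comm]
    exact hconv (f x)
  · refine Integrable.mono' (hj.norm.const_mul C1) ?_ ?_
    · exact (hΦ.measurable.comp hf).aestronglyMeasurable.mul hj.aestronglyMeasurable
    · refine Filter.Eventually.of_forall (fun x => ?_)
      rw [norm_mul]
      exact mul_le_mul_of_nonneg_right (hC1 _) (norm_nonneg _)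
  · have hcm : Measurable (fun y : E n => ∫ t, χ (y - t) * Φ t) := by
      have : StronglyMeasurable (fun y : E n => ∫ t, χ (y - t) * Φ t) := by
        apply StronglyMeasurable.integral_prod_right'
          (f := fun p : E n × E n => χ (p.1 - p.2) * Φ p.2)
        apply Measurable.stronglyMeasurable
        apply Measurable.mul
        · exact hχ.continuous.measurable.comp (measurable_fst.sub measurable_snd)
        · exact hΦ.measurable.comp measurable_snd
      exact this.measurable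
    refine Integrable.mono' (hj.norm.const_mul (C1 + ε)) ?_ ?_
    · exact (hcm.comp hf).aestronglyMeasurable.mul hj.aestronglyMeasurable
    · refine Filter.Eventually.of_forall (fun x => ?_)
      rw [norm_mul]
      apply mul_le_mul_of_nonneg_right _ (norm_nonneg _)
      have h1 := hconv (f x)
      have h2 := hC1 (f x)
      rw [Real.norm_eq_abs] at h2 ⊢
      have h3 : (∫ t, χ (f x - t) * Φ t) = ((∫ t, χ (f x - t) * Φ t) - Φ (f x)) + Φ (f x) := by ring
      rw [h3]
      refine (abs_add_le _ _).trans ?_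
      linarith

theorem cgz_local {n : ℕ} {X : Type*} [MeasurableSpace X] (ρ : Measure X) [SFinite ρ] (f : X → E n)
    (hf : Measurable f) (j : X → ℝ) (hj : Integrable j ρ) (z0 : E n) (r : ℝ) (hr : 0 < r)
    (h0 : ∀ (ψ : E n → ℝ) (i : Fin n), ContDiff ℝ ∞ ψ → HasCompactSupport ψ →
      tsupport ψ ⊆ closedBall z0 (3 * r) → ∫ x, fderiv ℝ ψ (f x) (Pi.single i 1) * j x ∂ρ = 0)
    (Φ Ψ : E n → ℝ) (hΦ : Continuous Φ) (hΦc : HasCompactSupport Φ) (hΦs : tsupport Φ ⊆ ball z0 r)
    (hΨ : Continuous Ψ) (hΨc : HasCompactSupport Ψ) (hΨs : tsupport Ψ ⊆ ball z0 r)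
    (hΨ1 : ∫ y, Ψ y = 1) :
    ∫ x, Φ (f x) * j x ∂ρ = (∫ x, Ψ (f x) * j x ∂ρ) * ∫ y, Φ y := by
  set J := ∫ x, ‖j x‖ ∂ρ with hJ
  have hJ0 : 0 ≤ J := integral_nonneg (fun x => norm_nonneg _)
  set I := ∫ y, Φ y with hI
  have key : ∀ ε : ℝ, 0 < ε → |∫ x, Φ (f x) * j x ∂ρ - (∫ x, Ψ (f x) * j x ∂ρ) * I| ≤
      ε * (J * (1 + |I|)) := by
    intro ε hε
    have hu1 := hΦc.uniformContinuous_of_continuous hΦ
    have hu2 := hΨc.uniformContinuous_of_continuous hΨ
    rw [Metric.uniformContinuous_iff] at hu1 hu2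
    obtain ⟨δ1, hδ1, h1⟩ := hu1 ε hε
    obtain ⟨δ2, hδ2, h2⟩ := hu2 ε hε
    let φ : ContDiffBump (0 : E n) := ⟨min r (min δ1 δ2) / 2, min r (min δ1 δ2), by positivity,
      half_lt_self (by positivity)⟩
    have hφo : φ.rOut = min r (min δ1 δ2) := rfl
    have h3 := cgz_approx ρ f hf j hj z0 r hr h0 φ (by rw [hφo]; exact min_le_left _ _) ε hε.le Φ hΦ hΦc hΦs
      (fun x y hxy => (h1 (hxy.trans_le (by rw [hφo]; exact (min_le_right _ _).trans (min_le_left _ _)))).le)
    have h4 := cgz_approx ρ f hf j hj z0 r hr h0 φ (by rw [hφo]; exact min_le_left _ _) ε hε.le Ψ hΨ hΨc hΨs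
      (fun x y hxy => (h2 (hxy.trans_le (by rw [hφo]; exact (min_le_right _ _).trans (min_le_right _ _)))).le)
    rw [hΨ1, mul_one] at h4
    set c := ∫ x, φ.normed volume (f x - z0) * j x ∂ρ with hc
    set A := ∫ x, Φ (f x) * j x ∂ρ with hA
    set B := ∫ x, Ψ (f x) * j x ∂ρ with hB
    have h5 : A - B * I = (A - c * I) - (B - c) * I := by ring
    rw [h5]
    refine (abs_sub _ _).trans ?_
    rw [abs_mul]
    have h6 : |B - c| * |I| ≤ (ε * J) * |I| := mul_le_mul_of_nonneg_right h4 (abs_nonneg _)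
    calc |A - c * I| + |B - c| * |I| ≤ ε * J + (ε * J) * |I| := add_le_add h3 h6
      _ = ε * (J * (1 + |I|)) := by ring
  have hlim : |∫ x, Φ (f x) * j x ∂ρ - (∫ x, Ψ (f x) * j x ∂ρ) * I| ≤ 0 := by
    apply le_of_forall_pos_le_add
    intro ε hε
    have hpos : 0 < J * (1 + |I|) + 1 := by positivity
    have := key (ε / (J * (1 + |I|) + 1)) (by positivity)
    refine this.trans ?_
    rw [zero_add, div_mul_eq_mul_div, div_le_iff₀ hpos]
    nlinarith
  have := abs_nonpos_iff.mp hlim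
  linarith

theorem cgz_meas {n : ℕ} {V : Set (E n)} {f : E n → E n} (hV : IsOpen V) (hf : ContinuousOn f V)
    {K : Set (E n)} (hK : IsClosed K) : MeasurableSet (V ∩ f ⁻¹' K) := by
  obtain ⟨u, hu1, hu2⟩ := continuousOn_iff_isClosed.mp hf K hK
  rw [Set.inter_comm, hu2]
  exact hu1.measurableSet.inter hV.measurableSet

theorem cgz_local_V {n : ℕ} {V W : Set (E n)} {f : E n → E n} {j : E n → ℝ}
    (hV : IsOpen V) (hf : ContinuousOn f V)
    (hji : ∀ K : Set (E n), IsCompact K → K ⊆ W → IntegrableOn j (V ∩ f ⁻¹' K))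
    (h0 : ∀ (ψ : E n → ℝ) (i : Fin n), ContDiff ℝ ∞ ψ → HasCompactSupport ψ → tsupport ψ ⊆ W →
      ∫ x in V, fderiv ℝ ψ (f x) (Pi.single i 1) * j x = 0)
    (z0 : E n) (r : ℝ) (hr : 0 < r) (hrW : closedBall z0 (3 * r) ⊆ W)
    (Φ Ψ : E n → ℝ) (hΦ : Continuous Φ) (hΦc : HasCompactSupport Φ) (hΦs : tsupport Φ ⊆ ball z0 r)
    (hΨ : Continuous Ψ) (hΨc : HasCompactSupport Ψ) (hΨs : tsupport Ψ ⊆ ball z0 r)
    (hΨ1 : ∫ y, Ψ y = 1) :
    ∫ x in V, Φ (f x) * j x = (∫ x in V, Ψ (f x) * j x) * ∫ y, Φ y := by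
  have hSm := cgz_meas hV hf (K := closedBall z0 (3 * r)) isClosed_closedBall
  have hint := hji _ (isCompact_closedBall z0 (3 * r)) hrW
  have hae : AEMeasurable f (volume.restrict (V ∩ f ⁻¹' closedBall z0 (3 * r))) :=
    (hf.aemeasurable hV.measurableSet).mono_measure (Measure.restrict_mono inter_subset_left le_rfl)
  have hred : ∀ F : E n → ℝ, (∀ y, y ∉ closedBall z0 (3 * r) → F y = 0) →
      ∫ x in V, F (f x) * j x =
        ∫ x, F (hae.mk f x) * j x ∂(volume.restrict (V ∩ f ⁻¹' closedBall z0 (3 * r))) := by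
    intro F hF
    rw [setIntegral_eq_of_subset_of_forall_sdiff_eq_zero hV.measurableSet
      (s := V ∩ f ⁻¹' closedBall z0 (3 * r)) inter_subset_left]
    · apply integral_congr_ae
      filter_upwards [hae.ae_eq_mk] with x hx
      rw [hx]
    · intro x hx
      have : f x ∉ closedBall z0 (3 * r) := fun h => hx.2 ⟨hx.1, h⟩
      rw [hF _ this, zero_mul]
  have hts : ∀ F : E n → ℝ, tsupport F ⊆ closedBall z0 (3 * r) →
      ∀ y, y ∉ closedBall z0 (3 * r) → F y = 0 := by
    intro F hF y hy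
    by_contra h
    exact hy (hF (subset_tsupport _ h))
  have hbb : ball z0 r ⊆ closedBall z0 (3 * r) :=
    ball_subset_closedBall.trans (closedBall_subset_closedBall (by linarith))
  rw [hred Φ (hts Φ (hΦs.trans hbb)), hred Ψ (hts Ψ (hΨs.trans hbb))]
  refine cgz_local _ (hae.mk f) hae.measurable_mk j hint z0 r hr ?_ Φ Ψ hΦ hΦc hΦs hΨ hΨc hΨs hΨ1
  intro ψ i h1 h2 h3
  have h4 := h0 ψ i h1 h2 (h3.trans hrW)
  have h5 := hred (fun y => fderiv ℝ ψ y (Pi.single i 1)) (by
    intro y hy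
    have : fderiv ℝ ψ y = 0 := by
      by_contra h
      exact hy (h3 (tsupport_fderiv_subset ℝ (subset_tsupport _ h)))
    rw [this]; rfl)
  rw [h4] at h5
  exact h5.symm

theorem cgz_int {n : ℕ} {V W : Set (E n)} {f : E n → E n} {j : E n → ℝ}
    (hV : IsOpen V) (hf : ContinuousOn f V)
    (hji : ∀ K : Set (E n), IsCompact K → K ⊆ W → IntegrableOn j (V ∩ f ⁻¹' K))
    (Φ : E n → ℝ) (hΦ : Continuous Φ) (hΦc : HasCompactSupport Φ) (hΦs : tsupport Φ ⊆ W) :
    IntegrableOn (fun x => Φ (f x) * j x) V := by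
  obtain ⟨C, hC⟩ := hΦ.bounded_above_of_compact_support hΦc
  have hint := hji _ hΦc hΦs
  have h1 : IntegrableOn (fun x => Φ (f x) * j x) (V ∩ f ⁻¹' tsupport Φ) := by
    refine Integrable.mono' (hint.norm.const_mul C) ?_ ?_
    · apply AEStronglyMeasurable.mul _ hint.aestronglyMeasurable
      have hae : AEMeasurable f (volume.restrict (V ∩ f ⁻¹' tsupport Φ)) :=
        (hf.aemeasurable hV.measurableSet).mono_measure (Measure.restrict_mono inter_subset_left le_rfl)
      exact (hΦ.measurable.comp_aemeasurable hae).aestronglyMeasurable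
    · refine Filter.Eventually.of_forall (fun x => ?_)
      rw [norm_mul]
      exact mul_le_mul_of_nonneg_right (hC _) (norm_nonneg _)
  refine h1.of_forall_sdiff_eq_zero hV.measurableSet ?_
  intro x hx
  have : Φ (f x) = 0 := by
    by_contra h
    exact hx.2 ⟨hx.1, subset_tsupport _ h⟩
  rw [this, zero_mul]

theorem cgz_bump {n : ℕ} (z : E n) (U : Set (E n)) (hU : U ∈ 𝓝 z) :
    ∃ Ψ : E n → ℝ, Continuous Ψ ∧ HasCompactSupport Ψ ∧ tsupport Ψ ⊆ U ∧ ∫ y, Ψ y = 1 := by
  obtain ⟨ε, hε, hU'⟩ := Metric.mem_nhds_iff.mp hU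
  let φ : ContDiffBump z := ⟨ε / 3, ε / 2, by positivity, by linarith⟩
  refine ⟨φ.normed volume, (φ.contDiff_normed (n := 0)).continuous, φ.hasCompactSupport_normed, ?_,
    φ.integral_normed⟩
  rw [φ.tsupport_normed_eq]
  refine (closedBall_subset_ball ?_).trans hU'
  show ε / 2 < ε
  linarith

/- TARGET -/
/-- L4b (pure distribution theory) -/
theorem const_of_grad_zero {V W : Set (E n)} {f : E n → E n} {j : E n → ℝ}
    (hV : IsOpen V) (hW : IsOpen W) (hWc : IsPreconnected W) (hf : ContinuousOn f V)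
    (hj : AEStronglyMeasurable j (volume.restrict V))
    (hji : ∀ K : Set (E n), IsCompact K → K ⊆ W → IntegrableOn j (V ∩ f ⁻¹' K))
    (h0 : ∀ (ψ : E n → ℝ) (i : Fin n), ContDiff ℝ ∞ ψ → HasCompactSupport ψ → tsupport ψ ⊆ W →
      ∫ x in V, fderiv ℝ ψ (f x) (Pi.single i 1) * j x = 0) :
    ∃ d : ℝ, ∀ Φ : E n → ℝ, Continuous Φ → HasCompactSupport Φ → tsupport Φ ⊆ W →
      ∫ x in V, Φ (f x) * j x = d * ∫ y, Φ y := by
  rcases W.eq_empty_or_nonempty with hWe | ⟨w0, hw0⟩
  · refine ⟨0, ?_⟩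
    intro Φ _ _ hΦs
    have : Φ = 0 := by
      funext y
      by_contra h
      have := hΦs (subset_tsupport _ h)
      rw [hWe] at this
      exact this
    subst this
    simp
  have hloc : ∀ z ∈ W, ∃ r : ℝ, 0 < r ∧ closedBall z (3 * r) ⊆ W := by
    intro z hz
    obtain ⟨ε, hε, h1⟩ := Metric.isOpen_iff.mp hW z hz
    refine ⟨ε / 4, by positivity, ?_⟩
    exact (closedBall_subset_ball (by linarith)).trans h1
  choose! r hr0 hrW using hloc
  have hb : ∀ z ∈ W, ∃ Ψ : E n → ℝ, Continuous Ψ ∧ HasCompactSupport Ψ ∧ tsupport Ψ ⊆ ball z (r z) ∧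
      ∫ y, Ψ y = 1 := fun z hz => cgz_bump z _ (ball_mem_nhds z (hr0 z hz))
  choose! Ψ hΨ1 hΨ2 hΨ3 hΨ4 using hb
  set d : E n → ℝ := fun z => ∫ x in V, Ψ z (f x) * j x with hd
  have hLoc : ∀ z ∈ W, ∀ Φ : E n → ℝ, Continuous Φ → HasCompactSupport Φ → tsupport Φ ⊆ ball z (r z) →
      ∫ x in V, Φ (f x) * j x = d z * ∫ y, Φ y := by
    intro z hz Φ h1 h2 h3
    exact cgz_local_V hV hf hji h0 z (r z) (hr0 z hz) (hrW z hz) Φ (Ψ z) h1 h2 h3 (hΨ1 z hz) (hΨ2 z hz)
      (hΨ3 z hz) (hΨ4 z hz)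
  have hdloc : ∀ z0 ∈ W, ∀ z1 ∈ ball z0 (r z0), d z1 = d z0 := by
    intro z0 hz0 z1 hz1
    have hz1W : z1 ∈ W := hrW z0 hz0 ((ball_subset_closedBall.trans
      (closedBall_subset_closedBall (by linarith [hr0 z0 hz0]))) hz1)
    obtain ⟨Θ, h1, h2, h3, h4⟩ := cgz_bump z1 (ball z0 (r z0) ∩ ball z1 (r z1))
      (Filter.inter_mem (isOpen_ball.mem_nhds hz1) (ball_mem_nhds z1 (hr0 z1 hz1W)))
    have e0 := hLoc z0 hz0 Θ h1 h2 (h3.trans inter_subset_left)
    have e1 := hLoc z1 hz1W Θ h1 h2 (h3.trans inter_subset_right)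
    rw [h4, mul_one] at e0 e1
    rw [← e0, ← e1]
  have hdconst : ∀ z ∈ W, d z = d w0 := by
    have hder : ∀ z ∈ W, HasFDerivAt d (0 : E n →L[ℝ] ℝ) z := by
      intro z hz
      have h1 : d =ᶠ[𝓝 z] fun _ => d z := by
        filter_upwards [ball_mem_nhds z (hr0 z hz)] with y hy
        exact hdloc z hz y hy
      exact (hasFDerivAt_const (d z) z).congr_of_eventuallyEq h1
    intro z hz
    exact hW.is_const_of_fderiv_eq_zero (𝕜 := ℝ) hWc
      (fun z hz => (hder z hz).differentiableAt.differentiableWithinAt)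
      (fun z hz => (hder z hz).fderiv) hz hw0
  refine ⟨d w0, ?_⟩
  intro Φ hΦ hΦc hΦs
  obtain ⟨t, ht1, ht2⟩ := IsCompact.elim_nhds_subcover (s := tsupport Φ) hΦc (fun z => ball z (r z))
    (fun z hz => ball_mem_nhds z (hr0 z (hΦs hz)))
  obtain ⟨p, hp1, hp2, hp3, hp4⟩ := exists_continuous_sum_one_of_isOpen_isCompact
    (n := t.card) (t := tsupport Φ)
    (s := fun i => ball ((t.equivFin.symm i : t) : E n) (r ((t.equivFin.symm i : t) : E n)))
    (fun i => isOpen_ball) hΦc (by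
      intro y hy
      have h1 := ht2 hy
      simp only [mem_iUnion] at h1 ⊢
      obtain ⟨x, hx, hyx⟩ := h1
      refine ⟨t.equivFin ⟨x, hx⟩, ?_⟩
      simpa using hyx)
  have hdec : ∀ y, Φ y = ∑ i, p i y * Φ y := by
    intro y
    rw [← Finset.sum_mul]
    by_cases hy : y ∈ tsupport Φ
    · have h1 := hp2 hy
      simp only [Finset.sum_apply, Pi.one_apply] at h1
      rw [h1, one_mul]
    · have : Φ y = 0 := by
        by_contra h
        exact hy (subset_tsupport _ h)
      rw [this, mul_zero]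
  have hpc : ∀ i, Continuous (fun y => p i y * Φ y) := fun i => (p i).continuous.mul hΦ
  have hpcs : ∀ i, HasCompactSupport (fun y => p i y * Φ y) := fun i => hΦc.mul_left
  have hpl : ∀ i, tsupport (fun y => p i y * Φ y) ⊆ tsupport (p i) := fun i =>
    tsupport_mul_subset_left (f := fun y => p i y) (g := Φ)
  have hpr : ∀ i, tsupport (fun y => p i y * Φ y) ⊆ tsupport Φ := fun i =>
    tsupport_mul_subset_right (f := fun y => p i y) (g := Φ)
  have hmem : ∀ i, ((t.equivFin.symm i : t) : E n) ∈ W := fun i => hΦs (ht1 _ (t.equivFin.symm i).2)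
  have hi : ∀ i, ∫ x in V, (p i (f x) * Φ (f x)) * j x = d w0 * ∫ y, p i y * Φ y := by
    intro i
    rw [← hdconst _ (hmem i)]
    exact hLoc _ (hmem i) (fun y => p i y * Φ y) (hpc i) (hpcs i) ((hpl i).trans (hp1 i))
  have hL : ∫ x in V, Φ (f x) * j x = ∑ i, ∫ x in V, (p i (f x) * Φ (f x)) * j x := by
    rw [← integral_finset_sum]
    · congr 1
      funext x
      rw [← Finset.sum_mul]
      rw [← hdec (f x)]
    · intro i _
      exact cgz_int hV hf hji (fun y => p i y * Φ y) (hpc i) (hpcs i) ((hpr i).trans hΦs)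
  have hR : ∫ y, Φ y = ∑ i, ∫ y, p i y * Φ y := by
    rw [← integral_finset_sum]
    · congr 1
      funext x
      exact hdec x
    · intro i _
      exact (hpc i).integrable_of_hasCompactSupport (hpcs i)
  rw [hL, hR, Finset.mul_sum]
  exact Finset.sum_congr rfl (fun i _ => hi i)



end Pool.Agent.Helper171.Ori
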