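import Pool.Agent.Helper171.NHM.OriIbp
import Pool.Agent.Helper171.NHM.OriMeas
set_option autoImplicit false

open MeasureTheory Metric Set Filter Topology
open scoped ENNReal NNReal ContDiff

namespace Pool.Agent.Helper171.Ori

variable {n : ℕ}





/- TARGET -/
/-- L4a -/
theorem grad_zero {V W : Set (E n)} {f : E n → E n} {D : E n → E n →L[ℝ] E n}
    (hV : IsOpen V) (hW : IsOpen W) (h : WA V f D) (hp : Prp f V W) {ψ : E n → ℝ}
    (hψ : ContDiff ℝ ∞ ψ) (hψc : HasCompactSupport ψ) (hψW : tsupport ψ ⊆ W) (i : Fin n) :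
    ∫ x in V, fderiv ℝ ψ (f x) (Pi.single i 1) * (D x).det = 0 := by
  have hSc : IsCompact (tsupport ψ) := hψc
  have hSclosed : IsClosed (tsupport ψ) := isClosed_tsupport ψ
  have hK0 : IsCompact (V ∩ f ⁻¹' tsupport ψ) := hp.2 _ hSc hψW
  obtain ⟨K1, hK1, hK01, hK1V⟩ := exists_compact_between hK0 hV inter_subset_left
  obtain ⟨θ, hθ1, hθ0, -⟩ := exists_contMDiffMap_one_nhds_of_subset_interior (n := (⊤ : ℕ∞))
    (modelWithCornersSelf ℝ (E n)) hK0.isClosed hK01
  have hθs : ContDiff ℝ ∞ θ := θ.contMDiff.contDiff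
  have hθc : HasCompactSupport θ := HasCompactSupport.intro hK1 hθ0
  have hθK1 : tsupport θ ⊆ K1 := by
    apply closure_minimal _ hK1.isClosed
    intro x hx
    by_contra hc
    exact hx (hθ0 x hc)
  obtain ⟨N0, hN0, hKN0, hN0θ⟩ := eventually_nhdsSet_iff_exists.mp hθ1
  have hC : IsCompact (K1 \ N0) := hK1.diff hN0
  have hfC : IsCompact (f '' (K1 \ N0)) :=
    hC.image_of_continuousOn (h.cont.mono (sdiff_subset.trans hK1V))
  have hdisj : Disjoint (f '' (K1 \ N0)) (tsupport ψ) := by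
    rw [Set.disjoint_left]
    rintro y ⟨x, hx, rfl⟩ hy
    exact hx.2 (hKN0 ⟨hK1V hx.1, hy⟩)
  obtain ⟨δ, hδ, hdis⟩ := hdisj.exists_cthickenings hfC hSclosed
  have hΨcont : Continuous (fun y => fderiv ℝ ψ y (Pi.single i 1)) :=
    (hψ.continuous_fderiv (by simp)).clm_apply continuous_const
  have hmain : ∫ x in K1, θ x * fderiv ℝ ψ (f x) (Pi.single i 1) * (D x).det = 0 := by
    by_contra hne
    have hpos : 0 < |∫ x in K1, θ x * fderiv ℝ ψ (f x) (Pi.single i 1) * (D x).det| :=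
      abs_pos.mpr hne
    obtain ⟨δ', hδ', hlim⟩ := h.lim hK1 hK1V (θ := θ)
      (Ψ := fun y => fderiv ℝ ψ y (Pi.single i 1)) hθs.continuous hΨcont (half_pos hpos)
    obtain ⟨g, hg, hgf, hgD⟩ := h.approx K1 hK1 hK1V (min δ' δ) (lt_min hδ' hδ)
    have h1 := hlim g hg (fun x hx => (hgf x hx).trans (min_le_left _ _))
      (hgD.trans (ENNReal.ofReal_le_ofReal (min_le_left _ _)))
    have h2 : ∫ x in K1, θ x * fderiv ℝ ψ (g x) (Pi.single i 1) * (fderiv ℝ g x).det = 0 := by
      rw [setIntegral_eq_integral_of_forall_compl_eq_zero (fun x hx => by rw [hθ0 x hx]; ring)]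
      apply ibp hg hθs hθc hψ i
      intro x hx
      have hx1 : x ∈ K1 := hθK1 (support_fderiv_subset ℝ hx)
      have hx2 : x ∉ N0 := by
        intro hxN
        apply hx
        have : (θ : E n → ℝ) =ᶠ[𝓝 x] fun _ => 1 := by
          filter_upwards [hN0.mem_nhds hxN] with z hz using hN0θ z hz
        rw [this.fderiv_eq]
        simp
      apply image_eq_zero_of_notMem_tsupport
      intro hgx
      have hm1 : g x ∈ cthickening δ (f '' (K1 \ N0)) :=
        mem_cthickening_of_dist_le _ (f x) _ _ ⟨x, ⟨hx1, hx2⟩, rfl⟩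
          (by rw [dist_eq_norm]; exact (hgf x hx1).trans (min_le_right _ _))
      exact Set.disjoint_left.mp hdis hm1 (self_subset_cthickening _ hgx)
    rw [h2, zero_sub, abs_neg] at h1
    linarith
  have hzero : ∀ x ∈ V, x ∉ V ∩ f ⁻¹' tsupport ψ → fderiv ℝ ψ (f x) (Pi.single i 1) = 0 := by
    intro x hxV hx
    have : f x ∉ tsupport ψ := fun hc => hx ⟨hxV, hc⟩
    rw [fderiv_of_notMem_tsupport (𝕜 := ℝ) this]
    simp
  rw [setIntegral_eq_of_subset_of_forall_sdiff_eq_zero hV.measurableSet hK1V, ← hmain]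
  · apply setIntegral_congr_fun hK1.measurableSet
    intro x hx
    by_cases hx0 : x ∈ V ∩ f ⁻¹' tsupport ψ
    · simp only [hN0θ x (hKN0 hx0), one_mul]
    · simp only [hzero x (hK1V hx) hx0, mul_zero, zero_mul]
  · intro x hx
    rw [hzero x hx.1 (fun hc => hx.2 (interior_subset (hK01 hc))), zero_mul]



theorem deg_exists {V W : Set (E n)} {f : E n → E n} {D : E n → E n →L[ℝ] E n}
    (hV : IsOpen V) (hW : IsOpen W) (hWc : IsPreconnected W) (h : WA V f D) (hp : Prp f V W) :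
    ∃ d : ℝ, IsDeg f D V W d := by
  refine const_of_grad_zero hV hW hWc h.cont ?_ (fun K hK hKW => ?_) fun ψ i h1 h2 h3 =>
    grad_zero hV hW h hp h1 h2 h3 i
  · have : Continuous (fun L : E n →L[ℝ] E n => L.det) := ContinuousLinearMap.continuous_det
    exact this.comp_aestronglyMeasurable h.meas
  · exact h.integrableOn_det (hp.2 K hK hKW) inter_subset_left

end Pool.Agent.Helper171.Ori
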