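import Pool.Agent.Helper171.NHM.OriDefs
set_option autoImplicit false

open MeasureTheory Metric Set Filter Topology
open scoped ENNReal NNReal ContDiff

namespace Pool.Agent.Helper171.Ori

variable {n : ℕ}


/-- local degree at a nondegenerate zero -/
theorem locdeg {φ : E n → E n} (hφ : ContDiff ℝ ∞ φ) {p : E n} (hp : φ p = 0)
    (hdet : (fderiv ℝ φ p).det ≠ 0) {s : ℝ} (hs : 0 < s) :
    ∃ N : Set (E n), IsOpen N ∧ p ∈ N ∧ N ⊆ ball p s ∧ ∃ κ : ℝ, 0 < κ ∧
      ∀ η : E n → ℝ, Continuous η → (∀ z, κ ≤ ‖z‖ → η z = 0) →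
        ∫ x in N, η (φ x) * (fderiv ℝ φ x).det = SignType.sign (fderiv ℝ φ p).det * ∫ z, η z := by
  have hdiff : Differentiable ℝ φ := hφ.differentiable (by simp)
  have hcd : Continuous (fderiv ℝ φ) := hφ.continuous_fderiv (by simp)
  have hcdet : Continuous (fun x => (fderiv ℝ φ x).det) :=
    ContinuousLinearMap.continuous_det.comp hcd
  let A : E n ≃L[ℝ] E n := (fderiv ℝ φ p).toContinuousLinearEquivOfDetNeZero hdet
  have hA : HasFDerivAt φ (A : E n →L[ℝ] E n) p := by
    have : (A : E n →L[ℝ] E n) = fderiv ℝ φ p := by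
      ext x
      rfl
    rw [this]
    exact (hdiff p).hasFDerivAt
  let e := (hφ.contDiffAt (x := p)).toOpenPartialHomeomorph φ hA (by simp)
  have he : (e : E n → E n) = φ := rfl
  have hpe : p ∈ e.source :=
    (hφ.contDiffAt (x := p)).mem_toOpenPartialHomeomorph_source hA (by simp)
  let σ : ℝ := SignType.sign (fderiv ℝ φ p).det
  have hσ : 0 < σ * (fderiv ℝ φ p).det := by
    rcases lt_or_gt_of_ne hdet with h | h
    · simp only [σ, sign_neg h]
      simp
      exact h
    · simp only [σ, sign_pos h]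
      simp
      exact h
  have hσ2 : σ * σ = 1 := by
    rcases lt_or_gt_of_ne hdet with h | h
    · simp only [σ, sign_neg h]
      simp
    · simp only [σ, sign_pos h]
      simp
  let N : Set (E n) := e.source ∩ (ball p s ∩ {x | 0 < σ * (fderiv ℝ φ x).det})
  have hN : IsOpen N := e.open_source.inter (isOpen_ball.inter
    (isOpen_lt continuous_const (continuous_const.mul hcdet)))
  have hpN : p ∈ N := ⟨hpe, mem_ball_self hs, hσ⟩
  have himg : IsOpen (φ '' N) := by
    have := e.isOpen_image_of_subset_source hN inter_subset_left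
    rwa [he] at this
  have h0 : (0 : E n) ∈ φ '' N := ⟨p, hpN, hp⟩
  obtain ⟨κ, hκ, hball⟩ := Metric.isOpen_iff.mp himg 0 h0
  refine ⟨N, hN, hpN, fun x hx => hx.2.1, κ, hκ, ?_⟩
  intro η hη hη0
  have hinj : InjOn φ N := by
    have := e.injOn.mono (inter_subset_left : N ⊆ e.source)
    rwa [he] at this
  have h1 := integral_image_eq_integral_abs_det_fderiv_smul volume hN.measurableSet
    (f' := fun x => fderiv ℝ φ x) (fun x _ => (hdiff x).hasFDerivAt.hasFDerivWithinAt) hinj η
  have h2 : ∫ z in φ '' N, η z = ∫ z, η z := by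
    apply setIntegral_eq_integral_of_forall_compl_eq_zero
    intro z hz
    apply hη0
    by_contra hc
    exact hz (hball (by simpa using not_le.mp hc))
  rw [h2] at h1
  rw [h1, ← integral_const_mul]
  apply setIntegral_congr_fun hN.measurableSet
  intro x hx
  have hx3 : 0 < σ * (fderiv ℝ φ x).det := hx.2.2
  have habs : |(fderiv ℝ φ x).det| = σ * (fderiv ℝ φ x).det := by
    have h5 : |σ| = 1 := by
      have : |σ| * |σ| = 1 := by rw [← abs_mul, hσ2, abs_one]
      nlinarith [abs_nonneg σ]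
    rw [← abs_of_pos hx3, abs_mul, h5, one_mul]
  simp only [smul_eq_mul]
  rw [habs]
  change η (φ x) * (fderiv ℝ φ x).det = σ * (σ * (fderiv ℝ φ x).det * η (φ x))
  rw [← mul_assoc, ← mul_assoc, hσ2]
  ring

/-- smooth cut-off -/
noncomputable def chi (s : ℝ) : ℝ := Real.smoothTransition ((16 - s) / 7)

theorem chi_one {s : ℝ} (h : s ≤ 9) : chi s = 1 :=
  Real.smoothTransition.one_of_one_le (by linarith)

theorem chi_zero {s : ℝ} (h : 16 ≤ s) : chi s = 0 :=
  Real.smoothTransition.zero_of_nonpos (by linarith)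

theorem chi_nonneg (s : ℝ) : 0 ≤ chi s := Real.smoothTransition.nonneg _

theorem chi_le_one (s : ℝ) : chi s ≤ 1 := Real.smoothTransition.le_one _

theorem contDiff_chi : ContDiff ℝ ∞ chi :=
  Real.smoothTransition.contDiff.comp (by fun_prop)

/-- sum of squares -/
noncomputable def sq (z : E n) : ℝ := ∑ i, z i ^ 2

/-- the model map -/
noncomputable def Qt (j : Fin n) (z : E n) : E n := fun i =>
  if i = j then chi (sq z) * (sq z - 1) + (1 - chi (sq z)) else chi (sq z) * z i

theorem contDiff_sq : ContDiff ℝ ∞ (sq : E n → ℝ) := by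
  unfold sq
  fun_prop

theorem contDiff_Qt (j : Fin n) : ContDiff ℝ ∞ (Qt j) := by
  rw [contDiff_pi]
  intro i
  unfold Qt
  have h1 : ContDiff ℝ ∞ (fun z : E n => chi (sq z)) := contDiff_chi.comp contDiff_sq
  have h2 : ContDiff ℝ ∞ (fun z : E n => sq z) := contDiff_sq
  have h3 : ContDiff ℝ ∞ (fun z : E n => z i) := contDiff_apply ℝ ℝ i
  split_ifs
  · exact (h1.mul (h2.sub contDiff_const)).add (contDiff_const.sub h1)
  · exact h1.mul h3

theorem Qt_far (j : Fin n) {z : E n} (h : 16 ≤ sq z) : Qt j z = Pi.single j 1 := by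
  funext i
  unfold Qt
  rw [chi_zero h]
  by_cases hi : i = j
  · subst hi
    simp
  · simp [hi]

theorem Qt_zero (j : Fin n) {z : E n} (h : Qt j z = 0) :
    (∀ i, i ≠ j → z i = 0) ∧ (z j = 1 ∨ z j = -1) := by
  have hj : chi (sq z) * (sq z - 1) + (1 - chi (sq z)) = 0 := by
    have := congrFun h j
    simpa [Qt] using this
  have hs : sq z ≤ 9 := by
    by_contra hc
    push Not at hc
    have h1 := chi_nonneg (sq z)
    have h2 := chi_le_one (sq z)
    nlinarith
  rw [chi_one hs] at hj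
  have hi : ∀ i, i ≠ j → z i = 0 := by
    intro i hi
    have := congrFun h i
    simpa [Qt, hi, chi_one hs] using this
  refine ⟨hi, ?_⟩
  have hsq : sq z = z j ^ 2 := by
    unfold sq
    rw [Finset.sum_eq_single j]
    · intro b _ hb
      rw [hi b hb]
      ring
    · simp
  have : (z j - 1) * (z j + 1) = 0 := by
    rw [hsq] at hj
    linarith
  rcases mul_eq_zero.mp this with h | h
  · left; linarith
  · right; linarith

theorem fderiv_Qt (j : Fin n) {z : E n} (hz : sq z < 9) :
    HasFDerivAt (Qt j) (ContinuousLinearMap.pi (fun i => if i = j then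
      ∑ k, (2 * z k) • ContinuousLinearMap.proj (R := ℝ) (φ := fun _ : Fin n => ℝ) k
      else ContinuousLinearMap.proj i)) z := by
  rw [hasFDerivAt_pi']
  intro i
  have hev : ∀ᶠ w in 𝓝 z, sq w < 9 :=
    (contDiff_sq.continuous.continuousAt).eventually (gt_mem_nhds hz)
  by_cases hi : i = j
  · subst hi
    have h1 : (fun w : E n => Qt i w i) =ᶠ[𝓝 z] fun w => (∑ k, w k ^ 2) - 1 := by
      filter_upwards [hev] with w hw
      simp only [Qt, if_true, chi_one hw.le]
      unfold sq
      ring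
    refine HasFDerivAt.congr_of_eventuallyEq ?_ h1
    have h2 : ∀ k : Fin n, HasFDerivAt (fun w : E n => w k ^ 2)
        ((2 * z k) • ContinuousLinearMap.proj (R := ℝ) (φ := fun _ : Fin n => ℝ) k) z := by
      intro k
      have := (hasFDerivAt_apply (𝕜 := ℝ) k z).pow 2
      convert! this using 1
      ext w
      simp
    have h3 := HasFDerivAt.fun_sum (u := Finset.univ) (fun k _ => h2 k)
    have h4 := h3.sub_const 1
    convert! h4 using 1
    ext w
    simp
  · have h1 : (fun w : E n => Qt j w i) =ᶠ[𝓝 z] fun w => w i := by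
      filter_upwards [hev] with w hw
      simp only [Qt, if_neg hi, chi_one hw.le]
      ring
    refine HasFDerivAt.congr_of_eventuallyEq ?_ h1
    have := (hasFDerivAt_apply (𝕜 := ℝ) i z)
    convert! this using 1
    ext w
    simp [hi]

theorem det_model (j : Fin n) (t : ℝ) {z : E n} (hz : ∀ i, i ≠ j → z i = 0) (hzj : z j = t) :
    (ContinuousLinearMap.pi (fun i => if i = j then
      ∑ k, (2 * z k) • ContinuousLinearMap.proj (R := ℝ) (φ := fun _ : Fin n => ℝ) k
      else ContinuousLinearMap.proj i) : E n →L[ℝ] E n).det = 2 * t := by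
  have h1 : ((ContinuousLinearMap.pi (fun i => if i = j then
      ∑ k, (2 * z k) • ContinuousLinearMap.proj (R := ℝ) (φ := fun _ : Fin n => ℝ) k
      else ContinuousLinearMap.proj i) : E n →L[ℝ] E n) : E n →ₗ[ℝ] E n) =
      Matrix.toLin' (Matrix.diagonal (fun i => if i = j then 2 * t else 1)) := by
    ext w i
    by_cases hi : i = j
    · subst hi
      simp only [ContinuousLinearMap.coe_pi, LinearMap.coe_comp, Function.comp_apply]
      simp [Matrix.mulVec_diagonal, Finset.sum_apply]
      rw [Finset.sum_eq_single i]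
      · rw [hzj]
      · intro b _ hb
        rw [hz b hb]
        ring
      · simp
    · simp [hi, Matrix.mulVec_diagonal]
  rw [ContinuousLinearMap.det, h1, LinearMap.det_toLin', Matrix.det_diagonal,
    Finset.prod_ite_eq']
  simp

/-- the linear change of variables -/
noncomputable def Am (j : Fin n) (v : E n) : E n →L[ℝ] E n :=
  ContinuousLinearMap.pi (fun i => if i = j then
    (v j)⁻¹ • ContinuousLinearMap.proj (R := ℝ) (φ := fun _ : Fin n => ℝ) j
    else |v j|⁻¹ • (ContinuousLinearMap.proj (R := ℝ) (φ := fun _ : Fin n => ℝ) i -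
      (v i / v j) • ContinuousLinearMap.proj (R := ℝ) (φ := fun _ : Fin n => ℝ) j))

theorem Am_j (j : Fin n) (v u : E n) : Am j v u j = (v j)⁻¹ * u j := by
  simp [Am]

theorem Am_i (j : Fin n) (v u : E n) {i : Fin n} (hi : i ≠ j) :
    Am j v u i = |v j|⁻¹ * (u i - v i / v j * u j) := by
  simp [Am, hi]

theorem Am_eq (j : Fin n) (v u : E n) (hv : v j ≠ 0) {t : ℝ} (h1 : ∀ i, i ≠ j → Am j v u i = 0)
    (h2 : Am j v u j = t) : u = t • v := by
  have hj : u j = t * v j := by
    rw [Am_j] at h2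
    field_simp at h2
    linarith
  funext i
  by_cases hi : i = j
  · subst hi
    simpa using hj
  · have h3 := h1 i hi
    rw [Am_i j v u hi] at h3
    have h4 : u i - v i / v j * u j = 0 := by
      rcases mul_eq_zero.mp h3 with h | h
      · exact absurd h (inv_ne_zero (abs_ne_zero.mpr hv))
      · exact h
    have h5 : u i = v i / v j * u j := by linarith
    rw [h5, hj]
    simp only [Pi.smul_apply, smul_eq_mul]
    field_simp

theorem Am_v (j : Fin n) (v : E n) (hv : v j ≠ 0) (t : ℝ) :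
    (∀ i, i ≠ j → Am j v (t • v) i = 0) ∧ Am j v (t • v) j = t := by
  constructor
  · intro i hi
    rw [Am_i j v _ hi]
    simp only [Pi.smul_apply, smul_eq_mul]
    field_simp
    ring
  · rw [Am_j]
    simp only [Pi.smul_apply, smul_eq_mul]
    field_simp

theorem det_Am (j : Fin n) (v : E n) (hv : v j ≠ 0) : (Am j v).det ≠ 0 := by
  intro h
  have h1 := LinearMap.bot_lt_ker_of_det_eq_zero (f := (Am j v : E n →ₗ[ℝ] E n)) h
  obtain ⟨u, hu, hu0⟩ := (Submodule.ne_bot_iff _).mp h1.ne'
  apply hu0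
  have hA : Am j v u = 0 := hu
  have := Am_eq j v u hv (t := 0) (fun i _ => by rw [hA]; rfl) (by rw [hA]; rfl)
  rw [this, zero_smul]

theorem Am_bound (j : Fin n) (v u : E n) (hv : v j ≠ 0) (hmax : ∀ i, |v i| ≤ |v j|)
    (h : sq (Am j v u) < 16) : ‖u‖ ≤ 8 * |v j| := by
  have hpos : 0 < |v j| := abs_pos.mpr hv
  have hb : ∀ i, |Am j v u i| ≤ 4 := by
    intro i
    have h1 : Am j v u i ^ 2 ≤ sq (Am j v u) := by
      unfold sq
      exact Finset.single_le_sum (f := fun i => Am j v u i ^ 2) (fun k _ => sq_nonneg _)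
        (Finset.mem_univ i)
    apply abs_le_of_sq_le_sq _ (by norm_num)
    linarith
  have hj : |u j| ≤ 4 * |v j| := by
    have h1 := hb j
    rw [Am_j, abs_mul, abs_inv] at h1
    rw [inv_mul_le_iff₀ hpos] at h1
    linarith
  rw [pi_norm_le_iff_of_nonneg (by positivity)]
  intro i
  rw [Real.norm_eq_abs]
  by_cases hi : i = j
  · subst hi
    linarith
  · have h1 := hb i
    rw [Am_i j v u hi, abs_mul, abs_inv, abs_abs, inv_mul_le_iff₀ hpos] at h1
    have h2 : |v i / v j * u j| ≤ 4 * |v j| := by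
      rw [abs_mul, abs_div]
      have : |v i| / |v j| ≤ 1 := (div_le_one hpos).mpr (hmax i)
      calc |v i| / |v j| * |u j| ≤ 1 * |u j| := by gcongr
        _ ≤ 4 * |v j| := by linarith
    have h3 : |u i| ≤ |u i - v i / v j * u j| + |v i / v j * u j| := by
      have := abs_add_le (u i - v i / v j * u j) (v i / v j * u j)
      simpa using this
    linarith

theorem sq_model (j : Fin n) {z : E n} (hz : ∀ i, i ≠ j → z i = 0) : sq z = z j ^ 2 := by
  unfold sq
  rw [Finset.sum_eq_single j]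
  · intro b _ hb
    rw [hz b hb]
    ring
  · simp

theorem fderiv_phi (j : Fin n) (v c : E n) (hv : v j ≠ 0) {t : ℝ} (ht : t ^ 2 = 1) :
    (fderiv ℝ (fun x => Qt j (Am j v (x - c))) (c + t • v)).det = 2 * t * (Am j v).det := by
  have hA := Am_v j v hv t
  have hs : sq (Am j v (t • v)) < 9 := by
    rw [sq_model j hA.1, hA.2, ht]
    norm_num
  have h1 := fderiv_Qt j hs
  have h2 : HasFDerivAt (fun x => Am j v (x - c)) (Am j v) (c + t • v) := by
    have := (Am j v).hasFDerivAt (x := c + t • v - c)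
    exact this.comp (c + t • v) ((hasFDerivAt_id _).sub_const c)
  have h1' := h1
  rw [← add_sub_cancel_left c (t • v)] at h1'
  have h3 := HasFDerivAt.comp (c + t • v) h1' h2
  change (fderiv ℝ (Qt j ∘ fun x => Am j v (x - c)) (c + t • v)).det = _
  rw [h3.fderiv]
  simp only [add_sub_cancel_left]
  have h4 := det_model j t hA.1 hA.2
  rw [← h4]
  exact LinearMap.det_comp _ _

theorem Qt_model (j : Fin n) {z : E n} (hz : ∀ i, i ≠ j → z i = 0) (hzj : z j ^ 2 = 1) :
    Qt j z = 0 := by
  have hs : sq z = 1 := by rw [sq_model j hz, hzj]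
  funext i
  unfold Qt
  rw [hs, chi_one (by norm_num : (1 : ℝ) ≤ 9)]
  by_cases hi : i = j
  · simp [hi]
  · simp [hi, hz i hi]

theorem norm_single_one (j : Fin n) : ‖(Pi.single j (1 : ℝ) : E n)‖ = 1 := by
  apply le_antisymm
  · rw [pi_norm_le_iff_of_nonneg zero_le_one]
    intro i
    by_cases hi : i = j
    · subst hi
      simp
    · simp [hi]
  · have := norm_le_pi_norm (Pi.single j (1 : ℝ) : E n) j
    simpa using this

theorem sign_cast_ne {a : ℝ} (h : a ≠ 0) : ((SignType.sign a : SignType) : ℝ) ≠ 0 := by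
  rcases lt_or_gt_of_ne h with h | h
  · simp [sign_neg h]
  · simp [sign_pos h]

/-- L5 dipole map -/
theorem dipole (hn : 0 < n) (x₁ : E n) {ρ : ℝ} (hρ : 0 < ρ) :
    ∃ ρ' : ℝ, 0 < ρ' ∧ ρ' ≤ ρ ∧ ∀ p q : E n, p ∈ ball x₁ ρ' → q ∈ ball x₁ ρ' → p ≠ q →
      ∃ (φ : E n → E n) (e : E n), ContDiff ℝ ∞ φ ∧ ‖e‖ = 1 ∧ (∀ x, x ∉ ball x₁ ρ → φ x = e) ∧
        (∀ x, φ x = 0 → x = p ∨ x = q) ∧
        ∀ s : ℝ, 0 < s → Disjoint (ball p s) (ball q s) → ∃ κ σ : ℝ, 0 < κ ∧ σ ≠ 0 ∧
          ∀ η : E n → ℝ, Continuous η → (∀ z, κ ≤ ‖z‖ → η z = 0) →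
            ∫ x in ball p s, η (φ x) * (fderiv ℝ φ x).det = σ * ∫ z, η z ∧
            ∫ x in ball q s, η (φ x) * (fderiv ℝ φ x).det = - (σ * ∫ z, η z) := by
  refine ⟨ρ / 20, by positivity, by linarith, ?_⟩
  intro p q hp hq hpq
  have hne : Nonempty (Fin n) := ⟨⟨0, hn⟩⟩
  obtain ⟨v, c, hpv, hqv⟩ : ∃ v c : E n, p = c + (1 : ℝ) • v ∧ q = c + (-1 : ℝ) • v := by
    refine ⟨(1 / 2 : ℝ) • (p - q), (1 / 2 : ℝ) • (p + q), ?_, ?_⟩
    · funext i
      simp
      ring
    · funext i
      simp
      ring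
  obtain ⟨j, hmax⟩ := Finite.exists_max (fun i => |v i|)
  have hvj : v j ≠ 0 := by
    intro h0
    apply hpq
    have hv0 : v = 0 := by
      funext i
      have := hmax i
      rw [h0, abs_zero] at this
      exact abs_nonpos_iff.mp this
    rw [hpv, hqv, hv0]
    simp
  have hvn : ‖v‖ < ρ / 20 := by
    have h1 : v = (1 / 2 : ℝ) • ((p - x₁) - (q - x₁)) := by
      rw [hpv, hqv]
      funext i
      simp
      ring
    rw [mem_ball, dist_eq_norm] at hp hq
    rw [h1, norm_smul]
    have h2 := norm_sub_le (p - x₁) (q - x₁)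
    rw [Real.norm_eq_abs, abs_of_pos (by norm_num : (0 : ℝ) < 1 / 2)]
    linarith
  have hcn : ‖c - x₁‖ < ρ / 20 := by
    have h1 : c - x₁ = (1 / 2 : ℝ) • ((p - x₁) + (q - x₁)) := by
      rw [hpv, hqv]
      funext i
      simp
      ring
    rw [mem_ball, dist_eq_norm] at hp hq
    rw [h1, norm_smul]
    have h2 := norm_add_le (p - x₁) (q - x₁)
    rw [Real.norm_eq_abs, abs_of_pos (by norm_num : (0 : ℝ) < 1 / 2)]
    linarith
  have hvj2 : |v j| ≤ ‖v‖ := norm_le_pi_norm v j
  have hcd : ContDiff ℝ ∞ (fun x => Qt j (Am j v (x - c))) :=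
    (contDiff_Qt j).comp ((Am j v).contDiff.comp (contDiff_id.sub contDiff_const))
  have hfar : ∀ x, x ∉ ball x₁ ρ → Qt j (Am j v (x - c)) = Pi.single j 1 := by
    intro x hx
    apply Qt_far
    by_contra hc
    push Not at hc
    have h1 := Am_bound j v (x - c) hvj hmax hc
    apply hx
    rw [mem_ball, dist_eq_norm]
    have h2 := norm_add_le (x - c) (c - x₁)
    rw [sub_add_sub_cancel] at h2
    linarith
  have hzero : ∀ x, Qt j (Am j v (x - c)) = 0 → x = p ∨ x = q := by
    intro x hx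
    obtain ⟨h1, h2⟩ := Qt_zero j hx
    rcases h2 with h2 | h2
    · left
      have := Am_eq j v (x - c) hvj h1 h2
      rw [hpv, ← this]
      abel
    · right
      have := Am_eq j v (x - c) hvj h1 h2
      rw [hqv, ← this]
      abel
  have hdp : (fderiv ℝ (fun x => Qt j (Am j v (x - c))) p).det = 2 * 1 * (Am j v).det := by
    rw [hpv]
    exact fderiv_phi j v c hvj (by norm_num)
  have hdq : (fderiv ℝ (fun x => Qt j (Am j v (x - c))) q).det = 2 * (-1) * (Am j v).det := by
    rw [hqv]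
    exact fderiv_phi j v c hvj (by norm_num)
  have hdA := det_Am j v hvj
  have hzp : (fun x => Qt j (Am j v (x - c))) p = 0 := by
    have hA := Am_v j v hvj 1
    have : p - c = (1 : ℝ) • v := by rw [hpv]; abel
    simp only [this]
    exact Qt_model j hA.1 (by rw [hA.2]; norm_num)
  have hzq : (fun x => Qt j (Am j v (x - c))) q = 0 := by
    have hA := Am_v j v hvj (-1)
    have : q - c = (-1 : ℝ) • v := by rw [hqv]; abel
    simp only [this]
    exact Qt_model j hA.1 (by rw [hA.2]; norm_num)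
  refine ⟨fun x => Qt j (Am j v (x - c)), Pi.single j 1, hcd, norm_single_one j, hfar, hzero, ?_⟩
  intro s hs hdisj
  obtain ⟨Np, hNp, hpN, hNps, κp, hκp, hp2⟩ := locdeg hcd hzp
    (by rw [hdp]; exact mul_ne_zero (by norm_num) hdA) hs
  obtain ⟨Nq, hNq, hqN, hNqs, κq, hκq, hq2⟩ := locdeg hcd hzq
    (by rw [hdq]; exact mul_ne_zero (by norm_num) hdA) hs
  have hC : IsCompact (closedBall x₁ ρ \ (Np ∪ Nq)) :=
    (isCompact_closedBall x₁ ρ).diff (hNp.union hNq)
  obtain ⟨κ0, hκ0, hκ0b⟩ := hC.exists_forall_le' (f := fun x => ‖Qt j (Am j v (x - c))‖) (a := 0)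
    (hcd.continuous.norm.continuousOn) (by
      intro x hx
      rw [norm_pos_iff]
      intro h0
      rcases hzero x h0 with h | h
      · exact hx.2 (Or.inl (h ▸ hpN))
      · exact hx.2 (Or.inr (h ▸ hqN)))
  refine ⟨min (min κp κq) (min κ0 1), SignType.sign (fderiv ℝ (fun x => Qt j (Am j v (x - c))) p).det,
    by positivity, ?_, ?_⟩
  · rw [hdp]
    exact sign_cast_ne (mul_ne_zero (by norm_num) hdA)
  intro η hη hη0
  have hp3 := hp2 η hη (fun z hz => hη0 z ((min_le_left _ _).trans ((min_le_left _ _).trans hz)))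
  have hq3 := hq2 η hη (fun z hz => hη0 z ((min_le_left _ _).trans ((min_le_right _ _).trans hz)))
  have hvan : ∀ x, x ∉ Np ∪ Nq → η (Qt j (Am j v (x - c))) = 0 := by
    intro x hx
    apply hη0
    by_cases hxb : x ∈ closedBall x₁ ρ
    · exact (min_le_right _ _).trans ((min_le_left _ _).trans (hκ0b x ⟨hxb, hx⟩))
    · rw [hfar x (fun h => hxb (ball_subset_closedBall h))]
      refine (min_le_right _ _).trans ((min_le_right _ _).trans ?_)
      rw [norm_single_one]
  constructor
  · rw [← hp3]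
    apply setIntegral_eq_of_subset_of_forall_sdiff_eq_zero measurableSet_ball hNps
    intro x hx
    have : x ∉ Np ∪ Nq := by
      rintro (h | h)
      · exact hx.2 h
      · exact Set.disjoint_left.mp hdisj hx.1 (hNqs h)
    rw [hvan x this, zero_mul]
  · have hsgn : ((SignType.sign (fderiv ℝ (fun x => Qt j (Am j v (x - c))) q).det : SignType) : ℝ) =
        -((SignType.sign (fderiv ℝ (fun x => Qt j (Am j v (x - c))) p).det : SignType) : ℝ) := by
      rw [hdp, hdq]
      have : (2 * (-1) * (Am j v).det : ℝ) = -(2 * 1 * (Am j v).det) := by ring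
      rw [this, Left.sign_neg]
      simp
    rw [← neg_mul, ← hsgn, ← hq3]
    apply setIntegral_eq_of_subset_of_forall_sdiff_eq_zero measurableSet_ball hNqs
    intro x hx
    have : x ∉ Np ∪ Nq := by
      rintro (h | h)
      · exact Set.disjoint_left.mp hdisj (hNps h) hx.1
      · exact hx.2 h
    rw [hvan x this, zero_mul]



end Pool.Agent.Helper171.Ori
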