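import Pool.Agent.Helper171.NHM.OriMain
set_option autoImplicit false

open MeasureTheory Metric Set Filter Topology
open scoped ENNReal NNReal ContDiff

namespace Pool.Agent.Helper171.Ori

variable {n : ℕ}

theorem orient_global (hn : 0 < n) {G : Set (E n)} (hG : IsOpen G) (hGc : IsPreconnected G)
    {f : E n → E n} {D : E n → E n →L[ℝ] E n} {K : ℝ} (hWA : WA G f D) (ho : OpM f G)
    (hK : ∀ᵐ x ∂(volume.restrict G), ‖D x‖ ^ n ≤ K * |(D x).det|)
    (hloc : ∀ x ∈ G, ∃ (U B : Set (E n)) (N : ℕ), IsOpen U ∧ x ∈ U ∧ U ⊆ G ∧ IsOpen B ∧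
      IsPreconnected B ∧ Prp f U B ∧ ∀ y, (U ∩ f ⁻¹' {y}).encard ≤ N) :
    (∀ᵐ x ∂(volume.restrict G), 0 ≤ (D x).det) ∨ (∀ᵐ x ∂(volume.restrict G), (D x).det ≤ 0) := by
  refine sign_of_local hG hGc (fun x hx => ?_) fun O hO hne hOG h0 =>
    not_ae_zero hn hWA ho hK hO hne hOG h0
  obtain ⟨U, B, N, hU, hxU, hUG, hB, hBc, hp, hN⟩ := hloc x hx
  set V := connectedComponentIn U x with hV
  have hVo : IsOpen V := hU.connectedComponentIn
  have hVU : V ⊆ U := connectedComponentIn_subset U x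
  have hxV : x ∈ V := mem_connectedComponentIn hxU
  refine ⟨V, hVo, hxV, hVU.trans hUG, ?_⟩
  refine orient_aux hn N V B hVo isPreconnected_connectedComponentIn hB hBc
    (hWA.mono (hVU.trans hUG)) ⟨fun z hz => hp.1 (hVU hz), fun Q hQ hQB => ?_⟩
    (fun Q hQ hQV => ho Q hQ (hQV.trans (hVU.trans hUG)))
    (ae_restrict_of_ae_restrict_of_subset (hVU.trans hUG) hK)
    (fun y => (encard_le_encard (inter_subset_inter_left _ hVU)).trans (hN y))
  -- `V ∩ f⁻¹ Q` is compact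
  have h1 : IsCompact (U ∩ f ⁻¹' Q) := hp.2 Q hQ hQB
  have h2 : V ∩ f ⁻¹' Q = (U ∩ f ⁻¹' Q) \ (⋃ z ∈ U \ V, connectedComponentIn U z) := by
    ext z
    simp only [mem_inter_iff, Set.mem_sdiff, mem_iUnion, not_exists]
    constructor
    · rintro ⟨hz1, hz2⟩
      refine ⟨⟨hVU hz1, hz2⟩, fun q hq hzq => ?_⟩
      have h3 : connectedComponentIn U q = connectedComponentIn U z := connectedComponentIn_eq hzq
      have h4 : connectedComponentIn U x = connectedComponentIn U z := connectedComponentIn_eq hz1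
      exact hq.2 (by rw [hV, h4, ← h3]; exact mem_connectedComponentIn hq.1)
    · rintro ⟨⟨hz1, hz2⟩, hz3⟩
      refine ⟨?_, hz2⟩
      by_contra hzV
      exact hz3 z ⟨hz1, hzV⟩ (mem_connectedComponentIn hz1)
  rw [h2]
  refine h1.diff (isOpen_iUnion fun z => isOpen_iUnion fun _ => hU.connectedComponentIn)

end Pool.Agent.Helper171.Ori
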