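import Pool.Agent.Helper171.NHM.OriDefs
set_option autoImplicit false

open MeasureTheory Metric Set Filter Topology
open scoped ENNReal NNReal ContDiff

namespace Pool.Agent.Helper171.Ori

namespace Hom

variable {n : ℕ}


/-! vendored from H248.ID -/
namespace Hom

/-- `j`-th partial derivative -/
noncomputable def pd {n : ℕ} (h : E n → ℝ) (j : Fin n) (x : E n) : ℝ :=
  fderiv ℝ h x (Pi.single j 1)

/-- Jacobian matrix -/
noncomputable def jac {n : ℕ} (f : E n → E n) (x : E n) : Matrix (Fin n) (Fin n) ℝ :=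
  Matrix.of fun i j => pd (fun y => f y i) j x

lemma pd_mul {n : ℕ} {u v : E n → ℝ} {x : E n} (hu : DifferentiableAt ℝ u x)
    (hv : DifferentiableAt ℝ v x)
    (j : Fin n) : pd (fun y => u y * v y) j x = u x * pd v j x + v x * pd u j x := by
  unfold pd
  rw [fderiv_fun_mul hu hv]
  simp

lemma pd_contDiff {n : ℕ} {u : E n → ℝ} (hu : ContDiff ℝ ∞ u) (j : Fin n) :
    ContDiff ℝ ∞ (pd u j) := by
  unfold pd
  exact (hu.fderiv_right (m := ∞) (by simp)).clm_apply contDiff_const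

lemma pd_supp {n : ℕ} {u : E n → ℝ} (hu : HasCompactSupport u) (j : Fin n) :
    HasCompactSupport (pd u j) := by
  have h1 : HasCompactSupport (fderiv ℝ u) := hu.fderiv ℝ
  refine HasCompactSupport.mono h1 ?_
  intro z hz
  rw [Function.mem_support] at hz ⊢
  intro h0
  apply hz
  unfold pd
  rw [h0]
  simp

lemma pd_comm {n : ℕ} {u : E n → ℝ} (hu : ContDiff ℝ ∞ u) (a b : Fin n) (x : E n) :
    pd (pd u a) b x = pd (pd u b) a x := by
  have h1 : ContDiff ℝ ∞ (fderiv ℝ u) := hu.fderiv_right (m := ∞) (by simp)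
  have hd : DifferentiableAt ℝ (fderiv ℝ u) x := h1.differentiable (by simp) x
  have h2 : ∀ a b : Fin n, pd (pd u a) b x
      = fderiv ℝ (fderiv ℝ u) x (Pi.single b 1) (Pi.single a 1) := by
    intro a b
    unfold pd
    have h3 := hd.hasFDerivAt.clm_apply (hasFDerivAt_const (Pi.single a (1 : ℝ) : E n) x)
    rw [h3.fderiv]
    simp
  rw [h2, h2]
  exact (hu.contDiffAt.isSymmSndFDerivAt (by simp only [minSmoothness_of_isRCLikeNormedField]; exact WithTop.coe_le_coe.mpr le_top)) _ _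

/-- the product of the entries in all rows but `i` -/
noncomputable def Gs {n : ℕ} (f : E n → E n) (i : Fin n) (σ : Equiv.Perm (Fin n)) (x : E n) : ℝ :=
  ∏ l ∈ Finset.univ.erase i, pd (fun y => f y l) (σ l) x

lemma comp_contDiff {n : ℕ} {f : E n → E n} (hf : ContDiff ℝ ∞ f) (l : Fin n) :
    ContDiff ℝ ∞ (fun y => f y l) := (contDiff_pi.mp hf) l

lemma Gs_contDiff {n : ℕ} {f : E n → E n} (hf : ContDiff ℝ ∞ f) (i : Fin n)
    (σ : Equiv.Perm (Fin n)) : ContDiff ℝ ∞ (Gs f i σ) := by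
  unfold Gs
  exact contDiff_prod fun l _ => pd_contDiff (comp_contDiff hf l) _

lemma pd_Gs {n : ℕ} {f : E n → E n} (hf : ContDiff ℝ ∞ f) (i j : Fin n)
    (σ : Equiv.Perm (Fin n)) (x : E n) :
    pd (Gs f i σ) j x = ∑ l ∈ Finset.univ.erase i,
      (∏ k ∈ (Finset.univ.erase i).erase l, pd (fun y => f y k) (σ k) x) *
        pd (pd (fun y => f y l) (σ l)) j x := by
  have h1 : HasFDerivAt (Gs f i σ) (∑ l ∈ Finset.univ.erase i,
      (∏ k ∈ (Finset.univ.erase i).erase l, pd (fun y => f y k) (σ k) x) •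
        fderiv ℝ (pd (fun y => f y l) (σ l)) x) x := by
    have h2 := HasFDerivAt.finsetProd (u := Finset.univ.erase i) (x := x)
      (g := fun l x => pd (fun y => f y l) (σ l) x)
      (g' := fun l => fderiv ℝ (pd (fun y => f y l) (σ l)) x)
      (fun l _ => ((pd_contDiff (comp_contDiff hf l) (σ l)).differentiable (by simp) x).hasFDerivAt)
    exact h2
  rw [pd, h1.fderiv, sum_apply]
  apply Finset.sum_congr rfl
  intro l _
  rfl

lemma alg_zero {n : ℕ} {f : E n → E n} (hf : ContDiff ℝ ∞ f) (i : Fin n) (x : E n) :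
    ∑ σ : Equiv.Perm (Fin n), ((Equiv.Perm.sign σ : ℤ) : ℝ) * pd (Gs f i σ) (σ i) x = 0 := by
  simp only [pd_Gs hf, Finset.mul_sum]
  rw [Finset.sum_comm]
  apply Finset.sum_eq_zero
  intro l hl
  have hli : l ≠ i := (Finset.mem_erase.mp hl).1
  set F : Equiv.Perm (Fin n) → ℝ := fun σ => ((Equiv.Perm.sign σ : ℤ) : ℝ) *
    ((∏ k ∈ (Finset.univ.erase i).erase l, pd (fun y => f y k) (σ k) x) *
        pd (pd (fun y => f y l) (σ l)) (σ i) x) with hF
  have h1 : ∀ σ, F (σ * Equiv.swap i l) = - F σ := by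
    intro σ
    simp only [hF]
    rw [Equiv.Perm.sign_mul, Equiv.Perm.sign_swap (Ne.symm hli)]
    have e1 : (σ * Equiv.swap i l) l = σ i := by simp
    have e2 : (σ * Equiv.swap i l) i = σ l := by simp
    have e3 : ∏ k ∈ (Finset.univ.erase i).erase l, pd (fun y => f y k) ((σ * Equiv.swap i l) k) x
        = ∏ k ∈ (Finset.univ.erase i).erase l, pd (fun y => f y k) (σ k) x := by
      apply Finset.prod_congr rfl
      intro k hk
      rw [Finset.mem_erase, Finset.mem_erase] at hk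
      rw [Equiv.Perm.mul_apply, Equiv.swap_apply_of_ne_of_ne hk.2.1 hk.1]
    rw [e1, e2, e3, pd_comm (comp_contDiff hf l)]
    push_cast
    ring
  have h2 : ∑ σ, F (σ * Equiv.swap i l) = ∑ σ, F σ :=
    Equiv.sum_comp (Equiv.mulRight (Equiv.swap i l)) F
  have h3 : ∑ σ, F (σ * Equiv.swap i l) = - ∑ σ, F σ := by
    rw [← Finset.sum_neg_distrib]
    exact Finset.sum_congr rfl fun σ _ => h1 σ
  linarith



/-- L1. null Lagrangian -/
theorem null_lagrangian {n : ℕ} {f : E n → E n} (hf : ContDiff ℝ ∞ f) {h : E n → ℝ}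
    (hh : ContDiff ℝ ∞ h) (hc : HasCompactSupport h) (i : Fin n) :
    ∫ x, ((jac f x).updateRow i (fun j => pd h j x)).det = 0 := by
  have hdet : ∀ x, ((jac f x).updateRow i (fun j => pd h j x)).det
      = ∑ σ : Equiv.Perm (Fin n), ((Equiv.Perm.sign σ : ℤ) : ℝ) * (pd h (σ i) x * Gs f i σ x) := by
    intro x
    rw [← Matrix.det_transpose, Matrix.det_apply']
    apply Finset.sum_congr rfl
    intro σ _
    congr 1
    rw [← Finset.mul_prod_erase Finset.univ _ (Finset.mem_univ i)]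
    congr 1
    · simp [Matrix.updateRow_self]
    · unfold Gs
      apply Finset.prod_congr rfl
      intro l hl
      rw [Matrix.transpose_apply, Matrix.updateRow_ne (Finset.mem_erase.mp hl).1]
      rfl
  simp only [hdet]
  have hi1 : ∀ (j : Fin n) (σ : Equiv.Perm (Fin n)), Integrable (fun x => pd h j x * Gs f i σ x) := by
    intro j σ
    exact ((pd_contDiff hh j).continuous.mul (Gs_contDiff hf i σ).continuous).integrable_of_hasCompactSupport
      ((pd_supp hc j).mul_right)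
  have hi2 : ∀ (j : Fin n) (σ : Equiv.Perm (Fin n)), Integrable (fun x => h x * pd (Gs f i σ) j x) := by
    intro j σ
    exact (hh.continuous.mul (pd_contDiff (Gs_contDiff hf i σ) j).continuous).integrable_of_hasCompactSupport
      (hc.mul_right)
  have hi3 : ∀ (σ : Equiv.Perm (Fin n)), Integrable (fun x => h x * Gs f i σ x) := by
    intro σ
    exact (hh.continuous.mul (Gs_contDiff hf i σ).continuous).integrable_of_hasCompactSupport
      (hc.mul_right)
  have hibp : ∀ (j : Fin n) (σ : Equiv.Perm (Fin n)),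
      ∫ x, pd h j x * Gs f i σ x = - ∫ x, h x * pd (Gs f i σ) j x := by
    intro j σ
    have h1 := integral_mul_fderiv_eq_neg_fderiv_mul_of_integrable (μ := volume)
      (v := (Pi.single j (1 : ℝ) : E n)) (hi1 j σ) (hi2 j σ) (hi3 σ)
      (fun x _ => hh.differentiable (by simp) x)
      (fun x _ => (Gs_contDiff hf i σ).differentiable (by simp) x)
    have h2 : ∫ x, h x * pd (Gs f i σ) j x = - ∫ x, pd h j x * Gs f i σ x := h1
    rw [h2, neg_neg]
  rw [integral_finsetSum]
  · calc ∑ σ : Equiv.Perm (Fin n), ∫ x, ((Equiv.Perm.sign σ : ℤ) : ℝ) * (pd h (σ i) x * Gs f i σ x)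
        = ∑ σ : Equiv.Perm (Fin n), - ∫ x, ((Equiv.Perm.sign σ : ℤ) : ℝ) * (h x * pd (Gs f i σ) (σ i) x) := by
          apply Finset.sum_congr rfl
          intro σ _
          rw [integral_const_mul, integral_const_mul, hibp]
          ring
      _ = - ∫ x, ∑ σ : Equiv.Perm (Fin n), ((Equiv.Perm.sign σ : ℤ) : ℝ) * (h x * pd (Gs f i σ) (σ i) x) := by
          rw [integral_finsetSum, Finset.sum_neg_distrib]
          intro σ _
          exact (hi2 _ σ).const_mul _
      _ = 0 := by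
          rw [neg_eq_zero]
          have h3 : ∀ x, ∑ σ : Equiv.Perm (Fin n), ((Equiv.Perm.sign σ : ℤ) : ℝ) *
              (h x * pd (Gs f i σ) (σ i) x) = 0 := by
            intro x
            have h4 := alg_zero hf i x
            calc ∑ σ : Equiv.Perm (Fin n), ((Equiv.Perm.sign σ : ℤ) : ℝ) * (h x * pd (Gs f i σ) (σ i) x)
                = h x * ∑ σ : Equiv.Perm (Fin n), ((Equiv.Perm.sign σ : ℤ) : ℝ) * pd (Gs f i σ) (σ i) x := by
                  rw [Finset.mul_sum]
                  exact Finset.sum_congr rfl fun σ _ => by ring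
              _ = 0 := by rw [h4, mul_zero]
          simp only [h3]
          simp
  · intro σ _
    exact (hi1 _ σ).const_mul _


theorem aux_jac {n : ℕ} {f : E n → E n} (hf : ContDiff ℝ ∞ f) (x : E n) (i j : Fin n) :
    jac f x i j = fderiv ℝ f x (Pi.single j 1) i := by
  have hd : DifferentiableAt ℝ f x := (hf.differentiable (by simp)) x
  have h1 := (hasFDerivAt_pi'.mp hd.hasFDerivAt) i
  unfold jac pd
  rw [Matrix.of_apply, h1.fderiv]
  rfl

theorem aux_det {n : ℕ} (A : Matrix (Fin n) (Fin n) ℝ) (i : Fin n) (b : Fin n → ℝ) :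
    (A.updateRow i b).det = ∑ j, A.adjugate j i * b j := by
  rw [← Matrix.cramer_transpose_apply, Matrix.cramer_eq_adjugate_mulVec,
    ← Matrix.adjugate_transpose]
  rfl

theorem aux_lin {n : ℕ} (g : E n → ℝ) (y w : E n) :
    fderiv ℝ g y w = ∑ l, w l * pd g l y := by
  have hw : w = ∑ l, w l • (Pi.single l (1 : ℝ) : E n) := by
    conv_lhs => rw [← Finset.univ_sum_single w]
    apply Finset.sum_congr rfl
    intro l _
    rw [← Pi.single_smul, smul_eq_mul, mul_one]
  conv_lhs => rw [hw]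
  rw [map_sum]
  apply Finset.sum_congr rfl
  intro l _
  rw [map_smul, smul_eq_mul]
  rfl

theorem aux_pd {n : ℕ} {f : E n → E n} (hf : ContDiff ℝ ∞ f) {h : E n → ℝ}
    (hh : ContDiff ℝ ∞ h) {ψ : E n → ℝ} (hψ : ContDiff ℝ ∞ ψ) (x : E n) (j : Fin n) :
    pd (fun x => h x * ψ (f x)) j x =
      h x * (∑ l, jac f x l j * pd ψ l (f x)) + ψ (f x) * pd h j x := by
  have hdf : DifferentiableAt ℝ f x := (hf.differentiable (by simp)) x
  have hdh : DifferentiableAt ℝ h x := (hh.differentiable (by simp)) x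
  have hdψ : DifferentiableAt ℝ ψ (f x) := (hψ.differentiable (by simp)) (f x)
  have h1 : HasFDerivAt (fun x => ψ (f x)) ((fderiv ℝ ψ (f x)).comp (fderiv ℝ f x)) x :=
    hdψ.hasFDerivAt.comp x hdf.hasFDerivAt
  have h2 := (hdh.hasFDerivAt.mul h1).fderiv
  unfold pd at *
  have e : fderiv ℝ (fun x => h x * ψ (f x)) x = fderiv ℝ (h * fun x => ψ (f x)) x := rfl
  rw [e, h2]
  simp only [ContinuousLinearMap.add_apply, ContinuousLinearMap.smul_apply, smul_eq_mul,
    ContinuousLinearMap.comp_apply]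
  rw [aux_lin]
  unfold pd
  congr 2
  apply Finset.sum_congr rfl
  intro l _
  rw [aux_jac hf]

theorem aux_cont_pd {n : ℕ} {g : E n → ℝ} (hg : ContDiff ℝ ∞ g) (j : Fin n) :
    Continuous (fun x => pd g j x) := by
  unfold pd
  exact (hg.continuous_fderiv (by simp)).clm_apply continuous_const

theorem aux_cont_jac {n : ℕ} {f : E n → E n} (hf : ContDiff ℝ ∞ f) :
    Continuous (fun x => jac f x) := by
  apply continuous_matrix
  intro i j
  unfold jac
  simp only [Matrix.of_apply]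
  exact aux_cont_pd ((contDiff_pi.mp hf) i) j

lemma det_fderiv {n : ℕ} {f : E n → E n} (hf : ContDiff ℝ ∞ f) (x : E n) :
    (fderiv ℝ f x).det = (jac f x).det := by
  have hM : jac f x = LinearMap.toMatrix' ((fderiv ℝ f x : E n →L[ℝ] E n) : E n →ₗ[ℝ] E n) := by
    ext i j
    rw [aux_jac hf, LinearMap.toMatrix'_apply]
    congr 2
    try (ext k; simp [Pi.single_apply])
  rw [hM, LinearMap.det_toMatrix']



/-! new part -/

theorem hasDerivAt_det {n : ℕ} {A : ℝ → Matrix (Fin n) (Fin n) ℝ} {A' : Matrix (Fin n) (Fin n) ℝ}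
    {t : ℝ} (h : ∀ i j, HasDerivAt (fun s => A s i j) (A' i j) t) :
    HasDerivAt (fun s => (A s).det) (∑ i, ((A t).updateRow i (A' i)).det) t := by
  have h1 : ∀ s, (A s).det =
      ∑ σ : Equiv.Perm (Fin n), ((Equiv.Perm.sign σ : ℤ) : ℝ) * ∏ l, A s l (σ l) := by
    intro s
    rw [← Matrix.det_transpose, Matrix.det_apply']
    rfl
  have h2 : (∑ i, ((A t).updateRow i (A' i)).det) =
      ∑ σ : Equiv.Perm (Fin n), ((Equiv.Perm.sign σ : ℤ) : ℝ) *
        ∑ i, (∏ l ∈ Finset.univ.erase i, A t l (σ l)) * A' i (σ i) := by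
    simp only [Finset.mul_sum]
    rw [Finset.sum_comm]
    apply Finset.sum_congr rfl
    intro i _
    rw [← Matrix.det_transpose, Matrix.det_apply']
    apply Finset.sum_congr rfl
    intro σ _
    congr 1
    rw [← Finset.mul_prod_erase Finset.univ _ (Finset.mem_univ i), mul_comm]
    congr 1
    · apply Finset.prod_congr rfl
      intro l hl
      rw [Matrix.transpose_apply, Matrix.updateRow_ne (Finset.mem_erase.mp hl).1]
    · simp [Matrix.updateRow_self]
  rw [h2]
  simp only [h1]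
  apply HasDerivAt.fun_sum
  intro σ _
  apply HasDerivAt.const_mul
  have h3 := HasDerivAt.fun_finsetProd (u := (Finset.univ : Finset (Fin n)))
    (f := fun l s => A s l (σ l)) (f' := fun l => A' l (σ l)) (x := t) (fun l _ => h l (σ l))
  simpa [smul_eq_mul] using h3

section main

variable {n : ℕ} {F₀ F₁ : E n → E n} (h0 : ContDiff ℝ ∞ F₀) (h1 : ContDiff ℝ ∞ F₁)
    {θ h : E n → ℝ} (hθ : ContDiff ℝ ∞ θ) (hθc : HasCompactSupport θ) (hh : ContDiff ℝ ∞ h)

/-- the difference -/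
def GG (F₀ F₁ : E n → E n) (x : E n) : E n := F₁ x - F₀ x

/-- the homotopy -/
def FF (F₀ F₁ : E n → E n) (t : ℝ) (x : E n) : E n := F₀ x + t • GG F₀ F₁ x

include h0 h1 in
theorem GG_cd : ContDiff ℝ ∞ (GG F₀ F₁) := h1.sub h0

include h0 h1 in
theorem FF_cd (t : ℝ) : ContDiff ℝ ∞ (FF F₀ F₁ t) := h0.add ((GG_cd h0 h1).const_smul t)

include h0 h1 in
theorem jac_FF (t : ℝ) (x : E n) (i j : Fin n) :
    jac (FF F₀ F₁ t) x i j = jac F₀ x i j + t * jac (GG F₀ F₁) x i j := by
  unfold jac pd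
  simp only [Matrix.of_apply]
  have hd0 : DifferentiableAt ℝ (fun y => F₀ y i) x :=
    ((contDiff_pi.mp h0) i).differentiable (by simp) x
  have hdG : DifferentiableAt ℝ (fun y => GG F₀ F₁ y i) x :=
    ((contDiff_pi.mp (GG_cd h0 h1)) i).differentiable (by simp) x
  have e : (fun y => FF F₀ F₁ t y i) = fun y => F₀ y i + t * GG F₀ F₁ y i := by
    funext y
    simp [FF]
  have h3 := (hd0.hasFDerivAt.add (hdG.hasFDerivAt.const_mul t)).fderiv
  have e2 : fderiv ℝ (fun y => F₀ y i + t * GG F₀ F₁ y i) x =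
    fderiv ℝ ((fun y => F₀ y i) + fun y => t * GG F₀ F₁ y i) x := rfl
  rw [e, e2, h3]
  simp

/-- the integrand -/
noncomputable def JJ (F₀ F₁ : E n → E n) (θ h : E n → ℝ) (t : ℝ) (x : E n) : ℝ :=
  θ x * (h (FF F₀ F₁ t x) * (jac (FF F₀ F₁ t) x).det)

/-- its derivative -/
noncomputable def JJ' (F₀ F₁ : E n → E n) (θ h : E n → ℝ) (t : ℝ) (x : E n) : ℝ :=
  θ x * ((∑ l, GG F₀ F₁ x l * pd h l (FF F₀ F₁ t x)) * (jac (FF F₀ F₁ t) x).det +
    h (FF F₀ F₁ t x) *
      ∑ i, ((jac (FF F₀ F₁ t) x).updateRow i (jac (GG F₀ F₁) x i)).det)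

include h0 h1 hh in
theorem JJ_deriv (t : ℝ) (x : E n) :
    HasDerivAt (fun s => JJ F₀ F₁ θ h s x) (JJ' F₀ F₁ θ h t x) t := by
  unfold JJ JJ'
  apply HasDerivAt.const_mul
  have hF : HasDerivAt (fun s => FF F₀ F₁ s x) (GG F₀ F₁ x) t := by
    have h3 : HasDerivAt (fun s : ℝ => s • GG F₀ F₁ x) ((1 : ℝ) • GG F₀ F₁ x) t :=
      (hasDerivAt_id t).smul_const _
    rw [one_smul] at h3
    exact h3.const_add _
  have hd : HasDerivAt (fun s => h (FF F₀ F₁ s x))
      (∑ l, GG F₀ F₁ x l * pd h l (FF F₀ F₁ t x)) t := by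
    have h4 : HasFDerivAt h (fderiv ℝ h (FF F₀ F₁ t x)) (FF F₀ F₁ t x) :=
      ((hh.differentiable (by simp)) _).hasFDerivAt
    have h5 := h4.comp_hasDerivAt t hF
    rw [aux_lin] at h5
    exact h5
  have hdet : HasDerivAt (fun s => (jac (FF F₀ F₁ s) x).det)
      (∑ i, ((jac (FF F₀ F₁ t) x).updateRow i (jac (GG F₀ F₁) x i)).det) t := by
    apply hasDerivAt_det
    intro i j
    simp only [jac_FF h0 h1]
    have h6 : HasDerivAt (fun s : ℝ => s * jac (GG F₀ F₁) x i j)
        (1 * jac (GG F₀ F₁) x i j) t := (hasDerivAt_id t).mul_const _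
    rw [one_mul] at h6
    exact h6.const_add _
  exact hd.mul hdet

include h0 h1 in
theorem FF_cont : Continuous fun p : ℝ × E n => FF F₀ F₁ p.1 p.2 := by
  unfold FF
  have c0 := h0.continuous
  have cG := (GG_cd h0 h1).continuous
  fun_prop

include h0 h1 in
theorem jacFF_cont : Continuous fun p : ℝ × E n => jac (FF F₀ F₁ p.1) p.2 := by
  apply continuous_matrix
  intro i j
  simp only [jac_FF h0 h1]
  have c0 : Continuous fun x => jac F₀ x i j := (aux_cont_jac h0).matrix_elem i j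
  have cG : Continuous fun x => jac (GG F₀ F₁) x i j :=
    (aux_cont_jac (GG_cd h0 h1)).matrix_elem i j
  fun_prop

include h0 h1 hθ hh in
theorem JJ'_cont : Continuous fun p : ℝ × E n => JJ' F₀ F₁ θ h p.1 p.2 := by
  unfold JJ'
  have cF := FF_cont h0 h1
  have cJ := jacFF_cont h0 h1
  have cθ := hθ.continuous
  have ch : Continuous fun p : ℝ × E n => h (FF F₀ F₁ p.1 p.2) := hh.continuous.comp cF
  have cG := (GG_cd h0 h1).continuous
  have cGl : ∀ l, Continuous fun p : ℝ × E n => GG F₀ F₁ p.2 l := fun l =>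
    (continuous_apply l).comp (cG.comp continuous_snd)
  have cp : ∀ l, Continuous fun p : ℝ × E n => pd h l (FF F₀ F₁ p.1 p.2) := fun l =>
    (aux_cont_pd hh l).comp cF
  have cd : Continuous fun p : ℝ × E n => (jac (FF F₀ F₁ p.1) p.2).det := cJ.matrix_det
  have cu : ∀ i, Continuous fun p : ℝ × E n =>
      ((jac (FF F₀ F₁ p.1) p.2).updateRow i (jac (GG F₀ F₁) p.2 i)).det := by
    intro i
    apply Continuous.matrix_det
    apply Continuous.matrix_updateRow i cJ
    apply continuous_pi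
    intro j
    exact ((aux_cont_jac (GG_cd h0 h1)).matrix_elem i j).comp continuous_snd
  refine (cθ.comp continuous_snd).mul (Continuous.add (Continuous.mul ?_ cd) (ch.mul ?_))
  · exact continuous_finsetSum _ fun l _ => (cGl l).mul (cp l)
  · exact continuous_finsetSum _ fun i _ => cu i

include h0 h1 hθ hh in
theorem JJ_cont (t : ℝ) : Continuous (JJ F₀ F₁ θ h t) := by
  unfold JJ
  have cF := (FF_cd h0 h1 t).continuous
  exact hθ.continuous.mul ((hh.continuous.comp cF).mul (aux_cont_jac (FF_cd h0 h1 t)).matrix_det)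

include h0 h1 hθ hθc hh in
theorem int_deriv (t : ℝ) : HasDerivAt (fun s => ∫ x, JJ F₀ F₁ θ h s x)
    (∫ x, JJ' F₀ F₁ θ h t x) t := by
  have hcont := JJ'_cont h0 h1 hθ hh
  have hK : IsCompact (closedBall t 1 ×ˢ tsupport θ) :=
    (isCompact_closedBall t 1).prod hθc
  obtain ⟨C, hC⟩ := hK.exists_bound_of_continuousOn hcont.continuousOn
  have hCt : ContinuousOn (fun _ : E n => C) (tsupport θ) := continuousOn_const
  refine (hasDerivAt_integral_of_dominated_loc_of_deriv_le (s := closedBall t 1)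
    (bound := (tsupport θ).indicator fun _ => C) (closedBall_mem_nhds t one_pos)
    (Eventually.of_forall fun s => (JJ_cont h0 h1 hθ hh s).aestronglyMeasurable) ?_ ?_ ?_ ?_ ?_).2
  · exact (JJ_cont h0 h1 hθ hh t).integrable_of_hasCompactSupport hθc.mul_right
  · have : Continuous (JJ' F₀ F₁ θ h t) := hcont.comp (Continuous.prodMk_right t)
    exact this.aestronglyMeasurable
  · refine Eventually.of_forall fun x s hs => ?_
    by_cases hx : x ∈ tsupport θ
    · rw [Set.indicator_of_mem hx]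
      exact hC (s, x) ⟨hs, hx⟩
    · rw [Set.indicator_of_notMem hx]
      have : θ x = 0 := image_eq_zero_of_notMem_tsupport hx
      simp [JJ', this]
  · rw [integrable_indicator_iff (isClosed_tsupport θ).measurableSet]
    exact hCt.integrableOn_compact hθc
  · exact Eventually.of_forall fun x s _ => JJ_deriv h0 h1 hh s x

include h0 h1 hθ hh in
theorem key_id (t : ℝ) (x : E n)
    (hz : fderiv ℝ θ x ≠ 0 → h (FF F₀ F₁ t x) = 0) :
    JJ' F₀ F₁ θ h t x = ∑ i, ((jac (FF F₀ F₁ t) x).updateRow i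
      (fun j => pd (fun y => (θ y * h (FF F₀ F₁ t y)) * GG F₀ F₁ y i) j x)).det := by
  have hF := FF_cd h0 h1 t
  have hG := GG_cd h0 h1
  have hθh : ContDiff ℝ ∞ (fun y => θ y * h (FF F₀ F₁ t y)) := hθ.mul (hh.comp hF)
  have hrow : ∀ i j, pd (fun y => (θ y * h (FF F₀ F₁ t y)) * GG F₀ F₁ y i) j x =
      (θ x * h (FF F₀ F₁ t x)) * jac (GG F₀ F₁) x i j +
        GG F₀ F₁ x i * (θ x * ∑ l, jac (FF F₀ F₁ t) x l j * pd h l (FF F₀ F₁ t x)) := by
    intro i j
    have e1 := pd_mul (u := fun y => θ y * h (FF F₀ F₁ t y)) (v := fun y => GG F₀ F₁ y i) (x := x)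
      (hθh.differentiable (by simp) x)
      (((contDiff_pi.mp hG) i).differentiable (by simp) x) j
    have e2 := aux_pd hF hθ hh x j
    have e3 : h (FF F₀ F₁ t x) * pd θ j x = 0 := by
      by_cases hd : fderiv ℝ θ x = 0
      · unfold pd
        rw [hd]
        simp
      · rw [hz hd, zero_mul]
    rw [e1, e2, e3, add_zero]
    rfl
  have h1' : ∀ i l, ∑ j, jac (FF F₀ F₁ t) x l j * (jac (FF F₀ F₁ t) x).adjugate j i =
      if l = i then (jac (FF F₀ F₁ t) x).det else 0 := by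
    intro i l
    have h2 : (jac (FF F₀ F₁ t) x * (jac (FF F₀ F₁ t) x).adjugate) l i =
        ((jac (FF F₀ F₁ t) x).det • (1 : Matrix _ _ ℝ)) l i := by
      rw [Matrix.mul_adjugate]
    rw [Matrix.mul_apply] at h2
    rw [h2, Matrix.smul_apply, Matrix.one_apply]
    split_ifs <;> simp
  have hdet : ∀ i, ((jac (FF F₀ F₁ t) x).updateRow i
      (fun j => pd (fun y => (θ y * h (FF F₀ F₁ t y)) * GG F₀ F₁ y i) j x)).det =
      θ x * h (FF F₀ F₁ t x) * ((jac (FF F₀ F₁ t) x).updateRow i (jac (GG F₀ F₁) x i)).det +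
      θ x * (GG F₀ F₁ x i * pd h i (FF F₀ F₁ t x)) * (jac (FF F₀ F₁ t) x).det := by
    intro i
    rw [aux_det, aux_det]
    simp only [hrow, mul_add, Finset.sum_add_distrib]
    congr 1
    · rw [Finset.mul_sum]
      apply Finset.sum_congr rfl
      intro j _
      ring
    · calc ∑ j, (jac (FF F₀ F₁ t) x).adjugate j i * (GG F₀ F₁ x i * (θ x *
              ∑ l, jac (FF F₀ F₁ t) x l j * pd h l (FF F₀ F₁ t x)))
          = ∑ j, ∑ l, θ x * GG F₀ F₁ x i * pd h l (FF F₀ F₁ t x) *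
              (jac (FF F₀ F₁ t) x l j * (jac (FF F₀ F₁ t) x).adjugate j i) := by
            apply Finset.sum_congr rfl
            intro j _
            rw [Finset.mul_sum, Finset.mul_sum, Finset.mul_sum]
            apply Finset.sum_congr rfl
            intro l _
            ring
        _ = ∑ l, θ x * GG F₀ F₁ x i * pd h l (FF F₀ F₁ t x) *
              ∑ j, jac (FF F₀ F₁ t) x l j * (jac (FF F₀ F₁ t) x).adjugate j i := by
            rw [Finset.sum_comm]
            apply Finset.sum_congr rfl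
            intro l _
            rw [Finset.mul_sum]
        _ = θ x * (GG F₀ F₁ x i * pd h i (FF F₀ F₁ t x)) * (jac (FF F₀ F₁ t) x).det := by
            simp only [h1', mul_ite, mul_zero]
            rw [Finset.sum_ite_eq' Finset.univ i]
            simp only [Finset.mem_univ, if_true]
            ring
  simp only [hdet]
  rw [Finset.sum_add_distrib]
  unfold JJ'
  rw [← Finset.mul_sum, ← Finset.sum_mul, ← Finset.mul_sum]
  ring

include h0 h1 hθ hθc hh in
theorem int_zero (t : ℝ) (hz : ∀ x, fderiv ℝ θ x ≠ 0 → h (FF F₀ F₁ t x) = 0) :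
    ∫ x, JJ' F₀ F₁ θ h t x = 0 := by
  have hF := FF_cd h0 h1 t
  have hG := GG_cd h0 h1
  have hθh : ContDiff ℝ ∞ (fun y => θ y * h (FF F₀ F₁ t y)) := hθ.mul (hh.comp hF)
  have hu : ∀ i, ContDiff ℝ ∞ (fun y => (θ y * h (FF F₀ F₁ t y)) * GG F₀ F₁ y i) := fun i =>
    hθh.mul ((contDiff_pi.mp hG) i)
  have huc : ∀ i, HasCompactSupport (fun y => (θ y * h (FF F₀ F₁ t y)) * GG F₀ F₁ y i) := fun i =>
    (hθc.mul_right).mul_right
  have e1 : ∀ x, JJ' F₀ F₁ θ h t x = ∑ i, ((jac (FF F₀ F₁ t) x).updateRow i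
      (fun j => pd (fun y => (θ y * h (FF F₀ F₁ t y)) * GG F₀ F₁ y i) j x)).det := fun x =>
    key_id h0 h1 hθ hh t x (hz x)
  simp only [e1]
  rw [integral_finsetSum]
  · apply Finset.sum_eq_zero
    intro i _
    exact null_lagrangian hF (hu i) (huc i) i
  · intro i _
    simp only [aux_det]
    apply integrable_finset_sum
    intro j _
    apply Continuous.integrable_of_hasCompactSupport
    · exact ((aux_cont_jac hF).matrix_adjugate.matrix_elem j i).mul (aux_cont_pd (hu i) j)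
    · exact (pd_supp (huc i) j).mul_left

end main

end Hom

/- TARGET -/
/-- L2 homotopy invariance -/
theorem homotopy {F₀ F₁ : E n → E n} (h0 : ContDiff ℝ ∞ F₀) (h1 : ContDiff ℝ ∞ F₁)
    {θ h : E n → ℝ} (hθ : ContDiff ℝ ∞ θ) (hθc : HasCompactSupport θ) (hh : ContDiff ℝ ∞ h)
    (hz : ∀ x, fderiv ℝ θ x ≠ 0 → ∀ t ∈ Icc (0 : ℝ) 1, h (F₀ x + t • (F₁ x - F₀ x)) = 0) :
    ∫ x, θ x * h (F₀ x) * (fderiv ℝ F₀ x).det = ∫ x, θ x * h (F₁ x) * (fderiv ℝ F₁ x).det := by
  have hd : ∀ t, HasDerivAt (fun s => ∫ x, Hom.JJ F₀ F₁ θ h s x)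
      (∫ x, Hom.JJ' F₀ F₁ θ h t x) t := fun t => Hom.int_deriv h0 h1 hθ hθc hh t
  obtain ⟨c, hc, hslope⟩ := exists_hasDerivAt_eq_slope
    (fun s => ∫ x, Hom.JJ F₀ F₁ θ h s x) (fun t => ∫ x, Hom.JJ' F₀ F₁ θ h t x)
    (zero_lt_one (α := ℝ)) (fun t _ => (hd t).continuousAt.continuousWithinAt)
    (fun t _ => hd t)
  have hz' : ∫ x, Hom.JJ' F₀ F₁ θ h c x = 0 := by
    apply Hom.int_zero h0 h1 hθ hθc hh
    intro x hx
    exact hz x hx c ⟨hc.1.le, hc.2.le⟩
  rw [hz', sub_zero, div_one] at hslope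
  have e0 : Hom.FF F₀ F₁ 0 = F₀ := by
    funext x
    simp [Hom.FF]
  have e1 : Hom.FF F₀ F₁ 1 = F₁ := by
    funext x
    simp [Hom.FF, Hom.GG]
  have i0 : ∫ x, Hom.JJ F₀ F₁ θ h 0 x = ∫ x, θ x * h (F₀ x) * (fderiv ℝ F₀ x).det := by
    apply integral_congr_ae
    refine Eventually.of_forall fun x => ?_
    simp only [Hom.JJ, e0, Hom.det_fderiv h0, mul_assoc]
  have i1 : ∫ x, Hom.JJ F₀ F₁ θ h 1 x = ∫ x, θ x * h (F₁ x) * (fderiv ℝ F₁ x).det := by
    apply integral_congr_ae
    refine Eventually.of_forall fun x => ?_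
    simp only [Hom.JJ, e1, Hom.det_fderiv h1, mul_assoc]
  rw [← i0, ← i1]
  exact (sub_eq_zero.1 hslope.symm).symm


end Hom

export Hom (homotopy)

end Pool.Agent.Helper171.Ori
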