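import Pool.Agent.Helper171.NHM.OriDefs
set_option autoImplicit false

open MeasureTheory Metric Set Filter Topology
open scoped ENNReal NNReal ContDiff

namespace Pool.Agent.Helper171.Ori

variable {n : ℕ}



/-! vendored from Pool/Agent/H248/ID/{Defs,J01,J02}.lean -/
namespace IbpAux

/-- `j`-th partial derivative -/
noncomputable def pd {n : ℕ} (h : E n → ℝ) (j : Fin n) (x : E n) : ℝ :=
  fderiv ℝ h x (Pi.single j 1)

/-- Jacobian matrix -/
noncomputable def jac {n : ℕ} (f : E n → E n) (x : E n) : Matrix (Fin n) (Fin n) ℝ :=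
  Matrix.of fun i j => pd (fun y => f y i) j x

lemma pd_contDiff {n : ℕ} {u : E n → ℝ} (hu : ContDiff ℝ ∞ u) (j : Fin n) :
    ContDiff ℝ ∞ (pd u j) := by
  unfold pd
  exact (hu.fderiv_right (m := ∞) (by simp)).clm_apply contDiff_const

lemma pd_supp {n : ℕ} {u : E n → ℝ} (hu : HasCompactSupport u) (j : Fin n) :
    HasCompactSupport (pd u j) := by
  have h1 : HasCompactSupport (fderiv ℝ u) := hu.fderiv ℝ
  refine HasCompactSupport.mono h1 ?_
  intro z hz
  rw [Function.mem_support] at hz ⊢
  intro h0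
  apply hz
  unfold pd
  rw [h0]
  simp

lemma pd_comm {n : ℕ} {u : E n → ℝ} (hu : ContDiff ℝ ∞ u) (a b : Fin n) (x : E n) :
    pd (pd u a) b x = pd (pd u b) a x := by
  have h1 : ContDiff ℝ ∞ (fderiv ℝ u) := hu.fderiv_right (m := ∞) (by simp)
  have hd : DifferentiableAt ℝ (fderiv ℝ u) x := h1.differentiable (by simp) x
  have h2 : ∀ a b : Fin n, pd (pd u a) b x
      = fderiv ℝ (fderiv ℝ u) x (Pi.single b 1) (Pi.single a 1) := by
    intro a b
    unfold pd
    have h3 := hd.hasFDerivAt.clm_apply (hasFDerivAt_const (Pi.single a (1 : ℝ) : E n) x)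
    rw [h3.fderiv]
    simp
  rw [h2, h2]
  exact (hu.contDiffAt.isSymmSndFDerivAt (by simp only [minSmoothness_of_isRCLikeNormedField]; exact WithTop.coe_le_coe.mpr le_top)) _ _

/-- the product of the entries in all rows but `i` -/
noncomputable def Gs {n : ℕ} (f : E n → E n) (i : Fin n) (σ : Equiv.Perm (Fin n)) (x : E n) : ℝ :=
  ∏ l ∈ Finset.univ.erase i, pd (fun y => f y l) (σ l) x

lemma comp_contDiff {n : ℕ} {f : E n → E n} (hf : ContDiff ℝ ∞ f) (l : Fin n) :
    ContDiff ℝ ∞ (fun y => f y l) := (contDiff_pi.mp hf) l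

lemma Gs_contDiff {n : ℕ} {f : E n → E n} (hf : ContDiff ℝ ∞ f) (i : Fin n)
    (σ : Equiv.Perm (Fin n)) : ContDiff ℝ ∞ (Gs f i σ) := by
  unfold Gs
  exact contDiff_prod fun l _ => pd_contDiff (comp_contDiff hf l) _

lemma pd_Gs {n : ℕ} {f : E n → E n} (hf : ContDiff ℝ ∞ f) (i j : Fin n)
    (σ : Equiv.Perm (Fin n)) (x : E n) :
    pd (Gs f i σ) j x = ∑ l ∈ Finset.univ.erase i,
      (∏ k ∈ (Finset.univ.erase i).erase l, pd (fun y => f y k) (σ k) x) *
        pd (pd (fun y => f y l) (σ l)) j x := by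
  have h1 : HasFDerivAt (Gs f i σ) (∑ l ∈ Finset.univ.erase i,
      (∏ k ∈ (Finset.univ.erase i).erase l, pd (fun y => f y k) (σ k) x) •
        fderiv ℝ (pd (fun y => f y l) (σ l)) x) x := by
    have h2 := HasFDerivAt.finsetProd (u := Finset.univ.erase i) (x := x)
      (g := fun l x => pd (fun y => f y l) (σ l) x)
      (g' := fun l => fderiv ℝ (pd (fun y => f y l) (σ l)) x)
      (fun l _ => ((pd_contDiff (comp_contDiff hf l) (σ l)).differentiable (by simp) x).hasFDerivAt)
    exact h2
  rw [pd, h1.fderiv, sum_apply]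
  apply Finset.sum_congr rfl
  intro l _
  rfl

lemma alg_zero {n : ℕ} {f : E n → E n} (hf : ContDiff ℝ ∞ f) (i : Fin n) (x : E n) :
    ∑ σ : Equiv.Perm (Fin n), ((Equiv.Perm.sign σ : ℤ) : ℝ) * pd (Gs f i σ) (σ i) x = 0 := by
  simp only [pd_Gs hf, Finset.mul_sum]
  rw [Finset.sum_comm]
  apply Finset.sum_eq_zero
  intro l hl
  have hli : l ≠ i := (Finset.mem_erase.mp hl).1
  set F : Equiv.Perm (Fin n) → ℝ := fun σ => ((Equiv.Perm.sign σ : ℤ) : ℝ) *
    ((∏ k ∈ (Finset.univ.erase i).erase l, pd (fun y => f y k) (σ k) x) *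
        pd (pd (fun y => f y l) (σ l)) (σ i) x) with hF
  have h1 : ∀ σ, F (σ * Equiv.swap i l) = - F σ := by
    intro σ
    simp only [hF]
    rw [Equiv.Perm.sign_mul, Equiv.Perm.sign_swap (Ne.symm hli)]
    have e1 : (σ * Equiv.swap i l) l = σ i := by simp
    have e2 : (σ * Equiv.swap i l) i = σ l := by simp
    have e3 : ∏ k ∈ (Finset.univ.erase i).erase l, pd (fun y => f y k) ((σ * Equiv.swap i l) k) x
        = ∏ k ∈ (Finset.univ.erase i).erase l, pd (fun y => f y k) (σ k) x := by
      apply Finset.prod_congr rfl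
      intro k hk
      rw [Finset.mem_erase, Finset.mem_erase] at hk
      rw [Equiv.Perm.mul_apply, Equiv.swap_apply_of_ne_of_ne hk.2.1 hk.1]
    rw [e1, e2, e3, pd_comm (comp_contDiff hf l)]
    push_cast
    ring
  have h2 : ∑ σ, F (σ * Equiv.swap i l) = ∑ σ, F σ :=
    Equiv.sum_comp (Equiv.mulRight (Equiv.swap i l)) F
  have h3 : ∑ σ, F (σ * Equiv.swap i l) = - ∑ σ, F σ := by
    rw [← Finset.sum_neg_distrib]
    exact Finset.sum_congr rfl fun σ _ => h1 σ
  linarith



/-- L1. null Lagrangian -/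
theorem null_lagrangian {n : ℕ} {f : E n → E n} (hf : ContDiff ℝ ∞ f) {h : E n → ℝ}
    (hh : ContDiff ℝ ∞ h) (hc : HasCompactSupport h) (i : Fin n) :
    ∫ x, ((jac f x).updateRow i (fun j => pd h j x)).det = 0 := by
  have hdet : ∀ x, ((jac f x).updateRow i (fun j => pd h j x)).det
      = ∑ σ : Equiv.Perm (Fin n), ((Equiv.Perm.sign σ : ℤ) : ℝ) * (pd h (σ i) x * Gs f i σ x) := by
    intro x
    rw [← Matrix.det_transpose, Matrix.det_apply']
    apply Finset.sum_congr rfl
    intro σ _
    congr 1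
    rw [← Finset.mul_prod_erase Finset.univ _ (Finset.mem_univ i)]
    congr 1
    · simp [Matrix.updateRow_self]
    · unfold Gs
      apply Finset.prod_congr rfl
      intro l hl
      rw [Matrix.transpose_apply, Matrix.updateRow_ne (Finset.mem_erase.mp hl).1]
      rfl
  simp only [hdet]
  have hi1 : ∀ (j : Fin n) (σ : Equiv.Perm (Fin n)), Integrable (fun x => pd h j x * Gs f i σ x) := by
    intro j σ
    exact ((pd_contDiff hh j).continuous.mul (Gs_contDiff hf i σ).continuous).integrable_of_hasCompactSupport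
      ((pd_supp hc j).mul_right)
  have hi2 : ∀ (j : Fin n) (σ : Equiv.Perm (Fin n)), Integrable (fun x => h x * pd (Gs f i σ) j x) := by
    intro j σ
    exact (hh.continuous.mul (pd_contDiff (Gs_contDiff hf i σ) j).continuous).integrable_of_hasCompactSupport
      (hc.mul_right)
  have hi3 : ∀ (σ : Equiv.Perm (Fin n)), Integrable (fun x => h x * Gs f i σ x) := by
    intro σ
    exact (hh.continuous.mul (Gs_contDiff hf i σ).continuous).integrable_of_hasCompactSupport
      (hc.mul_right)
  have hibp : ∀ (j : Fin n) (σ : Equiv.Perm (Fin n)),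
      ∫ x, pd h j x * Gs f i σ x = - ∫ x, h x * pd (Gs f i σ) j x := by
    intro j σ
    have h1 := integral_mul_fderiv_eq_neg_fderiv_mul_of_integrable (μ := volume)
      (v := (Pi.single j (1 : ℝ) : E n)) (hi1 j σ) (hi2 j σ) (hi3 σ)
      (fun x _ => hh.differentiable (by simp) x)
      (fun x _ => (Gs_contDiff hf i σ).differentiable (by simp) x)
    have h2 : ∫ x, h x * pd (Gs f i σ) j x = - ∫ x, pd h j x * Gs f i σ x := h1
    rw [h2, neg_neg]
  rw [integral_finsetSum]
  · calc ∑ σ : Equiv.Perm (Fin n), ∫ x, ((Equiv.Perm.sign σ : ℤ) : ℝ) * (pd h (σ i) x * Gs f i σ x)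
        = ∑ σ : Equiv.Perm (Fin n), - ∫ x, ((Equiv.Perm.sign σ : ℤ) : ℝ) * (h x * pd (Gs f i σ) (σ i) x) := by
          apply Finset.sum_congr rfl
          intro σ _
          rw [integral_const_mul, integral_const_mul, hibp]
          ring
      _ = - ∫ x, ∑ σ : Equiv.Perm (Fin n), ((Equiv.Perm.sign σ : ℤ) : ℝ) * (h x * pd (Gs f i σ) (σ i) x) := by
          rw [integral_finsetSum, Finset.sum_neg_distrib]
          intro σ _
          exact (hi2 _ σ).const_mul _
      _ = 0 := by
          rw [neg_eq_zero]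
          have h3 : ∀ x, ∑ σ : Equiv.Perm (Fin n), ((Equiv.Perm.sign σ : ℤ) : ℝ) *
              (h x * pd (Gs f i σ) (σ i) x) = 0 := by
            intro x
            have h4 := alg_zero hf i x
            calc ∑ σ : Equiv.Perm (Fin n), ((Equiv.Perm.sign σ : ℤ) : ℝ) * (h x * pd (Gs f i σ) (σ i) x)
                = h x * ∑ σ : Equiv.Perm (Fin n), ((Equiv.Perm.sign σ : ℤ) : ℝ) * pd (Gs f i σ) (σ i) x := by
                  rw [Finset.mul_sum]
                  exact Finset.sum_congr rfl fun σ _ => by ring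
              _ = 0 := by rw [h4, mul_zero]
          simp only [h3]
          simp
  · intro σ _
    exact (hi1 _ σ).const_mul _

theorem aux_jac {n : ℕ} {f : E n → E n} (hf : ContDiff ℝ ∞ f) (x : E n) (i j : Fin n) :
    jac f x i j = fderiv ℝ f x (Pi.single j 1) i := by
  have hd : DifferentiableAt ℝ f x := (hf.differentiable (by simp)) x
  have h1 := (hasFDerivAt_pi'.mp hd.hasFDerivAt) i
  unfold jac pd
  rw [Matrix.of_apply, h1.fderiv]
  rfl

theorem aux_det {n : ℕ} (A : Matrix (Fin n) (Fin n) ℝ) (i : Fin n) (b : Fin n → ℝ) :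
    (A.updateRow i b).det = ∑ j, A.adjugate j i * b j := by
  rw [← Matrix.cramer_transpose_apply, Matrix.cramer_eq_adjugate_mulVec,
    ← Matrix.adjugate_transpose]
  rfl

theorem aux_lin {n : ℕ} (g : E n → ℝ) (y w : E n) :
    fderiv ℝ g y w = ∑ l, w l * pd g l y := by
  have hw : w = ∑ l, w l • (Pi.single l (1 : ℝ) : E n) := by
    conv_lhs => rw [← Finset.univ_sum_single w]
    apply Finset.sum_congr rfl
    intro l _
    rw [← Pi.single_smul, smul_eq_mul, mul_one]
  conv_lhs => rw [hw]
  rw [map_sum]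
  apply Finset.sum_congr rfl
  intro l _
  rw [map_smul, smul_eq_mul]
  rfl

theorem aux_pd {n : ℕ} {f : E n → E n} (hf : ContDiff ℝ ∞ f) {h : E n → ℝ}
    (hh : ContDiff ℝ ∞ h) {ψ : E n → ℝ} (hψ : ContDiff ℝ ∞ ψ) (x : E n) (j : Fin n) :
    pd (fun x => h x * ψ (f x)) j x =
      h x * (∑ l, jac f x l j * pd ψ l (f x)) + ψ (f x) * pd h j x := by
  have hdf : DifferentiableAt ℝ f x := (hf.differentiable (by simp)) x
  have hdh : DifferentiableAt ℝ h x := (hh.differentiable (by simp)) x
  have hdψ : DifferentiableAt ℝ ψ (f x) := (hψ.differentiable (by simp)) (f x)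
  have h1 : HasFDerivAt (fun x => ψ (f x)) ((fderiv ℝ ψ (f x)).comp (fderiv ℝ f x)) x :=
    hdψ.hasFDerivAt.comp x hdf.hasFDerivAt
  have h2 := (hdh.hasFDerivAt.mul h1).fderiv
  unfold pd at *
  have e : fderiv ℝ (fun x => h x * ψ (f x)) x = fderiv ℝ (h * fun x => ψ (f x)) x := rfl
  rw [e, h2]
  simp only [add_apply, smul_apply, smul_eq_mul,
    ContinuousLinearMap.comp_apply]
  rw [aux_lin]
  unfold pd
  congr 2
  apply Finset.sum_congr rfl
  intro l _
  rw [aux_jac hf]

theorem aux_cont_pd {n : ℕ} {g : E n → ℝ} (hg : ContDiff ℝ ∞ g) (j : Fin n) :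
    Continuous (fun x => pd g j x) := by
  unfold pd
  exact (hg.continuous_fderiv (by simp)).clm_apply continuous_const

theorem aux_cont_jac {n : ℕ} {f : E n → E n} (hf : ContDiff ℝ ∞ f) :
    Continuous (fun x => jac f x) := by
  apply continuous_matrix
  intro i j
  unfold jac
  simp only [Matrix.of_apply]
  exact aux_cont_pd ((contDiff_pi.mp hf) i) j

/-- L1b. integration by parts for smooth maps -/
theorem ibp_smooth {n : ℕ} {f : E n → E n} (hf : ContDiff ℝ ∞ f) {h : E n → ℝ}
    (hh : ContDiff ℝ ∞ h) (hc : HasCompactSupport h) {ψ : E n → ℝ} (hψ : ContDiff ℝ ∞ ψ)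
    (i : Fin n) :
    ∫ x, h x * pd ψ i (f x) * (jac f x).det =
      - ∫ x, ψ (f x) * ∑ j, (jac f x).adjugate j i * pd h j x := by
  have hu : ContDiff ℝ ∞ (fun x => h x * ψ (f x)) := hh.mul (hψ.comp hf)
  have huc : HasCompactSupport (fun x => h x * ψ (f x)) := hc.mul_right
  have h0 := null_lagrangian hf hu huc i
  have key : ∀ x, ((jac f x).updateRow i (fun j => pd (fun x => h x * ψ (f x)) j x)).det =
      h x * pd ψ i (f x) * (jac f x).det +
        ψ (f x) * ∑ j, (jac f x).adjugate j i * pd h j x := by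
    intro x
    rw [aux_det]
    simp only [aux_pd hf hh hψ, mul_add, Finset.sum_add_distrib]
    congr 1
    · have h1 : ∀ l, ∑ j, jac f x l j * (jac f x).adjugate j i =
          if l = i then (jac f x).det else 0 := by
        intro l
        have h2 : (jac f x * (jac f x).adjugate) l i = ((jac f x).det • (1 : Matrix _ _ ℝ)) l i := by
          rw [Matrix.mul_adjugate]
        rw [Matrix.mul_apply] at h2
        rw [h2, Matrix.smul_apply, Matrix.one_apply]
        split_ifs <;> simp
      calc ∑ j, (jac f x).adjugate j i * (h x * ∑ l, jac f x l j * pd ψ l (f x))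
          = ∑ j, ∑ l, h x * pd ψ l (f x) * (jac f x l j * (jac f x).adjugate j i) := by
            apply Finset.sum_congr rfl
            intro j _
            rw [Finset.mul_sum, Finset.mul_sum]
            apply Finset.sum_congr rfl
            intro l _
            ring
        _ = ∑ l, h x * pd ψ l (f x) * ∑ j, jac f x l j * (jac f x).adjugate j i := by
            rw [Finset.sum_comm]
            apply Finset.sum_congr rfl
            intro l _
            rw [Finset.mul_sum]
        _ = h x * pd ψ i (f x) * (jac f x).det := by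
            simp only [h1, mul_ite, mul_zero]
            rw [Finset.sum_ite_eq' Finset.univ i]
            simp
    · rw [Finset.mul_sum]
      apply Finset.sum_congr rfl
      intro j _
      ring
  simp only [key] at h0
  have hcd : Continuous (fun x => (jac f x).det) := (aux_cont_jac hf).matrix_det
  have hca : ∀ j, Continuous (fun x => (jac f x).adjugate j i) := fun j =>
    ((aux_cont_jac hf).matrix_adjugate).matrix_elem j i
  have hcψ : Continuous (fun x => ψ (f x)) := hψ.continuous.comp hf.continuous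
  have hcp : Continuous (fun x => pd ψ i (f x)) := (aux_cont_pd hψ i).comp hf.continuous
  have hi1 : Integrable (fun x => h x * pd ψ i (f x) * (jac f x).det) := by
    apply Continuous.integrable_of_hasCompactSupport
    · exact (hh.continuous.mul hcp).mul hcd
    · exact (hc.mul_right).mul_right
  have hi2 : Integrable (fun x => ψ (f x) * ∑ j, (jac f x).adjugate j i * pd h j x) := by
    simp only [Finset.mul_sum]
    apply integrable_finsetSum
    intro j _
    apply Continuous.integrable_of_hasCompactSupport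
    · exact hcψ.mul ((hca j).mul (aux_cont_pd hh j))
    · have h3 : HasCompactSupport (fun x => pd h j x) := hc.fderiv_apply ℝ _
      exact (h3.mul_left).mul_left
  rw [integral_add hi1 hi2] at h0
  linarith

lemma det_fderiv {n : ℕ} {f : E n → E n} (hf : ContDiff ℝ ∞ f) (x : E n) :
    (fderiv ℝ f x).det = (jac f x).det := by
  have hM : jac f x = LinearMap.toMatrix' ((fderiv ℝ f x : E n →L[ℝ] E n) : E n →ₗ[ℝ] E n) := by
    ext i j
    rw [aux_jac hf, LinearMap.toMatrix'_apply]
    congr 2

  rw [hM, LinearMap.det_toMatrix']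

end IbpAux

/- TARGET -/
/-- L1 -/
theorem ibp {F : E n → E n} (hF : ContDiff ℝ ∞ F) {θ ψ : E n → ℝ} (hθ : ContDiff ℝ ∞ θ)
    (hθc : HasCompactSupport θ) (hψ : ContDiff ℝ ∞ ψ) (i : Fin n)
    (hz : ∀ x, fderiv ℝ θ x ≠ 0 → ψ (F x) = 0) :
    ∫ x, θ x * fderiv ℝ ψ (F x) (Pi.single i 1) * (fderiv ℝ F x).det = 0 := by
  have h := IbpAux.ibp_smooth hF hθ hθc hψ i
  have h2 : ∀ x, ψ (F x) * ∑ j, (IbpAux.jac F x).adjugate j i * IbpAux.pd θ j x = 0 := by
    intro x
    by_cases hx : fderiv ℝ θ x = 0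
    · have : ∀ j, IbpAux.pd θ j x = 0 := by
        intro j
        unfold IbpAux.pd
        rw [hx]; simp
      simp [this]
    · rw [hz x hx, zero_mul]
  simp only [h2, integral_zero, neg_zero] at h
  rw [← h]
  congr 1
  ext x
  rw [IbpAux.det_fderiv hF]
  rfl



end Pool.Agent.Helper171.Ori
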