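import Pool.Agent.Helper171.NHM.OriHom
import Pool.Agent.Helper171.NHM.OriMeas
set_option autoImplicit false

open MeasureTheory Metric Set Filter Topology
open scoped ENNReal NNReal ContDiff

namespace Pool.Agent.Helper171.Ori

variable {n : ℕ}




/- TARGET -/
/-- smooth cutoff equal to one near a compact set -/
theorem piece_cutoff {K V' : Set (E n)} (hK : IsCompact K) (hV : IsOpen V') (hKV : K ⊆ V') :
    ∃ (L : Set (E n)) (θ : E n → ℝ), IsCompact L ∧ L ⊆ V' ∧ ContDiff ℝ ∞ θ ∧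
      (∀ x ∈ K, ∀ᶠ y in 𝓝 x, θ y = 1) ∧ ∀ x ∉ L, θ x = 0 := by
  obtain ⟨L, hL, hKL, hLV⟩ := exists_compact_between hK hV hKV
  obtain ⟨F, hF1, hF0, _⟩ := exists_contMDiffMap_one_nhds_of_subset_interior
    (I := modelWithCornersSelf ℝ (E n)) (n := (⊤ : ℕ∞)) hK.isClosed hKL
  refine ⟨L, F, hL, hLV, F.contMDiff.contDiff, ?_, hF0⟩
  intro x hx
  exact hF1.filter_mono (nhds_le_nhdsSet hx)

theorem piece_unif {L : Set (E n)} (hL : IsCompact L) {f ψ : E n → E n}
    (hf : ContinuousOn f L) (hψ : Continuous ψ) {c : ℝ} (hc : 0 < c) :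
    ∃ δ : ℝ, 0 < δ ∧ ∀ x ∈ L, ∀ z, ‖z - f x‖ ≤ δ → ‖ψ z - ψ (f x)‖ ≤ c := by
  have hK : IsCompact (cthickening 1 (f '' L)) := (hL.image_of_continuousOn hf).cthickening
  have hu := hK.uniformContinuousOn_of_continuous hψ.continuousOn
  rw [Metric.uniformContinuousOn_iff_le] at hu
  obtain ⟨δ, hδ, hu⟩ := hu c hc
  refine ⟨min δ 1, lt_min hδ one_pos, fun x hx z hz => ?_⟩
  have hx1 : f x ∈ f '' L := mem_image_of_mem f hx
  have h1 : f x ∈ cthickening 1 (f '' L) :=
    mem_cthickening_of_dist_le (f x) (f x) 1 _ hx1 (by rw [dist_self]; norm_num)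
  have h2 : z ∈ cthickening 1 (f '' L) :=
    mem_cthickening_of_dist_le z (f x) 1 _ hx1 (by
      rw [dist_eq_norm]; exact hz.trans (min_le_right _ _))
  have h3 := hu z h2 (f x) h1 (by rw [dist_eq_norm]; exact hz.trans (min_le_left _ _))
  rw [dist_eq_norm] at h3
  exact h3

theorem piece_fderiv_zero {θ : E n → ℝ} {x : E n} {c : ℝ} (h : ∀ᶠ y in 𝓝 x, θ y = c) :
    fderiv ℝ θ x = 0 := by
  have h1 : θ =ᶠ[𝓝 x] fun _ => c := h
  rw [h1.fderiv_eq]
  exact fderiv_const_apply c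

/-- L6 -/
theorem piece {U V C : Set (E n)} {f : E n → E n} {D : E n → E n →L[ℝ] E n}
    (hU : IsOpen U) (hV : IsOpen V) (hVU : V ⊆ U) (h : WA U f D) {y₁ : E n} {r : ℝ}
    (hcpt : IsCompact (U ∩ f ⁻¹' closedBall y₁ r)) (hfr : frontier V ∩ U ⊆ C)
    {ψ φ : E n → E n} (hψ : ContDiff ℝ ∞ ψ) (hφ : ContDiff ℝ ∞ φ) {η : E n → ℝ}
    (hη : ContDiff ℝ ∞ η) {κ : ℝ} (hκ : 0 < κ) (hη0 : ∀ z, κ ≤ ‖z‖ → η z = 0)
    (hb : ∀ x ∈ U, f x ∈ closedBall y₁ r → (x ∈ C ∨ f x ∈ sphere y₁ r) →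
      3 * κ ≤ ‖φ x‖ ∧ ‖ψ (f x) - φ x‖ ≤ κ) :
    ∫ x in V ∩ f ⁻¹' ball y₁ r, η (ψ (f x)) * (fderiv ℝ ψ (f x)).det * (D x).det =
      ∫ x in V ∩ f ⁻¹' ball y₁ r, η (φ x) * (fderiv ℝ φ x).det := by
  have hVo : IsOpen (V ∩ f ⁻¹' ball y₁ r) :=
    (h.cont.mono hVU).isOpen_inter_preimage hV isOpen_ball
  set V' : Set (E n) := V ∩ f ⁻¹' ball y₁ r with hV'
  have hV'U : V' ⊆ U := inter_subset_left.trans hVU
  set Kc : Set (E n) := closure V ∩ (U ∩ f ⁻¹' closedBall y₁ r) with hKc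
  have hKcc : IsCompact Kc := hcpt.inter_left isClosed_closure
  have hKcU : Kc ⊆ U := fun x hx => hx.2.1
  have hV'K : V' ⊆ Kc := fun x hx =>
    ⟨subset_closure hx.1, hVU hx.1, ball_subset_closedBall hx.2⟩
  have hfK : ContinuousOn f Kc := h.cont.mono hKcU
  -- the compact core
  set K1 : Set (E n) := (Kc ∩ (fun x => ‖φ x‖) ⁻¹' Iic (2.9 * κ)) ∪
    (Kc ∩ (fun x => ‖ψ (f x) - φ x‖) ⁻¹' Ici (1.1 * κ)) with hK1
  have hK1K : K1 ⊆ Kc := union_subset inter_subset_left inter_subset_left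
  have hK1cl : IsClosed K1 := by
    apply IsClosed.union
    · exact ContinuousOn.preimage_isClosed_of_isClosed hφ.continuous.norm.continuousOn
        hKcc.isClosed isClosed_Iic
    · refine ContinuousOn.preimage_isClosed_of_isClosed ?_ hKcc.isClosed isClosed_Ici
      exact ((hψ.continuous.comp_continuousOn hfK).sub hφ.continuous.continuousOn).norm
  have hK1c : IsCompact K1 := hKcc.of_isClosed_subset hK1cl hK1K
  have hnot : ∀ x ∈ Kc, x ∉ K1 → 2.9 * κ < ‖φ x‖ ∧ ‖ψ (f x) - φ x‖ < 1.1 * κ := by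
    intro x hx hx1
    constructor
    · by_contra hc
      exact hx1 (Or.inl ⟨hx, not_lt.mp hc⟩)
    · by_contra hc
      exact hx1 (Or.inr ⟨hx, not_lt.mp hc⟩)
  have hK1V : K1 ⊆ V' := by
    intro x hx
    have hxK := hK1K hx
    have key : ¬ (x ∈ C ∨ f x ∈ sphere y₁ r) := by
      intro hc
      obtain ⟨h1, h2⟩ := hb x hxK.2.1 hxK.2.2 hc
      rcases hx with hx | hx
      · have h3 : ‖φ x‖ ≤ 2.9 * κ := hx.2
        linarith
      · have h3 : 1.1 * κ ≤ ‖ψ (f x) - φ x‖ := hx.2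
        linarith
    constructor
    · by_contra hxV
      apply key
      left
      apply hfr
      refine ⟨?_, hxK.2.1⟩
      rw [hV.frontier_eq]
      exact ⟨hxK.1, hxV⟩
    · have h1 : dist (f x) y₁ ≤ r := hxK.2.2
      have h2 : dist (f x) y₁ ≠ r := fun h3 => key (Or.inr h3)
      exact lt_of_le_of_ne h1 h2
  obtain ⟨L, θ, hL, hLV, hθ, hθ1, hθ0⟩ := piece_cutoff hK1c hVo hK1V
  have hLU : L ⊆ U := hLV.trans hV'U
  have hθK1 : ∀ x ∈ K1, θ x = 1 := fun x hx => (hθ1 x hx).self_of_nhds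
  have hθc : HasCompactSupport θ := HasCompactSupport.intro hL hθ0
  set Ψ : E n → ℝ := fun y => η (ψ y) * (fderiv ℝ ψ y).det with hΨ
  have hΨc : Continuous Ψ := by
    have h1 : Continuous (fderiv ℝ ψ) := hψ.continuous_fderiv (by simp)
    exact (hη.continuous.comp hψ.continuous).mul (ContinuousLinearMap.continuous_det.comp h1)
  -- both integrals with the cutoff
  have hI1 : ∫ x in V', η (φ x) * (fderiv ℝ φ x).det =
      ∫ x, θ x * η (φ x) * (fderiv ℝ φ x).det := by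
    rw [← setIntegral_eq_integral_of_forall_compl_eq_zero (s := V')
      (f := fun x => θ x * η (φ x) * (fderiv ℝ φ x).det) (fun x hx => by
        rw [hθ0 x (fun hxL => hx (hLV hxL)), zero_mul, zero_mul])]
    refine setIntegral_congr_fun hVo.measurableSet (fun x hx => ?_)
    change η (φ x) * (fderiv ℝ φ x).det = θ x * η (φ x) * (fderiv ℝ φ x).det
    by_cases hxK : x ∈ K1
    · rw [hθK1 x hxK, one_mul]
    · have h1 := (hnot x (hV'K hx) hxK).1
      rw [hη0 (φ x) (by linarith), mul_zero, zero_mul]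
  have hI0 : ∫ x in V', η (ψ (f x)) * (fderiv ℝ ψ (f x)).det * (D x).det =
      ∫ x in L, θ x * Ψ (f x) * (D x).det := by
    rw [← setIntegral_eq_of_subset_of_forall_sdiff_eq_zero hVo.measurableSet hLV
      (f := fun x => θ x * Ψ (f x) * (D x).det) (fun x hx => by
        rw [hθ0 x hx.2, zero_mul, zero_mul])]
    refine setIntegral_congr_fun hVo.measurableSet (fun x hx => ?_)
    change η (ψ (f x)) * (fderiv ℝ ψ (f x)).det * (D x).det =
      θ x * (η (ψ (f x)) * (fderiv ℝ ψ (f x)).det) * (D x).det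
    by_cases hxK : x ∈ K1
    · rw [hθK1 x hxK, one_mul]
    · obtain ⟨h1, h2⟩ := hnot x (hV'K hx) hxK
      have h3 : ‖φ x‖ ≤ ‖ψ (f x)‖ + ‖ψ (f x) - φ x‖ := by
        have := norm_sub_le (ψ (f x)) (ψ (f x) - φ x)
        rwa [sub_sub_cancel] at this
      rw [hη0 (ψ (f x)) (by linarith), zero_mul, mul_zero, zero_mul]
  rw [hI1, hI0]
  -- comparison
  obtain ⟨δ2, hδ2, hun⟩ := piece_unif hL (h.cont.mono hLU) hψ.continuous
    (by positivity : 0 < 0.1 * κ)
  have hall : ∀ ε : ℝ, 0 < ε → |(∫ x, θ x * η (φ x) * (fderiv ℝ φ x).det) -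
      ∫ x in L, θ x * Ψ (f x) * (D x).det| ≤ ε := by
    intro ε hε
    obtain ⟨δ1, hδ1, hlim⟩ := h.lim hL hLU hθ.continuous hΨc hε
    obtain ⟨g, hg, hgf, hgD⟩ := h.approx L hL hLU (min δ1 δ2) (lt_min hδ1 hδ2)
    have h1 := hlim g hg (fun x hx => (hgf x hx).trans (min_le_left _ _))
      (hgD.trans (ENNReal.ofReal_le_ofReal (min_le_left _ _)))
    have hhom := homotopy (F₀ := fun x => ψ (g x)) (F₁ := φ) (hψ.comp hg) hφ hθ hθc hη (by
      intro x hx t ht
      have hxL : x ∈ L := by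
        by_contra hxL
        apply hx
        refine piece_fderiv_zero (c := 0) ?_
        filter_upwards [hL.isClosed.isOpen_compl.mem_nhds hxL] with y hy
        exact hθ0 y hy
      have hxK1 : x ∉ K1 := by
        intro hxK
        exact hx (piece_fderiv_zero (hθ1 x hxK))
      obtain ⟨e1, e2⟩ := hnot x (hV'K (hLV hxL)) hxK1
      have e3 := hun x hxL (g x) ((hgf x hxL).trans (min_le_right _ _))
      have e4 : ‖ψ (g x) - φ x‖ ≤ 1.2 * κ := by
        have : ψ (g x) - φ x = (ψ (g x) - ψ (f x)) + (ψ (f x) - φ x) := by abel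
        rw [this]
        refine (norm_add_le _ _).trans ?_
        linarith
      apply hη0
      have e5 : φ x = (ψ (g x) + t • (φ x - ψ (g x))) - (1 - t) • (ψ (g x) - φ x) := by
        rw [sub_smul, one_smul, smul_sub, smul_sub]
        abel
      have e6 : ‖(1 - t) • (ψ (g x) - φ x)‖ ≤ 1.2 * κ := by
        rw [norm_smul, Real.norm_eq_abs, abs_of_nonneg (by linarith [ht.2])]
        have : (1 - t) * ‖ψ (g x) - φ x‖ ≤ 1 * ‖ψ (g x) - φ x‖ :=
          mul_le_mul_of_nonneg_right (by linarith [ht.1]) (norm_nonneg _)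
        linarith
      have e7 : ‖φ x‖ ≤ ‖ψ (g x) + t • (φ x - ψ (g x))‖ + ‖(1 - t) • (ψ (g x) - φ x)‖ := by
        conv_lhs => rw [e5]
        exact norm_sub_le _ _
      change κ ≤ ‖ψ (g x) + t • (φ x - ψ (g x))‖
      linarith)
    have h2 : ∫ x in L, θ x * Ψ (g x) * (fderiv ℝ g x).det =
        ∫ x, θ x * η (ψ (g x)) * (fderiv ℝ (fun x => ψ (g x)) x).det := by
      rw [setIntegral_eq_integral_of_forall_compl_eq_zero (fun x hx => by
        rw [hθ0 x hx, zero_mul, zero_mul])]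
      refine integral_congr_ae (Eventually.of_forall fun x => ?_)
      have e : fderiv ℝ (fun x => ψ (g x)) x = (fderiv ℝ ψ (g x)).comp (fderiv ℝ g x) :=
        fderiv_comp x (hψ.differentiable (by simp) (g x)) (hg.differentiable (by simp) x)
      change θ x * (η (ψ (g x)) * (fderiv ℝ ψ (g x)).det) * (fderiv ℝ g x).det =
        θ x * η (ψ (g x)) * (fderiv ℝ (fun x => ψ (g x)) x).det
      rw [e]
      have e' : ((fderiv ℝ ψ (g x)).comp (fderiv ℝ g x)).det =
          (fderiv ℝ ψ (g x)).det * (fderiv ℝ g x).det := by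
        exact LinearMap.det_comp _ _
      rw [e']
      ring
    rw [h2, hhom] at h1
    exact h1
  have hz : |(∫ x, θ x * η (φ x) * (fderiv ℝ φ x).det) -
      ∫ x in L, θ x * Ψ (f x) * (D x).det| ≤ 0 := le_of_forall_pos_le_add (fun ε hε => by
    rw [zero_add]; exact hall ε hε)
  exact (sub_eq_zero.mp (abs_nonpos_iff.mp hz)).symm




/- TARGET -/
/-- L8 -/
theorem total_zero {y₁ : E n} {r : ℝ} (hr : 0 < r) {ψ : E n → E n} (hψ : ContDiff ℝ ∞ ψ)
    {η : E n → ℝ} (hη : ContDiff ℝ ∞ η) {κ : ℝ} (hκ : 0 < κ) (hκ4 : κ ≤ 1 / 4)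
    (hη0 : ∀ z, κ ≤ ‖z‖ → η z = 0) {e : E n} (he : ‖e‖ = 1)
    (hs : ∀ y ∈ sphere y₁ r, ‖ψ y - e‖ ≤ κ) :
    ∫ y in ball y₁ r, η (ψ y) * (fderiv ℝ ψ y).det = 0 := by
  classical
  set S : Set (E n) := closedBall y₁ r ∩ {y | 3 / 8 ≤ ‖ψ y - e‖} with hS
  have hSc : IsClosed S := isClosed_closedBall.inter
    (isClosed_le continuous_const (hψ.continuous.sub continuous_const).norm)
  have hSb : S ⊆ ball y₁ r := by
    rintro y ⟨hy1, hy2⟩
    rw [mem_ball]
    refine lt_of_le_of_ne (mem_closedBall.1 hy1) (fun h => ?_)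
    have h1 := hs y (mem_sphere.2 h)
    have h2 : 3 / 8 ≤ ‖ψ y - e‖ := hy2
    linarith
  obtain ⟨ρ, ⟨hρ0, hρr⟩, hSρ⟩ := exists_pos_lt_subset_ball hr hSc hSb
  obtain ⟨f, hf1, hf0, -⟩ := exists_contMDiffMap_one_nhds_of_subset_interior
    (modelWithCornersSelf ℝ (E n)) (n := (⊤ : ℕ∞)) hSc
    (hSρ.trans ball_subset_interior_closedBall)
  set θ : E n → ℝ := fun x => f x with hθdef
  have hθ : ContDiff ℝ ∞ θ := contMDiff_iff_contDiff.1 f.contMDiff
  have hθ0 : ∀ x, x ∉ closedBall y₁ ρ → θ x = 0 := fun x hx => hf0 x hx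
  have hθc : HasCompactSupport θ := HasCompactSupport.intro (isCompact_closedBall y₁ ρ) hθ0
  have hts : tsupport θ ⊆ closedBall y₁ ρ := by
    apply closure_minimal _ isClosed_closedBall
    intro x hx
    by_contra hcon
    exact hx (hθ0 x hcon)
  have hθ1 : ∀ x ∈ S, θ =ᶠ[𝓝 x] fun _ => 1 := by
    intro x hx
    exact (mem_nhdsSet_iff_forall.1 hf1 x hx)
  have hηe : η e = 0 := hη0 e (by rw [he]; linarith)
  have hfar : ∀ y, ‖ψ y - e‖ < 3 / 8 → ∀ t ∈ Icc (0 : ℝ) 1, η (ψ y + t • (e - ψ y)) = 0 := by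
    intro y hy t ht
    apply hη0
    have h1 : ‖(ψ y + t • (e - ψ y)) - e‖ ≤ 3 / 8 := by
      have h2 : (ψ y + t • (e - ψ y)) - e = (1 - t) • (ψ y - e) := by
        rw [sub_smul, one_smul, smul_sub, smul_sub]
        abel
      rw [h2, norm_smul, Real.norm_of_nonneg (by linarith [ht.2])]
      have := norm_nonneg (ψ y - e)
      nlinarith [ht.1, ht.2]
    have h3 := norm_sub_norm_le e (ψ y + t • (e - ψ y))
    rw [he, norm_sub_rev] at h3
    linarith
  have key := homotopy hψ (contDiff_const (c := e)) hθ hθc hη (by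
    intro x hx t ht
    have hxS : x ∉ S := by
      intro hxS
      apply hx
      rw [(hθ1 x hxS).fderiv_eq]
      simp
    have hxt : x ∈ closedBall y₁ ρ := by
      by_contra hcon
      apply hx
      have : θ =ᶠ[𝓝 x] fun _ => 0 := by
        filter_upwards [isClosed_closedBall.isOpen_compl.mem_nhds hcon] with z hz
        exact hθ0 z hz
      rw [this.fderiv_eq]
      simp
    apply hfar x _ t ht
    by_contra hcon
    rw [not_lt] at hcon
    exact hxS ⟨closedBall_subset_closedBall hρr.le hxt, hcon⟩)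
  simp only [hηe, mul_zero, zero_mul, integral_zero] at key
  have e1 : ∫ x in ball y₁ r, θ x * η (ψ x) * (fderiv ℝ ψ x).det =
      ∫ x, θ x * η (ψ x) * (fderiv ℝ ψ x).det := by
    apply setIntegral_eq_integral_of_forall_compl_eq_zero
    intro x hx
    have : θ x = 0 := hθ0 x (fun h => hx (closedBall_subset_ball hρr h))
    rw [this, zero_mul, zero_mul]
  rw [← key, ← e1]
  apply setIntegral_congr_fun measurableSet_ball
  intro y hy
  by_cases hyS : y ∈ S
  · have : θ y = 1 := (hθ1 y hyS).self_of_nhds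
    simp only [this, one_mul]
  · have h1 : ‖ψ y - e‖ < 3 / 8 := by
      by_contra hcon
      rw [not_lt] at hcon
      exact hyS ⟨ball_subset_closedBall hy, hcon⟩
    have h2 := hfar y h1 0 ⟨le_rfl, zero_le_one⟩
    rw [zero_smul, add_zero] at h2
    simp only [h2, mul_zero, zero_mul]



end Pool.Agent.Helper171.Ori
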