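import Pool.Agent.Helper171.NHM.OriDefs
set_option autoImplicit false

open MeasureTheory Metric Set Filter Topology
open scoped ENNReal NNReal ContDiff

namespace Pool.Agent.Helper171.Ori

variable {n : ℕ}


/- TARGET -/
/-- T1 -/
theorem isOpen_diff_CC {U : Set (E n)} {f : E n → E n} (hU : IsOpen U) (hf : ContinuousOn f U)
    (ho : OpM f U) : IsOpen (U \ CC f U) := by
  rw [isOpen_iff_mem_nhds]
  rintro x ⟨hx, hxC⟩
  have h1 : ∃ x' ∈ U, f x' = f x ∧ x' ≠ x := by
    by_contra hcon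
    push Not at hcon
    exact hxC ⟨hx, fun x' hx' hf' => hcon x' hx' hf'⟩
  obtain ⟨x', hx', hfx, hne⟩ := h1
  obtain ⟨O, O', hO, hO', hxO, hxO', hdis⟩ := t2_separation hne.symm
  have h2 : IsOpen (f '' (O' ∩ U)) := ho _ (hO'.inter hU) inter_subset_right
  have h3 : f '' (O' ∩ U) ∈ 𝓝 (f x) := h2.mem_nhds ⟨x', ⟨hxO', hx'⟩, hfx⟩
  have h4 : ContinuousAt f x := hf.continuousAt (hU.mem_nhds hx)
  filter_upwards [h4.preimage_mem_nhds h3, hU.mem_nhds hx, hO.mem_nhds hxO] with z hz hzU hzO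
  refine ⟨hzU, fun hzC => ?_⟩
  obtain ⟨w, ⟨hwO, hwU⟩, hw⟩ := hz
  have h5 := hzC.2 w hwU hw
  subst h5
  exact Set.disjoint_left.1 hdis hzO hwO




/- TARGET -/
/-- T2 -/
theorem isOpen_diff_image {U B : Set (E n)} {f : E n → E n} (hU : IsOpen U) (hB : IsOpen B)
    (hf : ContinuousOn f U) (hp : Prp f U B) (ho : OpM f U) : IsOpen (B \ f '' CC f U) := by
  rw [isOpen_iff_mem_nhds]
  rintro y ⟨hyB, hy⟩
  obtain ⟨r, hr, hrB⟩ := Metric.nhds_basis_closedBall.mem_iff.1 (hB.mem_nhds hyB)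
  have hC : IsCompact (U ∩ f ⁻¹' closedBall y r) := hp.2 _ (isCompact_closedBall y r) hrB
  have hC' : IsCompact ((U ∩ f ⁻¹' closedBall y r) \ (U \ CC f U)) :=
    hC.diff (isOpen_diff_CC hU hf ho)
  have himg : IsCompact (f '' ((U ∩ f ⁻¹' closedBall y r) \ (U \ CC f U))) :=
    hC'.image_of_continuousOn (hf.mono fun x hx => hx.1.1)
  have hy' : y ∉ f '' ((U ∩ f ⁻¹' closedBall y r) \ (U \ CC f U)) := by
    rintro ⟨x, hx, hxy⟩
    apply hy
    refine ⟨x, ?_, hxy⟩
    by_contra hcon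
    exact hx.2 ⟨hx.1.1, hcon⟩
  filter_upwards [himg.isClosed.isOpen_compl.mem_nhds hy', closedBall_mem_nhds y hr] with z hz1 hz2
  refine ⟨hrB hz2, ?_⟩
  rintro ⟨x, hx, rfl⟩
  exact hz1 ⟨x, ⟨⟨hx.1, hz2⟩, fun h => h.2 hx⟩, rfl⟩





theorem cc_closed_10357 {O : Set (E n)} (hO : IsOpen O) (w : E n) {y : E n}
    (hy : y ∈ closure (connectedComponentIn O w)) (hyO : y ∈ O) :
    y ∈ connectedComponentIn O w := by
  have h1 : IsOpen (connectedComponentIn O y) := hO.connectedComponentIn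
  obtain ⟨z, hz1, hz2⟩ := _root_.mem_closure_iff.1 hy _ h1 (mem_connectedComponentIn hyO)
  have e1 := connectedComponentIn_eq hz1
  have e2 := connectedComponentIn_eq hz2
  rw [e2, ← e1]
  exact mem_connectedComponentIn hyO

/- TARGET -/
/-- T3 -/
theorem comp_props {U B : Set (E n)} {f : E n → E n} (hU : IsOpen U) (hB : IsOpen B)
    (hf : ContinuousOn f U) (hp : Prp f U B) (ho : OpM f U) {w x : E n}
    (hw : w ∈ B \ f '' CC f U) (hx : x ∈ U)
    (hxw : f x ∈ connectedComponentIn (B \ f '' CC f U) w) :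
    IsOpen (connectedComponentIn (B \ f '' CC f U) w) ∧
    frontier (connectedComponentIn (B \ f '' CC f U) w) ∩ B ⊆ f '' CC f U ∧
    IsOpen (connectedComponentIn (U ∩ f ⁻¹' connectedComponentIn (B \ f '' CC f U) w) x) ∧
    Prp f (connectedComponentIn (U ∩ f ⁻¹' connectedComponentIn (B \ f '' CC f U) w) x)
      (connectedComponentIn (B \ f '' CC f U) w) ∧
    f '' (connectedComponentIn (U ∩ f ⁻¹' connectedComponentIn (B \ f '' CC f U) w) x) =
      connectedComponentIn (B \ f '' CC f U) w ∧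
    frontier (connectedComponentIn (U ∩ f ⁻¹' connectedComponentIn (B \ f '' CC f U) w) x) ∩ U ⊆
      CC f U := by
  have hBT : IsOpen (B \ f '' CC f U) := isOpen_diff_image hU hB hf hp ho
  have hW : IsOpen (connectedComponentIn (B \ f '' CC f U) w) := hBT.connectedComponentIn
  have hclW : ∀ y, y ∈ closure (connectedComponentIn (B \ f '' CC f U) w) → y ∈ B \ f '' CC f U →
      y ∈ connectedComponentIn (B \ f '' CC f U) w := fun y h1 h2 => cc_closed_10357 hBT w h1 h2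
  have hWB : connectedComponentIn (B \ f '' CC f U) w ⊆ B := fun y hy =>
    (connectedComponentIn_subset _ _ hy).1
  have hWp : IsPreconnected (connectedComponentIn (B \ f '' CC f U) w) :=
    isPreconnected_connectedComponentIn
  generalize hWd : connectedComponentIn (B \ f '' CC f U) w = W at *
  have hP : IsOpen (U ∩ f ⁻¹' W) := hf.isOpen_inter_preimage hU hW
  have hV : IsOpen (connectedComponentIn (U ∩ f ⁻¹' W) x) := hP.connectedComponentIn
  have hclV : ∀ y, y ∈ closure (connectedComponentIn (U ∩ f ⁻¹' W) x) → y ∈ U ∩ f ⁻¹' W →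
      y ∈ connectedComponentIn (U ∩ f ⁻¹' W) x := fun y h1 h2 => cc_closed_10357 hP x h1 h2
  have hVP : connectedComponentIn (U ∩ f ⁻¹' W) x ⊆ U ∩ f ⁻¹' W := connectedComponentIn_subset _ _
  have hxV : x ∈ connectedComponentIn (U ∩ f ⁻¹' W) x := mem_connectedComponentIn ⟨hx, hxw⟩
  generalize hVd : connectedComponentIn (U ∩ f ⁻¹' W) x = V at *
  have hfV : ContinuousOn f V := hf.mono fun y hy => (hVP hy).1
  have hprp : Prp f V W := by
    refine ⟨fun y hy => (hVP hy).2, fun K hK hKW => ?_⟩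
    have h1 : IsCompact (closure V ∩ (U ∩ f ⁻¹' K)) :=
      (hp.2 K hK (hKW.trans hWB)).inter_left isClosed_closure
    have h2 : V ∩ f ⁻¹' K = closure V ∩ (U ∩ f ⁻¹' K) := by
      ext z
      constructor
      · rintro ⟨hz, hzK⟩
        exact ⟨subset_closure hz, (hVP hz).1, hzK⟩
      · rintro ⟨hz, hzU, hzK⟩
        exact ⟨hclV z hz ⟨hzU, hKW hzK⟩, hzK⟩
    rw [h2]
    exact h1
  refine ⟨hW, ?_, hV, hprp, ?_, ?_⟩
  · rintro y ⟨hyf, hyB⟩
    by_contra hyT
    rw [hW.frontier_eq] at hyf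
    exact hyf.2 (hclW y hyf.1 ⟨hyB, hyT⟩)
  · refine Subset.antisymm ?_ ?_
    · rintro _ ⟨y, hy, rfl⟩
      exact (hVP hy).2
    · refine hWp.subset_of_closure_inter_subset (ho V hV fun y hy => (hVP hy).1)
        ⟨f x, hxw, mem_image_of_mem f hxV⟩ ?_
      rintro y ⟨hy, hyW⟩
      obtain ⟨K, hK, hyK, hKW⟩ := exists_compact_subset hW hyW
      have h1 : IsCompact (f '' (V ∩ f ⁻¹' K)) :=
        (hprp.2 K hK hKW).image_of_continuousOn (hfV.mono inter_subset_left)
      have h2 : y ∈ closure (f '' (V ∩ f ⁻¹' K)) := by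
        rw [_root_.mem_closure_iff]
        intro O hO hyO
        obtain ⟨z, ⟨hz1, hz2⟩, ⟨v, hv, rfl⟩⟩ :=
          _root_.mem_closure_iff.1 hy (O ∩ interior K) (hO.inter isOpen_interior) ⟨hyO, hyK⟩
        have hz3 : f v ∈ K := interior_subset hz2
        exact ⟨f v, hz1, v, ⟨hv, hz3⟩, rfl⟩
      rw [h1.isClosed.closure_eq] at h2
      obtain ⟨v, hv, rfl⟩ := h2
      exact ⟨v, hv.1, rfl⟩
  · rintro z ⟨hzf, hzU⟩
    rw [hV.frontier_eq] at hzf
    by_contra hzC
    have h1 : f z ∈ closure (f '' V) :=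
      ((hf z hzU).mono fun y hy => (hVP hy).1).mem_closure_image hzf.1
    have h2 : f z ∈ closure W := closure_mono (by
      rintro _ ⟨y, hy, rfl⟩
      exact (hVP hy).2) h1
    have h3 : f z ∉ f '' CC f U := by
      rintro ⟨c, hc, hcz⟩
      have : z = c := hc.2 z hzU hcz.symm
      exact hzC (this ▸ hc)
    exact hzf.2 (hclV z hzf.1 ⟨hzU, hclW _ h2 ⟨hp.1 hzU, h3⟩⟩)



/- TARGET -/
/-- T4 surjectivity -/
theorem surj {U B : Set (E n)} {f : E n → E n} (hU : IsOpen U) (hB : IsOpen B)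
    (hBc : IsPreconnected B) (hf : ContinuousOn f U) (hp : Prp f U B) (ho : OpM f U)
    (hne : U.Nonempty) : f '' U = B := by
  have hsub : f '' U ⊆ B := by
    rintro _ ⟨x, hx, rfl⟩
    exact hp.1 hx
  apply Subset.antisymm hsub
  refine hBc.subset_of_closure_inter_subset (ho U hU Subset.rfl) ?_ ?_
  · obtain ⟨x, hx⟩ := hne
    exact ⟨f x, hp.1 hx, x, hx, rfl⟩
  · rintro y ⟨hy, hyB⟩
    obtain ⟨r, hr, hrB⟩ := Metric.nhds_basis_closedBall.mem_iff.1 (hB.mem_nhds hyB)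
    have hC := hp.2 (closedBall y r) (isCompact_closedBall y r) hrB
    have hfC : IsCompact (f '' (U ∩ f ⁻¹' closedBall y r)) :=
      hC.image_of_continuousOn (hf.mono inter_subset_left)
    have hycl : y ∈ closure (f '' (U ∩ f ⁻¹' closedBall y r)) := by
      rw [Metric.mem_closure_iff] at hy ⊢
      intro ε hε
      obtain ⟨_, ⟨x, hx, rfl⟩, hd⟩ := hy (min ε r) (lt_min hε hr)
      refine ⟨f x, ⟨x, ⟨hx, ?_⟩, rfl⟩, lt_of_lt_of_le hd (min_le_left _ _)⟩
      show f x ∈ closedBall y r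
      rw [mem_closedBall, dist_comm]
      exact (lt_of_lt_of_le hd (min_le_right _ _)).le
    rw [hfC.isClosed.closure_eq] at hycl
    obtain ⟨x, hx, rfl⟩ := hycl
    exact ⟨x, hx.1, rfl⟩







/-- a point of `CC` over a boundary point of `f '' V` lies in the closure of `V` -/
theorem common_point_aux {U B W V : Set (E n)} {f : E n → E n}
    (hf : ContinuousOn f U) (hp : Prp f U B) (hWB : W ⊆ B) (hVU : V ⊆ U)
    (hVimg : f '' V = W) {y₁ x₁ : E n} (hy₁ : y₁ ∈ closure W) (hy₁B : y₁ ∈ B)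
    (hx₁ : x₁ ∈ CC f U) (hfx : f x₁ = y₁) : x₁ ∈ closure V := by
  obtain ⟨y, hyW, hyl⟩ := mem_closure_iff_seq_limit.1 hy₁
  have hz : ∀ k, ∃ z ∈ V, f z = y k := by
    intro k
    have := hyW k
    rw [← hVimg] at this
    exact this
  choose z hzV hfz using hz
  have hK : IsCompact (insert y₁ (range y)) := hyl.isCompact_insert_range
  have hKB : insert y₁ (range y) ⊆ B := by
    rintro q (rfl | ⟨k, rfl⟩)
    · exact hy₁B
    · exact hWB (hyW k)
  have hc := hp.2 _ hK hKB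
  obtain ⟨a, ha, φ, hφ, hlim⟩ := hc.tendsto_subseq (x := z) (fun k => ⟨hVU (hzV k), by
    rw [mem_preimage, hfz k]
    exact Or.inr ⟨k, rfl⟩⟩)
  have hfa : Tendsto (fun k => f (z (φ k))) atTop (𝓝 (f a)) := by
    have h1 : Tendsto f (𝓝[U] a) (𝓝 (f a)) := hf a ha.1
    refine h1.comp (tendsto_nhdsWithin_iff.2 ⟨hlim, ?_⟩)
    exact Eventually.of_forall fun k => hVU (hzV (φ k))
  have hfa' : Tendsto (fun k => f (z (φ k))) atTop (𝓝 y₁) := by
    simp only [hfz]
    exact hyl.comp hφ.tendsto_atTop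
  have hay : f a = y₁ := tendsto_nhds_unique hfa hfa'
  have hax : a = x₁ := hx₁.2 a ha.1 (hay.trans hfx.symm)
  rw [← hax]
  exact mem_closure_of_tendsto hlim (Eventually.of_forall fun k => hzV (φ k))

/- TARGET -/
/-- T5 common boundary point -/
theorem common_point {U B : Set (E n)} {f : E n → E n} (hU : IsOpen U) (hB : IsOpen B)
    (hBc : IsPreconnected B) (hf : ContinuousOn f U) (hp : Prp f U B) (ho : OpM f U) {w x x' : E n}
    (hw : w ∈ B \ f '' CC f U) (hx : x ∈ U) (hx' : x' ∈ U)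
    (hxw : f x ∈ connectedComponentIn (B \ f '' CC f U) w)
    (hxw' : f x' ∈ connectedComponentIn (B \ f '' CC f U) w) (hC : (CC f U).Nonempty) :
    ∃ x₁ ∈ CC f U,
      x₁ ∈ closure (connectedComponentIn (U ∩ f ⁻¹' connectedComponentIn (B \ f '' CC f U) w) x) ∧
      x₁ ∈ closure (connectedComponentIn (U ∩ f ⁻¹' connectedComponentIn (B \ f '' CC f U) w) x')
      := by
  obtain ⟨hWo, hfr, -, -, hVimg, -⟩ := comp_props hU hB hf hp ho hw hx hxw
  obtain ⟨-, -, -, -, hVimg', -⟩ := comp_props hU hB hf hp ho hw hx' hxw'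
  have hWsub : connectedComponentIn (B \ f '' CC f U) w ⊆ B \ f '' CC f U :=
    connectedComponentIn_subset _ _
  have hwW : w ∈ connectedComponentIn (B \ f '' CC f U) w := mem_connectedComponentIn hw
  obtain ⟨c, hc⟩ := hC
  have hfc : f c ∈ B := hp.1 hc.1
  have hnot : ¬ (B ⊆ connectedComponentIn (B \ f '' CC f U) w) := fun h =>
    (hWsub (h hfc)).2 ⟨c, hc, rfl⟩
  have hnot2 : ¬ (closure (connectedComponentIn (B \ f '' CC f U) w) ∩ B ⊆
      connectedComponentIn (B \ f '' CC f U) w) := fun h =>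
    hnot (hBc.subset_of_closure_inter_subset hWo ⟨w, hw.1, hwW⟩ h)
  rw [not_subset] at hnot2
  obtain ⟨y₁, ⟨hy1, hy1B⟩, hy1W⟩ := hnot2
  have hT : y₁ ∈ f '' CC f U := hfr ⟨by rw [hWo.frontier_eq]; exact ⟨hy1, hy1W⟩, hy1B⟩
  obtain ⟨x₁, hx₁, hfx⟩ := hT
  have hWB : connectedComponentIn (B \ f '' CC f U) w ⊆ B := hWsub.trans sdiff_subset
  refine ⟨x₁, hx₁, ?_, ?_⟩
  · exact common_point_aux hf hp hWB ((connectedComponentIn_subset _ _).trans inter_subset_left)
      hVimg hy1 hy1B hx₁ hfx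
  · exact common_point_aux hf hp hWB ((connectedComponentIn_subset _ _).trans inter_subset_left)
      hVimg' hy1 hy1B hx₁ hfx



/- TARGET -/
/-- T6 small normal neighbourhoods -/
theorem local_nbhd {O : Set (E n)} {f : E n → E n} (hO : IsOpen O) (hf : ContinuousOn f O)
    (ho : OpM f O) {x : E n} (hx : x ∈ O) (hfin : (O ∩ f ⁻¹' {f x}).Finite) :
    ∃ (V : Set (E n)) (r : ℝ), 0 < r ∧ IsOpen V ∧ IsPreconnected V ∧ x ∈ V ∧ V ⊆ O ∧
      Prp f V (ball (f x) r) := by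
  have hF : IsClosed ((O ∩ f ⁻¹' {f x}) \ {x}) := (hfin.subset Set.sdiff_subset).isClosed
  have hnb : O ∩ ((O ∩ f ⁻¹' {f x}) \ {x})ᶜ ∈ 𝓝 x :=
    (hO.inter hF.isOpen_compl).mem_nhds ⟨hx, fun h => h.2 rfl⟩
  obtain ⟨ρ, hρ, hρs⟩ := Metric.nhds_basis_closedBall.mem_iff.1 hnb
  have hcO : closedBall x ρ ⊆ O := fun z hz => (hρs hz).1
  have hsph : ∀ z ∈ sphere x ρ, 0 < dist (f z) (f x) := by
    intro z hz
    rw [dist_pos]
    intro hfz
    have hz' := hρs (sphere_subset_closedBall hz)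
    apply hz'.2
    refine ⟨⟨hz'.1, hfz⟩, ?_⟩
    intro hzx
    rw [Set.mem_singleton_iff] at hzx
    rw [hzx, mem_sphere, dist_self] at hz
    exact hρ.ne hz
  have hfs : ContinuousOn (fun z => dist (f z) (f x)) (sphere x ρ) :=
    (continuous_id.dist continuous_const : Continuous fun y : E n => dist y (f x)).comp_continuousOn
      (hf.mono (sphere_subset_closedBall.trans hcO))
  obtain ⟨r, hr, hrs⟩ := (isCompact_sphere x ρ).exists_forall_le' hfs hsph
  have hPo : IsOpen (ball x ρ ∩ f ⁻¹' ball (f x) r) :=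
    (hf.mono (ball_subset_closedBall.trans hcO)).isOpen_inter_preimage isOpen_ball isOpen_ball
  have hxP : x ∈ ball x ρ ∩ f ⁻¹' ball (f x) r := ⟨mem_ball_self hρ, mem_ball_self hr⟩
  have hVP : connectedComponentIn (ball x ρ ∩ f ⁻¹' ball (f x) r) x ⊆ ball x ρ ∩ f ⁻¹' ball (f x) r :=
    connectedComponentIn_subset _ _
  refine ⟨connectedComponentIn (ball x ρ ∩ f ⁻¹' ball (f x) r) x, r, hr, hPo.connectedComponentIn,
    isPreconnected_connectedComponentIn, mem_connectedComponentIn hxP,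
    fun z hz => hcO (ball_subset_closedBall (hVP hz).1), fun z hz => (hVP hz).2, ?_⟩
  intro K hK hKs
  set V := connectedComponentIn (ball x ρ ∩ f ⁻¹' ball (f x) r) x with hV
  have hcl : IsClosed (closedBall x ρ ∩ f ⁻¹' K) :=
    (hf.mono hcO).preimage_isClosed_of_isClosed isClosed_closedBall hK.isClosed
  have heq : V ∩ f ⁻¹' K = closure V ∩ (closedBall x ρ ∩ f ⁻¹' K) := by
    apply Set.Subset.antisymm
    · rintro z ⟨hz1, hz2⟩
      exact ⟨subset_closure hz1, ball_subset_closedBall (hVP hz1).1, hz2⟩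
    · rintro z ⟨hz1, hz2, hz3⟩
      refine ⟨?_, hz3⟩
      have hfz : dist (f z) (f x) < r := hKs hz3
      have hzP : z ∈ ball x ρ ∩ f ⁻¹' ball (f x) r := by
        refine ⟨?_, hfz⟩
        rcases eq_or_lt_of_le (mem_closedBall.1 hz2) with h | h
        · exact absurd (hrs z h) (not_le.2 hfz)
        · exact h
      have hpre : IsPreconnected (closure V ∩ (ball x ρ ∩ f ⁻¹' ball (f x) r)) :=
        isPreconnected_connectedComponentIn.subset_closure
          (fun y hy => ⟨subset_closure hy, hVP hy⟩) Set.inter_subset_left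
      have hsub := hpre.subset_connectedComponentIn
        (x := x) ⟨subset_closure (mem_connectedComponentIn hxP), hxP⟩ Set.inter_subset_right
      exact hsub ⟨hz1, hzP⟩
  rw [heq]
  exact (isCompact_closedBall x ρ).of_isClosed_subset (isClosed_closure.inter hcl)
    (fun z hz => hz.2.1)



/- TARGET -/
/-- L9 -/
theorem decomp {B T : Set (E n)} (hO : IsOpen (B \ T)) {y₁ : E n} {r : ℝ} (hr : 0 < r)
    (hrB : closedBall y₁ r ⊆ B) {Ψ : E n → ℝ} (hΨ : Continuous Ψ)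
    (hz : ∀ y ∈ closedBall y₁ r, (y ∈ T ∨ y ∈ sphere y₁ r) → Ψ =ᶠ[𝓝 y] 0) {w₁ : E n}
    (h0 : ∀ w ∈ B \ T, connectedComponentIn (B \ T) w ≠ connectedComponentIn (B \ T) w₁ →
      ∫ y in connectedComponentIn (B \ T) w ∩ ball y₁ r, Ψ y = 0) :
    ∫ y in ball y₁ r, Ψ y = ∫ y in connectedComponentIn (B \ T) w₁ ∩ ball y₁ r, Ψ y := by
  classical
  obtain ⟨O, hOdef⟩ : ∃ O, O = B \ T := ⟨_, rfl⟩
  rw [← hOdef] at hO h0 ⊢
  have hK : IsCompact (closedBall y₁ r ∩ tsupport Ψ) :=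
    (isCompact_closedBall y₁ r).inter_right (isClosed_tsupport Ψ)
  have hKO : closedBall y₁ r ∩ tsupport Ψ ⊆ O := by
    rintro y ⟨hy, hys⟩
    rw [hOdef]
    refine ⟨hrB hy, fun hT => ?_⟩
    exact (notMem_tsupport_iff_eventuallyEq.2 (hz y hy (Or.inl hT))) hys
  obtain ⟨t, ht, hKt⟩ := hK.elim_nhds_subcover (fun w => connectedComponentIn O w)
    (fun w hw => (hO.connectedComponentIn).mem_nhds (mem_connectedComponentIn (hKO hw)))
  obtain ⟨C, hC⟩ : ∃ C : Finset (Set (E n)),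
      C = insert (connectedComponentIn O w₁) (t.image (fun w => connectedComponentIn O w)) :=
    ⟨_, rfl⟩
  have hCcomp : ∀ c ∈ C, ∃ w, c = connectedComponentIn O w ∧
      (c = connectedComponentIn O w₁ ∨ w ∈ O) := by
    intro c hc
    rw [hC, Finset.mem_insert, Finset.mem_image] at hc
    rcases hc with h | ⟨w, hw, h⟩
    · exact ⟨w₁, h, Or.inl h⟩
    · exact ⟨w, h.symm, Or.inr (hKO (ht w hw))⟩
  have hCdisj : ∀ c ∈ C, ∀ d ∈ C, c ≠ d → Disjoint c d := by
    intro c hc d hd hcd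
    obtain ⟨w, rfl, -⟩ := hCcomp c hc
    obtain ⟨v, rfl, -⟩ := hCcomp d hd
    rw [Set.disjoint_left]
    intro y hy hy'
    exact hcd ((connectedComponentIn_eq hy).trans (connectedComponentIn_eq hy').symm)
  have hCopen : ∀ c ∈ C, IsOpen c := by
    intro c hc
    obtain ⟨w, rfl, -⟩ := hCcomp c hc
    exact hO.connectedComponentIn
  have hint : IntegrableOn Ψ (closedBall y₁ r) :=
    hΨ.continuousOn.integrableOn_compact (isCompact_closedBall y₁ r)
  have h1 : ∫ y in ball y₁ r, Ψ y = ∫ y in ⋃ c ∈ C, (c ∩ ball y₁ r), Ψ y := by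
    refine setIntegral_eq_of_subset_of_forall_sdiff_eq_zero measurableSet_ball ?_ ?_
    · intro y hy
      simp only [Set.mem_iUnion] at hy
      obtain ⟨c, -, hy⟩ := hy
      exact hy.2
    · rintro y ⟨hy, hyn⟩
      by_contra hne
      apply hyn
      have hyK : y ∈ closedBall y₁ r ∩ tsupport Ψ :=
        ⟨ball_subset_closedBall hy, subset_tsupport Ψ hne⟩
      have := hKt hyK
      simp only [Set.mem_iUnion] at this ⊢
      obtain ⟨w, hw, hyw⟩ := this
      exact ⟨connectedComponentIn O w, by rw [hC, Finset.mem_insert, Finset.mem_image]; exact Or.inr ⟨w, hw, rfl⟩,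
        hyw, hy⟩
  have h2 : ∫ y in ⋃ c ∈ C, (c ∩ ball y₁ r), Ψ y = ∑ c ∈ C, ∫ y in c ∩ ball y₁ r, Ψ y := by
    refine integral_biUnion_finset C (fun c hc => ((hCopen c hc).inter isOpen_ball).measurableSet)
      ?_ ?_
    · intro c hc d hd hcd
      exact (hCdisj c hc d hd hcd).mono Set.inter_subset_left Set.inter_subset_left
    · intro c hc
      exact hint.mono_set (Set.inter_subset_right.trans ball_subset_closedBall)
  rw [h1, h2]
  refine Finset.sum_eq_single _ ?_ ?_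
  · intro c hc hne
    obtain ⟨w, rfl, hw⟩ := hCcomp c hc
    rcases hw with hw | hw
    · exact absurd hw hne
    · exact h0 w hw hne
  · intro hn
    exfalso
    apply hn
    rw [hC]
    exact Finset.mem_insert_self _ _



/- TARGET -/
/-- L7 -/
theorem target_cc {B T W : Set (E n)} (hW : IsOpen W) (hWT : W ⊆ B \ T)
    (hfr : frontier W ∩ B ⊆ T) {y₁ : E n} {r : ℝ} (hr : 0 < r) (hrB : closedBall y₁ r ⊆ B)
    {ψ : E n → E n} (hψ : ContDiff ℝ ∞ ψ) {η : E n → ℝ}
    (hη : ContDiff ℝ ∞ η) {κ : ℝ} (hκ : 0 < κ) (hη0 : ∀ z, κ ≤ ‖z‖ → η z = 0)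
    (hb : ∀ y ∈ closedBall y₁ r, (y ∈ T ∨ y ∈ sphere y₁ r) → 2 * κ ≤ ‖ψ y‖) :
    Continuous ((W ∩ ball y₁ r).indicator fun y => η (ψ y) * (fderiv ℝ ψ y).det) ∧
    HasCompactSupport ((W ∩ ball y₁ r).indicator fun y => η (ψ y) * (fderiv ℝ ψ y).det) ∧
    tsupport ((W ∩ ball y₁ r).indicator fun y => η (ψ y) * (fderiv ℝ ψ y).det) ⊆
      W ∩ ball y₁ r := by
  set f : E n → ℝ := fun y => η (ψ y) * (fderiv ℝ ψ y).det with hf
  have hfc : Continuous f := by
    have h1 : Continuous (fun y => fderiv ℝ ψ y) := hψ.continuous_fderiv (by simp)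
    exact (hη.continuous.comp hψ.continuous).mul (ContinuousLinearMap.continuous_det.comp h1)
  have hO : IsOpen (W ∩ ball y₁ r) := hW.inter isOpen_ball
  have hsupp : Function.support ((W ∩ ball y₁ r).indicator f) ⊆
      (W ∩ ball y₁ r) ∩ {y | ‖ψ y‖ ≤ κ} := by
    intro y hy
    have hyO : y ∈ W ∩ ball y₁ r := by
      by_contra hcon
      exact hy (Set.indicator_of_notMem hcon f)
    refine ⟨hyO, ?_⟩
    by_contra hcon
    have h1 : κ ≤ ‖ψ y‖ := by
      have : ¬ ‖ψ y‖ ≤ κ := hcon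
      linarith
    apply hy
    rw [Set.indicator_of_mem hyO, hf]
    simp only
    rw [hη0 _ h1, zero_mul]
  have hts : tsupport ((W ∩ ball y₁ r).indicator f) ⊆ W ∩ ball y₁ r := by
    intro y hy
    have h1 : y ∈ closure ((W ∩ ball y₁ r) ∩ {y | ‖ψ y‖ ≤ κ}) := closure_mono hsupp hy
    have h2 : y ∈ closure (W ∩ ball y₁ r) := closure_mono Set.inter_subset_left h1
    have h3 : y ∈ {y | ‖ψ y‖ ≤ κ} := by
      have hcl : IsClosed {y | ‖ψ y‖ ≤ κ} :=
        isClosed_le (continuous_norm.comp hψ.continuous) continuous_const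
      exact hcl.closure_subset_iff.2 Set.inter_subset_right h1
    have h3' : ‖ψ y‖ ≤ κ := h3
    have h4 : y ∈ closure W := closure_mono Set.inter_subset_left h2
    have h5 : y ∈ closedBall y₁ r :=
      closure_ball_subset_closedBall (closure_mono Set.inter_subset_right h2)
    by_contra hcon
    have h6 : y ∈ T ∨ y ∈ sphere y₁ r := by
      by_cases hyW : y ∈ W
      · right
        have h7 : y ∉ ball y₁ r := fun h => hcon ⟨hyW, h⟩
        have h8 : dist y y₁ ≤ r := h5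
        have h9 : ¬ dist y y₁ < r := h7
        exact le_antisymm h8 (not_lt.1 h9)
      · left
        refine hfr ⟨?_, hrB h5⟩
        rw [hW.frontier_eq]
        exact ⟨h4, hyW⟩
    have h10 := hb y h5 h6
    linarith
  refine ⟨?_, ?_, hts⟩
  · refine continuous_of_tsupport (fun y hy => ?_)
    have h1 : (W ∩ ball y₁ r).indicator f =ᶠ[𝓝 y] f := by
      filter_upwards [hO.mem_nhds (hts hy)] with z hz
      exact Set.indicator_of_mem hz f
    exact hfc.continuousAt.congr h1.symm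
  · refine HasCompactSupport.of_support_subset_isCompact (isCompact_closedBall y₁ r) ?_
    intro y hy
    exact ball_subset_closedBall (hsupp hy).1.2



/- TARGET -/
/-- L10 -/
theorem exists_target {C : Set (E n)} {f : E n → E n} {y₁ : E n} {r : ℝ} (hr : 0 < r)
    (hC : IsCompact (C ∩ f ⁻¹' closedBall y₁ r))
    (hf : ContinuousOn f (C ∩ f ⁻¹' closedBall y₁ r)) (hinj : InjOn f (C ∩ f ⁻¹' closedBall y₁ r))
    {φ : E n → E n} (hφ : Continuous φ) {e : E n} (he : ∀ x ∈ C, f x ∈ sphere y₁ r → φ x = e)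
    {κ : ℝ} (hκ : 0 < κ) :
    ∃ ψ : E n → E n, ContDiff ℝ ∞ ψ ∧
      (∀ x ∈ C, f x ∈ closedBall y₁ r → ‖ψ (f x) - φ x‖ ≤ κ) ∧
      ∀ y ∈ sphere y₁ r, ‖ψ y - e‖ ≤ κ := by
  classical
  set K := C ∩ f ⁻¹' closedBall y₁ r with hK
  set T := f '' K with hT
  have hTc : IsCompact T := hC.image_of_continuousOn hf
  have hTcl : IsClosed T := hTc.isClosed
  let g0 : E n → E n := fun y => if y ∈ T then φ (Function.invFunOn f K y) else e
  have hg0f : ∀ x ∈ K, g0 (f x) = φ x := by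
    intro x hx
    have h1 : f x ∈ T := mem_image_of_mem f hx
    have h2 : Function.invFunOn f K (f x) = x := hinj.leftInvOn_invFunOn hx
    simp only [g0, h1, if_true, h2]
  have hg0s : ∀ y ∈ sphere y₁ r, g0 y = e := by
    intro y hy
    by_cases h : y ∈ T
    · obtain ⟨x, hx, rfl⟩ := h
      rw [hg0f x hx]
      exact he x hx.1 hy
    · simp only [g0, h, if_false]
  have hcT : ContinuousOn g0 T := by
    rw [continuousOn_iff_continuous_domRestrict]
    haveI : CompactSpace K := isCompact_iff_compactSpace.mp hC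
    let F : K → T := fun x => ⟨f x, mem_image_of_mem f x.2⟩
    have hFc : Continuous F :=
      Continuous.subtype_mk (continuousOn_iff_continuous_domRestrict.mp hf) _
    have hFs : Function.Surjective F := by
      rintro ⟨y, x, hx, rfl⟩
      exact ⟨⟨x, hx⟩, rfl⟩
    have hFq : IsQuotientMap F := hFc.isClosedMap.isQuotientMap hFc hFs
    rw [hFq.continuous_iff]
    have e1 : T.domRestrict g0 ∘ F = fun x : K => φ x := by
      funext x
      exact hg0f x x.2
    rw [e1]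
    exact hφ.comp continuous_subtype_val
  have hcs : ContinuousOn g0 (sphere y₁ r) := (continuousOn_const (c := e)).congr hg0s
  have hcA : ContinuousOn g0 (T ∪ sphere y₁ r) :=
    hcT.union_of_isClosed hcs hTcl isClosed_sphere
  obtain ⟨G, hG⟩ := ContinuousMap.exists_restrict_eq (hTcl.union (isClosed_sphere (x := y₁) (ε := r)))
    (⟨(T ∪ sphere y₁ r).domRestrict g0, continuousOn_iff_continuous_domRestrict.mp hcA⟩ :
      C(↥(T ∪ sphere y₁ r), E n))
  have hGA : ∀ y ∈ T ∪ sphere y₁ r, G y = g0 y := fun y hy =>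
    congrArg (fun (F : C(↥(T ∪ sphere y₁ r), E n)) => F ⟨y, hy⟩) hG
  obtain ⟨ψ, hψ1, hψ2, -⟩ := G.continuous.exists_contDiff_approx ⊤
    (continuous_const (y := κ)) (fun _ => hκ)
  refine ⟨ψ, hψ1, ?_, ?_⟩
  · intro x hx hxf
    have h1 : f x ∈ T := mem_image_of_mem f ⟨hx, hxf⟩
    rw [← hg0f x ⟨hx, hxf⟩, ← hGA _ (Or.inl h1), ← dist_eq_norm]
    exact (hψ2 _).le
  · intro y hy
    rw [← hg0s y hy, ← hGA _ (Or.inr hy), ← dist_eq_norm]
    exact (hψ2 _).le



/- TARGET -/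
theorem ae_of_cover_10366 {V : Set (E n)} {p : E n → Prop}
    (h : V ⊆ ⋃₀ {O : Set (E n) | IsOpen O ∧ O ⊆ V ∧ ∀ᵐ z ∂(volume.restrict O), p z}) :
    ∀ᵐ z ∂(volume.restrict V), p z := by
  obtain ⟨T, hTc, hTs, hTe⟩ := TopologicalSpace.isOpen_sUnion_countable
    {O : Set (E n) | IsOpen O ∧ O ⊆ V ∧ ∀ᵐ z ∂(volume.restrict O), p z} (fun s hs => hs.1)
  rw [← hTe] at h
  apply ae_restrict_of_ae_restrict_of_subset h
  rw [sUnion_eq_biUnion, ae_restrict_biUnion_iff _ hTc]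
  intro O hO
  exact (hTs hO).2.2

/-- S4 -/
theorem sign_of_local {V : Set (E n)} (hV : IsOpen V) (hVc : IsPreconnected V) {j : E n → ℝ}
    (hloc : ∀ x ∈ V, ∃ O : Set (E n), IsOpen O ∧ x ∈ O ∧ O ⊆ V ∧
      ((∀ᵐ z ∂(volume.restrict O), 0 ≤ j z) ∨ (∀ᵐ z ∂(volume.restrict O), j z ≤ 0)))
    (hnz : ∀ O : Set (E n), IsOpen O → O.Nonempty → O ⊆ V →
      ¬ (∀ᵐ z ∂(volume.restrict O), j z = 0)) :
    (∀ᵐ z ∂(volume.restrict V), 0 ≤ j z) ∨ (∀ᵐ z ∂(volume.restrict V), j z ≤ 0) := by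
  set P : Set (E n) :=
    ⋃₀ {O : Set (E n) | IsOpen O ∧ O ⊆ V ∧ ∀ᵐ z ∂(volume.restrict O), 0 ≤ j z} with hP
  set N : Set (E n) :=
    ⋃₀ {O : Set (E n) | IsOpen O ∧ O ⊆ V ∧ ∀ᵐ z ∂(volume.restrict O), j z ≤ 0} with hN
  have hPo : IsOpen P := isOpen_sUnion (fun s hs => hs.1)
  have hNo : IsOpen N := isOpen_sUnion (fun s hs => hs.1)
  have hdisj : Disjoint P N := by
    rw [Set.disjoint_left]
    rintro x ⟨O, ⟨hO1, hO2, hO3⟩, hxO⟩ ⟨O', ⟨hO1', hO2', hO3'⟩, hxO'⟩
    apply hnz (O ∩ O') (hO1.inter hO1') ⟨x, hxO, hxO'⟩ (inter_subset_left.trans hO2)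
    have h1 := ae_restrict_of_ae_restrict_of_subset (inter_subset_left (s := O) (t := O')) hO3
    have h2 := ae_restrict_of_ae_restrict_of_subset (inter_subset_right (s := O) (t := O')) hO3'
    filter_upwards [h1, h2] with z hz1 hz2
    exact le_antisymm hz2 hz1
  have hcov : V ⊆ P ∪ N := by
    intro x hx
    obtain ⟨O, h1, h2, h3, h4⟩ := hloc x hx
    rcases h4 with h4 | h4
    · exact Or.inl ⟨O, ⟨h1, h3, h4⟩, h2⟩
    · exact Or.inr ⟨O, ⟨h1, h3, h4⟩, h2⟩
  rcases IsPreconnected.subset_or_subset hPo hNo hdisj hcov hVc with h | h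
  · exact Or.inl (ae_of_cover_10366 h)
  · exact Or.inr (ae_of_cover_10366 h)



end Pool.Agent.Helper171.Ori
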