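import Pool.Agent.Helper171.NHM.OriDeg
import Pool.Agent.Helper171.NHM.OriPiece
import Pool.Agent.Helper171.NHM.OriTop
import Pool.Agent.Helper171.NHM.OriDip
set_option autoImplicit false

open MeasureTheory Metric Set Filter Topology
open scoped ENNReal NNReal ContDiff

namespace Pool.Agent.Helper171.Ori

variable {n : ℕ}


theorem comp_subset_left {P : Set (E n)} {x : E n} : connectedComponentIn P x ⊆ P :=
  connectedComponentIn_subset P x

/-- all components of the preimage of a component coincide -/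
theorem unique_comp (hn : 0 < n) {U B : Set (E n)} {f : E n → E n} {D : E n → E n →L[ℝ] E n}
    (hU : IsOpen U) (hB : IsOpen B) (hBc : IsPreconnected B) (hWA : WA U f D) (hp : Prp f U B)
    (ho : OpM f U) (hC : (CC f U).Nonempty)
    (hdeg : ∀ w ∈ B \ f '' CC f U, ∀ x ∈ U, f x ∈ connectedComponentIn (B \ f '' CC f U) w →
      ∀ d, IsDeg f D
        (connectedComponentIn (U ∩ f ⁻¹' connectedComponentIn (B \ f '' CC f U) w) x)
        (connectedComponentIn (B \ f '' CC f U) w) d → d ≠ 0)
    {w x x' : E n} (hw : w ∈ B \ f '' CC f U) (hx : x ∈ U) (hx' : x' ∈ U)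
    (hxw : f x ∈ connectedComponentIn (B \ f '' CC f U) w)
    (hxw' : f x' ∈ connectedComponentIn (B \ f '' CC f U) w) :
    connectedComponentIn (U ∩ f ⁻¹' connectedComponentIn (B \ f '' CC f U) w) x =
      connectedComponentIn (U ∩ f ⁻¹' connectedComponentIn (B \ f '' CC f U) w) x' := by
  classical
  by_contra hne
  have hfc := hWA.cont
  have hUne : U.Nonempty := ⟨x, hx⟩
  set T := f '' CC f U with hT
  set W := connectedComponentIn (B \ T) w with hW
  obtain ⟨hWo, hWfr, hV1o, hV1p, hV1s, hV1fr⟩ := comp_props hU hB hfc hp ho hw hx hxw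
  obtain ⟨-, -, hV2o, hV2p, hV2s, hV2fr⟩ := comp_props hU hB hfc hp ho hw hx' hxw'
  obtain ⟨x₁, hx₁C, hx₁1, hx₁2⟩ := common_point hU hB hBc hfc hp ho hw hx hx' hxw hxw' hC
  rw [← hT, ← hW] at hV1o hV1p hV1s hV1fr hV2o hV2p hV2s hV2fr hx₁1 hx₁2
  rw [← hT, ← hW] at hWo hWfr
  set V1 := connectedComponentIn (U ∩ f ⁻¹' W) x with hV1
  set V2 := connectedComponentIn (U ∩ f ⁻¹' W) x' with hV2
  have hV1sub : V1 ⊆ U ∩ f ⁻¹' W := comp_subset_left
  have hV2sub : V2 ⊆ U ∩ f ⁻¹' W := comp_subset_left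
  have hdisj : Disjoint V1 V2 := by
    rw [Set.disjoint_left]
    intro z hz1 hz2
    exact hne ((connectedComponentIn_eq hz1).trans (connectedComponentIn_eq hz2).symm)
  have hx₁U : x₁ ∈ U := hx₁C.1
  set y₁ := f x₁ with hy₁
  have hy₁B : y₁ ∈ B := hp.1 hx₁U
  obtain ⟨r, hr, hrB⟩ : ∃ r : ℝ, 0 < r ∧ closedBall y₁ r ⊆ B :=
    (nhds_basis_closedBall.mem_iff).1 (hB.mem_nhds hy₁B)
  have hcpt : IsCompact (U ∩ f ⁻¹' closedBall y₁ r) := hp.2 _ (isCompact_closedBall _ _) hrB
  -- small ball around x₁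
  obtain ⟨ρ, hρ, hρU⟩ : ∃ ρ : ℝ, 0 < ρ ∧ ball x₁ ρ ⊆ U ∩ f ⁻¹' ball y₁ r := by
    have h1 : IsOpen (U ∩ f ⁻¹' ball y₁ r) := hfc.isOpen_inter_preimage hU isOpen_ball
    exact (nhds_basis_ball.mem_iff).1 (h1.mem_nhds ⟨hx₁U, by
      show f x₁ ∈ ball y₁ r
      exact mem_ball_self hr⟩)
  obtain ⟨ρ', hρ', hρ'ρ, hdip⟩ := dipole hn x₁ hρ
  obtain ⟨p, hp1, hpV⟩ : (ball x₁ ρ' ∩ V1).Nonempty :=
    mem_closure_iff.1 hx₁1 _ isOpen_ball (mem_ball_self hρ')
  obtain ⟨q, hq1, hqV⟩ : (ball x₁ ρ' ∩ V2).Nonempty :=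
    mem_closure_iff.1 hx₁2 _ isOpen_ball (mem_ball_self hρ')
  have hpq : p ≠ q := fun h => (Set.disjoint_left.1 hdisj) hpV (h ▸ hqV)
  obtain ⟨φ, e, hφs, he1, hφe, hφ0, hφd⟩ := hdip p q hp1 hq1 hpq
  have hbρ : ball x₁ ρ' ⊆ ball x₁ ρ := ball_subset_ball hρ'ρ
  obtain ⟨s, hs, hsp, hsq⟩ : ∃ s : ℝ, 0 < s ∧ ball p s ⊆ V1 ∩ ball x₁ ρ ∧
      ball q s ⊆ V2 ∩ ball x₁ ρ := by
    obtain ⟨s1, hs1, h1⟩ := (nhds_basis_ball.mem_iff).1
      ((hV1o.inter isOpen_ball).mem_nhds (⟨hpV, hbρ hp1⟩ : p ∈ V1 ∩ ball x₁ ρ))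
    obtain ⟨s2, hs2, h2⟩ := (nhds_basis_ball.mem_iff).1
      ((hV2o.inter isOpen_ball).mem_nhds (⟨hqV, hbρ hq1⟩ : q ∈ V2 ∩ ball x₁ ρ))
    exact ⟨min s1 s2, lt_min hs1 hs2, (ball_subset_ball (min_le_left _ _)).trans h1,
      (ball_subset_ball (min_le_right _ _)).trans h2⟩
  have hpqd : Disjoint (ball p s) (ball q s) :=
    hdisj.mono (hsp.trans inter_subset_left) (hsq.trans inter_subset_left)
  obtain ⟨κ₀, σ, hκ₀, hσ, hσ1⟩ := hφd s hs hpqd
  -- lower bound of φ
  obtain ⟨m, hm, hm1, hmφ⟩ : ∃ m : ℝ, 0 < m ∧ m ≤ 1 ∧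
      ∀ z, z ∉ ball p s → z ∉ ball q s → m ≤ ‖φ z‖ := by
    have hc : IsCompact (closedBall x₁ ρ \ (ball p s ∪ ball q s)) :=
      (isCompact_closedBall _ _).diff (isOpen_ball.union isOpen_ball)
    by_cases hemp : (closedBall x₁ ρ \ (ball p s ∪ ball q s)).Nonempty
    · obtain ⟨z0, hz0, hz0m⟩ := hc.exists_isMinOn hemp
        (hφs.continuous.norm.continuousOn (s := closedBall x₁ ρ \ (ball p s ∪ ball q s)))
      have hz0pos : 0 < ‖φ z0‖ := by
        rw [norm_pos_iff]
        intro h0
        rcases hφ0 z0 h0 with h | h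
        · exact hz0.2 (Or.inl (h ▸ mem_ball_self hs))
        · exact hz0.2 (Or.inr (h ▸ mem_ball_self hs))
      refine ⟨min 1 ‖φ z0‖, lt_min one_pos hz0pos, min_le_left _ _, fun z hz1 hz2 => ?_⟩
      by_cases hzb : z ∈ closedBall x₁ ρ
      · exact (min_le_right _ _).trans (hz0m ⟨hzb, fun h => h.elim hz1 hz2⟩)
      · have : φ z = e := hφe z fun h => hzb (ball_subset_closedBall h)
        rw [this, he1]
        exact min_le_left _ _
    · refine ⟨1, one_pos, le_rfl, fun z hz1 hz2 => ?_⟩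
      by_cases hzb : z ∈ closedBall x₁ ρ
      · exact absurd ⟨z, hzb, fun h => h.elim hz1 hz2⟩ hemp
      · have : φ z = e := hφe z fun h => hzb (ball_subset_closedBall h)
        rw [this, he1]
  set κ : ℝ := min κ₀ (min (1 / 4) (m / 3)) with hκdef
  have hκ : 0 < κ := lt_min hκ₀ (lt_min (by norm_num) (by positivity))
  have hκκ₀ : κ ≤ κ₀ := min_le_left _ _
  have hκ4 : κ ≤ 1 / 4 := (min_le_right _ _).trans (min_le_left _ _)
  have hκm : 3 * κ ≤ m := by
    have : κ ≤ m / 3 := (min_le_right _ _).trans (min_le_right _ _)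
    linarith
  -- bump function
  obtain ⟨η, hηs, hη0, hηI⟩ : ∃ η : E n → ℝ, ContDiff ℝ ∞ η ∧ (∀ z, κ ≤ ‖z‖ → η z = 0) ∧
      (∫ z, η z) ≠ 0 := by
    let b : ContDiffBump (0 : E n) := ⟨κ / 2, κ, by positivity, by linarith⟩
    refine ⟨b, b.contDiff, fun z hz => b.zero_of_le_dist (by simpa using hz), ?_⟩
    exact (b.integral_pos (μ := volume)).ne'
  have hηκ₀ : ∀ z, κ₀ ≤ ‖z‖ → η z = 0 := fun z hz => hη0 z (hκκ₀.trans hz)
  obtain ⟨hσp, hσq⟩ := hσ1 η hηs.continuous hηκ₀
  -- target map
  have hCo : IsOpen (U \ CC f U) := isOpen_diff_CC hU hfc ho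
  have hCcpt : IsCompact (CC f U ∩ f ⁻¹' closedBall y₁ r) := by
    have : CC f U ∩ f ⁻¹' closedBall y₁ r = (U ∩ f ⁻¹' closedBall y₁ r) \ (U \ CC f U) := by
      ext z
      constructor
      · rintro ⟨h1, h2⟩
        exact ⟨⟨h1.1, h2⟩, fun h => h.2 h1⟩
      · rintro ⟨⟨h1, h2⟩, h3⟩
        refine ⟨?_, h2⟩
        by_contra h4
        exact h3 ⟨h1, h4⟩
    rw [this]
    exact hcpt.diff hCo
  have hsph : ∀ z ∈ U, f z ∈ sphere y₁ r → z ∉ ball x₁ ρ := by
    intro z hz hfz hzb
    have h1 := (hρU hzb).2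
    simp only [mem_preimage, mem_ball] at h1
    rw [mem_sphere] at hfz
    linarith
  obtain ⟨ψ, hψs, hψC, hψS⟩ := exists_target (C := CC f U) (f := f) hr hCcpt
    (hfc.mono fun z hz => hz.1.1)
    (fun a ha b hb hab => hb.1.2 a ha.1.1 hab)
    hφs.continuous (e := e) (fun z hz hfz => hφe z (hsph z hz.1 hfz)) hκ
  have hV1CC : ∀ z, z ∈ U ∩ f ⁻¹' W → z ∉ CC f U := by
    intro z hz hzC
    have h1 : f z ∈ B \ T := connectedComponentIn_subset _ _ hz.2
    exact h1.2 ⟨z, hzC, rfl⟩
  -- the boundary condition on the source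
  have hb : ∀ z ∈ U, f z ∈ closedBall y₁ r → (z ∈ CC f U ∨ f z ∈ sphere y₁ r) →
      3 * κ ≤ ‖φ z‖ ∧ ‖ψ (f z) - φ z‖ ≤ κ := by
    intro z hz hfz hor
    have hzp : z ∉ ball p s := by
      intro hzp
      have h1 := hsp hzp
      rcases hor with h | h
      · exact hV1CC z (hV1sub h1.1) h
      · exact hsph z hz h h1.2
    have hzq : z ∉ ball q s := by
      intro hzq
      have h1 := hsq hzq
      rcases hor with h | h
      · exact hV1CC z (hV2sub h1.1) h
      · exact hsph z hz h h1.2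
    refine ⟨hκm.trans (hmφ z hzp hzq), ?_⟩
    rcases hor with h | h
    · exact hψC z h hfz
    · rw [hφe z (hsph z hz h)]
      exact hψS _ h
  have hb' : ∀ y ∈ closedBall y₁ r, (y ∈ T ∨ y ∈ sphere y₁ r) → 2 * κ ≤ ‖ψ y‖ := by
    intro y hy hor
    rcases hor with h | h
    · obtain ⟨z, hzC, rfl⟩ := h
      obtain ⟨h1, h2⟩ := hb z hzC.1 hy (Or.inl hzC)
      have h3 : ‖φ z‖ ≤ ‖ψ (f z)‖ + ‖ψ (f z) - φ z‖ := by
        have := norm_sub_norm_le (φ z) (ψ (f z))
        rw [norm_sub_rev] at this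
        linarith
      linarith
    · have h2 := hψS y h
      have h3 : ‖e‖ ≤ ‖ψ y‖ + ‖ψ y - e‖ := by
        have := norm_sub_norm_le e (ψ y)
        rw [norm_sub_rev] at this
        linarith
      rw [he1] at h3
      linarith
  set Ψ : E n → ℝ := fun y => η (ψ y) * (fderiv ℝ ψ y).det with hΨ
  have hΨc : Continuous Ψ := by
    refine (hηs.continuous.comp hψs.continuous).mul ?_
    exact ContinuousLinearMap.continuous_det.comp (hψs.continuous_fderiv (by simp))
  -- general component
  have key : ∀ w' ∈ B \ T, ∀ z ∈ U, f z ∈ connectedComponentIn (B \ T) w' → ∀ d,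
      IsDeg f D (connectedComponentIn (U ∩ f ⁻¹' connectedComponentIn (B \ T) w') z)
        (connectedComponentIn (B \ T) w') d →
      d * ∫ y in connectedComponentIn (B \ T) w' ∩ ball y₁ r, Ψ y =
        ∫ x in connectedComponentIn (U ∩ f ⁻¹' connectedComponentIn (B \ T) w') z ∩
          f ⁻¹' ball y₁ r, η (φ x) * (fderiv ℝ φ x).det := by
    intro w' hw' z hz hfz d hd
    obtain ⟨hWo', hWfr', hVo', hVp', hVs', hVfr'⟩ := comp_props hU hB hfc hp ho hw' hz hfz
    rw [← hT] at hWo' hWfr' hVo' hVp' hVs' hVfr'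
    set W' := connectedComponentIn (B \ T) w' with hW'
    set V' := connectedComponentIn (U ∩ f ⁻¹' W') z with hV'
    have hV'sub : V' ⊆ U ∩ f ⁻¹' W' := comp_subset_left
    obtain ⟨t1, t2, t3⟩ := target_cc hWo' (connectedComponentIn_subset _ _) hWfr' hr hrB hψs hηs
      hκ hη0 hb'
    have h1 := hd _ t1 t2 (t3.trans inter_subset_left)
    have hmb : MeasurableSet (W' ∩ ball y₁ r) := (hWo'.inter isOpen_ball).measurableSet
    rw [integral_indicator hmb] at h1
    have hVb : MeasurableSet (f ⁻¹' ball y₁ r ∩ V') := by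
      rw [inter_comm]
      exact ((hfc.mono (hV'sub.trans inter_subset_left)).isOpen_inter_preimage hVo'
        isOpen_ball).measurableSet
    have h2 : ∫ x in V', (W' ∩ ball y₁ r).indicator (fun y => η (ψ y) * (fderiv ℝ ψ y).det) (f x) *
        (D x).det = ∫ x in V' ∩ f ⁻¹' ball y₁ r, η (ψ (f x)) * (fderiv ℝ ψ (f x)).det *
          (D x).det := by
      have hVb' : MeasurableSet (V' ∩ f ⁻¹' ball y₁ r) := by rwa [inter_comm]
      rw [← integral_indicator hVo'.measurableSet, ← integral_indicator hVb']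
      congr 1
      ext x
      by_cases hxV : x ∈ V'
      · by_cases hxb : f x ∈ ball y₁ r
        · rw [indicator_of_mem hxV, indicator_of_mem (show x ∈ V' ∩ f ⁻¹' ball y₁ r from ⟨hxV, hxb⟩),
            indicator_of_mem (show f x ∈ W' ∩ ball y₁ r from ⟨(hV'sub hxV).2, hxb⟩)]
        · rw [indicator_of_mem hxV, indicator_of_notMem (fun h => hxb h.2),
            indicator_of_notMem (fun h => hxb h.2), zero_mul]
      · rw [indicator_of_notMem hxV, indicator_of_notMem (fun h => hxV h.1)]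
    rw [h2, piece hU hVo' (hV'sub.trans inter_subset_left) hWA hcpt hVfr' hψs hφs hηs hκ hη0 hb]
      at h1
    exact h1.symm
  -- components different from W
  have hother : ∀ w' ∈ B \ T, connectedComponentIn (B \ T) w' ≠ connectedComponentIn (B \ T) w →
      ∫ y in connectedComponentIn (B \ T) w' ∩ ball y₁ r, Ψ y = 0 := by
    intro w' hw' hne'
    obtain ⟨z, hz, hfz⟩ : ∃ z ∈ U, f z = w' := by
      have := surj hU hB hBc hfc hp ho hUne
      have h1 : w' ∈ f '' U := this ▸ hw'.1
      exact h1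
    have hfz' : f z ∈ connectedComponentIn (B \ T) w' := by
      rw [hfz]; exact mem_connectedComponentIn hw'
    obtain ⟨hWo', hWfr', hVo', hVp', hVs', hVfr'⟩ := comp_props hU hB hfc hp ho hw' hz hfz'
    rw [← hT] at hWo' hWfr' hVo' hVp' hVs' hVfr'
    obtain ⟨d, hd⟩ := deg_exists hVo' hWo' isPreconnected_connectedComponentIn
      ⟨hWA.meas.mono_measure (Measure.restrict_mono
        ((comp_subset_left (P := U ∩ f ⁻¹' connectedComponentIn (B \ T) w')).trans
          inter_subset_left) le_rfl),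
        hWA.cont.mono ((comp_subset_left (P := U ∩ f ⁻¹' connectedComponentIn (B \ T) w')).trans
          inter_subset_left),
        fun K hK hKV => hWA.approx K hK (hKV.trans
          ((comp_subset_left (P := U ∩ f ⁻¹' connectedComponentIn (B \ T) w')).trans
          inter_subset_left))⟩ hVp'
    have hd0 : d ≠ 0 := hdeg w' hw' z hz hfz' d hd
    have h1 := key w' hw' z hz hfz' d hd
    have h2 : ∫ x in connectedComponentIn (U ∩ f ⁻¹' connectedComponentIn (B \ T) w') z ∩
          f ⁻¹' ball y₁ r, η (φ x) * (fderiv ℝ φ x).det = 0 := by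
      have hWW : Disjoint (connectedComponentIn (B \ T) w') W := by
        rw [Set.disjoint_left]
        intro y hy1 hy2
        exact hne' ((connectedComponentIn_eq hy1).trans (connectedComponentIn_eq hy2).symm)
      refine setIntegral_eq_zero_of_forall_eq_zero fun x hx => ?_
      have hx1 : f x ∈ connectedComponentIn (B \ T) w' := (comp_subset_left hx.1).2
      have hxp : x ∉ ball p s := fun h =>
        (Set.disjoint_left.1 hWW) hx1 (hV1sub (hsp h).1).2
      have hxq : x ∉ ball q s := fun h =>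
        (Set.disjoint_left.1 hWW) hx1 (hV2sub (hsq h).1).2
      have : η (φ x) = 0 := hη0 _ (by linarith [hmφ x hxp hxq])
      rw [this, zero_mul]
    rw [h2] at h1
    exact (mul_eq_zero.1 h1).resolve_left hd0
  have htot := total_zero hr hψs hηs hκ hκ4 hη0 he1 hψS
  have hdec := decomp (B := B) (T := T) (isOpen_diff_image hU hB hfc hp ho) hr hrB hΨc
    (fun y hy hor => by
      have h1 : κ < ‖ψ y‖ := by linarith [hb' y hy hor]
      have h2 : ∀ᶠ z in 𝓝 y, κ < ‖ψ z‖ :=
        (hψs.continuous.norm.continuousAt).eventually (lt_mem_nhds h1)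
      filter_upwards [h2] with z hz
      simp only [hΨ, hη0 _ hz.le, zero_mul, Pi.zero_apply]) (w₁ := w) hother
  have hW0 : ∫ y in W ∩ ball y₁ r, Ψ y = 0 := by
    rw [← hdec]
    exact htot
  obtain ⟨d, hd⟩ := deg_exists hV1o hWo isPreconnected_connectedComponentIn
      ⟨hWA.meas.mono_measure (Measure.restrict_mono
        (hV1sub.trans inter_subset_left) le_rfl),
        hWA.cont.mono (hV1sub.trans inter_subset_left),
        fun K hK hKV => hWA.approx K hK (hKV.trans (hV1sub.trans inter_subset_left))⟩ hV1p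
  have h1 := key w hw x hx hxw d hd
  rw [← hW, hW0, mul_zero, ← hV1] at h1
  have h2 : ∫ x in V1 ∩ f ⁻¹' ball y₁ r, η (φ x) * (fderiv ℝ φ x).det =
      ∫ x in ball p s, η (φ x) * (fderiv ℝ φ x).det := by
    have hVb : MeasurableSet (V1 ∩ f ⁻¹' ball y₁ r) :=
      ((hfc.mono (hV1sub.trans inter_subset_left)).isOpen_inter_preimage hV1o
        isOpen_ball).measurableSet
    apply setIntegral_eq_of_subset_of_forall_sdiff_eq_zero hVb
    · intro z hz
      exact ⟨(hsp hz).1, (hρU (hsp hz).2).2⟩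
    · intro z hz
      have hzq : z ∉ ball q s := fun h => (Set.disjoint_left.1 hdisj) hz.1.1 (hsq h).1
      have : η (φ z) = 0 := hη0 _ (by linarith [hmφ z hz.2 hzq])
      rw [this, zero_mul]
  rw [h2, hσp] at h1
  exact (mul_ne_zero hσ hηI) h1.symm


theorem WA.mono {U V : Set (E n)} {f : E n → E n} {D : E n → E n →L[ℝ] E n} (h : WA U f D)
    (hV : V ⊆ U) : WA V f D :=
  ⟨h.meas.mono_measure (Measure.restrict_mono hV le_rfl), h.cont.mono hV,
    fun K hK hKV => h.approx K hK (hKV.trans hV)⟩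

/-- the Jacobian does not vanish a.e. on a nonempty open set -/
theorem not_ae_zero (hn : 0 < n) {U O : Set (E n)} {f : E n → E n} {D : E n → E n →L[ℝ] E n}
    (hWA : WA U f D) (ho : OpM f U) {K : ℝ}
    (hK : ∀ᵐ x ∂(volume.restrict U), ‖D x‖ ^ n ≤ K * |(D x).det|)
    (hO : IsOpen O) (hne : O.Nonempty) (hOU : O ⊆ U)
    (h0 : ∀ᵐ z ∂(volume.restrict O), (D z).det = 0) : False := by
  obtain ⟨x, hx⟩ := hne
  have h1 : ∀ᵐ z ∂(volume.restrict O), D z = 0 := by
    filter_upwards [h0, ae_restrict_of_ae_restrict_of_subset hOU hK] with z hz1 hz2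
    rw [hz1, abs_zero, mul_zero] at hz2
    have h2 : ‖D z‖ ^ n = 0 := le_antisymm hz2 (by positivity)
    exact norm_eq_zero.1 (pow_eq_zero_iff hn.ne' |>.1 h2)
  obtain ⟨r, hr, hc⟩ := const_of_zero hO (hWA.mono hOU) h1 hx
  obtain ⟨s, hs, hsO⟩ := (nhds_basis_ball.mem_iff).1 (hO.mem_nhds hx)
  have h3 : IsOpen (f '' (ball x (min r s))) :=
    ho _ isOpen_ball ((ball_subset_ball (min_le_right _ _)).trans (hsO.trans hOU))
  have h4 : f '' (ball x (min r s)) = {f x} := by
    ext y
    constructor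
    · rintro ⟨z, hz, rfl⟩
      exact hc z (ball_subset_ball (min_le_left _ _) hz)
    · rintro rfl
      exact ⟨x, mem_ball_self (lt_min hr hs), rfl⟩
  rw [h4] at h3
  have hne1 : Nonempty (Fin n) := ⟨⟨0, hn⟩⟩
  have hnt : Nontrivial (E n) := inferInstance
  exact (not_isOpen_singleton (f x)) h3

theorem orient_aux (hn : 0 < n) {f : E n → E n} {D : E n → E n →L[ℝ] E n} {K : ℝ} (m : ℕ) :
    ∀ U B : Set (E n), IsOpen U → IsPreconnected U → IsOpen B → IsPreconnected B →
      WA U f D → Prp f U B → OpM f U →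
      (∀ᵐ x ∂(volume.restrict U), ‖D x‖ ^ n ≤ K * |(D x).det|) →
      (∀ y, (U ∩ f ⁻¹' {y}).encard ≤ m) →
      (∀ᵐ x ∂(volume.restrict U), 0 ≤ (D x).det) ∨
        (∀ᵐ x ∂(volume.restrict U), (D x).det ≤ 0) := by
  classical
  induction m with
  | zero =>
    intro U B hU hUc hB hBc hWA hp ho hK hfib
    have hUe : U = ∅ := by
      by_contra hne
      obtain ⟨x, hx⟩ := nonempty_iff_ne_empty.2 hne
      have h1 := hfib (f x)
      rw [Nat.cast_zero, nonpos_iff_eq_zero, encard_eq_zero] at h1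
      have : x ∈ U ∩ f ⁻¹' {f x} := ⟨hx, rfl⟩
      rw [h1] at this
      exact this
    left
    rw [hUe, Measure.restrict_empty]
    rw [ae_zero]
    exact Filter.eventually_bot
  | succ m ih =>
    intro U B hU hUc hB hBc hWA hp ho hK hfib
    have hfc := hWA.cont
    have hnz : ∀ O : Set (E n), IsOpen O → O.Nonempty → O ⊆ U →
        ¬ (∀ᵐ z ∂(volume.restrict O), (D z).det = 0) := fun O hO hne hOU h0 =>
      not_ae_zero hn hWA ho hK hO hne hOU h0
    have hCo : IsOpen (U \ CC f U) := isOpen_diff_CC hU hfc ho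
    have hfin : ∀ y, (U ∩ f ⁻¹' {y}).Finite := fun y =>
      finite_of_encard_le_coe (hfib y)
    -- local sign off CC
    have hloc : ∀ x ∈ U \ CC f U, ∃ V : Set (E n), IsOpen V ∧ x ∈ V ∧ V ⊆ U \ CC f U ∧
        ((∀ᵐ z ∂(volume.restrict V), 0 ≤ (D z).det) ∨
          (∀ᵐ z ∂(volume.restrict V), (D z).det ≤ 0)) := by
      intro x hx
      have hx2 : ∃ x' ∈ U, f x' = f x ∧ x' ≠ x := by
        by_contra hcon
        push Not at hcon
        exact hx.2 ⟨hx.1, hcon⟩
      obtain ⟨x', hx'U, hfx', hxx'⟩ := hx2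
      obtain ⟨A', A, hA'o, hAo, hx'A, hxA, hAA⟩ := t2_separation hxx'
      have hI : IsOpen (f '' (A' ∩ U)) := ho _ (hA'o.inter hU) inter_subset_right
      set O : Set (E n) := (U \ CC f U) ∩ (A ∩ (U ∩ f ⁻¹' (f '' (A' ∩ U)))) with hO
      have hOo : IsOpen O := hCo.inter (hAo.inter (hfc.isOpen_inter_preimage hU hI))
      have hxO : x ∈ O := ⟨hx, hxA, hx.1, ⟨x', ⟨hx'A, hx'U⟩, hfx'⟩⟩
      have hOU : O ⊆ U := fun z hz => hz.1.1
      have hoO : OpM f O := fun Q hQ hQO => ho Q hQ (hQO.trans hOU)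
      obtain ⟨V, r, hr, hVo, hVc, hxV, hVO, hVp⟩ := local_nbhd hOo (hfc.mono hOU) hoO hxO
        ((hfin (f x)).subset (inter_subset_inter_left _ hOU))
      have hVU : V ⊆ U := hVO.trans hOU
      refine ⟨V, hVo, hxV, fun z hz => (hVO hz).1, ?_⟩
      refine ih V (ball (f x) r) hVo hVc isOpen_ball (convex_ball _ _).isPreconnected
        (hWA.mono hVU) hVp (fun Q hQ hQV => ho Q hQ (hQV.trans hVU))
        (ae_restrict_of_ae_restrict_of_subset hVU hK) ?_
      intro y
      rcases (V ∩ f ⁻¹' {y}).eq_empty_or_nonempty with he | ⟨z, hzV, hzy⟩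
      · rw [he, encard_empty]; exact zero_le
      · obtain ⟨z', ⟨hz'A, hz'U⟩, hz'y⟩ := (hVO hzV).2.2.2
        have hzy' : f z = y := hzy
        have hz'not : z' ∉ V ∩ f ⁻¹' {y} := by
          intro h
          exact (Set.disjoint_left.1 hAA) hz'A (hVO h.1).2.1
        have h1 : insert z' (V ∩ f ⁻¹' {y}) ⊆ U ∩ f ⁻¹' {y} := by
          intro q hq
          rcases hq with rfl | hq
          · exact ⟨hz'U, by show f q = y; rw [hz'y, hzy']⟩
          · exact ⟨hVU hq.1, hq.2⟩
        have h2 := (encard_le_encard h1).trans (hfib y)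
        rw [encard_insert_of_notMem hz'not] at h2
        have h3 : (V ∩ f ⁻¹' {y}).encard + 1 ≤ (m : ℕ∞) + 1 := by
          simpa using h2
        exact (ENat.add_le_add_iff_right (by simp)).1 h3
    rcases (CC f U).eq_empty_or_nonempty with hCe | hCne
    · -- no collapse points
      refine sign_of_local hU hUc (fun x hx => ?_) hnz
      obtain ⟨V, h1, h2, h3, h4⟩ := hloc x ⟨hx, by rw [hCe]; exact notMem_empty _⟩
      exact ⟨V, h1, h2, h3.trans sdiff_subset, h4⟩
    · obtain ⟨dU, hdU⟩ := deg_exists hU hB hBc hWA hp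
      set T := f '' CC f U with hT
      have hOpen : IsOpen (B \ T) := isOpen_diff_image hU hB hfc hp ho
      -- facts on components
      have hcomp : ∀ w ∈ B \ T, ∀ x ∈ U, f x ∈ connectedComponentIn (B \ T) w →
          connectedComponentIn (U ∩ f ⁻¹' connectedComponentIn (B \ T) w) x ⊆ U \ CC f U := by
        intro w hw x hx hxw z hz
        have h1 := comp_subset_left hz
        refine ⟨h1.1, fun hzC => ?_⟩
        have h2 : f z ∈ B \ T := connectedComponentIn_subset _ _ h1.2
        exact h2.2 ⟨z, hzC, rfl⟩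
      have hsign : ∀ w ∈ B \ T, ∀ x ∈ U, f x ∈ connectedComponentIn (B \ T) w →
          (∀ᵐ z ∂(volume.restrict (connectedComponentIn
            (U ∩ f ⁻¹' connectedComponentIn (B \ T) w) x)), 0 ≤ (D z).det) ∨
          (∀ᵐ z ∂(volume.restrict (connectedComponentIn
            (U ∩ f ⁻¹' connectedComponentIn (B \ T) w) x)), (D z).det ≤ 0) := by
        intro w hw x hx hxw
        obtain ⟨-, -, hVo, -, -, -⟩ := comp_props hU hB hfc hp ho hw hx hxw
        have hsub := hcomp w hw x hx hxw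
        refine sign_of_local hVo isPreconnected_connectedComponentIn (fun z hz => ?_)
          (fun O hO hne hOV => hnz O hO hne (hOV.trans (hsub.trans sdiff_subset)))
        obtain ⟨V, h1, h2, h3, h4⟩ := hloc z (hsub hz)
        refine ⟨V ∩ _, h1.inter hVo, ⟨h2, hz⟩, inter_subset_right, ?_⟩
        rcases h4 with h4 | h4
        · exact Or.inl (ae_restrict_of_ae_restrict_of_subset inter_subset_left h4)
        · exact Or.inr (ae_restrict_of_ae_restrict_of_subset inter_subset_left h4)
      -- degree facts for a component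
      have hdegs : ∀ w ∈ B \ T, ∀ x ∈ U, f x ∈ connectedComponentIn (B \ T) w → ∀ d,
          IsDeg f D (connectedComponentIn (U ∩ f ⁻¹' connectedComponentIn (B \ T) w) x)
            (connectedComponentIn (B \ T) w) d →
          (0 < d ∧ (∀ᵐ z ∂(volume.restrict (connectedComponentIn
            (U ∩ f ⁻¹' connectedComponentIn (B \ T) w) x)), 0 ≤ (D z).det)) ∨
          (d < 0 ∧ (∀ᵐ z ∂(volume.restrict (connectedComponentIn
            (U ∩ f ⁻¹' connectedComponentIn (B \ T) w) x)), (D z).det ≤ 0)) := by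
        intro w hw x hx hxw d hd
        obtain ⟨hWo, -, hVo, hVp, -, -⟩ := comp_props hU hB hfc hp ho hw hx hxw
        rw [← hT] at hWo hVo hVp
        have hsub := hcomp w hw x hx hxw
        have hxV : x ∈ connectedComponentIn (U ∩ f ⁻¹' connectedComponentIn (B \ T) w) x :=
          mem_connectedComponentIn ⟨hx, hxw⟩
        have hWne : (connectedComponentIn (B \ T) w).Nonempty := ⟨f x, hxw⟩
        have hVU := hsub.trans (sdiff_subset : U \ CC f U ⊆ U)
        have hWAV := hWA.mono hVU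
        have hjm : AEStronglyMeasurable (fun z => (D z).det) (volume.restrict
            (connectedComponentIn (U ∩ f ⁻¹' connectedComponentIn (B \ T) w) x)) :=
          ContinuousLinearMap.continuous_det.comp_aestronglyMeasurable hWAV.meas
        have hji : ∀ Q : Set (E n), IsCompact Q → Q ⊆ connectedComponentIn (B \ T) w →
            IntegrableOn (fun z => (D z).det)
              (connectedComponentIn (U ∩ f ⁻¹' connectedComponentIn (B \ T) w) x ∩ f ⁻¹' Q) :=
          fun Q hQ hQW => hWAV.integrableOn_det (hVp.2 Q hQ hQW) inter_subset_left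
        rcases hsign w hw x hx hxw with hs | hs
        · left
          obtain ⟨h1, h2⟩ := deg_sign hVo hWo hWAV.cont hVp hjm hji hd hWne hs
          refine ⟨lt_of_le_of_ne h1 fun h0 => ?_, hs⟩
          exact hnz _ hVo ⟨x, hxV⟩ hVU (h2 h0.symm)
        · right
          have hs' : ∀ᵐ z ∂(volume.restrict (connectedComponentIn
            (U ∩ f ⁻¹' connectedComponentIn (B \ T) w) x)), 0 ≤ -(D z).det := by
            filter_upwards [hs] with z hz
            linarith
          obtain ⟨h1, h2⟩ := deg_sign (j := fun z => -(D z).det) (d := -d) hVo hWo hWAV.cont hVp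
            hjm.neg (fun Q hQ hQW => (hji Q hQ hQW).neg) (fun Φ h1 h2 h3 => by
              have := hd Φ h1 h2 h3
              simp only [mul_neg, integral_neg, this, neg_mul]) hWne hs'
          refine ⟨lt_of_le_of_ne (by linarith) fun h0 => ?_, hs⟩
          refine hnz _ hVo ⟨x, hxV⟩ hVU ?_
          filter_upwards [h2 (by rw [h0, neg_zero])] with z hz
          linarith
      have hdeg0 : ∀ w ∈ B \ T, ∀ x ∈ U, f x ∈ connectedComponentIn (B \ T) w → ∀ d,
          IsDeg f D (connectedComponentIn (U ∩ f ⁻¹' connectedComponentIn (B \ T) w) x)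
            (connectedComponentIn (B \ T) w) d → d ≠ 0 := by
        intro w hw x hx hxw d hd
        rcases hdegs w hw x hx hxw d hd with h | h
        · exact h.1.ne'
        · exact h.1.ne
      have hwhole : ∀ w ∈ B \ T, ∀ x ∈ U, f x ∈ connectedComponentIn (B \ T) w →
          connectedComponentIn (U ∩ f ⁻¹' connectedComponentIn (B \ T) w) x =
            U ∩ f ⁻¹' connectedComponentIn (B \ T) w := by
        intro w hw x hx hxw
        refine Subset.antisymm comp_subset_left fun z hz => ?_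
        have := unique_comp hn hU hB hBc hWA hp ho hCne hdeg0 hw hx hz.1 hxw hz.2
        rw [this]
        exact mem_connectedComponentIn hz
      have hdegU : ∀ w ∈ B \ T, ∀ x ∈ U, f x ∈ connectedComponentIn (B \ T) w →
          IsDeg f D (connectedComponentIn (U ∩ f ⁻¹' connectedComponentIn (B \ T) w) x)
            (connectedComponentIn (B \ T) w) dU := by
        intro w hw x hx hxw Φ h1 h2 h3
        obtain ⟨hWo, -, hVo, -, -, -⟩ := comp_props hU hB hfc hp ho hw hx hxw
        rw [← hT] at hWo hVo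
        rw [← hdU Φ h1 h2 (h3.trans ((connectedComponentIn_subset _ _).trans sdiff_subset)),
          hwhole w hw x hx hxw]
        symm
        apply setIntegral_eq_of_subset_of_forall_sdiff_eq_zero hU.measurableSet inter_subset_left
        intro z hz
        have : Φ (f z) = 0 := by
          by_contra hne
          have : f z ∈ tsupport Φ := subset_tsupport _ hne
          exact hz.2 ⟨hz.1, h3 this⟩
        rw [this, zero_mul]
      -- sign off CC in terms of dU
      have hoff : ∀ᵐ z ∂(volume.restrict (U \ CC f U)), 0 ≤ dU * (D z).det := by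
        have hcov : ∀ x ∈ U \ CC f U, ∃ V : Set (E n), IsOpen V ∧ x ∈ V ∧
            ∀ᵐ z ∂(volume.restrict V), 0 ≤ dU * (D z).det := by
          intro x hx
          have hfx : f x ∈ B \ T := by
            refine ⟨hp.1 hx.1, ?_⟩
            rintro ⟨c, hc, hcx⟩
            exact hx.2 ((hc.2 x hx.1 hcx.symm) ▸ hc)
          have hxw := mem_connectedComponentIn hfx
          obtain ⟨-, -, hVo, -, -, -⟩ := comp_props hU hB hfc hp ho hfx hx.1 hxw
          refine ⟨_, hVo, mem_connectedComponentIn ⟨hx.1, hxw⟩, ?_⟩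
          rcases hdegs _ hfx x hx.1 hxw dU (hdegU _ hfx x hx.1 hxw) with h | h
          · filter_upwards [h.2] with z hz
            exact mul_nonneg h.1.le hz
          · filter_upwards [h.2] with z hz
            exact mul_nonneg_of_nonpos_of_nonpos h.1.le hz
        choose! V hVo hxV hVs using hcov
        obtain ⟨t, hts, htc, htU⟩ := TopologicalSpace.countable_cover_nhdsWithin
          (f := V) (s := U \ CC f U) (fun x hx => mem_nhdsWithin_of_mem_nhds
            ((hVo x hx).mem_nhds (hxV x hx)))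
        refine ae_restrict_of_ae_restrict_of_subset htU ?_
        rw [ae_restrict_biUnion_eq _ htc]
        simp only [Filter.eventually_iSup]
        intro i hi
        exact hVs i (hts hi)
      have hon := sat_sign (C := CC f U) hU hB hWA hp hdU (fun x hx => hx.1) hCo
        (fun x hx x' hx' h => hx.2 x' hx' h)
      have hUeq : U = (U \ CC f U) ∪ CC f U := by
        ext z
        constructor
        · intro hz
          by_cases h : z ∈ CC f U
          · exact Or.inr h
          · exact Or.inl ⟨hz, h⟩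
        · rintro (h | h)
          · exact h.1
          · exact h.1
      have hall : ∀ᵐ z ∂(volume.restrict U), 0 ≤ dU * (D z).det := by
        rw [hUeq]
        rw [ae_restrict_union_iff]
        exact ⟨hoff, hon.1⟩
      rcases lt_trichotomy dU 0 with hneg | hzero | hpos
      · right
        filter_upwards [hall] with z hz
        by_contra h
        push Not at h
        nlinarith
      · -- then U = CC
        left
        have hemp : U \ CC f U = ∅ := by
          by_contra hne
          obtain ⟨x, hx⟩ := nonempty_iff_ne_empty.2 hne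
          have hfx : f x ∈ B \ T := by
            refine ⟨hp.1 hx.1, ?_⟩
            rintro ⟨c, hc, hcx⟩
            exact hx.2 ((hc.2 x hx.1 hcx.symm) ▸ hc)
          have hxw := mem_connectedComponentIn hfx
          exact hdeg0 _ hfx x hx.1 hxw dU (hdegU _ hfx x hx.1 hxw) hzero
        rw [hUeq, hemp, empty_union]
        filter_upwards [hon.2 hzero] with z hz
        exact hz.ge
      · left
        filter_upwards [hall] with z hz
        by_contra h
        push Not at h
        nlinarith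


end Pool.Agent.Helper171.Ori
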