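import Pool.Agent.Helper80.NHM.Base
import Pool.Agent.Helper171.NHM.D_stepanov
import Pool.Agent.Helper171.NHM.D_lip_ae
import Pool.Agent.Helper171.NHM.D_diff_quot
import Pool.Agent.Helper171.NHM.D_weak_of_diff_quot
import Pool.Agent.Helper171.NHM.D_distortion_pt

set_option autoImplicit false
open MeasureTheory Filter Topology Set Metric
open scoped ENNReal NNReal RealInnerProductSpace ContDiff

namespace Pool.Agent.Helper171.NHMD

open Pool.Agent.Helper80.NHM

variable {n : ℕ}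

/-- a.e. statements are local -/
theorem ae_of_local {G : Set (Sp n)} {p : Sp n → Prop}
    (h : ∀ x ∈ G, ∃ U : Set (Sp n), IsOpen U ∧ x ∈ U ∧ ∀ᵐ z ∂(volume.restrict U), p z) :
    ∀ᵐ z ∂(volume.restrict G), p z := by
  choose! V hVo hxV hVs using h
  obtain ⟨t, hts, htc, htU⟩ := TopologicalSpace.countable_cover_nhdsWithin
    (f := V) (s := G) (fun x hx => mem_nhdsWithin_of_mem_nhds ((hVo x hx).mem_nhds (hxV x hx)))
  refine ae_restrict_of_ae_restrict_of_subset htU ?_
  rw [ae_restrict_biUnion_eq _ htc]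
  simp only [Filter.eventually_iSup]
  intro i hi
  exact hVs i (hts hi)

theorem IsWeakGrad_congr {G : Set (Sp n)} (hG : IsOpen G) {u : Sp n → ℝ} {H H' : Sp n → Sp n}
    (h : IsWeakGrad G u H) (he : H =ᵐ[volume.restrict G] H') : IsWeakGrad G u H' := by
  refine ⟨h.fun_loc, fun K hK hKc => ?_, fun φ hφ => ?_⟩
  · exact (memLp_congr_ae (ae_restrict_of_ae_restrict_of_subset hK he)).1 (h.grad_loc K hK hKc)
  · rw [h.ibp φ hφ]
    congr 1
    have h1 : ∀ (F : Sp n → Sp n), ∫ x, φ x • F x = ∫ x in G, φ x • F x := by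
      intro F
      symm
      refine setIntegral_eq_integral_of_forall_compl_eq_zero fun x hx => ?_
      have : φ x = 0 := by
        by_contra hne
        exact hx (hφ.support (subset_tsupport _ hne))
      rw [this, zero_smul]
    rw [h1, h1]
    refine integral_congr_ae ?_
    filter_upwards [he] with x hx
    rw [hx]

theorem norm_coord_le (v : Sp n) (i : Fin n) : |v i| ≤ ‖v‖ := by
  have := PiLp.norm_apply_le v i
  simpa using this

theorem partD (hn : 2 ≤ n) : PartD n := by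
  intro G f hG hf ho hl hfin _ hV
  obtain ⟨C, hC⟩ := hV
  have hn0 : 0 < n := by omega
  -- local data
  have hloc : ∀ x₀ ∈ G, ∃ (U : Set (Sp n)) (N : ℕ), IsOpen U ∧ x₀ ∈ U ∧ U ⊆ G ∧
      Bornology.IsBounded (f '' U) ∧ ∀ b, (U ∩ f ⁻¹' {b}).encard ≤ N := by
    intro x₀ hx₀
    obtain ⟨U, s, N, hxU, hU, hN⟩ := hfin x₀ hx₀
    refine ⟨U, N, hU.isOpen, hxU, subset_closure.trans hU.sub, ?_, hN⟩
    refine (isBounded_ball (x := f x₀) (r := s)).subset ?_
    rintro _ ⟨z, hz, rfl⟩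
    exact hU.maps z hz
  have hVU : ∀ U : Set (Sp n), U ⊆ G → ∀ (x : Sp n) (r : ℝ), 0 < r → closedBall x (3 * r) ⊆ U →
      ∀ z ∈ closedBall x r,
        dist (f z) (f x) ^ n ≤ C * (volume (f '' closedBall x (2 * r))).toReal :=
    fun U hUG x r hr hx => hC x r hr (hx.trans hUG)
  -- pointwise Lipschitz a.e.
  have hlip : ∀ᵐ x ∂(volume.restrict G), ∃ C' r : ℝ, 0 < r ∧
      ∀ y ∈ ball x r, ‖f y - f x‖ ≤ C' * ‖y - x‖ := by
    refine ae_of_local fun x₀ hx₀ => ?_
    obtain ⟨U, N, hU, hxU, hUG, hb, hN⟩ := hloc x₀ hx₀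
    exact ⟨U, hU, hxU, lip_ae hn0 hU (hf.mono hUG) hb hN (hVU U hUG)⟩
  -- differentiable a.e.
  have hdiff : ∀ᵐ x ∂(volume.restrict G), DifferentiableAt ℝ f x := by
    have h1 : ∀ i : Fin n, ∀ᵐ x ∂(volume.restrict G), (∃ C r : ℝ, 0 < r ∧ ∀ y ∈ ball x r,
        |f y i - f x i| ≤ C * ‖y - x‖) → DifferentiableAt ℝ (fun z => f z i) x :=
      fun i => ae_restrict_of_ae (stepanov (volume : Measure (Sp n)) (fun z => f z i))
    filter_upwards [hlip, ae_all_iff.2 h1] with x hx1 hx2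
    rw [differentiableAt_euclidean]
    intro i
    refine hx2 i ?_
    obtain ⟨C', r, hr, hx⟩ := hx1
    exact ⟨C', r, hr, fun y hy => (norm_coord_le (f y - f x) i).trans (hx y hy)⟩
  -- difference quotients
  have hquot : ∀ K ⊆ G, IsCompact K → ∃ C' δ : ℝ, 0 < δ ∧ ∀ h : Sp n, ‖h‖ < δ →
      ∫⁻ x in K, ENNReal.ofReal (‖f (x + h) - f x‖ ^ n) ≤ ENNReal.ofReal (C' * ‖h‖ ^ n) := by
    intro K hKG hK
    have hx : ∀ x ∈ K, ∃ (r C' δ : ℝ), 0 < r ∧ 0 < δ ∧ 0 ≤ C' ∧ ∀ h : Sp n, ‖h‖ < δ →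
        ∫⁻ z in closedBall x r, ENNReal.ofReal (‖f (z + h) - f z‖ ^ n) ≤
          ENNReal.ofReal (C' * ‖h‖ ^ n) := by
      intro x hx
      obtain ⟨U, N, hU, hxU, hUG, hb, hN⟩ := hloc x (hKG hx)
      obtain ⟨r, hr, hrU⟩ := (nhds_basis_closedBall.mem_iff).1 (hU.mem_nhds hxU)
      obtain ⟨C', δ, hδ, h1⟩ := diff_quot hn0 hU (hf.mono hUG) hb hN (hVU U hUG)
        (isCompact_closedBall x r) hrU
      refine ⟨r, max C' 0, δ, hr, hδ, le_max_right _ _, fun h hh => (h1 h hh).trans ?_⟩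
      exact ENNReal.ofReal_le_ofReal (mul_le_mul_of_nonneg_right (le_max_left _ _) (by positivity))
    choose! r Cx δ hr hδ hCx hq using hx
    obtain ⟨t, htK, ht⟩ := hK.elim_nhds_subcover (fun x => closedBall x (r x))
      (fun x hx => closedBall_mem_nhds x (hr x hx))
    by_cases hte : t.Nonempty
    · obtain ⟨x1, hx1, hx1m⟩ := t.exists_min_image δ hte
      refine ⟨∑ x ∈ t, Cx x, δ x1, hδ x1 (htK x1 hx1), fun h hh => ?_⟩
      calc ∫⁻ x in K, ENNReal.ofReal (‖f (x + h) - f x‖ ^ n)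
          ≤ ∫⁻ x in ⋃ z ∈ t, closedBall z (r z), ENNReal.ofReal (‖f (x + h) - f x‖ ^ n) :=
            lintegral_mono_set ht
        _ ≤ ∑ z ∈ t, ∫⁻ x in closedBall z (r z), ENNReal.ofReal (‖f (x + h) - f x‖ ^ n) := by
            rw [← Finset.sum_coe_sort]
            refine (lintegral_mono' (Measure.restrict_mono ?_ le_rfl) le_rfl).trans
              ((lintegral_iUnion_le (fun z : t => closedBall (z : Sp n) (r z)) _).trans ?_)
            · intro y hy
              simp only [mem_iUnion] at hy ⊢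
              obtain ⟨z, hz, hy⟩ := hy
              exact ⟨⟨z, hz⟩, hy⟩
            · rw [tsum_fintype]
        _ ≤ ∑ z ∈ t, ENNReal.ofReal (Cx z * ‖h‖ ^ n) :=
            Finset.sum_le_sum fun z hz => hq z (htK z hz) h (hh.trans_le (hx1m z hz))
        _ = ENNReal.ofReal ((∑ x ∈ t, Cx x) * ‖h‖ ^ n) := by
            rw [Finset.sum_mul, ENNReal.ofReal_sum_of_nonneg]
            intro z hz
            exact mul_nonneg (hCx z (htK z hz)) (by positivity)
    · rw [Finset.not_nonempty_iff_eq_empty] at hte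
      have hK0 : K = ∅ := by
        rw [hte] at ht
        simpa using ht
      refine ⟨0, 1, one_pos, fun h _ => ?_⟩
      rw [hK0]
      simp
  obtain ⟨K0, hK0, hdist⟩ := distortion_pt (n := n) hn0 (C := C)
  refine ⟨fun x => fderiv ℝ f x, K0, hK0, fun i => ?_, ?_⟩
  · have hw : IsWeakGrad G (fun x => f x i) (gradient (fun x => f x i)) := by
      refine weak_of_diff_quot hn hG ?_ ?_ ?_
      · exact (EuclideanSpace.proj (𝕜 := ℝ) i).continuous.comp_continuousOn hf
      · filter_upwards [hdiff] with x hx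
        exact (differentiableAt_euclidean.1 hx) i
      · intro K hKG hK
        obtain ⟨C', δ, hδ, h1⟩ := hquot K hKG hK
        refine ⟨C', δ, hδ, fun h hh => le_trans (lintegral_mono fun x => ?_) (h1 h hh)⟩
        refine ENNReal.ofReal_le_ofReal (pow_le_pow_left₀ (abs_nonneg _) ?_ _)
        exact norm_coord_le (f (x + h) - f x) i
    refine IsWeakGrad_congr hG hw ?_
    filter_upwards [hdiff] with x hx
    refine ext_inner_right ℝ fun v => ?_
    rw [ContinuousLinearMap.adjoint_inner_left]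
    have h1 : HasFDerivAt (fun z => f z i)
        ((EuclideanSpace.proj (𝕜 := ℝ) i).comp (fderiv ℝ f x)) x :=
      (EuclideanSpace.proj (𝕜 := ℝ) i).hasFDerivAt.comp x hx.hasFDerivAt
    rw [gradient, h1.fderiv]
    simp [EuclideanSpace.inner_single_left]
  · filter_upwards [hdiff, ae_restrict_mem hG.measurableSet] with x hx hxG
    obtain ⟨ρ, hρ, hρG⟩ := (nhds_basis_closedBall.mem_iff).1 (hG.mem_nhds hxG)
    refine hdist f x (ρ / 3) (by positivity) hx fun r hr hrρ => hC x r hr ?_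
    exact (closedBall_subset_closedBall (by linarith)).trans hρG

end Pool.Agent.Helper171.NHMD
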