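import Pool.Agent.Helper80.NHM.Stmt
import Pool.Agent.Helper171.NHM.OriDefs
set_option autoImplicit false
open MeasureTheory Filter Topology Set Metric
open scoped ENNReal NNReal RealInnerProductSpace ContDiff

namespace Pool.Agent.Helper171.NHMT

open Pool.Agent.Helper80.NHM Pool.Agent.Helper171.Ori

variable {n : ℕ}

/-- the canonical linear equivalence -/
noncomputable abbrev LL (n : ℕ) : Sp n ≃L[ℝ] E n := EuclideanSpace.equiv (Fin n) ℝ


/-- the components of `T ∘ L.symm` against a functional -/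
theorem j10891_fderiv_comp {n : ℕ} (g : Sp n → ℝ) (hg : ContDiff ℝ (⊤ : ℕ∞) g) (x : E n) :
    HasFDerivAt (fun x => g ((LL n).symm x))
      ((fderiv ℝ g ((LL n).symm x)).comp ((LL n).symm : E n →L[ℝ] Sp n)) x := by
  have h1 : HasFDerivAt g (fderiv ℝ g ((LL n).symm x)) ((LL n).symm x) :=
    (hg.differentiable (by simp)).differentiableAt.hasFDerivAt
  exact h1.comp x ((LL n).symm : E n →L[ℝ] Sp n).hasFDerivAt

theorem j10891_fderiv_apply {n : ℕ} (g : Sp n → ℝ) (hg : ContDiff ℝ (⊤ : ℕ∞) g) (y w : Sp n) :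
    fderiv ℝ g y w = inner ℝ (gradient g y) w := by
  have h := (((hg.differentiable (by simp)).differentiableAt (x := y))).hasGradientAt
  exact h.fderiv_apply

/-- the pointwise estimate -/
theorem j10891_pt {n : ℕ} (hn : 0 < n) (g : Fin n → Sp n → ℝ)
    (hg : ∀ i, ContDiff ℝ (⊤ : ℕ∞) (g i)) (T : Sp n →L[ℝ] Sp n) (x : E n) :
    ‖fderiv ℝ (fun x => fun i => g i ((LL n).symm x)) x -
      ((LL n : Sp n →L[ℝ] E n).comp T).comp ((LL n).symm : E n →L[ℝ] Sp n)‖ ^ n ≤
    ‖((LL n).symm : E n →L[ℝ] Sp n)‖ ^ n * ∑ i, ‖gradient (g i) ((LL n).symm x) -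
          ContinuousLinearMap.adjoint T (EuclideanSpace.single i (1 : ℝ))‖ ^ n := by
  have hne : Nonempty (Fin n) := ⟨⟨0, hn⟩⟩
  obtain ⟨i₀, hi₀⟩ := Finite.exists_max (fun i => ‖gradient (g i) ((LL n).symm x) -
          ContinuousLinearMap.adjoint T (EuclideanSpace.single i (1 : ℝ))‖)
  have hF : HasFDerivAt (fun x => fun i => g i ((LL n).symm x))
      (ContinuousLinearMap.pi fun i => ((fderiv ℝ (g i) ((LL n).symm x)).comp
        ((LL n).symm : E n →L[ℝ] Sp n))) x :=
    hasFDerivAt_pi.2 fun i => j10891_fderiv_comp (g i) (hg i) x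
  rw [hF.fderiv]
  have hbd : ‖(ContinuousLinearMap.pi fun i => ((fderiv ℝ (g i) ((LL n).symm x)).comp
        ((LL n).symm : E n →L[ℝ] Sp n))) -
      ((LL n : Sp n →L[ℝ] E n).comp T).comp ((LL n).symm : E n →L[ℝ] Sp n)‖ ≤
      ‖((LL n).symm : E n →L[ℝ] Sp n)‖ * ‖gradient (g i₀) ((LL n).symm x) -
          ContinuousLinearMap.adjoint T (EuclideanSpace.single i₀ (1 : ℝ))‖ := by
    apply ContinuousLinearMap.opNorm_le_bound _ (by positivity)
    intro v
    rw [pi_norm_le_iff_of_nonneg (by positivity)]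
    intro i
    have e1 : ((ContinuousLinearMap.pi fun i => ((fderiv ℝ (g i) ((LL n).symm x)).comp
        ((LL n).symm : E n →L[ℝ] Sp n))) -
      ((LL n : Sp n →L[ℝ] E n).comp T).comp ((LL n).symm : E n →L[ℝ] Sp n)) v i =
        inner ℝ (gradient (g i) ((LL n).symm x) -
          ContinuousLinearMap.adjoint T (EuclideanSpace.single i (1 : ℝ))) ((LL n).symm v) := by
      rw [inner_sub_left, ContinuousLinearMap.adjoint_inner_left, ← j10891_fderiv_apply (g i) (hg i)]
      simp [EuclideanSpace.inner_single_left]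
    rw [e1]
    calc ‖inner ℝ (gradient (g i) ((LL n).symm x) -
          ContinuousLinearMap.adjoint T (EuclideanSpace.single i (1 : ℝ))) ((LL n).symm v)‖
        ≤ ‖gradient (g i) ((LL n).symm x) -
          ContinuousLinearMap.adjoint T (EuclideanSpace.single i (1 : ℝ))‖ * ‖(LL n).symm v‖ :=
          norm_inner_le_norm _ _
      _ ≤ ‖gradient (g i₀) ((LL n).symm x) -
          ContinuousLinearMap.adjoint T (EuclideanSpace.single i₀ (1 : ℝ))‖ *
            (‖((LL n).symm : E n →L[ℝ] Sp n)‖ * ‖v‖) := by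
          apply mul_le_mul (hi₀ i) _ (norm_nonneg _) (norm_nonneg _)
          exact ((LL n).symm : E n →L[ℝ] Sp n).le_opNorm v
      _ = _ := by ring
  calc _ ≤ (‖((LL n).symm : E n →L[ℝ] Sp n)‖ * ‖gradient (g i₀) ((LL n).symm x) -
          ContinuousLinearMap.adjoint T (EuclideanSpace.single i₀ (1 : ℝ))‖) ^ n :=
        pow_le_pow_left₀ (norm_nonneg _) hbd n
    _ = ‖((LL n).symm : E n →L[ℝ] Sp n)‖ ^ n * ‖gradient (g i₀) ((LL n).symm x) -
          ContinuousLinearMap.adjoint T (EuclideanSpace.single i₀ (1 : ℝ))‖ ^ n := by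
        rw [mul_pow]
    _ ≤ _ := by
        apply mul_le_mul_of_nonneg_left _ (by positivity)
        exact Finset.single_le_sum (f := fun i => ‖gradient (g i) ((LL n).symm x) -
          ContinuousLinearMap.adjoint T (EuclideanSpace.single i (1 : ℝ))‖ ^ n)
          (fun i _ => by positivity) (Finset.mem_univ i₀)

theorem j10891_mp (n : ℕ) : MeasurePreserving (fun x : E n => (LL n).symm x) volume volume :=
  PiLp.volume_preserving_toLp (Fin n)

theorem j10891_emb (n : ℕ) : MeasurableEmbedding (fun x : E n => (LL n).symm x) :=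
  (LL n).symm.toHomeomorph.measurableEmbedding

/-- measurability -/
theorem j10891_meas {n : ℕ} {G : Set (Sp n)} (hG : IsOpen G) {D : Sp n → (Sp n →L[ℝ] Sp n)}
    (hD : ∀ K ⊆ G, IsCompact K → AEStronglyMeasurable D (volume.restrict K)) :
    AEStronglyMeasurable D (volume.restrict G) := by
  obtain ⟨F, hFc, hFs, hFU, -⟩ := hG.exists_iUnion_isClosed
  have hcov : G = ⋃ p : ℕ × ℕ, (F p.1 ∩ closedBall 0 (p.2 : ℝ)) := by
    apply Set.Subset.antisymm
    · intro x hx
      rw [← hFU] at hx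
      obtain ⟨i, hi⟩ := mem_iUnion.1 hx
      obtain ⟨m, hm⟩ := exists_nat_ge ‖x‖
      exact mem_iUnion.2 ⟨(i, m), hi, by simpa using hm⟩
    · intro x hx
      obtain ⟨p, hp⟩ := mem_iUnion.1 hx
      exact hFs p.1 hp.1
  rw [hcov, aestronglyMeasurable_iUnion_iff]
  intro p
  apply hD
  · exact fun x hx => hFs p.1 hx.1
  · exact (isCompact_closedBall 0 (p.2 : ℝ)).inter_left (hFc p.1)

theorem j10891_meas2 {n : ℕ} {G : Set (Sp n)} (hG : IsOpen G) {D : Sp n → (Sp n →L[ℝ] Sp n)}
    (hD : AEStronglyMeasurable D (volume.restrict G)) :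
    AEStronglyMeasurable (fun x => ((LL n : Sp n →L[ℝ] E n).comp (D ((LL n).symm x))).comp
        ((LL n).symm : E n →L[ℝ] Sp n)) (volume.restrict ((LL n).symm ⁻¹' G)) := by
  have h1 : AEStronglyMeasurable (fun x : E n => D ((LL n).symm x))
      (volume.restrict ((LL n).symm ⁻¹' G)) :=
    hD.comp_measurePreserving ((j10891_mp n).restrict_preimage hG.measurableSet)
  have h2 : Continuous (fun T : Sp n →L[ℝ] Sp n => ((LL n : Sp n →L[ℝ] E n).comp T).comp
        ((LL n).symm : E n →L[ℝ] Sp n)) := by fun_prop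
  exact h2.comp_aestronglyMeasurable h1

/-- the integral estimate -/
theorem j10891_int {n : ℕ} (hn : 0 < n) (g : Fin n → Sp n → ℝ)
    (hg : ∀ i, ContDiff ℝ (⊤ : ℕ∞) (g i)) (D : Sp n → (Sp n →L[ℝ] Sp n)) {K : Set (Sp n)}
    (hD : AEStronglyMeasurable D (volume.restrict K)) (e : ℝ) (he : 0 ≤ e)
    (hi : ∀ i, ∫⁻ x in K, ENNReal.ofReal (‖gradient (g i) x -
          ContinuousLinearMap.adjoint (D x) (EuclideanSpace.single i (1 : ℝ))‖ ^ n) ≤
            ENNReal.ofReal e) :
    ∫⁻ x in ((LL n).symm ⁻¹' K), ENNReal.ofReal (‖fderiv ℝ (fun x => fun i => g i ((LL n).symm x)) x -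
      ((LL n : Sp n →L[ℝ] E n).comp (D ((LL n).symm x))).comp
        ((LL n).symm : E n →L[ℝ] Sp n)‖ ^ n) ≤
      ENNReal.ofReal (‖((LL n).symm : E n →L[ℝ] Sp n)‖ ^ n * (n * e)) := by
  have hmeas : ∀ i, AEMeasurable (fun y : Sp n => ENNReal.ofReal (‖gradient (g i) y -
          ContinuousLinearMap.adjoint (D y) (EuclideanSpace.single i (1 : ℝ))‖ ^ n))
          (volume.restrict K) := by
    intro i
    have c1 : Continuous (fun y => gradient (g i) y) := by
      unfold gradient
      exact (LinearIsometryEquiv.continuous _).comp ((hg i).continuous_fderiv (by simp))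
    have c2 : AEStronglyMeasurable (fun y => ContinuousLinearMap.adjoint (D y)
        (EuclideanSpace.single i (1 : ℝ))) (volume.restrict K) := by
      have : Continuous (fun T : Sp n →L[ℝ] Sp n => ContinuousLinearMap.adjoint T
        (EuclideanSpace.single i (1 : ℝ))) := by
        have h1 : Continuous (fun T : Sp n →L[ℝ] Sp n => ContinuousLinearMap.adjoint T) :=
          (ContinuousLinearMap.adjoint (𝕜 := ℝ) (E := Sp n) (F := Sp n)).continuous
        exact h1.clm_apply continuous_const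
      exact this.comp_aestronglyMeasurable hD
    have c3 := (c1.aestronglyMeasurable.sub c2).norm.aemeasurable.pow_const n
    exact c3.ennreal_ofReal
  calc _ ≤ ∫⁻ x in ((LL n).symm ⁻¹' K), (fun y : Sp n =>
        ENNReal.ofReal (‖((LL n).symm : E n →L[ℝ] Sp n)‖ ^ n) *
        ∑ i, ENNReal.ofReal (‖gradient (g i) y -
          ContinuousLinearMap.adjoint (D y) (EuclideanSpace.single i (1 : ℝ))‖ ^ n)) ((LL n).symm x) := by
        apply lintegral_mono
        intro x
        dsimp only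
        rw [← ENNReal.ofReal_sum_of_nonneg (fun i _ => by positivity),
          ← ENNReal.ofReal_mul (by positivity)]
        exact ENNReal.ofReal_le_ofReal (j10891_pt hn g hg (D ((LL n).symm x)) x)
    _ = ∫⁻ y in K, ENNReal.ofReal (‖((LL n).symm : E n →L[ℝ] Sp n)‖ ^ n) *
        ∑ i, ENNReal.ofReal (‖gradient (g i) y -
          ContinuousLinearMap.adjoint (D y) (EuclideanSpace.single i (1 : ℝ))‖ ^ n) :=
        (j10891_mp n).setLIntegral_comp_preimage_emb (j10891_emb n) (fun y : Sp n =>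
        ENNReal.ofReal (‖((LL n).symm : E n →L[ℝ] Sp n)‖ ^ n) *
        ∑ i, ENNReal.ofReal (‖gradient (g i) y -
          ContinuousLinearMap.adjoint (D y) (EuclideanSpace.single i (1 : ℝ))‖ ^ n)) K
    _ = ENNReal.ofReal (‖((LL n).symm : E n →L[ℝ] Sp n)‖ ^ n) *
        ∑ i, ∫⁻ y in K, ENNReal.ofReal (‖gradient (g i) y -
          ContinuousLinearMap.adjoint (D y) (EuclideanSpace.single i (1 : ℝ))‖ ^ n) := by
        rw [lintegral_const_mul' _ _ ENNReal.ofReal_ne_top]
        congr 1
        exact lintegral_finsetSum' _ (fun i _ => hmeas i)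
    _ ≤ ENNReal.ofReal (‖((LL n).symm : E n →L[ℝ] Sp n)‖ ^ n) *
        ∑ i : Fin n, ENNReal.ofReal e := by
        gcongr with i _
        exact hi i
    _ = _ := by
        rw [Finset.sum_const, Finset.card_univ, Fintype.card_fin, nsmul_eq_mul,
          ENNReal.ofReal_mul (by positivity), ENNReal.ofReal_mul (by positivity),
          ENNReal.ofReal_natCast]

/- TARGET -/
/-- W2: transport of the approximation property from the Euclidean norm, given for each component -/
theorem wa_transport (hn : 0 < n) {G : Set (Sp n)} (hG : IsOpen G) {f : Sp n → Sp n}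
    (hf : ContinuousOn f G) {D : Sp n → (Sp n →L[ℝ] Sp n)}
    (hD : ∀ K ⊆ G, IsCompact K → AEStronglyMeasurable D (volume.restrict K))
    (happ : ∀ (i : Fin n) (K : Set (Sp n)), IsCompact K → K ⊆ G → ∀ ε : ℝ, 0 < ε →
      ∃ g : Sp n → ℝ, ContDiff ℝ (⊤ : ℕ∞) g ∧ (∀ x ∈ K, |g x - f x i| ≤ ε) ∧
        ∫⁻ x in K, ENNReal.ofReal (‖gradient g x -
          ContinuousLinearMap.adjoint (D x) (EuclideanSpace.single i (1 : ℝ))‖ ^ n) ≤
            ENNReal.ofReal ε) :
    WA ((LL n).symm ⁻¹' G) (fun x => LL n (f ((LL n).symm x)))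
      (fun x => ((LL n : Sp n →L[ℝ] E n).comp (D ((LL n).symm x))).comp
        ((LL n).symm : E n →L[ℝ] Sp n)) := by
  refine ⟨j10891_meas2 hG (j10891_meas hG hD), ?_, ?_⟩
  · exact (LL n).continuous.comp_continuousOn
      (hf.comp (LL n).symm.continuous.continuousOn (fun x hx => hx))
  · intro K hK hKG ε hε
    have hK'c : IsCompact ((LL n).symm '' K) := hK.image (LL n).symm.continuous
    have hK'G : (LL n).symm '' K ⊆ G := by
      rintro _ ⟨x, hx, rfl⟩
      exact hKG hx
    have hpre : (LL n).symm ⁻¹' ((LL n).symm '' K) = K :=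
      Set.preimage_image_eq _ (LL n).symm.injective
    have hn' : (1 : ℝ) ≤ n := by exact_mod_cast hn
    obtain ⟨C, hC⟩ : ∃ C : ℝ, C = ‖((LL n).symm : E n →L[ℝ] Sp n)‖ := ⟨_, rfl⟩
    have hC0 : 0 ≤ C := hC ▸ norm_nonneg _
    obtain ⟨e, he⟩ : ∃ e : ℝ, e = ε / (C ^ n * n + 1) := ⟨_, rfl⟩
    have hden : 0 < C ^ n * n + 1 := by positivity
    have he0 : 0 < e := by rw [he]; positivity
    have heε : e ≤ ε := by
      rw [he, div_le_iff₀ hden]
      have : 0 ≤ C ^ n * n := by positivity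
      nlinarith
    have heb : C ^ n * (n * e) ≤ ε := by
      have h1 : e * (C ^ n * n + 1) = ε := by
        rw [he]; field_simp
      nlinarith
    choose g hg1 hg2 hg3 using fun i => happ i _ hK'c hK'G e he0
    refine ⟨fun x i => g i ((LL n).symm x), ?_, ?_, ?_⟩
    · exact contDiff_pi.2 fun i => (hg1 i).comp (LL n).symm.contDiff
    · intro x hx
      rw [pi_norm_le_iff_of_nonneg hε.le]
      intro i
      have h := hg2 i ((LL n).symm x) (mem_image_of_mem _ hx)
      rw [Real.norm_eq_abs]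
      exact le_trans h heε
    · have h := j10891_int hn g hg1 D (hD _ hK'G hK'c) e he0.le hg3
      rw [hpre, ← hC] at h
      exact le_trans h (ENNReal.ofReal_le_ofReal heb)


end Pool.Agent.Helper171.NHMT
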