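import Pool.Agent.Helper80.NHM.Base
import Pool.Agent.Helper171.NHM.OriGlob
import Pool.Agent.Helper171.NHM.Moll
import Pool.Agent.Helper171.NHM.Trans

set_option autoImplicit false
open MeasureTheory Filter Topology Set Metric
open scoped ENNReal NNReal RealInnerProductSpace ContDiff

namespace Pool.Agent.Helper171.NHME

open Pool.Agent.Helper80.NHM Pool.Agent.Helper171.Ori Pool.Agent.Helper171.NHMT

variable {n : ℕ}

theorem LL_mp (n : ℕ) : MeasurePreserving (fun x : Sp n => LL n x) volume volume :=
  EuclideanSpace.volume_preserving_symm_measurableEquiv_toLp (Fin n)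

theorem LLs_mp (n : ℕ) : MeasurePreserving (fun x : E n => (LL n).symm x) volume volume :=
  (EuclideanSpace.volume_preserving_symm_measurableEquiv_toLp (Fin n)).symm

/-- reconstruction of an operator from the adjoint images of the basis vectors -/
theorem op_eq (T : Sp n →L[ℝ] Sp n) : T = ∑ i : Fin n,
    (innerSL ℝ (ContinuousLinearMap.adjoint T (EuclideanSpace.single i (1 : ℝ)))).smulRight
      (EuclideanSpace.single i (1 : ℝ)) := by
  ext v j
  simp only [ContinuousLinearMap.sum_apply, ContinuousLinearMap.smulRight_apply, innerSL_apply_apply,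
    ContinuousLinearMap.adjoint_inner_left, EuclideanSpace.inner_single_left]
  simp [Finset.sum_apply, Pi.single_apply]

theorem meas_of_adj {μ : Measure (Sp n)} {D : Sp n → (Sp n →L[ℝ] Sp n)}
    (h : ∀ i : Fin n, AEStronglyMeasurable
      (fun x => ContinuousLinearMap.adjoint (D x) (EuclideanSpace.single i (1 : ℝ))) μ) :
    AEStronglyMeasurable D μ := by
  have h1 : D = fun x => ∑ i : Fin n,
      (innerSL ℝ (ContinuousLinearMap.adjoint (D x) (EuclideanSpace.single i (1 : ℝ)))).smulRight
        (EuclideanSpace.single i (1 : ℝ)) := by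
    funext x
    exact op_eq (D x)
  rw [h1]
  refine Finset.aestronglyMeasurable_fun_sum _ fun i _ => ?_
  have hc : Continuous (fun v : Sp n => (innerSL ℝ v).smulRight
      (EuclideanSpace.single i (1 : ℝ) : Sp n)) := by
    have : Continuous (fun T : Sp n →L[ℝ] ℝ => T.smulRight
      (EuclideanSpace.single i (1 : ℝ) : Sp n)) :=
        (ContinuousLinearMap.smulRightL ℝ (Sp n) (Sp n)).flip
          (EuclideanSpace.single i (1 : ℝ)) |>.continuous
    exact this.comp (innerSL ℝ).continuous
  exact hc.comp_aestronglyMeasurable (h i)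

theorem det_conj (T : Sp n →L[ℝ] Sp n) :
    (((LL n : Sp n →L[ℝ] E n).comp T).comp ((LL n).symm : E n →L[ℝ] Sp n)).det = T.det := by
  have := LinearMap.det_conj (T : Sp n →ₗ[ℝ] Sp n) (LL n).toLinearEquiv
  exact this

theorem partE (hn : 0 < n) : PartE n := by
  intro G f D K hG hGc hf ho hfin hD hK
  set L := LL n with hL
  set G' : Set (E n) := L.symm ⁻¹' G with hG'
  set f' : E n → E n := fun x => L (f (L.symm x)) with hf'
  set D' : E n → E n →L[ℝ] E n := fun x => ((L : Sp n →L[ℝ] E n).comp (D (L.symm x))).comp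
        (L.symm : E n →L[ℝ] Sp n) with hD'
  have hmeas : ∀ K ⊆ G, IsCompact K → AEStronglyMeasurable D (volume.restrict K) :=
    fun Q hQG hQ => meas_of_adj fun i => ((hD i).grad_loc Q hQG hQ).1
  have hWA : WA G' f' D' := by
    refine wa_transport hn hG hf hmeas fun i Q hQ hQG ε hε => ?_
    exact Pool.Agent.Helper171.NHMW.approx_scalar hn hG
      ((EuclideanSpace.proj (𝕜 := ℝ) i).continuous.comp_continuousOn hf) (hD i) hQ hQG hε
  have hG'o : IsOpen G' := hG.preimage L.symm.continuous
  have himg : ∀ S : Set (Sp n), L '' S = L.symm ⁻¹' S := fun S => L.image_eq_preimage_symm S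
  have hG'c : IsPreconnected G' := by
    rw [hG', ← himg]
    exact hGc.image _ L.continuous.continuousOn
  have hoM : OpM f' G' := by
    intro O hO hOG
    have h1 : f' '' O = L.symm ⁻¹' (f '' (L.symm '' O)) := by
      rw [← himg]
      simp only [hf', image_image]
    rw [h1]
    refine (ho _ ?_ ?_).preimage L.symm.continuous
    · rintro _ ⟨z, hz, rfl⟩
      exact hOG hz
    · have : L.symm '' O = L ⁻¹' O := L.symm.image_eq_preimage_symm O
      rw [this]
      exact hO.preimage L.continuous
  have hdet : ∀ x, (D' x).det = (D (L.symm x)).det := fun x => det_conj (D (L.symm x))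
  -- transport of a.e. statements
  have hto : ∀ p : Sp n → Prop, (∀ᵐ x ∂(volume.restrict G), p x) →
      ∀ᵐ x ∂(volume.restrict G'), p (L.symm x) := by
    intro p hp
    have h1 : MeasurePreserving (fun x : E n => L.symm x) (volume.restrict G')
        (volume.restrict G) :=
      (LLs_mp n).restrict_preimage hG.measurableSet
    exact h1.quasiMeasurePreserving.ae hp
  have hback : ∀ p : Sp n → Prop, (∀ᵐ x ∂(volume.restrict G'), p (L.symm x)) →
      ∀ᵐ x ∂(volume.restrict G), p x := by
    intro p hp
    have h1 : MeasurePreserving (fun x : Sp n => L x) (volume.restrict (L ⁻¹' G'))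
        (volume.restrict G') :=
      (LL_mp n).restrict_preimage hG'o.measurableSet
    have h2 : L ⁻¹' G' = G := by
      ext z
      simp [hG']
    rw [h2] at h1
    have h3 := h1.quasiMeasurePreserving.ae hp
    filter_upwards [h3] with x hx
    simpa using hx
  have hK' : ∀ᵐ x ∂(volume.restrict G'), ‖D' x‖ ^ n ≤
      ((‖(L : Sp n →L[ℝ] E n)‖ * ‖(L.symm : E n →L[ℝ] Sp n)‖) ^ n * K) * |(D' x).det| := by
    filter_upwards [hto _ hK] with x hx
    rw [hdet x]
    have h1 : ‖D' x‖ ≤ (‖(L : Sp n →L[ℝ] E n)‖ * ‖(L.symm : E n →L[ℝ] Sp n)‖) * ‖D (L.symm x)‖ := by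
      refine (ContinuousLinearMap.opNorm_comp_le _ _).trans ?_
      refine (mul_le_mul_of_nonneg_right (ContinuousLinearMap.opNorm_comp_le _ _)
        (norm_nonneg _)).trans (le_of_eq (by ring))
    calc ‖D' x‖ ^ n ≤ ((‖(L : Sp n →L[ℝ] E n)‖ * ‖(L.symm : E n →L[ℝ] Sp n)‖) *
          ‖D (L.symm x)‖) ^ n := pow_le_pow_left₀ (norm_nonneg _) h1 n
      _ = (‖(L : Sp n →L[ℝ] E n)‖ * ‖(L.symm : E n →L[ℝ] Sp n)‖) ^ n * ‖D (L.symm x)‖ ^ n := by
          rw [mul_pow]
      _ ≤ (‖(L : Sp n →L[ℝ] E n)‖ * ‖(L.symm : E n →L[ℝ] Sp n)‖) ^ n *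
          (K * |(D (L.symm x)).det|) := mul_le_mul_of_nonneg_left hx (by positivity)
      _ = _ := by ring
  have hloc : ∀ x ∈ G', ∃ (U B : Set (E n)) (N : ℕ), IsOpen U ∧ x ∈ U ∧ U ⊆ G' ∧ IsOpen B ∧
      IsPreconnected B ∧ Prp f' U B ∧ ∀ y, (U ∩ f' ⁻¹' {y}).encard ≤ N := by
    intro x hx
    obtain ⟨U, s, N, hxU, hU, hN⟩ := hfin (L.symm x) hx
    refine ⟨L.symm ⁻¹' U, L.symm ⁻¹' (ball (f (L.symm x)) s), N,
      hU.isOpen.preimage L.symm.continuous, hxU, ?_, isOpen_ball.preimage L.symm.continuous,
      ?_, ⟨?_, ?_⟩, ?_⟩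
    · exact preimage_mono (subset_closure.trans hU.sub)
    · rw [← himg]
      exact (convex_ball _ _).isPreconnected.image _ L.continuous.continuousOn
    · intro z hz
      simp only [hf', mem_preimage, ContinuousLinearEquiv.symm_apply_apply]
      exact hU.maps _ hz
    · intro Q hQ hQB
      have h1 : L.symm ⁻¹' U ∩ f' ⁻¹' Q = L '' (closure U ∩ f ⁻¹' (L.symm '' Q)) := by
        rw [himg]
        ext z
        simp only [mem_inter_iff, mem_preimage, hf', mem_image]
        constructor
        · rintro ⟨h1, h2⟩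
          exact ⟨subset_closure h1, _, h2, by simp⟩
        · rintro ⟨h1, q, hq, h2⟩
          have h3 : L (f (L.symm z)) = q := by rw [← h2]; simp
          refine ⟨?_, by rw [h3]; exact hq⟩
          by_contra hzU
          have h4 : L.symm z ∈ frontier U := ⟨h1, by rwa [hU.isOpen.interior_eq]⟩
          exact hU.bdry _ h4 (by rw [← h2]; exact hQB hq)
      rw [h1]
      refine IsCompact.image ?_ L.continuous
      have h2 : IsClosed (L.symm '' Q) := (hQ.image L.symm.continuous).isClosed
      have h3 : ContinuousOn f (closure U) := hf.mono hU.sub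
      exact hU.compact.of_isClosed_subset (h3.preimage_isClosed_of_isClosed isClosed_closure h2)
        inter_subset_left
    · intro y
      have h1 : L.symm ⁻¹' U ∩ f' ⁻¹' {y} = L '' (U ∩ f ⁻¹' {L.symm y}) := by
        rw [himg]
        ext z
        simp only [mem_inter_iff, mem_preimage, hf', mem_singleton_iff]
        constructor
        · rintro ⟨h1, h2⟩
          exact ⟨h1, by rw [← h2]; simp⟩
        · rintro ⟨h1, h2⟩
          exact ⟨h1, by rw [h2]; simp⟩
      rw [h1, (L.injective).encard_image]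
      exact hN _
  rcases orient_global hn hG'o hG'c hWA hoM hK' hloc with h | h
  · left
    refine hback _ ?_
    filter_upwards [h] with x hx
    rw [← hdet x]
    exact hx
  · right
    refine hback _ ?_
    filter_upwards [h] with x hx
    rw [← hdet x]
    exact hx

end Pool.Agent.Helper171.NHME
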